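import Pool.Agent.Lib.MP_7baa7a_ag.Defs

/-!
# Laurent series: derivations, poles, ramification
-/

set_option autoImplicit false

namespace Pool.Agent.M7

open Matrix

section Der

variable {F : Type} [CommRing F]

theorem IsDer.one {D : F →+ F} (h : IsDer D) : D 1 = 0 := by
  have h1 := h 1 1
  rw [mul_one, one_mul, mul_one] at h1
  exact left_eq_add.mp h1

end Der

variable {K : Type} [Field K]

theorem lD_isDer {D : K →+ K} (h : IsDer D) : IsDer (lD D) := by
  intro f g
  ext m
  rw [HahnSeries.coeff_add, lD_coeff]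
  rw [HahnSeries.coeff_mul_left' (x := lD D f) f.isPWO_support
    (fun i hi => by
      simp only [HahnSeries.mem_support, lD_coeff] at hi ⊢
      exact fun h => hi (by rw [h, map_zero]))]
  rw [HahnSeries.coeff_mul_right' (y := lD D g) g.isPWO_support
    (fun i hi => by
      simp only [HahnSeries.mem_support, lD_coeff] at hi ⊢
      exact fun h => hi (by rw [h, map_zero]))]
  rw [HahnSeries.coeff_mul, map_sum, ← Finset.sum_add_distrib]
  refine Finset.sum_congr rfl fun ij _ => ?_
  rw [h, lD_coeff, lD_coeff]

theorem lD_com {ι : Type} {D : ι → K →+ K} (h : Com fun i => D i) : Com fun i => lD (D i) := by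
  intro i j f
  ext m
  show (lD (D i) (lD (D j) f)).coeff m = (lD (D j) (lD (D i) f)).coeff m
  rw [lD_coeff, lD_coeff, lD_coeff, lD_coeff]
  exact h i j _

theorem noPole_zero : NoPole (0 : LaurentSeries K) := fun m _ => HahnSeries.coeff_zero

theorem noPole_add {f g : LaurentSeries K} (hf : NoPole f) (hg : NoPole g) : NoPole (f + g) := by
  intro m hm
  rw [HahnSeries.coeff_add, hf m hm, hg m hm, add_zero]

theorem noPole_neg {f : LaurentSeries K} (hf : NoPole f) : NoPole (-f) := by
  intro m hm
  rw [HahnSeries.coeff_neg, hf m hm, neg_zero]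

theorem noPole_sub {f g : LaurentSeries K} (hf : NoPole f) (hg : NoPole g) : NoPole (f - g) := by
  rw [sub_eq_add_neg]
  exact noPole_add hf (noPole_neg hg)

theorem noPole_sum {ι : Type} (s : Finset ι) {f : ι → LaurentSeries K} (hf : ∀ i ∈ s, NoPole (f i)) :
    NoPole (∑ i ∈ s, f i) := by
  classical
  induction s using Finset.induction_on with
  | empty => simpa using noPole_zero
  | insert a s ha ih =>
    rw [Finset.sum_insert ha]
    exact noPole_add (hf a (Finset.mem_insert_self a s))
      (ih fun i hi => hf i (Finset.mem_insert_of_mem hi))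

theorem noPole_single {m : ℤ} (hm : 0 ≤ m) (a : K) : NoPole (HahnSeries.single m a : LaurentSeries K) := by
  intro j hj
  rw [HahnSeries.coeff_single_of_ne (by omega)]

theorem noPole_one : NoPole (1 : LaurentSeries K) := noPole_single le_rfl 1

theorem noPole_lD (D : K →+ K) {f : LaurentSeries K} (hf : NoPole f) : NoPole (lD D f) := by
  intro m hm
  rw [lD_coeff, hf m hm, map_zero]

/-- the lowest coefficient of a product -/
theorem coeff_mul_low {f g : LaurentSeries K} {a b : ℤ} (hf : ∀ j < a, f.coeff j = 0)
    (hg : ∀ j < b, g.coeff j = 0) : (f * g).coeff (a + b) = f.coeff a * g.coeff b := by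
  rw [HahnSeries.coeff_mul]
  by_cases h : f.coeff a = 0 ∨ g.coeff b = 0
  · rw [Finset.sum_eq_zero]
    · rcases h with h | h
      · rw [h, zero_mul]
      · rw [h, mul_zero]
    · rintro ⟨i, j⟩ hij
      rw [Finset.mem_addAntidiagonal] at hij
      obtain ⟨h1, h2, h3⟩ := hij
      simp only [HahnSeries.mem_support] at h1 h2 h3
      by_contra hne
      have hi : a ≤ i := by
        by_contra hlt
        exact h1 (hf i (by omega))
      have hj : b ≤ j := by
        by_contra hlt
        exact h2 (hg j (by omega))
      have e1 : i = a := by omega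
      have e2 : j = b := by omega
      subst e1
      subst e2
      rcases h with h | h
      · exact h1 h
      · exact h2 h
  · push Not at h
    rw [Finset.sum_eq_single (a, b)]
    · rintro ⟨i, j⟩ hij hne
      rw [Finset.mem_addAntidiagonal] at hij
      obtain ⟨h1, h2, h3⟩ := hij
      simp only [HahnSeries.mem_support] at h1 h2 h3
      exfalso
      apply hne
      have hi : a ≤ i := by
        by_contra hlt
        exact h1 (hf i (by omega))
      have hj : b ≤ j := by
        by_contra hlt
        exact h2 (hg j (by omega))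
      have e1 : i = a := by omega
      have e2 : j = b := by omega
      rw [e1, e2]
    · intro hn
      exfalso
      apply hn
      rw [Finset.mem_addAntidiagonal]
      exact ⟨h.1, h.2, rfl⟩

theorem coeff_mul_lt {f g : LaurentSeries K} {a b : ℤ} (hf : ∀ j < a, f.coeff j = 0)
    (hg : ∀ j < b, g.coeff j = 0) {m : ℤ} (hm : m < a + b) : (f * g).coeff m = 0 := by
  rw [HahnSeries.coeff_mul]
  apply Finset.sum_eq_zero
  rintro ⟨i, j⟩ hij
  rw [Finset.mem_addAntidiagonal] at hij
  obtain ⟨h1, h2, h3⟩ := hij
  simp only [HahnSeries.mem_support] at h1 h2 h3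
  exfalso
  have hi : a ≤ i := by
    by_contra hlt
    exact h1 (hf i (by omega))
  have hj : b ≤ j := by
    by_contra hlt
    exact h2 (hg j (by omega))
  omega

theorem noPole_mul {f g : LaurentSeries K} (hf : NoPole f) (hg : NoPole g) : NoPole (f * g) :=
  fun m hm => coeff_mul_lt hf hg (by simpa using hm)

theorem coeff_zero_mul {f g : LaurentSeries K} (hf : NoPole f) (hg : NoPole g) :
    (f * g).coeff 0 = f.coeff 0 * g.coeff 0 := by
  have h := coeff_mul_low hf hg
  rwa [add_zero] at h

theorem single_mul_coeff (a : ℤ) (f : LaurentSeries K) (m : ℤ) :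
    ((HahnSeries.single a (1 : K) : LaurentSeries K) * f).coeff m = f.coeff (m - a) := by
  rw [HahnSeries.coeff_single_mul, one_mul]

theorem single_mul_single (a b : ℤ) : (HahnSeries.single a (1 : K) : LaurentSeries K) *
    HahnSeries.single b 1 = HahnSeries.single (a + b) 1 := by
  rw [HahnSeries.single_mul_single, one_mul]

theorem lD_single {D : K →+ K} (h : IsDer D) (a : ℤ) :
    lD D (HahnSeries.single a (1 : K) : LaurentSeries K) = 0 := by
  ext m
  rw [lD_coeff, HahnSeries.coeff_zero]
  by_cases hm : m = a
  · rw [hm, HahnSeries.coeff_single_same, h.one]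
  · rw [HahnSeries.coeff_single_of_ne hm, map_zero]

theorem lD_single_mul {D : K →+ K} (h : IsDer D) (a : ℤ) (f : LaurentSeries K) :
    lD D ((HahnSeries.single a (1 : K) : LaurentSeries K) * f) = HahnSeries.single a 1 * lD D f := by
  rw [lD_isDer h, lD_single h, zero_mul, zero_add]

theorem exists_noPole (f : LaurentSeries K) : ∃ c : ℕ, ∀ c' : ℕ, c ≤ c' →
    NoPole ((HahnSeries.single (c' : ℤ) (1 : K) : LaurentSeries K) * f) := by
  refine ⟨(-f.order).toNat, fun c' hc m hm => ?_⟩
  rw [single_mul_coeff]
  apply HahnSeries.coeff_eq_zero_of_lt_order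
  omega

theorem exists_noPole_fin {α : Type} [Finite α] (f : α → LaurentSeries K) : ∃ c : ℕ, ∀ c' : ℕ, c ≤ c' →
    ∀ a, NoPole ((HahnSeries.single (c' : ℤ) (1 : K) : LaurentSeries K) * f a) := by
  classical
  haveI := Fintype.ofFinite α
  choose c hc using fun a => exists_noPole (f a)
  exact ⟨Finset.univ.sup c, fun c' h a => hc a c' (le_trans (Finset.le_sup (Finset.mem_univ a)) h)⟩

section Ram

variable {e : ℕ} (he : 0 < e)

theorem ram_coeff (f : LaurentSeries K) (m : ℤ) : (ram e he f).coeff (e * m) = f.coeff m := by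
  have h := HahnSeries.embDomain_coeff (f := ⟨⟨AddMonoidHom.mulLeft (e : ℤ),
    (fun a b h => by
      have he' : (e : ℤ) ≠ 0 := by exact_mod_cast he.ne'
      exact mul_left_cancel₀ he' h)⟩,
    (fun {a b} => by
      have he' : (0 : ℤ) < e := by exact_mod_cast he
      exact mul_le_mul_iff_right₀ he')⟩) (x := f) (a := m)
  exact h

theorem ram_coeff_not {f : LaurentSeries K} {m : ℤ} (hm : ¬ (e : ℤ) ∣ m) : (ram e he f).coeff m = 0 := by
  apply HahnSeries.embDomain_of_notMem_range
  rintro ⟨a, rfl⟩
  exact hm ⟨a, rfl⟩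

theorem ram_coeff_zero (f : LaurentSeries K) : (ram e he f).coeff 0 = f.coeff 0 := by
  have h := ram_coeff he f 0
  rwa [mul_zero] at h

theorem ram_noPole {f : LaurentSeries K} (hf : NoPole f) : NoPole (ram e he f) := by
  intro m hm
  by_cases h : (e : ℤ) ∣ m
  · obtain ⟨a, rfl⟩ := h
    rw [ram_coeff]
    apply hf
    have he' : (0 : ℤ) < e := by exact_mod_cast he
    by_contra h
    push Not at h
    exact absurd hm (not_lt.2 (mul_nonneg he'.le h))
  · exact ram_coeff_not he h

theorem ram_lD (D : K →+ K) (f : LaurentSeries K) : ram e he (lD D f) = lD D (ram e he f) := by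
  ext m
  rw [lD_coeff]
  by_cases h : (e : ℤ) ∣ m
  · obtain ⟨a, rfl⟩ := h
    rw [ram_coeff, ram_coeff, lD_coeff]
  · rw [ram_coeff_not he h, ram_coeff_not he h, map_zero]

end Ram

end Pool.Agent.M7
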