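import Pool.Agent.Lib.MP_7baa7a_ag.Spec2

/-!
# Families of flat connections: descent of boundedness
-/

set_option autoImplicit false
set_option linter.unusedSectionVars false

noncomputable section

open Matrix

namespace Pool.Agent.M7

namespace GDscAux

open GLatAux

variable {K L n : Type} [Field K] [Field L] [Algebra K L] [Fintype n] [DecidableEq n]

/-- a common lattice gives a gauge (last part of the proof of `tLat`) -/
theorem bdd_of_mod {d : ℕ} (D : Fin d → K →+ K) (A : Fin d → Matrix n n (LaurentSeries K))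
    (M : Submodule (PowerSeries K) (n → LaurentSeries K)) (c : ℕ) (h0 : M0 K n 0 ≤ M) (hc : M ≤ M0 K n c)
    (hst : ∀ i, ∀ v ∈ M, nab (D i) (A i) v ∈ M) : Bdd D A := by
  have hL : M.IsLattice (LaurentSeries K) := lattice c M hc h0
  have : Module.Free (PowerSeries K) M := Submodule.IsLattice.free (LaurentSeries K) M
  have hrank : Module.finrank (PowerSeries K) M = Fintype.card n :=
    Submodule.IsLattice.finrank_of_pi (LaurentSeries K) M
  have hcard : Fintype.card (Fin (Module.finrank (PowerSeries K) M)) = Fintype.card n := by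
    rw [Fintype.card_fin, hrank]
  let b : Module.Basis n (PowerSeries K) M :=
    (Module.finBasis (PowerSeries K) M).reindex (Fintype.equivOfCardEq hcard)
  let B : Module.Basis n (LaurentSeries K) (n → LaurentSeries K) := b.extendOfIsLattice (LaurentSeries K)
  have hB : ∀ k, B k = (b k).val := fun k => Module.Basis.extendOfIsLattice_apply (LaurentSeries K) b k
  let G : Matrix n n (LaurentSeries K) := Matrix.of fun a k => B k a
  have hG : G = (Pi.basisFun (LaurentSeries K) n).toMatrix B := by
    ext a k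
    rw [Module.Basis.toMatrix_apply, Pi.basisFun_repr]
    rfl
  have hG1 : G * B.toMatrix (Pi.basisFun (LaurentSeries K) n) = 1 := by
    rw [hG, Module.Basis.toMatrix_mul_toMatrix_flip]
  have hG2 : B.toMatrix (Pi.basisFun (LaurentSeries K) n) * G = 1 := by
    rw [hG, Module.Basis.toMatrix_mul_toMatrix_flip]
  let g : GL n (LaurentSeries K) := ⟨G, B.toMatrix (Pi.basisFun (LaurentSeries K) n), hG1, hG2⟩
  refine ⟨g, fun i => ?_⟩
  have hf : ∀ l : n, ∃ f : n → PowerSeries K, nab (D i) (A i) (B l) =
      ∑ k, algebraMap (PowerSeries K) (LaurentSeries K) (f k) • B k := by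
    intro l
    have hm : nab (D i) (A i) (B l) ∈ M := hst i _ (by rw [hB]; exact (b l).2)
    refine ⟨fun k => b.repr ⟨_, hm⟩ k, ?_⟩
    have h1 := congrArg Subtype.val (b.sum_repr ⟨_, hm⟩)
    simp only [Submodule.coe_sum, Submodule.coe_smul] at h1
    refine h1.symm.trans ?_
    refine Finset.sum_congr rfl fun k _ => ?_
    rw [alg_smul, hB k]
  choose f hf using hf
  let P : Matrix n n (LaurentSeries K) := Matrix.of fun k l =>
    algebraMap (PowerSeries K) (LaurentSeries K) (f l k)
  have hP : A i * G + G.map (lD (D i)) = G * P := by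
    refine Matrix.ext fun a l => ?_
    have h1 := congrFun (hf l) a
    have h2 : nab (D i) (A i) (B l) a = lD (D i) (B l a) + ∑ k, A i a k * B l k := rfl
    rw [h2, Finset.sum_apply] at h1
    simp only [Pi.smul_apply, smul_eq_mul] at h1
    rw [Matrix.add_apply, Matrix.mul_apply, Matrix.mul_apply, Matrix.map_apply]
    show ∑ k, A i a k * B l k + lD (D i) (B l a) =
      ∑ k, B k a * algebraMap (PowerSeries K) (LaurentSeries K) (f l k)
    rw [add_comm, h1]
    exact Finset.sum_congr rfl fun k _ => mul_comm _ _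
  have hfin : gau (fun i => lD (D i)) g A i = P := by
    show (↑g⁻¹ : Matrix n n (LaurentSeries K)) * A i * (g : Matrix n n (LaurentSeries K)) +
      (↑g⁻¹ : Matrix n n (LaurentSeries K)) * (g : Matrix n n (LaurentSeries K)).map (lD (D i)) = P
    rw [Matrix.mul_assoc, ← Matrix.mul_add]
    have : A i * (g : Matrix n n (LaurentSeries K)) + (g : Matrix n n (LaurentSeries K)).map (lD (D i)) =
      (g : Matrix n n (LaurentSeries K)) * P := hP
    rw [this, ← Matrix.mul_assoc, Units.inv_mul, Matrix.one_mul]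
  intro a k
  rw [hfin]
  exact noPole_alg _

theorem noPole_lmap {f : LaurentSeries K} (h : NoPole f) : NoPole (lmap K L f) := by
  intro m hm
  rw [lmap_coeff, h m hm, map_zero]

theorem noPole_of_lmap {f : LaurentSeries K} (h : NoPole (lmap K L f)) : NoPole f := by
  intro m hm
  have h1 := h m hm
  rw [lmap_coeff] at h1
  exact (map_eq_zero_iff _ (algebraMap K L).injective).1 h1

theorem lmap_sX (m : ℤ) : lmap K L (sX K m) = sX L m := by
  ext k
  rw [lmap_coeff]
  unfold sX
  by_cases hk : k = m
  · rw [hk, HahnSeries.coeff_single_same, HahnSeries.coeff_single_same, map_one]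
  · rw [HahnSeries.coeff_single_of_ne hk, HahnSeries.coeff_single_of_ne hk, map_zero]

/-- the entrywise base change of a vector -/
def lv (K L : Type) {n : Type} [Field K] [Field L] [Algebra K L] (v : n → LaurentSeries K) : n → LaurentSeries L :=
  fun a => lmap K L (v a)

theorem lv_mem {c : ℕ} {v : n → LaurentSeries K} : lv K L v ∈ M0 L n c ↔ v ∈ M0 K n c := by
  constructor
  · intro h a
    have h1 := h a
    refine noPole_of_lmap (L := L) ?_
    rw [map_mul, lmap_sX]
    exact h1
  · intro h a
    have h1 := noPole_lmap (L := L) (h a)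
    rw [map_mul, lmap_sX] at h1
    exact h1

theorem lv_add (v w : n → LaurentSeries K) : lv K L (v + w) = lv K L v + lv K L w := by
  funext a
  exact map_add (lmap K L) (v a) (w a)

theorem lv_smul (f : LaurentSeries K) (v : n → LaurentSeries K) : lv K L (f • v) = lmap K L f • lv K L v := by
  funext a
  exact map_mul (lmap K L) f (v a)

theorem lmap_lD {D : K →+ K} {E : L →+ L} (h : ∀ a, E (algebraMap K L a) = algebraMap K L (D a))
    (f : LaurentSeries K) : lD E (lmap K L f) = lmap K L (lD D f) := by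
  ext m
  rw [lD_coeff, lmap_coeff, lmap_coeff, lD_coeff, h]

theorem lv_nab {D : K →+ K} {E : L →+ L} (h : ∀ a, E (algebraMap K L a) = algebraMap K L (D a))
    (A : Matrix n n (LaurentSeries K)) (v : n → LaurentSeries K) :
    lv K L (nab D A v) = nab E (A.map (lmap K L)) (lv K L v) := by
  funext a
  show lmap K L (lD D (v a) + (A *ᵥ v) a) = lD E (lmap K L (v a)) + (A.map (lmap K L) *ᵥ lv K L v) a
  rw [map_add, lmap_lD h]
  congr 1
  simp only [Matrix.mulVec, dotProduct, map_sum, map_mul, Matrix.map_apply, lv]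

end GDscAux

open GLatAux GDscAux in
theorem tDsc : S_Dsc := by
  intro K L n d _ _ _ _ _ D E hD hE hDE A hB
  obtain ⟨h, hh⟩ := hB
  obtain ⟨a, ha⟩ := exists_noPole_fin (fun ij : n × n => (h : Matrix n n (LaurentSeries L)) ij.1 ij.2)
  obtain ⟨b, hb⟩ := exists_noPole_fin (fun ij : n × n => (↑h⁻¹ : Matrix n n (LaurentSeries L)) ij.1 ij.2)
  have h1 : (h : Matrix n n (LaurentSeries L)) * (↑h⁻¹ : Matrix n n (LaurentSeries L)) = 1 :=
    Units.mul_inv h
  have h1' : (↑h⁻¹ : Matrix n n (LaurentSeries L)) * (h : Matrix n n (LaurentSeries L)) = 1 :=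
    Units.inv_mul h
  have h2 : ∀ u : n → LaurentSeries L,
      (h : Matrix n n (LaurentSeries L)) *ᵥ ((↑h⁻¹ : Matrix n n (LaurentSeries L)) *ᵥ u) = u := by
    intro u
    rw [Matrix.mulVec_mulVec, h1, Matrix.one_mulVec]
  have h2' : ∀ u : n → LaurentSeries L,
      (↑h⁻¹ : Matrix n n (LaurentSeries L)) *ᵥ ((h : Matrix n n (LaurentSeries L)) *ᵥ u) = u := by
    intro u
    rw [Matrix.mulVec_mulVec, h1', Matrix.one_mulVec]
  let M : Submodule (PowerSeries K) (n → LaurentSeries K) :=
    { carrier := {v | (↑h⁻¹ : Matrix n n (LaurentSeries L)) *ᵥ lv K L v ∈ M0 L n b}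
      add_mem' := by
        intro v w hv hw
        show (↑h⁻¹ : Matrix n n (LaurentSeries L)) *ᵥ lv K L (v + w) ∈ M0 L n b
        rw [lv_add, Matrix.mulVec_add]
        exact Submodule.add_mem _ hv hw
      zero_mem' := by
        show (↑h⁻¹ : Matrix n n (LaurentSeries L)) *ᵥ lv K L (0 : n → LaurentSeries K) ∈ M0 L n b
        have e : lv K L (0 : n → LaurentSeries K) = 0 := by
          funext k
          exact map_zero (lmap K L)
        rw [e, Matrix.mulVec_zero]
        exact Submodule.zero_mem _
      smul_mem' := by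
        intro f v hv
        show (↑h⁻¹ : Matrix n n (LaurentSeries L)) *ᵥ lv K L (f • v) ∈ M0 L n b
        obtain ⟨f', hf'⟩ := exists_alg (noPole_lmap (L := L) (noPole_alg f))
        rw [← alg_smul, lv_smul, Matrix.mulVec_smul, ← hf', alg_smul]
        exact Submodule.smul_mem _ _ hv }
  refine bdd_of_mod D A M (b + a) ?_ ?_ ?_
  · intro v hv
    show (↑h⁻¹ : Matrix n n (LaurentSeries L)) *ᵥ lv K L v ∈ M0 L n b
    have h3 := M0_mulVec b (↑h⁻¹ : Matrix n n (LaurentSeries L)) (fun i j => hb b le_rfl (i, j)) 0 _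
      (lv_mem (L := L) |>.2 hv)
    rwa [zero_add] at h3
  · intro v hv
    have h3 := M0_mulVec a (h : Matrix n n (LaurentSeries L)) (fun i j => ha a le_rfl (i, j)) b _ hv
    rw [h2] at h3
    exact lv_mem.1 h3
  · intro i v hv
    show (↑h⁻¹ : Matrix n n (LaurentSeries L)) *ᵥ lv K L (nab (D i) (A i) v) ∈ M0 L n b
    rw [lv_nab (hDE i), ← h2 (lv K L v), nab_gau (hE i), h2']
    exact M0_nab (hE i) _ (hh i) b _ hv

end Pool.Agent.M7
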