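import Pool.Agent.Lib.MP_7baa7a_ag.Spec2

/-!
# MP_7baa7a_ag, ECO: commuting derivations extended to an algebraic extension commute
-/

set_option autoImplicit false

namespace Pool.Agent.M7

open Matrix

namespace GECoAux

/-- A derivation over `K` of an algebraic extension in characteristic `0` is `0`. -/
theorem der_zero {K L : Type} [Field K] [CharZero K] [Field L] [Algebra K L]
    [Algebra.IsAlgebraic K L] (G : Derivation K L L) (a : L) : G a = 0 := by
  have hint : IsIntegral K a := Algebra.IsIntegral.isIntegral a
  have hsep : (minpoly K a).Separable := (minpoly.irreducible hint).separable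
  have h0 : Polynomial.aeval a (minpoly K a) = 0 := minpoly.aeval K a
  have h1 := hsep.aeval_derivative_ne_zero h0
  have h2 := G.map_aeval (minpoly K a) a
  rw [h0, map_zero, smul_eq_mul] at h2
  exact (mul_eq_zero.mp h2.symm).resolve_left h1

end GECoAux

open GECoAux

theorem tECo : S_ECo := by
  intro K L ι _ _ _ _ _ D E hD hE hDE hC i j a
  have hmul : ∀ x y : L, E i (E j (x * y)) - E j (E i (x * y)) =
      x * (E i (E j y) - E j (E i y)) + y * (E i (E j x) - E j (E i x)) := by
    intro x y
    rw [hE j x y, hE i x y, map_add, map_add, hE i, hE i, hE j, hE j]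
    ring
  let G0 : L →ₗ[K] L :=
    { toFun := fun x => E i (E j x) - E j (E i x)
      map_add' := fun x y => by
        simp only [map_add]
        abel
      map_smul' := fun c x => by
        have h1 : E i (E j (algebraMap K L c)) - E j (E i (algebraMap K L c)) = 0 := by
          rw [hDE, hDE, hDE, hDE]
          have h2 := hC i j c
          simp only at h2
          rw [h2, sub_self]
        rw [Algebra.smul_def, hmul, h1, mul_zero, add_zero, RingHom.id_apply, Algebra.smul_def] }
  let G : Derivation K L L := Derivation.mk' G0 (fun x y => hmul x y)
  have h := der_zero G a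
  exact sub_eq_zero.mp h

end Pool.Agent.M7
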