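import Pool.Agent.Lib.MP_7baa7a_ag.Spec

/-!
# Cyclic vectors (Katz)
-/

set_option autoImplicit false

noncomputable section

namespace Pool.Agent.M7

open Matrix

namespace GCycAux

open Polynomial

variable {F : Type} [Field F]

/-- `D` on the coefficients. -/
def dc (D : F →+ F) (p : F[X]) : F[X] := p.sum fun i a => monomial i (D a)

theorem dc_coeff (D : F →+ F) (p : F[X]) (j : ℕ) : (dc D p).coeff j = D (p.coeff j) := by
  unfold dc
  rw [Polynomial.sum_def, Polynomial.finset_sum_coeff]
  simp only [coeff_monomial]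
  rw [Finset.sum_ite_eq' p.support j]
  split_ifs with h
  · rfl
  · rw [notMem_support_iff.1 h, map_zero]

/-- The derivation of `F[Y]` which extends `D`, with `Y ↦ 1`. -/
def pd (D : F →+ F) (p : F[X]) : F[X] := dc D p + derivative p

theorem pd_coeff (D : F →+ F) (p : F[X]) (j : ℕ) :
    (pd D p).coeff j = D (p.coeff j) + p.coeff (j + 1) * (j + 1) := by
  unfold pd
  rw [coeff_add, dc_coeff, coeff_derivative]

theorem pd_add (D : F →+ F) (p q : F[X]) : pd D (p + q) = pd D p + pd D q := by
  ext j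
  rw [coeff_add, pd_coeff, pd_coeff, pd_coeff, coeff_add, coeff_add, map_add]
  ring

theorem d_one (D : F →+ F) (hD : IsDer D) : D 1 = 0 := by
  have h := hD 1 1
  rw [mul_one, mul_one, one_mul] at h
  exact left_eq_add.1 h

theorem d_nat (D : F →+ F) (hD : IsDer D) (c : ℕ) : D (c : F) = 0 := by
  have h : (c : F) = c • (1 : F) := by rw [nsmul_one]
  rw [h, map_nsmul, d_one D hD, nsmul_zero]

theorem d_pow (D : F →+ F) (hD : IsDer D) {y : F} (hy : D y = 1) (k : ℕ) :
    D (y ^ k) = k * y ^ (k - 1) := by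
  induction k with
  | zero => simp [d_one D hD]
  | succ k ih =>
    rw [pow_succ, hD, ih, hy, Nat.add_sub_cancel]
    rcases k with _ | k
    · simp
    · rw [Nat.add_sub_cancel]
      push_cast
      ring

theorem d_eval (D : F →+ F) (hD : IsDer D) {y : F} (hy : D y = 1) (p : F[X]) :
    D (p.eval y) = (pd D p).eval y := by
  induction p using Polynomial.induction_on' with
  | add p q hp hq => rw [eval_add, map_add, hp, hq, pd_add, eval_add]
  | monomial k a =>
    have h1 : dc D (monomial k a) = monomial k (D a) := by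
      ext j
      rw [dc_coeff, coeff_monomial, coeff_monomial]
      split_ifs
      · rfl
      · exact map_zero D
    unfold pd
    rw [h1, eval_add, derivative_monomial, eval_monomial, eval_monomial, eval_monomial, hD,
      d_pow D hD hy]
    ring

variable {N : ℕ}

/-- The connection on the vectors of polynomials. -/
def Nb (D : F →+ F) (A : Matrix (Fin N) (Fin N) F) (v : Fin N → F[X]) : Fin N → F[X] :=
  fun a => pd D (v a) + ∑ b, C (A a b) * v b

theorem Nb_add (D : F →+ F) (A : Matrix (Fin N) (Fin N) F) (v w : Fin N → F[X]) :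
    Nb D A (v + w) = Nb D A v + Nb D A w := by
  funext a
  show pd D (v a + w a) + ∑ b, C (A a b) * (v b + w b) =
    (pd D (v a) + ∑ b, C (A a b) * v b) + (pd D (w a) + ∑ b, C (A a b) * w b)
  rw [pd_add]
  simp only [mul_add, Finset.sum_add_distrib]
  ring

theorem Nb_iter_add (D : F →+ F) (A : Matrix (Fin N) (Fin N) F) (i : ℕ) (v w : Fin N → F[X]) :
    (Nb D A)^[i] (v + w) = (Nb D A)^[i] v + (Nb D A)^[i] w := by
  induction i generalizing v w with
  | zero => rfl
  | succ i ih => rw [Function.iterate_succ_apply, Function.iterate_succ_apply,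
      Function.iterate_succ_apply, Nb_add, ih]

theorem Nb_coeff (D : F →+ F) (A : Matrix (Fin N) (Fin N) F) (v : Fin N → F[X]) (a : Fin N)
    (j : ℕ) : (Nb D A v a).coeff j =
      D ((v a).coeff j) + (v a).coeff (j + 1) * (j + 1) + ∑ b, A a b * (v b).coeff j := by
  unfold Nb
  rw [coeff_add, pd_coeff, finset_sum_coeff]
  simp only [coeff_C_mul]

theorem low (D : F →+ F) (A : Matrix (Fin N) (Fin N) F) (w : Fin N → F) (m : ℕ) :
    ∀ v : Fin N → F[X], (∀ a, ∀ j < m, (v a).coeff j = 0) →
      (∀ a, (m.factorial : F) * (v a).coeff m = w a) →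
      (∀ i < m, ∀ a, ((Nb D A)^[i] v a).coeff 0 = 0) ∧ ∀ a, ((Nb D A)^[m] v a).coeff 0 = w a := by
  induction m with
  | zero =>
    intro v _ h2
    refine ⟨fun i hi => absurd hi (Nat.not_lt_zero i), fun a => ?_⟩
    have h3 := h2 a
    rw [Nat.factorial_zero, Nat.cast_one, one_mul] at h3
    exact h3
  | succ m ih =>
    intro v h1 h2
    have g1 : ∀ a, ∀ j < m, (Nb D A v a).coeff j = 0 := by
      intro a j hj
      rw [Nb_coeff, h1 a j (by omega), h1 a (j + 1) (by omega), map_zero, zero_mul]
      simp only [zero_add]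
      exact Finset.sum_eq_zero (fun b _ => by rw [h1 b j (by omega), mul_zero])
    have g2 : ∀ a, (m.factorial : F) * (Nb D A v a).coeff m = w a := by
      intro a
      have e1 : ∑ b, A a b * (v b).coeff m = 0 :=
        Finset.sum_eq_zero (fun b _ => by rw [h1 b m (by omega), mul_zero])
      rw [Nb_coeff, h1 a m (by omega), map_zero, e1, ← h2 a, Nat.factorial_succ]
      push_cast
      ring
    obtain ⟨k1, k2⟩ := ih (Nb D A v) g1 g2
    refine ⟨fun i hi a => ?_, fun a => ?_⟩
    · rcases i with _ | i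
      · exact h1 a 0 (by omega)
      · rw [Function.iterate_succ_apply]
        exact k1 i (by omega) a
    · rw [Function.iterate_succ_apply]
      exact k2 a

theorem exv [CharZero F] (D : F →+ F) (A : Matrix (Fin N) (Fin N) F) (t : ℕ → Fin N → F)
    (M : ℕ) : ∃ v : Fin N → F[X], ∀ i < M, ∀ a, ((Nb D A)^[i] v a).coeff 0 = t i a := by
  induction M with
  | zero => exact ⟨0, fun i hi => absurd hi (Nat.not_lt_zero i)⟩
  | succ M ih =>
    obtain ⟨v, hv⟩ := ih
    have hM : (M.factorial : F) ≠ 0 := Nat.cast_ne_zero.2 (Nat.factorial_ne_zero M)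
    obtain ⟨w, hw⟩ : ∃ w : Fin N → F, w = fun a => t M a - ((Nb D A)^[M] v a).coeff 0 := ⟨_, rfl⟩
    obtain ⟨v', hv'⟩ : ∃ v' : Fin N → F[X], v' = fun a => monomial M (w a / M.factorial) :=
      ⟨_, rfl⟩
    obtain ⟨k1, k2⟩ := low D A w M v' (by
      intro a j hj
      rw [hv']
      show (monomial M (w a / M.factorial)).coeff j = 0
      rw [coeff_monomial, if_neg (by omega)]) (by
      intro a
      rw [hv']
      show (M.factorial : F) * (monomial M (w a / M.factorial)).coeff M = w a
      rw [coeff_monomial, if_pos rfl]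
      field_simp)
    refine ⟨v + v', fun i hi a => ?_⟩
    rw [Nb_iter_add, Pi.add_apply, coeff_add]
    rcases Nat.lt_succ_iff_lt_or_eq.1 hi with h | h
    · rw [hv i h a, k1 i h a, add_zero]
    · rw [h, k2 a, hw]
      ring

end GCycAux

open GCycAux Polynomial in
/-- **Cyclic vectors.** -/
theorem tCyc : S_Cyc := by
  intro F _ _ D hD hx N A
  obtain ⟨x, hx⟩ := hx
  obtain ⟨v, hv⟩ := exv D A (fun i a => if a.val = i then (1 : F) else 0) N
  obtain ⟨G, hG⟩ : ∃ G : Matrix (Fin N) (Fin N) F[X],
      G = Matrix.of fun a j => (Nb D A)^[j.val] v a := ⟨_, rfl⟩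
  have hG1 : G.map (eval 0) = 1 := by
    ext a j
    rw [Matrix.map_apply, hG, Matrix.of_apply, ← coeff_zero_eq_eval_zero, hv j.val j.isLt a,
      Matrix.one_apply]
    simp only [Fin.ext_iff]
  have hdet : ∀ y : F, (G.map (eval y)).det = G.det.eval y := by
    intro y
    exact ((evalRingHom y).map_det G).symm
  have hP0 : G.det ≠ 0 := by
    intro h
    have h1 := hdet 0
    rw [hG1, Matrix.det_one, h, eval_zero] at h1
    exact one_ne_zero h1
  obtain ⟨c, hc⟩ : ∃ c : ℕ, G.det.eval (x - c) ≠ 0 := by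
    by_contra hcon
    push Not at hcon
    apply hP0
    refine Polynomial.eq_zero_of_infinite_isRoot _ ?_
    have hinj : Function.Injective (fun c : ℕ => x - (c : F)) := by
      intro a b hab
      have h1 : x - (a : F) = x - (b : F) := hab
      exact Nat.cast_injective (sub_right_injective h1)
    refine (Set.infinite_range_of_injective hinj).mono ?_
    rintro _ ⟨c, rfl⟩
    exact hcon c
  obtain ⟨y, hy⟩ : ∃ y : F, y = x - c := ⟨_, rfl⟩
  rw [← hy] at hc
  have hDy : D y = 1 := by
    rw [hy, map_sub, hx, d_nat D hD, sub_zero]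
  obtain ⟨g0, hg0⟩ : ∃ g0 : Matrix (Fin N) (Fin N) F, g0 = G.map (eval y) := ⟨_, rfl⟩
  have hg0d : g0.det ≠ 0 := by
    rw [hg0, hdet]
    exact hc
  have hg0a : ∀ a j, g0 a j = ((Nb D A)^[j.val] v a).eval y := by
    intro a j
    rw [hg0, Matrix.map_apply, hG, Matrix.of_apply]
  refine ⟨Matrix.GeneralLinearGroup.mkOfDetNeZero g0 hg0d, fun j hj a => ?_⟩
  set g := Matrix.GeneralLinearGroup.mkOfDetNeZero g0 hg0d with hg
  have hgc : (g : Matrix (Fin N) (Fin N) F) = g0 := rfl
  have hinv : (↑g⁻¹ : Matrix (Fin N) (Fin N) F) * g0 = 1 := by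
    rw [← hgc]
    exact Units.inv_mul g
  have hcol : ∀ b, (A * g0 + g0.map D) b j = g0 b ⟨j.val + 1, hj⟩ := by
    intro b
    rw [Matrix.add_apply, Matrix.mul_apply, Matrix.map_apply, hg0a b j, hg0a b ⟨j.val + 1, hj⟩,
      d_eval D hD hDy]
    show _ = ((Nb D A)^[j.val + 1] v b).eval y
    rw [Function.iterate_succ_apply']
    unfold Nb
    rw [eval_add, eval_finset_sum, add_comm]
    congr 1
    refine Finset.sum_congr rfl (fun c _ => ?_)
    rw [hg0a c j, eval_mul, eval_C]
    rfl
  unfold gau1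
  rw [hgc, Matrix.mul_assoc, ← Matrix.mul_add, Matrix.mul_apply]
  rw [Finset.sum_congr rfl (fun b _ => by rw [hcol b]), ← Matrix.mul_apply, hinv, Matrix.one_apply]
  simp only [Fin.ext_iff]

end Pool.Agent.M7
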