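import Pool.Agent.Lib.MP_7baa7a_ag.Spec

/-!
# Block triangular connections
-/

set_option autoImplicit false

open Matrix

namespace Pool.Agent.M7

namespace GTriAux

theorem fb_sub {F p q p' q' : Type} [CommRing F] (A A' : Matrix p p' F) (B B' : Matrix p q' F) (C C' : Matrix q p' F)
    (D D' : Matrix q q' F) :
    fromBlocks A B C D - fromBlocks A' B' C' D' = fromBlocks (A - A') (B - B') (C - C') (D - D') := by
  ext a b
  rcases a with a | a <;> rcases b with b | b <;> rfl

theorem fb_trace {F p q : Type} [CommRing F] [Fintype p] [Fintype q] (A : Matrix p p F) (B : Matrix p q F)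
    (C : Matrix q p F) (D : Matrix q q F) : (fromBlocks A B C D).trace = A.trace + D.trace := by
  simp [Matrix.trace, Fintype.sum_sum_type]

theorem fb_map {F p q : Type} [CommRing F] (f : F →+ F) (A : Matrix p p F) (B : Matrix p q F) (D : Matrix q q F) :
    (fromBlocks A B 0 D).map f = fromBlocks (A.map f) (B.map f) 0 (D.map f) := by
  rw [fromBlocks_map]
  congr 1
  ext a b
  simp

end GTriAux

open GTriAux

theorem tTri : S_Tri := by
  intro F ι p q _ _ _ _ _ D A h0 hA
  have hb : ∀ j, A j = fromBlocks (A j).toBlocks₁₁ (A j).toBlocks₁₂ 0 (A j).toBlocks₂₂ := by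
    intro j
    conv_lhs => rw [← fromBlocks_toBlocks (A j), h0 j]
  have key : ∀ i j, fromBlocks
      (((A j).toBlocks₁₁).map (D i) - ((A i).toBlocks₁₁).map (D j) +
        ((A i).toBlocks₁₁ * (A j).toBlocks₁₁ - (A j).toBlocks₁₁ * (A i).toBlocks₁₁))
      (((A j).toBlocks₁₂).map (D i) - ((A i).toBlocks₁₂).map (D j) +
        (((A i).toBlocks₁₁ * (A j).toBlocks₁₂ + (A i).toBlocks₁₂ * (A j).toBlocks₂₂) -
          ((A j).toBlocks₁₁ * (A i).toBlocks₁₂ + (A j).toBlocks₁₂ * (A i).toBlocks₂₂)))
      0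
      (((A j).toBlocks₂₂).map (D i) - ((A i).toBlocks₂₂).map (D j) +
        ((A i).toBlocks₂₂ * (A j).toBlocks₂₂ - (A j).toBlocks₂₂ * (A i).toBlocks₂₂)) = 0 := by
    intro i j
    have h := hA i j
    simp only at h
    rw [hb i, hb j, fb_map, fb_map, fb_sub, fromBlocks_multiply, fromBlocks_multiply, fb_sub, fromBlocks_add] at h
    simp only [Matrix.mul_zero, Matrix.zero_mul, add_zero, zero_add, sub_zero] at h
    exact h
  refine ⟨fun i j => ?_, fun i j => ?_, fun i j l => ?_⟩
  · have h := congrArg toBlocks₁₁ (key i j)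
    rw [toBlocks_fromBlocks₁₁] at h
    exact h
  · have h := congrArg toBlocks₂₂ (key i j)
    rw [toBlocks_fromBlocks₂₂] at h
    exact h
  · unfold CS
    conv_lhs => rw [hb i, hb j, hb l]
    rw [fromBlocks_multiply, fromBlocks_multiply, fb_sub, fromBlocks_multiply, fb_trace]
    simp only [Matrix.mul_zero, Matrix.zero_mul, add_zero, zero_add, sub_zero]

end Pool.Agent.M7
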