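import Pool.Agent.Lib.MP_7baa7a_ag.Gau
import Pool.Agent.Lib.MP_7baa7a_ag.Tri

/-!
# Constant coefficients, base change, reindexing, exact forms
-/

set_option autoImplicit false

open Matrix

namespace Pool.Agent.M7

namespace Coef

open GGauAux

section Ex

variable {F ι : Type} [CommRing F] {D : ι → F →+ F}

theorem exact_add {v w : ι → ι → ι → F} (hv : Exact (fun i => D i) v) (hw : Exact (fun i => D i) w) :
    Exact (fun i => D i) fun i j l => v i j l + w i j l := by
  obtain ⟨η, a, b⟩ := hv
  obtain ⟨θ, a', b'⟩ := hw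
  refine ⟨fun i j => η i j + θ i j, fun i j => ?_, fun i j l => ?_⟩
  · show η i j + θ i j = -(η j i + θ j i)
    rw [a i j, a' i j]
    ring
  · have c1 := b i j l
    have c2 := b' i j l
    simp only [map_add] at c1 c2 ⊢
    linear_combination c1 + c2

theorem exact_neg {v : ι → ι → ι → F} (hv : Exact (fun i => D i) v) :
    Exact (fun i => D i) fun i j l => -v i j l := by
  obtain ⟨η, a, b⟩ := hv
  refine ⟨fun i j => -η i j, fun i j => ?_, fun i j l => ?_⟩
  · show -η i j = -(-η j i)
    rw [a i j]
  · have c1 := b i j l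
    simp only [map_neg] at c1 ⊢
    linear_combination -c1

theorem exact_congr {v w : ι → ι → ι → F} (hv : Exact (fun i => D i) v) (h : ∀ i j l, w i j l = v i j l) :
    Exact (fun i => D i) w := by
  have e : w = v := by
    funext i j l
    exact h i j l
  rw [e]
  exact hv

end Ex

section Re

variable {F ι m n : Type} [CommRing F] [Fintype m] [Fintype n]

theorem flat_submatrix {D : ι → F → F} {A : ι → Matrix n n F} (e : m ≃ n) (hA : Flat D A) :
    Flat D fun i => (A i).submatrix e e := by
  intro i j
  have h := congrArg (fun M : Matrix n n F => M.submatrix e e) (hA i j)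
  simp only [Matrix.submatrix_add, Matrix.submatrix_sub, Pi.add_apply, Pi.sub_apply] at h
  rw [← Matrix.submatrix_mul_equiv (A i) (A j) e e e, ← Matrix.submatrix_mul_equiv (A j) (A i) e e e] at h
  exact h

theorem CS_submatrix {A : ι → Matrix n n F} (e : m ≃ n) (i j l : ι) :
    CS (fun i => (A i).submatrix e e) i j l = CS A i j l := by
  unfold CS
  have h : (A j).submatrix e e * (A l).submatrix e e - (A l).submatrix e e * (A j).submatrix e e =
      (A j * A l - A l * A j).submatrix e e := by
    rw [Matrix.submatrix_mul_equiv, Matrix.submatrix_mul_equiv]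
    rfl
  rw [h, Matrix.submatrix_mul_equiv]
  exact Equiv.sum_comp e fun a => (A i * (A j * A l - A l * A j)) a a

variable {F' : Type} [CommRing F']

theorem flat_map {D : ι → F → F} {D' : ι → F' → F'} (φ : F →+* F') (hφ : ∀ i a, φ (D i a) = D' i (φ a))
    {A : ι → Matrix n n F} (hA : Flat D A) : Flat D' fun i => (A i).map φ := by
  intro i j
  have h := congrArg (fun M : Matrix n n F => M.map φ) (hA i j)
  simp only [Matrix.map_mul, Matrix.map_zero, map_zero] at h ⊢
  have e1 : ∀ i j, ((A j).map φ).map (D' i) = ((A j).map (D i)).map φ := by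
    intro i j
    ext a b
    exact (hφ i _).symm
  rw [e1, e1]
  rw [← h]
  ext a b
  simp [Matrix.mul_apply]

theorem CS_map (φ : F →+* F') (A : ι → Matrix n n F) (i j l : ι) :
    CS (fun i => (A i).map φ) i j l = φ (CS A i j l) := by
  unfold CS
  simp only [Matrix.trace, Matrix.diag_apply, Matrix.mul_apply, Matrix.sub_apply, Matrix.map_apply, map_sum, map_mul,
    map_sub]

theorem flat_scalar [DecidableEq n] {D : ι → F →+ F} {A : ι → Matrix n n F} (hA : Flat (fun i => D i) A)
    {t : ι → F} (ht : ∀ i j, D i (t j) = D j (t i)) :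
    Flat (fun i => D i) fun i => A i - Matrix.scalar n (t i) := by
  intro i j
  have h := hA i j
  simp only at h ⊢
  have e1 : ∀ i j, (A j - Matrix.scalar n (t j)).map (D i) = (A j).map (D i) - Matrix.scalar n (D i (t j)) := by
    intro i j
    ext a b
    simp only [Matrix.map_apply, Matrix.sub_apply, Matrix.scalar_apply, map_sub]
    congr 1
    by_cases hab : a = b
    · subst hab
      rw [Matrix.diagonal_apply_eq, Matrix.diagonal_apply_eq]
    · rw [Matrix.diagonal_apply_ne _ hab, Matrix.diagonal_apply_ne _ hab, map_zero]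
  have e2 : ∀ (c : F) (M : Matrix n n F), Matrix.scalar n c * M = M * Matrix.scalar n c := fun c M =>
    (Matrix.scalar_commute c (fun r => Commute.all c r) M).eq
  rw [e1, e1, ht i j, ← h]
  simp only [Matrix.mul_sub, Matrix.sub_mul]
  rw [e2 (t i) (A j), e2 (t j) (A i), e2 (t i) (Matrix.scalar n (t j))]
  abel

theorem CS_scalar [DecidableEq n] (A : ι → Matrix n n F) (t : ι → F) (i j l : ι) :
    CS (fun i => A i - Matrix.scalar n (t i)) i j l = CS A i j l := by
  unfold CS
  have e2 : ∀ (c : F) (M : Matrix n n F), Matrix.scalar n c * M = M * Matrix.scalar n c := fun c M =>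
    (Matrix.scalar_commute c (fun r => Commute.all c r) M).eq
  have h : (A j - Matrix.scalar n (t j)) * (A l - Matrix.scalar n (t l)) -
      (A l - Matrix.scalar n (t l)) * (A j - Matrix.scalar n (t j)) = A j * A l - A l * A j := by
    simp only [Matrix.mul_sub, Matrix.sub_mul]
    rw [e2 (t j) (A l), e2 (t l) (A j), e2 (t j) (Matrix.scalar n (t l))]
    abel
  rw [h, Matrix.sub_mul, Matrix.trace_sub]
  have h2 : (Matrix.scalar n (t i) * (A j * A l - A l * A j)).trace = 0 := by
    have h3 : Matrix.scalar n (t i) * (A j * A l - A l * A j) = t i • (A j * A l - A l * A j) := by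
      ext a b
      simp [Matrix.scalar_apply, Matrix.diagonal_mul]
    rw [h3, Matrix.trace_smul, Matrix.trace_sub, Matrix.trace_mul_comm (A j), sub_self, smul_zero]
  rw [h2, sub_zero]

/-- the trace of a flat connection is closed -/
theorem trace_closed {D : ι → F →+ F} {A : ι → Matrix n n F} (hA : Flat (fun i => D i) A) (i j : ι) :
    D i (A j).trace = D j (A i).trace := by
  have h := congrArg Matrix.trace (hA i j)
  simp only [Matrix.trace_add, Matrix.trace_sub, GGauAux.trace_map', Matrix.trace_zero] at h
  rw [Matrix.trace_mul_comm (A i) (A j), sub_self, add_zero] at h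
  exact sub_eq_zero.1 h

end Re

section Block

variable {F ι p q : Type} [CommRing F] [Fintype p] [Fintype q]

theorem flat_block {D : ι → F →+ F} {B : ι → Matrix p p F} {C : ι → Matrix q q F} (hB : Flat (fun i => D i) B)
    (hC : Flat (fun i => D i) C) : Flat (fun i => D i) fun i => fromBlocks (B i) 0 0 (C i) := by
  intro i j
  have h1 := hB i j
  have h2 := hC i j
  simp only at h1 h2 ⊢
  rw [GTriAux.fb_map, GTriAux.fb_map, GTriAux.fb_sub, fromBlocks_multiply, fromBlocks_multiply, GTriAux.fb_sub,
    fromBlocks_add]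
  simp only [Matrix.mul_zero, Matrix.zero_mul, add_zero, zero_add, sub_zero]
  rw [h1, h2]
  have h3 : ∀ i, (0 : Matrix p q F).map (D i) = 0 := by
    intro i
    ext a b
    simp
  rw [h3, h3, sub_zero]
  exact fromBlocks_zero

theorem CS_block {B : ι → Matrix p p F} {C : ι → Matrix q q F} (i j l : ι) :
    CS (fun i => fromBlocks (B i) 0 0 (C i)) i j l = CS B i j l + CS C i j l := by
  unfold CS
  rw [fromBlocks_multiply, fromBlocks_multiply, GTriAux.fb_sub, fromBlocks_multiply, GTriAux.fb_trace]
  simp only [Matrix.mul_zero, Matrix.zero_mul, add_zero, zero_add]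

end Block

section Co

variable {K ι m n p : Type} [Field K]

theorem exact_coeff {D : ι → K →+ K} {w : ι → ι → ι → LaurentSeries K} (hw : Exact (fun i => lD (D i)) w) :
    Exact (fun i => D i) fun i j l => (w i j l).coeff 0 := by
  obtain ⟨η, a, b⟩ := hw
  refine ⟨fun i j => (η i j).coeff 0, fun i j => ?_, fun i j l => ?_⟩
  · show (η i j).coeff 0 = -(η j i).coeff 0
    rw [a i j, HahnSeries.coeff_neg]
  · show (w i j l).coeff 0 = _
    rw [b i j l]
    rfl

theorem c0_mul [Fintype n] {M : Matrix m n (LaurentSeries K)} {N : Matrix n p (LaurentSeries K)} (hM : NP M)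
    (hN : NP N) : c0 (M * N) = c0 M * c0 N := by
  refine Matrix.ext fun a b => ?_
  unfold c0
  rw [Matrix.map_apply, Matrix.mul_apply, HahnSeries.coeff_sum, Matrix.mul_apply]
  exact Finset.sum_congr rfl fun x _ => coeff_zero_mul (hM a x) (hN x b)

theorem np_mul [Fintype n] {M : Matrix m n (LaurentSeries K)} {N : Matrix n p (LaurentSeries K)} (hM : NP M)
    (hN : NP N) : NP (M * N) := by
  intro a b
  rw [Matrix.mul_apply]
  exact noPole_sum _ fun x _ => noPole_mul (hM a x) (hN x b)

theorem np_sub {M N : Matrix m n (LaurentSeries K)} (hM : NP M) (hN : NP N) : NP (M - N) :=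
  fun a b => noPole_sub (hM a b) (hN a b)

theorem c0_sub (M N : Matrix m n (LaurentSeries K)) : c0 (M - N) = c0 M - c0 N := by
  refine Matrix.ext fun a b => ?_
  unfold c0
  simp

theorem c0_add (M N : Matrix m n (LaurentSeries K)) : c0 (M + N) = c0 M + c0 N := by
  refine Matrix.ext fun a b => ?_
  unfold c0
  simp

theorem c0_trace [Fintype n] (M : Matrix n n (LaurentSeries K)) : (c0 M).trace = M.trace.coeff 0 := by
  simp [c0, Matrix.trace, HahnSeries.coeff_sum]

/-- the value at `s = 0` of an integral flat connection -/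
theorem flat_c0 [Fintype n] {D : ι → K →+ K} {A : ι → Matrix n n (LaurentSeries K)} (hN : ∀ i, NP (A i))
    (hA : Flat (fun i => lD (D i)) A) : Flat (fun i => D i) fun i => c0 (A i) := by
  intro i j
  have h := congrArg c0 (hA i j)
  simp only [c0_add, c0_sub] at h
  rw [c0_mul (hN i) (hN j), c0_mul (hN j) (hN i)] at h
  exact h

theorem CS_c0 [Fintype n] {A : ι → Matrix n n (LaurentSeries K)} (hN : ∀ i, NP (A i)) (i j l : ι) :
    CS (fun i => c0 (A i)) i j l = (CS A i j l).coeff 0 := by
  unfold CS
  rw [← c0_mul (hN j) (hN l), ← c0_mul (hN l) (hN j), ← c0_sub,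
    ← c0_mul (hN i) (np_sub (np_mul (hN j) (hN l)) (np_mul (hN l) (hN j))), c0_trace]

end Co

end Coef

end Pool.Agent.M7
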