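import Pool.Agent.Lib.MP_7baa7a_ag.Spec

/-!
# Constancy of the class in families: proof of `S_Dfm`
-/

set_option autoImplicit false

noncomputable section

namespace Pool.Agent.M7

open Matrix

namespace GDfmAux

open TensorProduct

theorem map_leib {T n : Type} [CommRing T] [Fintype n] (d : T →+ T)
    (hd : ∀ a b, d (a * b) = d a * b + a * d b) (M N : Matrix n n T) :
    (M * N).map d = M.map d * N + M * N.map d := by
  ext a b
  simp only [Matrix.map_apply, Matrix.mul_apply, Matrix.add_apply, map_sum, hd,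
    Finset.sum_add_distrib]

theorem map_tr {T n : Type} [CommRing T] [Fintype n] (d : T →+ T) (M : Matrix n n T) :
    d M.trace = (M.map d).trace := by
  simp only [Matrix.trace, Matrix.diag_apply, Matrix.map_apply, map_sum]

theorem map_sb {T n : Type} [CommRing T] (d : T →+ T) (M N : Matrix n n T) :
    (M - N).map d = M.map d - N.map d := by
  ext a b
  simp only [Matrix.map_apply, Matrix.sub_apply, map_sub]

theorem map_ad {T n : Type} [CommRing T] (d : T →+ T) (M N : Matrix n n T) :
    (M + N).map d = M.map d + N.map d := by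
  ext a b
  simp only [Matrix.map_apply, Matrix.add_apply, map_add]

theorem map_cm {T n : Type} (d e : T → T) (h : ∀ a, d (e a) = e (d a)) (M : Matrix n n T) :
    (M.map e).map d = (M.map d).map e := by
  ext a b
  simp only [Matrix.map_apply, h]

/-- the identity of traces -/
theorem key {T n : Type} [CommRing T] [Fintype n]
    (X Y Z X' Y' Z' xy yx yz zy zx xz xy' yx' yz' zy' zx' xz' : Matrix n n T)
    (h1 : xy - yx + (X * Y - Y * X) = 0) (h2 : yz - zy + (Y * Z - Z * Y) = 0)
    (h3 : zx - xz + (Z * X - X * Z) = 0)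
    (h1' : xy' - yx' + (X' * Y + X * Y' - (Y' * X + Y * X')) = 0)
    (h2' : yz' - zy' + (Y' * Z + Y * Z' - (Z' * Y + Z * Y')) = 0)
    (h3' : zx' - xz' + (Z' * X + Z * X' - (X' * Z + X * Z')) = 0) :
    (X' * (Y * Z - Z * Y) + X * (Y' * Z + Y * Z' - (Z' * Y + Z * Y'))).trace =
      (xy * Z' + Y * xz' - (xz * Y' + Z * xy')).trace +
      (yz * X' + Z * yx' - (yx * Z' + X * yz')).trace +
      (zx * Y' + X * zy' - (zy * X' + Y * zx')).trace := by
  have e1 := congrArg (fun M => (M * Z').trace) h1
  have e2 := congrArg (fun M => (M * X').trace) h2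
  have e3 := congrArg (fun M => (M * Y').trace) h3
  have f1 := congrArg (fun M => (Z * M).trace) h1'
  have f2 := congrArg (fun M => (X * M).trace) h2'
  have f3 := congrArg (fun M => (Y * M).trace) h3'
  have c : ∀ P Q R : Matrix n n T, (P * (Q * R)).trace = (Q * (R * P)).trace := fun P Q R => by
    rw [Matrix.trace_mul_comm, Matrix.mul_assoc]
  simp only [Matrix.add_mul, Matrix.sub_mul, Matrix.mul_add, Matrix.mul_sub, Matrix.trace_add,
    Matrix.trace_sub, Matrix.zero_mul, Matrix.mul_zero, Matrix.trace_zero, Matrix.mul_assoc,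
    c Z X' Y, (c X' Y Z).symm, c Y X' Z, (c X' Z Y).symm, c Z Y' X, (c Y' X Z).symm, c X Y' Z,
    (c Y' Z X).symm, c X Z' Y, (c Z' Y X).symm, c Y Z' X, (c Z' X Y).symm]
    at e1 e2 e3 f1 f2 f3 ⊢
  linear_combination f1 + f2 + f3 - e1 - e2 - e3

/-- the derivation formula for `Tr (X (Y Z - Z Y))` -/
theorem formula {T ι n : Type} [CommRing T] [Fintype n] (D : ι → T →+ T) (δ : T →+ T)
    (hD : ∀ i a b, D i (a * b) = D i a * b + a * D i b)
    (hδ : ∀ a b, δ (a * b) = δ a * b + a * δ b) (hc : ∀ i a, D i (δ a) = δ (D i a))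
    (A : ι → Matrix n n T) (hA : Flat (fun i => ⇑(D i)) A) (i j l : ι) :
    δ (CS A i j l) =
      D i (A j * (A l).map δ - A l * (A j).map δ).trace +
      D j (A l * (A i).map δ - A i * (A l).map δ).trace +
      D l (A i * (A j).map δ - A j * (A i).map δ).trace := by
  have h' : ∀ i j, ((A j).map δ).map (D i) - ((A i).map δ).map (D j) +
      ((A i).map δ * A j + A i * (A j).map δ - ((A j).map δ * A i + A j * (A i).map δ)) = 0 := by
    intro i j
    have e := congrArg (fun M => M.map δ) (hA i j)
    simp only [map_ad, map_sb, map_leib δ hδ] at e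
    rw [map_cm _ _ (hc i), map_cm _ _ (hc j), e]
    ext a b
    simp
  unfold CS
  rw [map_tr, map_tr, map_tr, map_tr, map_leib δ hδ, map_sb, map_leib δ hδ, map_leib δ hδ,
    map_sb, map_leib _ (hD i), map_leib _ (hD i), map_sb, map_leib _ (hD j), map_leib _ (hD j),
    map_sb, map_leib _ (hD l), map_leib _ (hD l)]
  exact key _ _ _ _ _ _ _ _ _ _ _ _ _ _ _ _ _ _ (hA i j) (hA j l) (hA l i) (h' i j) (h' j l)
    (h' l i)

/-- a linear map vanishing on the kernel of `δ` factors through `δ` -/
theorem factor {k R : Type} [Field k] [AddCommGroup R] [Module k R] (δ : R →ₗ[k] R)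
    (ψ : R →ₗ[k] k) (h : ∀ r, δ r = 0 → ψ r = 0) : ∃ φ : R →ₗ[k] k, ψ = φ ∘ₗ δ := by
  obtain ⟨s, hs⟩ := δ.rangeRestrict.exists_rightInverse_of_surjective δ.range_rangeRestrict
  obtain ⟨g, hg⟩ := LinearMap.exists_extend (ψ ∘ₗ s)
  refine ⟨g, LinearMap.ext fun r => ?_⟩
  have e1 : g (δ r) = ψ (s ⟨δ r, LinearMap.mem_range_self δ r⟩) :=
    LinearMap.congr_fun hg ⟨δ r, LinearMap.mem_range_self δ r⟩
  have e2 : δ (s ⟨δ r, LinearMap.mem_range_self δ r⟩) = δ r :=
    congrArg Subtype.val (LinearMap.congr_fun hs ⟨δ r, LinearMap.mem_range_self δ r⟩)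
  rw [LinearMap.comp_apply, e1, ← sub_eq_zero, ← map_sub]
  apply h
  rw [map_sub, e2, sub_self]

theorem leib_r {k K R : Type} [Field k] [Field K] [CommRing R] [Algebra k K] [Algebra k R]
    (d : Derivation k K K) (x y : K ⊗[k] R) :
    LinearMap.rTensor R (d : K →ₗ[k] K) (x * y) =
      LinearMap.rTensor R (d : K →ₗ[k] K) x * y + x * LinearMap.rTensor R (d : K →ₗ[k] K) y := by
  induction x using TensorProduct.induction_on with
  | zero => simp
  | add x x' hx hx' => rw [add_mul, map_add, map_add, hx, hx']; ring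
  | tmul a r =>
    induction y using TensorProduct.induction_on with
    | zero => simp
    | add y y' hy hy' => rw [mul_add, map_add, map_add, hy, hy']; ring
    | tmul b s =>
      simp only [Algebra.TensorProduct.tmul_mul_tmul, LinearMap.rTensor_tmul]
      rw [← TensorProduct.add_tmul]
      congr 1
      change d (a * b) = d a * b + a * d b
      rw [d.leibniz, smul_eq_mul, smul_eq_mul]
      ring

theorem leib_l {k K R : Type} [Field k] [Field K] [CommRing R] [Algebra k K] [Algebra k R]
    (d : Derivation k R R) (x y : K ⊗[k] R) :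
    LinearMap.lTensor K (d : R →ₗ[k] R) (x * y) =
      LinearMap.lTensor K (d : R →ₗ[k] R) x * y + x * LinearMap.lTensor K (d : R →ₗ[k] R) y := by
  induction x using TensorProduct.induction_on with
  | zero => simp
  | add x x' hx hx' => rw [add_mul, map_add, map_add, hx, hx']; ring
  | tmul a r =>
    induction y using TensorProduct.induction_on with
    | zero => simp
    | add y y' hy hy' => rw [mul_add, map_add, map_add, hy, hy']; ring
    | tmul b s =>
      simp only [Algebra.TensorProduct.tmul_mul_tmul, LinearMap.lTensor_tmul]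
      rw [← TensorProduct.tmul_add]
      congr 1
      change d (r * s) = d r * s + r * d s
      rw [d.leibniz, smul_eq_mul, smul_eq_mul]
      ring

theorem comm_lr {k K R : Type} [Field k] [Field K] [CommRing R] [Algebra k K] [Algebra k R]
    (d : K →ₗ[k] K) (e : R →ₗ[k] R) (x : K ⊗[k] R) :
    LinearMap.rTensor R d (LinearMap.lTensor K e x) =
      LinearMap.lTensor K e (LinearMap.rTensor R d x) := by
  induction x using TensorProduct.induction_on with
  | zero => simp
  | add x y hx hy => simp only [map_add, hx, hy]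
  | tmul a r => simp

theorem comm_rid {k K R : Type} [Field k] [Field K] [CommRing R] [Algebra k K] [Algebra k R]
    (d : K →ₗ[k] K) (φ : R →ₗ[k] k) (x : K ⊗[k] R) :
    TensorProduct.rid k K (LinearMap.lTensor K φ (LinearMap.rTensor R d x)) =
      d (TensorProduct.rid k K (LinearMap.lTensor K φ x)) := by
  induction x using TensorProduct.induction_on with
  | zero => simp
  | add x y hx hy => simp only [map_add, hx, hy]
  | tmul a r => simp

end GDfmAux

theorem tDfm : S_Dfm := by
  intro k K R ι n _ _ _ _ _ _ _ D δ A ψ hψ hA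
  obtain ⟨φ, hφ⟩ := GDfmAux.factor (δ : R →ₗ[k] R) ψ hψ
  have hF := GDfmAux.formula
    (fun i => (LinearMap.rTensor R ((D i : K →ₗ[k] K))).toAddMonoidHom)
    (LinearMap.lTensor K (δ : R →ₗ[k] R)).toAddMonoidHom
    (fun i a b => GDfmAux.leib_r (D i) a b) (fun a b => GDfmAux.leib_l δ a b)
    (fun i a => GDfmAux.comm_lr _ _ a) A hA
  let ξ : ι → ι → TensorProduct k K R := fun i j =>
    (A i * (A j).map (LinearMap.lTensor K (δ : R →ₗ[k] R)) -
      A j * (A i).map (LinearMap.lTensor K (δ : R →ₗ[k] R))).trace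
  have hξ : ∀ i j l, LinearMap.lTensor K (δ : R →ₗ[k] R) (CS A i j l) =
      LinearMap.rTensor R (D i : K →ₗ[k] K) (ξ j l) +
      LinearMap.rTensor R (D j : K →ₗ[k] K) (ξ l i) +
      LinearMap.rTensor R (D l : K →ₗ[k] K) (ξ i j) := fun i j l => hF i j l
  refine ⟨fun i j => TensorProduct.rid k K (LinearMap.lTensor K φ (ξ i j)), fun i j => ?_,
    fun i j l => ?_⟩
  · have e : ξ i j = - ξ j i := by
      simp only [ξ]
      rw [← Matrix.trace_neg, neg_sub]
    change TensorProduct.rid k K (LinearMap.lTensor K φ (ξ i j)) =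
      -TensorProduct.rid k K (LinearMap.lTensor K φ (ξ j i))
    rw [e, map_neg, map_neg]
  · change TensorProduct.rid k K (LinearMap.lTensor K ψ (CS A i j l)) = _
    rw [hφ, LinearMap.lTensor_comp, LinearMap.comp_apply, hξ, map_add, map_add, map_add, map_add,
      GDfmAux.comm_rid, GDfmAux.comm_rid, GDfmAux.comm_rid]
    rfl

end Pool.Agent.M7
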