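import Pool.Agent.Lib.MP_7baa7a_ag.Defs2
import Pool.Agent.Lib.MP_7baa7a_ag.Dfm
import Pool.Agent.Lib.MP_7baa7a_ag.Coef

/-!
# Families of flat connections over an affine curve: the class of a member and the expansion at infinity
-/

set_option autoImplicit false

open Matrix TensorProduct

namespace Pool.Agent.M7

namespace Fam

open Coef

variable {k K R : Type} [Field k] [Field K] [CommRing R] [Algebra k K] [Algebra k R]

theorem evT_D (t₀ : R →ₐ[k] k) (d : Derivation k K K) (y : K ⊗[k] R) :
    evT t₀ (LinearMap.rTensor R (d : K →ₗ[k] K) y) = d (evT t₀ y) := by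
  induction y using TensorProduct.induction_on with
  | zero => simp
  | add x y hx hy => rw [map_add, map_add, map_add, map_add, hx, hy]
  | tmul a r =>
    rw [LinearMap.rTensor_tmul, evT_tmul, evT_tmul, d.leibniz, d.map_algebraMap, smul_zero, zero_add, smul_eq_mul,
      mul_comm]
    rfl

theorem exT_D (e : R →+* LaurentSeries k) (he : ∀ c, e (algebraMap k R c) = HahnSeries.C c) (d : Derivation k K K)
    (y : K ⊗[k] R) : exT e he (LinearMap.rTensor R (d : K →ₗ[k] K) y) =
      lD ((d : K →ₗ[k] K).toAddMonoidHom) (exT e he y) := by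
  induction y using TensorProduct.induction_on with
  | zero => simp
  | add x y hx hy => rw [map_add, map_add, map_add, map_add, hx, hy]
  | tmul a r =>
    rw [LinearMap.rTensor_tmul, exT_tmul, exT_tmul]
    ext m
    rw [lD_coeff, HahnSeries.C_mul_eq_smul, HahnSeries.C_mul_eq_smul, HahnSeries.coeff_smul, HahnSeries.coeff_smul,
      lmap_coeff, smul_eq_mul, smul_eq_mul]
    show d a * _ = d (a * _)
    rw [d.leibniz, d.map_algebraMap, smul_zero, zero_add, smul_eq_mul, mul_comm]

/-- the functional `r ↦ r(t₀) - (constant coefficient of the expansion of r)` -/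
noncomputable def psi (t₀ : R →ₐ[k] k) (e : R →+* LaurentSeries k) (he : ∀ c, e (algebraMap k R c) = HahnSeries.C c) : R →ₗ[k] k where
  toFun r := t₀ r - (e r).coeff 0
  map_add' a b := by
    rw [map_add, map_add, HahnSeries.coeff_add]
    ring
  map_smul' c a := by
    rw [Algebra.smul_def, map_mul, map_mul, he, HahnSeries.C_mul_eq_smul, HahnSeries.coeff_smul, AlgHom.commutes,
      smul_eq_mul, smul_eq_mul, RingHom.id_apply, mul_sub]
    rfl

theorem rid_psi (t₀ : R →ₐ[k] k) (e : R →+* LaurentSeries k) (he : ∀ c, e (algebraMap k R c) = HahnSeries.C c)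
    (y : K ⊗[k] R) : TensorProduct.rid k K (LinearMap.lTensor K (psi t₀ e he) y) =
      evT t₀ y - (exT e he y).coeff 0 := by
  induction y using TensorProduct.induction_on with
  | zero => simp
  | add x y hx hy =>
    rw [map_add, map_add, map_add, map_add, hx, hy, HahnSeries.coeff_add]
    ring
  | tmul a r =>
    rw [LinearMap.lTensor_tmul, TensorProduct.rid_tmul, evT_tmul, exT_tmul, HahnSeries.C_mul_eq_smul,
      HahnSeries.coeff_smul, lmap_coeff, smul_eq_mul, Algebra.smul_def]
    show algebraMap k K (t₀ r - (e r).coeff 0) * a = _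
    rw [map_sub]
    ring

variable {ι n : Type} [Fintype n] [DecidableEq n]

omit [DecidableEq n] in
/-- the expansion at infinity of a family of flat connections is flat -/
theorem fam_flat (e : R →+* LaurentSeries k) (he : ∀ c, e (algebraMap k R c) = HahnSeries.C c)
    (D : ι → Derivation k K K) {A : ι → Matrix n n (K ⊗[k] R)}
    (hA : Flat (fun i => ⇑(LinearMap.rTensor R ((D i : K →ₗ[k] K)))) A) :
    Flat (fun i => lD ((D i : K →ₗ[k] K).toAddMonoidHom)) fun i => (A i).map (exT e he) :=
  flat_map (D' := fun i => lD ((D i : K →ₗ[k] K).toAddMonoidHom)) (exT e he) (fun i a => exT_D e he (D i) a) hA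

/-- the class of the member at `t₀` is the constant coefficient of the class of the expansion at infinity -/
theorem fam_class (D : ι → Derivation k K K) (δ : Derivation k R R)
    (hδ : ∀ r, δ r = 0 → ∃ c, algebraMap k R c = r) (t₀ : R →ₐ[k] k) (e : R →+* LaurentSeries k)
    (he : ∀ c, e (algebraMap k R c) = HahnSeries.C c) {A : ι → Matrix n n (K ⊗[k] R)}
    (hA : Flat (fun i => ⇑(LinearMap.rTensor R ((D i : K →ₗ[k] K)))) A) :
    Exact (fun i => ⇑(D i)) fun i j l =>
      CS (fun i => (A i).map (evT t₀)) i j l - (CS (fun i => (A i).map (exT e he)) i j l).coeff 0 := by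
  have h := tDfm k K R ι n D δ A (psi t₀ e he) (fun r hr => by
    obtain ⟨c, rfl⟩ := hδ r hr
    show t₀ (algebraMap k R c) - (e (algebraMap k R c)).coeff 0 = 0
    rw [AlgHom.commutes, he, HahnSeries.C_apply, HahnSeries.coeff_single_same]
    exact sub_self c) hA
  have h' : Exact (fun i => ((D i : K →ₗ[k] K).toAddMonoidHom)) fun i j l =>
      TensorProduct.rid k K (LinearMap.lTensor K (psi t₀ e he) (CS A i j l)) := h
  refine exact_congr (D := fun i => ((D i : K →ₗ[k] K).toAddMonoidHom)) h' fun i j l => ?_
  rw [CS_map, CS_map, rid_psi]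

end Fam

end Pool.Agent.M7
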