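import Pool.Agent.Lib.MP_7baa7a_ag.Spec

/-!
# Module Fit: Fitting decomposition with matrices
-/

set_option autoImplicit false

noncomputable section

namespace Pool.Agent.M7

open Matrix

namespace GFitAux

private lemma fit {K V : Type} [Field K] [AddCommGroup V] [Module K V] [FiniteDimensional K V]
    (h : Module.End K V) (h1 : LinearMap.ker h ≠ ⊥) (h2 : ¬ IsNilpotent h) :
    ∃ W1 W2 : Submodule K V, IsCompl W1 W2 ∧ W1 ≠ ⊥ ∧ W2 ≠ ⊥ ∧ (∀ x ∈ W1, h x ∈ W1) ∧
      (∀ x ∈ W2, h x ∈ W2) ∧ (∃ N : ℕ, ∀ x ∈ W1, (h ^ N) x = 0) ∧ ∀ x ∈ W2, h x = 0 → x = 0 := by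
  obtain ⟨N0, hN0⟩ := Filter.eventually_atTop.1 (LinearMap.eventually_isCompl_ker_pow_range_pow h)
  have hc := hN0 (N0 + 1) (by omega)
  have hk : LinearMap.ker h ≤ LinearMap.ker (h ^ (N0 + 1)) := by
    intro x hx
    rw [LinearMap.mem_ker] at hx ⊢
    rw [pow_succ, Module.End.mul_apply, hx, map_zero]
  have hcom : ∀ x, (h ^ (N0 + 1)) (h x) = h ((h ^ (N0 + 1)) x) := by
    intro x
    rw [← Module.End.mul_apply, ← Module.End.mul_apply, ← pow_succ, ← pow_succ']
  refine ⟨_, _, hc, ?_, ?_, ?_, ?_, ⟨N0 + 1, fun x hx => hx⟩, ?_⟩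
  · intro h'
    apply h1
    rw [h'] at hk
    exact le_bot_iff.1 hk
  · intro h'
    exact h2 ⟨N0 + 1, LinearMap.range_eq_bot.1 h'⟩
  · intro x hx
    rw [LinearMap.mem_ker] at hx ⊢
    rw [hcom, hx, map_zero]
  · rintro _ ⟨y, rfl⟩
    exact ⟨h y, hcom y⟩
  · intro x hx hx0
    have h3 : x ∈ LinearMap.ker (h ^ (N0 + 1)) := hk (LinearMap.mem_ker.2 hx0)
    have h4 := hc.disjoint
    rw [Submodule.disjoint_def] at h4
    exact h4 x h3 hx

private lemma ev {K n : Type} [Field K] [Fintype n] [DecidableEq n] [IsAlgClosed K] [CharZero K]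
    (M : Matrix n n K) (h0 : M.trace = 0) (hM : ¬ IsNilpotent M) :
    ∃ z : K, LinearMap.ker (Matrix.toLinAlgEquiv' M - algebraMap K (Module.End K (n → K)) z) ≠ ⊥ ∧
      ¬ IsNilpotent (Matrix.toLinAlgEquiv' M - algebraMap K (Module.End K (n → K)) z) := by
  have hn : Nonempty n := by
    by_contra hne
    rw [not_nonempty_iff] at hne
    exact hM ⟨1, by ext i; exact (hne.false i).elim⟩
  obtain ⟨z, hz⟩ := Module.End.exists_eigenvalue (Matrix.toLinAlgEquiv' M)
  refine ⟨z, ?_, ?_⟩
  · have h1 : LinearMap.ker (Matrix.toLinAlgEquiv' M - algebraMap K (Module.End K (n → K)) z) ≠ ⊥ := by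
      obtain ⟨v, hv⟩ := hz.exists_hasEigenvector
      intro h'
      have h2 : v ∈ LinearMap.ker (Matrix.toLinAlgEquiv' M - algebraMap K (Module.End K (n → K)) z) := by
        rw [LinearMap.mem_ker, LinearMap.sub_apply, hv.apply_eq_smul, Module.algebraMap_end_apply,
          sub_self]
      rw [h', Submodule.mem_bot] at h2
      exact hv.2 h2
    exact h1
  · intro h'
    have e : Matrix.toLinAlgEquiv' M - algebraMap K (Module.End K (n → K)) z =
        Matrix.toLinAlgEquiv' (M - algebraMap K (Matrix n n K) z) := by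
      rw [map_sub, AlgEquiv.commutes]
    rw [e] at h'
    have h2 : IsNilpotent (M - algebraMap K (Matrix n n K) z) := by
      have := h'.map (Matrix.toLinAlgEquiv' (R := K) (n := n)).symm
      rwa [AlgEquiv.symm_apply_apply] at this
    have h3 := (Matrix.isNilpotent_trace_of_isNilpotent h2).eq_zero
    rw [Matrix.trace_sub, h0, zero_sub, neg_eq_zero, Matrix.algebraMap_eq_diagonal,
      Matrix.trace_diagonal] at h3
    simp only [Pi.algebraMap_apply, Algebra.algebraMap_self, RingHom.id_apply, Finset.sum_const,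
      nsmul_eq_mul, mul_eq_zero, Finset.card_univ, Nat.cast_eq_zero, Fintype.card_ne_zero,
      false_or] at h3
    rw [h3, map_zero, sub_zero] at h2
    exact hM h2

private lemma mat_sub {K V ι : Type} [Field K] [AddCommGroup V] [Module K V] [Fintype ι]
    [DecidableEq ι] (b : Module.Basis ι K V) (g : Module.End K V) (z : K) :
    LinearMap.toMatrixAlgEquiv b g - Matrix.scalar ι z =
      LinearMap.toMatrixAlgEquiv b (g - algebraMap K (Module.End K V) z) := by
  have h := map_sub (LinearMap.toMatrixAlgEquiv b) g (algebraMap K (Module.End K V) z)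
  rw [AlgEquiv.commutes] at h
  exact h.symm

end GFitAux

open GFitAux in
theorem tFit : S_Fit := by
  intro K n _ _ _ _ _ M h0 hM
  obtain ⟨z, hz1, hz2⟩ := ev M h0 hM
  obtain ⟨f, hf⟩ : ∃ f, f = Matrix.toLinAlgEquiv' M := ⟨_, rfl⟩
  rw [← hf] at hz1 hz2
  obtain ⟨W1, W2, hc, n1, n2, s1, s2, ⟨N, hN⟩, inj⟩ := fit _ hz1 hz2
  have t1 : ∀ x ∈ W1, f x ∈ W1 := by
    intro x hx
    have h1 := s1 x hx
    rw [LinearMap.sub_apply, Module.algebraMap_end_apply] at h1
    have h2 := W1.add_mem h1 (W1.smul_mem z hx)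
    rwa [sub_add_cancel] at h2
  have t2 : ∀ x ∈ W2, f x ∈ W2 := by
    intro x hx
    have h1 := s2 x hx
    rw [LinearMap.sub_apply, Module.algebraMap_end_apply] at h1
    have h2 := W2.add_mem h1 (W2.smul_mem z hx)
    rwa [sub_add_cancel] at h2
  obtain ⟨f1, hf1⟩ : ∃ f1 : Module.End K W1, ∀ x, ((f1 x : W1) : n → K) = f x :=
    ⟨f.restrict t1, fun x => rfl⟩
  obtain ⟨f2, hf2⟩ : ∃ f2 : Module.End K W2, ∀ x, ((f2 x : W2) : n → K) = f x :=
    ⟨f.restrict t2, fun x => rfl⟩
  let b1 := Module.finBasis K W1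
  let b2 := Module.finBasis K W2
  let e := Submodule.prodEquivOfIsCompl W1 W2 hc
  let B := (b1.prod b2).map e
  let c := Pi.basisFun K n
  let ε := c.indexEquiv B
  let B' := B.reindex ε.symm
  have hfe : ∀ p : W1 × W2, f (e p) = e (f1 p.1, f2 p.2) := by
    intro p
    have h1 : e p = (p.1 : n → K) + p.2 := rfl
    have h2 : e (f1 p.1, f2 p.2) = ((f1 p.1 : W1) : n → K) + (f2 p.2 : W2) := rfl
    rw [h1, h2, map_add, hf1, hf2]
  have hBi : ∀ j, B j = e ((b1.prod b2) j) := fun j => Module.Basis.map_apply _ _ _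
  have hBr : ∀ p i, B.repr (e p) i = (b1.prod b2).repr p i := by
    intro p i
    change (b1.prod b2).repr (e.symm (e p)) i = _
    rw [LinearEquiv.symm_apply_apply]
  refine ⟨_, _, ε, ⟨c.toMatrix B', B'.toMatrix c, c.toMatrix_mul_toMatrix_flip B',
    B'.toMatrix_mul_toMatrix_flip c⟩, LinearMap.toMatrixAlgEquiv b1 f1,
    LinearMap.toMatrixAlgEquiv b2 f2, ?_, ?_, ⟨z, ?_, ?_⟩, ?_⟩
  · exact Submodule.one_le_finrank_iff.2 n1
  · exact Submodule.one_le_finrank_iff.2 n2
  · rw [mat_sub]
    refine IsNilpotent.map ⟨N, ?_⟩ _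
    have h1 : ∀ (k : ℕ) (x : W1), (((f1 - algebraMap K (Module.End K W1) z) ^ k) x : n → K) =
        ((f - algebraMap K (Module.End K (n → K)) z) ^ k) x := by
      intro k
      induction k with
      | zero => intro x; rfl
      | succ k ih =>
        intro x
        rw [pow_succ, pow_succ, Module.End.mul_apply, Module.End.mul_apply, ih]
        congr 1
        rw [LinearMap.sub_apply, LinearMap.sub_apply, Module.algebraMap_end_apply,
          Module.algebraMap_end_apply, Submodule.coe_sub, hf1, Submodule.coe_smul]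
    ext x
    rw [h1 N x, hN x x.2]
    rfl
  · rw [mat_sub]
    refine IsUnit.map _ ?_
    rw [LinearMap.isUnit_iff_ker_eq_bot, LinearMap.ker_eq_bot']
    intro x hx
    apply Subtype.ext
    refine inj x x.2 ?_
    have h2 := congrArg Subtype.val hx
    rw [LinearMap.sub_apply, Module.algebraMap_end_apply, Submodule.coe_sub, hf2,
      Submodule.coe_smul] at h2
    rw [LinearMap.sub_apply, Module.algebraMap_end_apply]
    exact h2
  · have h1 : LinearMap.toMatrix c c f = M := by
      rw [hf]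
      change LinearMap.toMatrix' (Matrix.toLin' M) = M
      exact LinearMap.toMatrix'_toLin' M
    have h2 : B'.toMatrix c * M * c.toMatrix B' = LinearMap.toMatrix B' B' f := by
      rw [← h1]
      exact basis_toMatrix_mul_linearMap_toMatrix_mul_basis_toMatrix B' c B' c f
    change (B'.toMatrix c * M * c.toMatrix B').submatrix ε.symm ε.symm = _
    rw [h2]
    have h3 : ∀ i j, (LinearMap.toMatrix B' B' f).submatrix ε.symm ε.symm i j =
        (b1.prod b2).repr (f1 ((b1.prod b2) j).1, f2 ((b1.prod b2) j).2) i := by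
      intro i j
      rw [Matrix.submatrix_apply, LinearMap.toMatrix_apply, Module.Basis.repr_reindex_apply,
        Module.Basis.reindex_apply, Equiv.symm_symm, Equiv.apply_symm_apply,
        Equiv.apply_symm_apply, hBi, hfe, hBr]
    ext i j
    rw [h3]
    rcases i with i | i <;> rcases j with j | j
    · rw [Module.Basis.prod_repr_inl, fromBlocks_apply₁₁, LinearMap.toMatrixAlgEquiv_apply,
        Module.Basis.prod_apply_inl_fst]
    · rw [Module.Basis.prod_repr_inl, fromBlocks_apply₁₂, Module.Basis.prod_apply_inr_fst]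
      simp
    · rw [Module.Basis.prod_repr_inr, fromBlocks_apply₂₁, Module.Basis.prod_apply_inl_snd]
      simp
    · rw [Module.Basis.prod_repr_inr, fromBlocks_apply₂₂, LinearMap.toMatrixAlgEquiv_apply,
        Module.Basis.prod_apply_inr_snd]

end Pool.Agent.M7
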