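import Pool.Agent.Lib.MP_7baa7a_ag.Spec

/-!
# Composition of gauge transformations
-/

set_option autoImplicit false

open Matrix

namespace Pool.Agent.M7

namespace GMulAux

theorem map_mul {F m n p : Type} [CommRing F] [Fintype n] {D : F →+ F} (h : IsDer D) (M : Matrix m n F)
    (N : Matrix n p F) : (M * N).map D = M.map D * N + M * N.map D := by
  ext a b
  rw [Matrix.map_apply, Matrix.mul_apply, map_sum, Matrix.add_apply, Matrix.mul_apply, Matrix.mul_apply,
    ← Finset.sum_add_distrib]
  refine Finset.sum_congr rfl fun c _ => ?_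
  rw [h, Matrix.map_apply, Matrix.map_apply]

end GMulAux

theorem tGMul : S_GMul := by
  intro F n _ _ _ D hD g h A
  unfold gau1
  rw [_root_.mul_inv_rev, Units.val_mul, Units.val_mul, GMulAux.map_mul hD]
  have hg : (↑g⁻¹ : Matrix n n F) * (g : Matrix n n F) = 1 := by
    rw [← Units.val_mul, inv_mul_cancel, Units.val_one]
  simp only [Matrix.mul_add, Matrix.add_mul, Matrix.mul_assoc]
  rw [← Matrix.mul_assoc (↑g⁻¹ : Matrix n n F) (g : Matrix n n F) ((h : Matrix n n F).map D), hg, Matrix.one_mul]
  rw [add_assoc]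

end Pool.Agent.M7
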