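import Pool.Agent.Lib.MP_7baa7a_ag.Spec

/-!
# Families of flat connections: a common lattice
-/

set_option autoImplicit false

noncomputable section

open Matrix

namespace Pool.Agent.M7

namespace GLatAux

variable {K n : Type} [Field K] [Fintype n] [DecidableEq n]

/-- the operator `∇ v = D v + A v` -/
def nab (D : K →+ K) (A : Matrix n n (LaurentSeries K)) (v : n → LaurentSeries K) :
    n → LaurentSeries K := (fun a => lD D (v a)) + A *ᵥ v

theorem noPole_alg (f : PowerSeries K) :
    NoPole (algebraMap (PowerSeries K) (LaurentSeries K) f) := by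
  intro m hm
  rw [LaurentSeries.coe_algebraMap, PowerSeries.coeff_coe, if_pos hm]

theorem exists_alg {x : LaurentSeries K} (h : NoPole x) :
    ∃ f : PowerSeries K, algebraMap (PowerSeries K) (LaurentSeries K) f = x := by
  refine ⟨PowerSeries.mk fun k => x.coeff k, ?_⟩
  ext m
  rw [LaurentSeries.coe_algebraMap, PowerSeries.coeff_coe]
  by_cases hm : m < 0
  · rw [if_pos hm, h m hm]
  · rw [if_neg hm, PowerSeries.coeff_mk]
    congr 1
    omega

theorem alg_smul (f : PowerSeries K) (x : n → LaurentSeries K) :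
    (algebraMap (PowerSeries K) (LaurentSeries K) f) • x = f • x := by
  funext a
  rw [Pi.smul_apply, Pi.smul_apply, smul_eq_mul]
  exact (Algebra.smul_def f (x a)).symm

theorem lD_mulVec {D : K →+ K} (h : IsDer D) (A : Matrix n n (LaurentSeries K))
    (v : n → LaurentSeries K) : (fun a => lD D ((A *ᵥ v) a)) =
      (A.map (lD D)) *ᵥ v + A *ᵥ (fun a => lD D (v a)) := by
  funext a
  simp only [Matrix.mulVec, dotProduct, Pi.add_apply, Matrix.map_apply, map_sum]
  rw [← Finset.sum_add_distrib]
  exact Finset.sum_congr rfl fun b _ => lD_isDer h _ _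

theorem nab_add (D : K →+ K) (A : Matrix n n (LaurentSeries K)) (v w : n → LaurentSeries K) :
    nab D A (v + w) = nab D A v + nab D A w := by
  unfold nab
  rw [Matrix.mulVec_add]
  funext a
  simp only [Pi.add_apply, map_add]
  ring

theorem nab_zero (D : K →+ K) (A : Matrix n n (LaurentSeries K)) :
    nab D A 0 = 0 := by
  unfold nab
  rw [Matrix.mulVec_zero]
  funext a
  simp

theorem nab_mul {D : K →+ K} (h : IsDer D) (A : Matrix n n (LaurentSeries K)) (f : LaurentSeries K)
    (v : n → LaurentSeries K) : nab D A (f • v) = lD D f • v + f • nab D A v := by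
  unfold nab
  rw [Matrix.mulVec_smul]
  funext a
  simp only [Pi.add_apply, Pi.smul_apply, smul_eq_mul]
  rw [lD_isDer h]
  ring

theorem nab_comm {D D' : K →+ K} (h : IsDer D) (h' : IsDer D') (hc : ∀ a, D (D' a) = D' (D a))
    (A A' : Matrix n n (LaurentSeries K))
    (hf : A'.map (lD D) - A.map (lD D') + (A * A' - A' * A) = 0) (v : n → LaurentSeries K) :
    nab D A (nab D' A' v) = nab D' A' (nab D A v) := by
  have e1 : (fun a => lD D ((fun a => lD D' (v a)) a + (A' *ᵥ v) a)) =
      (fun a => lD D (lD D' (v a))) + (fun a => lD D ((A' *ᵥ v) a)) := by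
    funext a
    simp only [Pi.add_apply, map_add]
  have e2 : (fun a => lD D' ((fun a => lD D (v a)) a + (A *ᵥ v) a)) =
      (fun a => lD D' (lD D (v a))) + (fun a => lD D' ((A *ᵥ v) a)) := by
    funext a
    simp only [Pi.add_apply, map_add]
  have e3 : (fun a => lD D (lD D' (v a))) = (fun a => lD D' (lD D (v a))) := by
    funext a
    ext m
    rw [lD_coeff, lD_coeff, lD_coeff, lD_coeff]
    exact hc _
  have hv := congrArg (fun M => M *ᵥ v) hf
  simp only [Matrix.add_mulVec, Matrix.sub_mulVec, Matrix.zero_mulVec] at hv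
  show (fun a => lD D ((fun a => lD D' (v a)) a + (A' *ᵥ v) a)) + A *ᵥ ((fun a => lD D' (v a)) + A' *ᵥ v) =
    (fun a => lD D' ((fun a => lD D (v a)) a + (A *ᵥ v) a)) + A' *ᵥ ((fun a => lD D (v a)) + A *ᵥ v)
  rw [e1, e2, lD_mulVec h, lD_mulVec h', e3, Matrix.mulVec_add, Matrix.mulVec_add, Matrix.mulVec_mulVec,
    Matrix.mulVec_mulVec]
  have hv' : A'.map (lD D) *ᵥ v = A.map (lD D') *ᵥ v - ((A * A') *ᵥ v - (A' * A) *ᵥ v) := by
    rw [eq_sub_iff_add_eq, ← sub_eq_zero, ← hv]
    abel
  rw [hv']
  abel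

/-- the vectors `v` for which `s^c v` is integral -/
def M0 (K n : Type) [Field K] (c : ℕ) : Submodule (PowerSeries K) (n → LaurentSeries K) where
  carrier := {v | ∀ a, NoPole (sX K c * v a)}
  add_mem' := by
    intro v w hv hw a
    rw [Pi.add_apply, mul_add]
    exact noPole_add (hv a) (hw a)
  zero_mem' := by
    intro a
    rw [Pi.zero_apply, mul_zero]
    exact noPole_zero
  smul_mem' := by
    intro f v hv a
    rw [Pi.smul_apply, Algebra.smul_def, mul_left_comm]
    exact noPole_mul (noPole_alg f) (hv a)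

theorem mem_M0 (c : ℕ) (v : n → LaurentSeries K) : v ∈ M0 K n c ↔ ∀ a, NoPole (sX K c * v a) := Iff.rfl

theorem sX_mul (a b : ℤ) : sX K a * sX K b = sX K (a + b) := single_mul_single a b

theorem M0_mulVec (b : ℕ) (g : Matrix n n (LaurentSeries K)) (hg : ∀ i j, NoPole (sX K b * g i j))
    (c : ℕ) (v : n → LaurentSeries K) (hv : v ∈ M0 K n c) : g *ᵥ v ∈ M0 K n (c + b) := by
  intro a
  have e : sX K ((c + b : ℕ) : ℤ) * (g *ᵥ v) a = ∑ j, (sX K b * g a j) * (sX K c * v j) := by
    simp only [Matrix.mulVec, dotProduct]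
    rw [Finset.mul_sum]
    refine Finset.sum_congr rfl fun j _ => ?_
    rw [Nat.cast_add, ← sX_mul]
    ring
  rw [e]
  exact noPole_sum _ fun j _ => noPole_mul (hg a j) (hv j)

theorem M0_nab {D : K →+ K} (h : IsDer D) (B : Matrix n n (LaurentSeries K)) (hB : NP B) (c : ℕ)
    (v : n → LaurentSeries K) (hv : v ∈ M0 K n c) : nab D B v ∈ M0 K n c := by
  intro a
  show NoPole (sX K c * (lD D (v a) + (B *ᵥ v) a))
  rw [mul_add]
  refine noPole_add ?_ ?_
  · have := lD_single_mul h (c : ℤ) (v a)
    have h2 := noPole_lD D (hv a)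
    unfold sX at h2 ⊢
    rwa [this] at h2
  · have := M0_mulVec 0 B (fun i j => by
      have e : sX K ((0 : ℕ) : ℤ) = 1 := rfl
      rw [e, one_mul]
      exact hB i j) c v hv a
    rwa [add_zero] at this

theorem nab_gau {D : K →+ K} (h : IsDer D) (A : Matrix n n (LaurentSeries K))
    (g : GL n (LaurentSeries K)) (w : n → LaurentSeries K) :
    nab D A ((g : Matrix n n (LaurentSeries K)) *ᵥ w) =
      (g : Matrix n n (LaurentSeries K)) *ᵥ nab D (gau1 (lD D) g A) w := by
  unfold nab gau1
  have h1 : (g : Matrix n n (LaurentSeries K)) * (↑g⁻¹ : Matrix n n (LaurentSeries K)) = 1 :=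
    Units.mul_inv g
  rw [lD_mulVec h, Matrix.mulVec_add, Matrix.add_mulVec, Matrix.mulVec_add, Matrix.mulVec_mulVec,
    Matrix.mulVec_mulVec, Matrix.mulVec_mulVec, ← Matrix.mul_assoc, ← Matrix.mul_assoc,
    ← Matrix.mul_assoc, h1, Matrix.one_mul, Matrix.one_mul]
  abel

theorem iter_bound {D : K →+ K} (h : IsDer D) (A : Matrix n n (LaurentSeries K))
    (g : GL n (LaurentSeries K)) (hg : NP (gau1 (lD D) g A)) :
    ∃ c' : ℕ, ∀ (m c : ℕ) (v : n → LaurentSeries K), v ∈ M0 K n c → (nab D A)^[m] v ∈ M0 K n (c + c') := by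
  obtain ⟨a, ha⟩ := exists_noPole_fin (fun ij : n × n => (g : Matrix n n (LaurentSeries K)) ij.1 ij.2)
  obtain ⟨b, hb⟩ := exists_noPole_fin (fun ij : n × n => (↑g⁻¹ : Matrix n n (LaurentSeries K)) ij.1 ij.2)
  refine ⟨b + a, fun m c v hv => ?_⟩
  have h1 : (g : Matrix n n (LaurentSeries K)) * (↑g⁻¹ : Matrix n n (LaurentSeries K)) = 1 :=
    Units.mul_inv g
  have key : ∀ (k : ℕ) (w : n → LaurentSeries K), w ∈ M0 K n (c + b) →
      (nab D A)^[k] ((g : Matrix n n (LaurentSeries K)) *ᵥ w) ∈ M0 K n (c + (b + a)) := by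
    intro k
    induction k with
    | zero =>
      intro w hw
      rw [Function.iterate_zero, id_eq, ← add_assoc]
      exact M0_mulVec a _ (fun i j => ha a le_rfl (i, j)) _ _ hw
    | succ k ih =>
      intro w hw
      rw [Function.iterate_succ_apply, nab_gau h]
      exact ih _ (M0_nab h _ hg _ _ hw)
  have h2 : (g : Matrix n n (LaurentSeries K)) *ᵥ ((↑g⁻¹ : Matrix n n (LaurentSeries K)) *ᵥ v) = v := by
    rw [Matrix.mulVec_mulVec, h1, Matrix.one_mulVec]
  rw [← h2]
  exact key m _ (M0_mulVec b _ (fun i j => hb b le_rfl (i, j)) _ _ hv)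

theorem M0_mono {c c' : ℕ} (h : c ≤ c') : M0 K n c ≤ M0 K n c' := by
  intro v hv a
  have e : sX K (c' : ℤ) = sX K ((c' : ℤ) - c) * sX K c := by
    rw [sX_mul, sub_add_cancel]
  rw [e, mul_assoc]
  exact noPole_mul (noPole_single (by omega) 1) (hv a)

theorem exists_mod {d : ℕ} (D : Fin d → K →+ K) (hD : ∀ i, IsDer (D i)) (hcom : Com (fun i => D i))
    (A : Fin d → Matrix n n (LaurentSeries K)) (hA : Flat (fun i => lD (D i)) A)
    (hg : ∀ i, ∃ g : GL n (LaurentSeries K), NP (gau1 (lD (D i)) g (A i))) (T : Finset (Fin d)) :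
    ∃ (M : Submodule (PowerSeries K) (n → LaurentSeries K)) (c : ℕ), M0 K n 0 ≤ M ∧ M ≤ M0 K n c ∧
      ∀ i ∈ T, ∀ v ∈ M, nab (D i) (A i) v ∈ M := by
  classical
  induction T using Finset.induction_on with
  | empty =>
    refine ⟨M0 K n 0, 0, le_rfl, le_rfl, ?_⟩
    intro i hi
    exact absurd hi (Finset.notMem_empty i)
  | insert j T hj ih =>
    obtain ⟨M, c, h1, h2, h3⟩ := ih
    obtain ⟨g, hg⟩ := hg j
    obtain ⟨c', hc'⟩ := iter_bound (hD j) (A j) g hg
    let S : Set (n → LaurentSeries K) := {w | ∃ (m : ℕ) (v : n → LaurentSeries K), v ∈ M ∧ (nab (D j) (A j))^[m] v = w}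
    have hMS : ∀ v ∈ M, v ∈ Submodule.span (PowerSeries K) S := fun v hv =>
      Submodule.subset_span ⟨0, v, hv, rfl⟩
    have hstab : ∀ i, (∀ w ∈ S, nab (D i) (A i) w ∈ Submodule.span (PowerSeries K) S) →
        ∀ v ∈ Submodule.span (PowerSeries K) S, nab (D i) (A i) v ∈ Submodule.span (PowerSeries K) S := by
      intro i hi v hv
      induction hv using Submodule.span_induction with
      | mem x hx => exact hi x hx
      | zero =>
        rw [nab_zero]
        exact Submodule.zero_mem _
      | add x y _ _ hx hy =>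
        rw [nab_add]
        exact Submodule.add_mem _ hx hy
      | smul f x hx' hx =>
        rw [← alg_smul, nab_mul (hD i)]
        obtain ⟨f', hf'⟩ := exists_alg (noPole_lD (D i) (noPole_alg f))
        rw [← hf', alg_smul, alg_smul]
        exact Submodule.add_mem _ (Submodule.smul_mem _ _ hx') (Submodule.smul_mem _ _ hx)
    refine ⟨Submodule.span (PowerSeries K) S, c + c', fun v hv => hMS v (h1 hv), ?_, ?_⟩
    · rw [Submodule.span_le]
      rintro w ⟨m, v, hv, rfl⟩
      exact hc' m c v (h2 hv)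
    · intro i hi
      refine hstab i ?_
      rintro w ⟨m, v, hv, rfl⟩
      rcases Finset.mem_insert.1 hi with rfl | hi
      · refine Submodule.subset_span ⟨m + 1, v, hv, ?_⟩
        rw [Function.iterate_succ_apply']
      · have e : nab (D i) (A i) ((nab (D j) (A j))^[m] v) = (nab (D j) (A j))^[m] (nab (D i) (A i) v) := by
          induction m with
          | zero => rfl
          | succ k ihk =>
            rw [Function.iterate_succ_apply', Function.iterate_succ_apply', ← ihk]
            exact nab_comm (hD i) (hD j) (fun a => hcom i j a) _ _ (hA i j) _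
        rw [e]
        exact Submodule.subset_span ⟨m, _, h3 i hi v hv, rfl⟩

/-- `s^(-c) w` for an integral vector `w` -/
def psi (K n : Type) [Field K] (c : ℕ) : (n → PowerSeries K) →ₗ[PowerSeries K] (n → LaurentSeries K) where
  toFun w := fun a => sX K (-c) * algebraMap (PowerSeries K) (LaurentSeries K) (w a)
  map_add' := by
    intro v w
    funext a
    simp only [Pi.add_apply, map_add, mul_add]
  map_smul' := by
    intro f v
    funext a
    simp only [Pi.smul_apply, smul_eq_mul, map_mul, RingHom.id_apply, Algebra.smul_def]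
    ring

theorem M0_le_range (c : ℕ) : M0 K n c ≤ LinearMap.range (psi K n c) := by
  intro v hv
  choose w hw using fun a => exists_alg (hv a)
  refine ⟨w, ?_⟩
  funext a
  show sX K (-c) * algebraMap (PowerSeries K) (LaurentSeries K) (w a) = v a
  rw [hw a, ← mul_assoc, sX_mul, neg_add_cancel]
  exact one_mul (v a)

theorem fg_of_le (c : ℕ) (M : Submodule (PowerSeries K) (n → LaurentSeries K)) (h : M ≤ M0 K n c) : M.FG := by
  have h1 : M = (M.comap (psi K n c)).map (psi K n c) := by
    rw [Submodule.map_comap_eq, inf_eq_right.2 (le_trans h (M0_le_range c))]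
  rw [h1]
  exact Submodule.FG.map _ (IsNoetherian.noetherian _)

theorem lattice (c : ℕ) (M : Submodule (PowerSeries K) (n → LaurentSeries K)) (h : M ≤ M0 K n c)
    (h0 : M0 K n 0 ≤ M) : M.IsLattice (LaurentSeries K) := by
  refine ⟨fg_of_le c M h, ?_⟩
  rw [eq_top_iff]
  intro v _
  have e : v = ∑ a, v a • (Pi.single a (1 : LaurentSeries K) : n → LaurentSeries K) := by
    funext b
    simp [Finset.sum_apply, Pi.single_apply]
  rw [e]
  refine Submodule.sum_mem _ fun a _ => Submodule.smul_mem _ _ (Submodule.subset_span (h0 ?_))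
  intro b
  have e : sX K ((0 : ℕ) : ℤ) = 1 := rfl
  rw [e, one_mul]
  by_cases hb : b = a
  · subst hb
    rw [Pi.single_eq_same]
    exact noPole_one
  · rw [Pi.single_eq_of_ne hb]
    exact noPole_zero

end GLatAux

open GLatAux in
theorem tLat : S_Lat := by
  intro K n d _ _ _ D hD hcom A hA hg
  obtain ⟨M, c, h0, hc, hst⟩ := exists_mod D hD hcom A hA hg Finset.univ
  have hL : M.IsLattice (LaurentSeries K) := lattice c M hc h0
  have : Module.Free (PowerSeries K) M := Submodule.IsLattice.free (LaurentSeries K) M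
  have hrank : Module.finrank (PowerSeries K) M = Fintype.card n :=
    Submodule.IsLattice.finrank_of_pi (LaurentSeries K) M
  have hcard : Fintype.card (Fin (Module.finrank (PowerSeries K) M)) = Fintype.card n := by
    rw [Fintype.card_fin, hrank]
  let b : Module.Basis n (PowerSeries K) M :=
    (Module.finBasis (PowerSeries K) M).reindex (Fintype.equivOfCardEq hcard)
  let B : Module.Basis n (LaurentSeries K) (n → LaurentSeries K) := b.extendOfIsLattice (LaurentSeries K)
  have hB : ∀ k, B k = (b k).val := fun k => Module.Basis.extendOfIsLattice_apply (LaurentSeries K) b k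
  let G : Matrix n n (LaurentSeries K) := Matrix.of fun a k => B k a
  have hG : G = (Pi.basisFun (LaurentSeries K) n).toMatrix B := by
    ext a k
    rw [Module.Basis.toMatrix_apply, Pi.basisFun_repr]
    rfl
  have hG1 : G * B.toMatrix (Pi.basisFun (LaurentSeries K) n) = 1 := by
    rw [hG, Module.Basis.toMatrix_mul_toMatrix_flip]
  have hG2 : B.toMatrix (Pi.basisFun (LaurentSeries K) n) * G = 1 := by
    rw [hG, Module.Basis.toMatrix_mul_toMatrix_flip]
  let g : GL n (LaurentSeries K) := ⟨G, B.toMatrix (Pi.basisFun (LaurentSeries K) n), hG1, hG2⟩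
  refine ⟨g, fun i => ?_⟩
  have hf : ∀ l : n, ∃ f : n → PowerSeries K, nab (D i) (A i) (B l) =
      ∑ k, algebraMap (PowerSeries K) (LaurentSeries K) (f k) • B k := by
    intro l
    have hm : nab (D i) (A i) (B l) ∈ M := hst i (Finset.mem_univ i) _ (by rw [hB]; exact (b l).2)
    refine ⟨fun k => b.repr ⟨_, hm⟩ k, ?_⟩
    have h1 := congrArg Subtype.val (b.sum_repr ⟨_, hm⟩)
    simp only [Submodule.coe_sum, Submodule.coe_smul] at h1
    refine h1.symm.trans ?_
    refine Finset.sum_congr rfl fun k _ => ?_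
    rw [alg_smul, hB k]
  choose f hf using hf
  let P : Matrix n n (LaurentSeries K) := Matrix.of fun k l =>
    algebraMap (PowerSeries K) (LaurentSeries K) (f l k)
  have hP : A i * G + G.map (lD (D i)) = G * P := by
    refine Matrix.ext fun a l => ?_
    have h1 := congrFun (hf l) a
    have h2 : nab (D i) (A i) (B l) a = lD (D i) (B l a) + ∑ k, A i a k * B l k := rfl
    rw [h2, Finset.sum_apply] at h1
    simp only [Pi.smul_apply, smul_eq_mul] at h1
    rw [Matrix.add_apply, Matrix.mul_apply, Matrix.mul_apply, Matrix.map_apply]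
    show ∑ k, A i a k * B l k + lD (D i) (B l a) =
      ∑ k, B k a * algebraMap (PowerSeries K) (LaurentSeries K) (f l k)
    rw [add_comm, h1]
    exact Finset.sum_congr rfl fun k _ => mul_comm _ _
  have hfin : gau (fun i => lD (D i)) g A i = P := by
    show (↑g⁻¹ : Matrix n n (LaurentSeries K)) * A i * (g : Matrix n n (LaurentSeries K)) +
      (↑g⁻¹ : Matrix n n (LaurentSeries K)) * (g : Matrix n n (LaurentSeries K)).map (lD (D i)) = P
    rw [Matrix.mul_assoc, ← Matrix.mul_add]
    have : A i * (g : Matrix n n (LaurentSeries K)) + (g : Matrix n n (LaurentSeries K)).map (lD (D i)) =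
      (g : Matrix n n (LaurentSeries K)) * P := hP
    rw [this, ← Matrix.mul_assoc, Units.inv_mul, Matrix.one_mul]
  intro a k
  rw [hfin]
  exact noPole_alg _

end Pool.Agent.M7
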