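import Pool.Agent.Lib.MP_7baa7a_ag.Split

/-!
# The class of a family with a pole in terms of the eigenvalues of the leading coefficient
-/

set_option autoImplicit false

open Matrix Polynomial

namespace Pool.Agent.M7

namespace Mult

open Coef

variable {K : Type} [Field K] {d : ℕ}

/-- `w` is the three-form `Tr (B ∧ B ∧ B) / 3` of a flat connection `B` of rank `m` -/
def IsC (D : Fin d → K →+ K) (m : ℕ) (w : Fin d → Fin d → Fin d → K) : Prop :=
  ∃ B : Fin d → Matrix (Fin m) (Fin m) K, Flat (fun i => D i) B ∧ ∀ i j l, w i j l = CS B i j l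

/-- `v` is modulo exact forms a sum over the roots of `χ` of classes of flat connections whose ranks are the multiplicities -/
def SpecSum (D : Fin d → K →+ K) (χ : K[X]) (v : Fin d → Fin d → Fin d → K) : Prop :=
  ∃ w : K → Fin d → Fin d → Fin d → K, (∀ z, IsC D (χ.rootMultiplicity z) (w z)) ∧
    ∀ s : Finset K, (∀ z, χ.IsRoot z → z ∈ s) → Exact (fun i => D i) fun i j l => v i j l - ∑ z ∈ s, w z i j l

theorem CS_sub_zero {F ι n : Type} [CommRing F] [Fintype n] [Subsingleton n] (B : ι → Matrix n n F) (i j l : ι) :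
    CS B i j l = 0 := by
  unfold CS
  have h : B j * B l - B l * B j = 0 := by
    ext a b
    rw [Matrix.sub_apply, Matrix.mul_apply, Matrix.mul_apply, Matrix.zero_apply, sub_eq_zero]
    refine Finset.sum_congr rfl fun c _ => ?_
    rw [Subsingleton.elim b a, Subsingleton.elim c a, mul_comm]
  rw [h, Matrix.mul_zero, Matrix.trace_zero]

theorem isC_of_le {D : Fin d → K →+ K} {m : ℕ} (hm : m ≤ 1) {w : Fin d → Fin d → Fin d → K} (h : IsC D m w) :
    ∀ i j l, w i j l = 0 := by
  obtain ⟨B, -, hB⟩ := h
  intro i j l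
  have : Subsingleton (Fin m) := Fin.subsingleton_iff_le_one.2 hm
  rw [hB, CS_sub_zero]

theorem isC_zero (D : Fin d → K →+ K) : IsC D 0 fun _ _ _ => 0 :=
  ⟨fun _ => 0, fun i j => by ext a; exact a.elim0, fun i j l => (CS_sub_zero _ i j l).symm⟩

theorem isC_add {D : Fin d → K →+ K} {m1 m2 : ℕ} {w1 w2 : Fin d → Fin d → Fin d → K} (h1 : IsC D m1 w1)
    (h2 : IsC D m2 w2) : IsC D (m1 + m2) fun i j l => w1 i j l + w2 i j l := by
  obtain ⟨B1, f1, e1⟩ := h1
  obtain ⟨B2, f2, e2⟩ := h2
  refine ⟨fun i => (fromBlocks (B1 i) 0 0 (B2 i)).submatrix finSumFinEquiv.symm finSumFinEquiv.symm,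
    flat_submatrix _ (flat_block f1 f2), fun i j l => ?_⟩
  rw [CS_submatrix, CS_block, ← e1, ← e2]

theorem exact_zero (D : Fin d → K →+ K) : Exact (fun i => D i) fun _ _ _ => 0 :=
  ⟨fun _ _ => 0, fun _ _ => neg_zero.symm, fun i j l => by simp⟩

theorem specSum_mul {D : Fin d → K →+ K} {χ1 χ2 : K[X]} {v1 v2 : Fin d → Fin d → Fin d → K} (h0 : χ1 * χ2 ≠ 0)
    (h1 : SpecSum D χ1 v1) (h2 : SpecSum D χ2 v2) : SpecSum D (χ1 * χ2) fun i j l => v1 i j l + v2 i j l := by
  obtain ⟨w1, c1, e1⟩ := h1
  obtain ⟨w2, c2, e2⟩ := h2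
  refine ⟨fun z i j l => w1 z i j l + w2 z i j l, fun z => ?_, fun s hs => ?_⟩
  · rw [Polynomial.rootMultiplicity_mul h0]
    exact isC_add (c1 z) (c2 z)
  · refine exact_congr (exact_add (e1 s fun z hz => hs z ?_) (e2 s fun z hz => hs z ?_)) fun i j l => ?_
    · exact Polynomial.root_mul.2 (Or.inl hz)
    · exact Polynomial.root_mul.2 (Or.inr hz)
    · rw [Finset.sum_add_distrib]
      ring

theorem specSum_exact {D : Fin d → K →+ K} {χ : K[X]} {v v' : Fin d → Fin d → Fin d → K} (h : SpecSum D χ v)
    (he : Exact (fun i => D i) fun i j l => v' i j l - v i j l) : SpecSum D χ v' := by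
  obtain ⟨w, c, e⟩ := h
  refine ⟨w, c, fun s hs => exact_congr (exact_add he (e s hs)) fun i j l => ?_⟩
  ring

theorem specSum_pow {D : Fin d → K →+ K} {N : ℕ} (hN : 0 < N) {v w : Fin d → Fin d → Fin d → K} (hw : IsC D N w)
    (he : Exact (fun i => D i) fun i j l => v i j l - w i j l) : SpecSum D (X ^ N) v := by
  classical
  refine ⟨fun z => if z = 0 then w else fun _ _ _ => 0, fun z => ?_, fun s hs => exact_congr he fun i j l => ?_⟩
  · show IsC D ((X ^ N : K[X]).rootMultiplicity z) (if z = 0 then w else fun _ _ _ => 0)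
    by_cases hz : z = 0
    · rw [if_pos hz, hz]
      have h1 := Polynomial.rootMultiplicity_X_sub_C_pow (0 : K) N
      rw [Polynomial.C_0, sub_zero] at h1
      rw [h1]
      exact hw
    · rw [if_neg hz]
      have h1 : (X ^ N : K[X]).rootMultiplicity z = 0 := by
        apply Polynomial.rootMultiplicity_eq_zero
        rw [Polynomial.IsRoot.def, Polynomial.eval_pow, Polynomial.eval_X]
        exact pow_ne_zero N hz
      rw [h1]
      exact isC_zero D
  · have h0 : (0 : K) ∈ s := hs 0 (by
      rw [Polynomial.IsRoot.def, Polynomial.eval_pow, Polynomial.eval_X, zero_pow hN.ne'])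
    have h1 : ∀ z ∈ s, (if z = 0 then w else fun _ _ _ => 0) i j l = if z = 0 then w i j l else 0 := by
      intro z _
      split_ifs <;> rfl
    rw [Finset.sum_congr rfl h1, Finset.sum_ite_eq' s (0 : K), if_pos h0]

theorem rootMult_shift (χ : K[X]) (c z : K) :
    χ.rootMultiplicity z = (χ.comp (X + C c)).rootMultiplicity (z - c) := by
  rw [Polynomial.rootMultiplicity_eq_rootMultiplicity (p := χ) (t := z),
    Polynomial.rootMultiplicity_eq_rootMultiplicity (p := χ.comp (X + C c)) (t := z - c), Polynomial.comp_assoc]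
  congr 2
  rw [Polynomial.add_comp, Polynomial.X_comp, Polynomial.C_comp, add_assoc, ← Polynomial.C_add, sub_add_cancel]

theorem specSum_shift {D : Fin d → K →+ K} {χ : K[X]} (c : K) {v : Fin d → Fin d → Fin d → K}
    (h : SpecSum D (χ.comp (X + C c)) v) : SpecSum D χ v := by
  obtain ⟨w, hw, e⟩ := h
  refine ⟨fun z => w (z - c), fun z => ?_, fun s hs => ?_⟩
  · rw [rootMult_shift χ c z]
    exact hw (z - c)
  · refine exact_congr (e (s.map (Equiv.subRight c).toEmbedding) fun z hz => ?_) fun i j l => ?_
    · rw [Finset.mem_map]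
      refine ⟨z + c, hs _ ?_, ?_⟩
      · rw [Polynomial.IsRoot.def, Polynomial.eval_comp, Polynomial.eval_add, Polynomial.eval_X, Polynomial.eval_C] at hz
        exact hz
      · show z + c - c = z
        rw [add_sub_cancel_right]
    · rw [Finset.sum_map]
      rfl

theorem specSum_one {D : Fin d → K →+ K} {v : Fin d → Fin d → Fin d → K} (hv : ∀ i j l, v i j l = 0) :
    SpecSum D 1 v := by
  refine ⟨fun _ _ _ _ => 0, fun z => ?_, fun s _ => exact_congr (exact_zero D) fun i j l => ?_⟩
  · rw [Polynomial.rootMultiplicity_eq_zero]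
    · exact isC_zero D
    · rw [Polynomial.IsRoot.def, Polynomial.eval_one]
      exact one_ne_zero
  · rw [hv]
    simp

theorem charpoly_nil {N : ℕ} {M : Matrix (Fin N) (Fin N) K} (h : IsNilpotent M) : M.charpoly = X ^ N := by
  have h1 := (Matrix.isNilpotent_charpoly_sub_pow_of_isNilpotent h).eq_zero
  rw [sub_eq_zero, Fintype.card_fin] at h1
  exact h1

end Mult

open Coef Mult

/-- **The class of a family with a pole.**  Let a component of a formal family of flat connections have a pole (in some
gauge) with the leading coefficient `Θ`. The class of the family is the sum over the eigenvalues of `Θ` of classes of flat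
connections whose ranks are the multiplicities. -/
theorem spectral (hGMul : S_GMul) (hGau : S_Gau) (hTrc : S_Trc) (hPol : S_Pol) (hOne : S_One) (hOth : S_Oth)
    (hTri : S_Tri) (hLat : S_Lat) {K : Type} [Field K] [IsAlgClosed K] [CharZero K] {d : ℕ} {D : Fin d → K →+ K}
    (hD : ∀ i, IsDer (D i)) (hC : Com fun i => D i) (hx : ∀ i, ∃ x, D i x = 1) : ∀ (N : ℕ)
    (A : Fin d → Matrix (Fin N) (Fin N) (LaurentSeries K)), Flat (fun i => lD (D i)) A → ∀ (i : Fin d) (p : ℕ), 0 < p →
    ∀ (g : GL (Fin N) (LaurentSeries K)) (C : Matrix (Fin N) (Fin N) (LaurentSeries K)), NP C →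
      gau1 (lD (D i)) g (A i) = sX K (-p) • C →
      SpecSum D (c0 C).charpoly fun i j l => (CS A i j l).coeff 0 := by
  intro N
  induction N using Nat.strong_induction_on with
  | _ N ih =>
    intro A hA i p hp g C hNC hg
    rcases Nat.eq_zero_or_pos N with hN | hN
    · subst hN
      rw [Matrix.charpoly_isEmpty]
      exact specSum_one fun i j l => by rw [CS_sub_zero, HahnSeries.coeff_zero]
    have hD' : ∀ i, IsDer (lD (D i)) := fun i => lD_isDer (hD i)
    have hC' : Com fun i => lD (D i) := lD_com hC
    have hN0 : (N : LaurentSeries K) ≠ 0 := by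
      have : CharZero (LaurentSeries K) :=
        charZero_of_injective_ringHom (HahnSeries.C_injective (Γ := ℤ) (R := K))
      exact Nat.cast_ne_zero.2 hN.ne'
    set t : Fin d → LaurentSeries K := fun i => (A i).trace * (N : LaurentSeries K)⁻¹ with ht
    have htc : ∀ i j, lD (D i) (t j) = lD (D j) (t i) := by
      intro i j
      rw [ht]
      simp only
      rw [hD' i, hD' j, der_natInv (hD' i), der_natInv (hD' j), mul_zero, mul_zero, add_zero, add_zero,
        trace_closed (D := fun i => lD (D i)) hA i j]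
    set A0 : Fin d → Matrix (Fin N) (Fin N) (LaurentSeries K) := fun i => A i - Matrix.scalar (Fin N) (t i) with hA0
    have hfl0 : Flat (fun i => lD (D i)) A0 := flat_scalar (D := fun i => lD (D i)) hA htc
    have hcs0 : ∀ i j l, CS A0 i j l = CS A i j l := fun i j l => CS_scalar A t i j l
    -- the trace of the leading coefficient
    have hpp : sX K p * sX K (-p) = 1 := by
      refine (single_mul_single _ _).trans ?_
      rw [add_neg_cancel]
      rfl
    set τ : LaurentSeries K := ((↑g⁻¹ : Matrix (Fin N) (Fin N) (LaurentSeries K)) *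
      (g : Matrix (Fin N) (Fin N) (LaurentSeries K)).map (lD (D i))).trace with hτ
    have hτn : NoPole τ := hTrc K (Fin N) (D i) (hD i) g
    have htrg : sX K (-p) * C.trace = (A i).trace + τ := by
      have h1 := congrArg Matrix.trace hg
      rw [Matrix.trace_smul, smul_eq_mul] at h1
      rw [← h1, gau1, Matrix.trace_add, hτ, Matrix.mul_assoc, Matrix.trace_mul_comm, Matrix.mul_assoc]
      congr 2
      rw [← Units.val_mul, mul_inv_cancel, Units.val_one, Matrix.mul_one]
    have htrC : C.trace = sX K p * (A i).trace + sX K p * τ := by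
      rw [← mul_add, ← htrg, ← mul_assoc, hpp, one_mul]
    have hnat : NoPole ((N : LaurentSeries K)⁻¹) := by
      have h1 : (N : LaurentSeries K)⁻¹ = HahnSeries.C ((N : K)⁻¹) := by
        rw [map_inv₀, map_natCast]
      rw [h1]
      exact noPole_single le_rfl _
    have hXp : NoPole (sX K p) := noPole_single (by omega) 1
    have hst : sX K p * t i = (C.trace - sX K p * τ) * (N : LaurentSeries K)⁻¹ := by
      rw [htrC, ht]
      ring
    have htrn : NoPole C.trace := noPole_sum _ fun a _ => hNC a a
    have hsn : NoPole (sX K p * t i) := by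
      rw [hst]
      exact noPole_mul (noPole_sub htrn (noPole_mul hXp hτn)) hnat
    set C' : Matrix (Fin N) (Fin N) (LaurentSeries K) := C - Matrix.scalar (Fin N) (sX K p * t i) with hC'def
    have hNs : NP (Matrix.scalar (Fin N) (sX K p * t i)) := by
      intro a b
      rw [Matrix.scalar_apply]
      by_cases hab : a = b
      · subst hab
        rw [Matrix.diagonal_apply_eq]
        exact hsn
      · rw [Matrix.diagonal_apply_ne _ hab]
        exact noPole_zero
    have hNC' : NP C' := np_sub hNC hNs
    have hg' : gau1 (lD (D i)) g (A0 i) = sX K (-p) • C' := by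
      have h1 : (↑g⁻¹ : Matrix (Fin N) (Fin N) (LaurentSeries K)) * Matrix.scalar (Fin N) (t i) *
          (g : Matrix (Fin N) (Fin N) (LaurentSeries K)) = Matrix.scalar (Fin N) (t i) := by
        rw [Matrix.mul_assoc, (Matrix.scalar_commute (t i) (fun r => Commute.all _ r) _).eq, ← Matrix.mul_assoc,
          ← Units.val_mul, inv_mul_cancel, Units.val_one, Matrix.one_mul]
      have h2 : sX K (-p) • Matrix.scalar (Fin N) (sX K p * t i) = Matrix.scalar (Fin N) (t i) := by
        rw [Matrix.scalar_apply, Matrix.scalar_apply, ← Matrix.diagonal_smul]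
        congr 1
        funext a
        rw [Pi.smul_apply, smul_eq_mul, ← mul_assoc, mul_comm (sX K (-p)), hpp, one_mul]
      rw [hC'def, smul_sub, h2, ← hg, hA0]
      simp only [gau1, Matrix.mul_sub, Matrix.sub_mul]
      rw [h1]
      abel
    have hc0C' : c0 C' = c0 C - Matrix.scalar (Fin N) ((sX K p * t i).coeff 0) := by
      rw [hC'def, c0_sub]
      congr 1
      ext a b
      simp only [c0, Matrix.map_apply, Matrix.scalar_apply]
      by_cases hab : a = b
      · subst hab
        rw [Matrix.diagonal_apply_eq, Matrix.diagonal_apply_eq]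
      · rw [Matrix.diagonal_apply_ne _ hab, Matrix.diagonal_apply_ne _ hab, HahnSeries.coeff_zero]
    have htrC' : (c0 C').trace = 0 := by
      rw [c0_trace, hC'def, Matrix.trace_sub, Matrix.scalar_apply, Matrix.trace_diagonal, Finset.sum_const,
        Finset.card_univ, Fintype.card_fin, nsmul_eq_mul, hst, mul_comm (N : LaurentSeries K), mul_assoc,
        inv_mul_cancel₀ hN0, mul_one, sub_sub_cancel]
      rw [sX, single_mul_coeff]
      exact hτn _ (by omega)
    have hch : (c0 C').charpoly = (c0 C).charpoly.comp (X + Polynomial.C ((sX K p * t i).coeff 0)) := by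
      rw [hc0C', Matrix.charpoly_sub_scalar]
    refine specSum_shift ((sX K p * t i).coeff 0) ?_
    rw [← hch]
    by_cases hnil : IsNilpotent (c0 C')
    · rw [charpoly_nil hnil]
      obtain ⟨B, hB, eB⟩ := limit hGMul hGau hPol hOne hOth hTri hLat hD hC hx N A hA
      exact specSum_pow hN ⟨B, hB, fun _ _ _ => rfl⟩ eB
    · obtain ⟨a, b, A1, A2, P, S, ha, hb, hab, f1, f2, hex, hP, hS, e1, e2, hchi⟩ :=
        split0 hGMul hGau hOne hOth hTri hD hC hfl0 hp hNC' hg' htrC' hnil
      have hone : ∀ {m : ℕ} (B : Matrix (Fin m) (Fin m) (LaurentSeries K)), gau1 (lD (D i)) 1 B = B := by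
        intro m B
        rw [gau1, inv_one, Units.val_one, Matrix.one_mul, Matrix.mul_one, Matrix.one_mul]
        have h0 : (1 : Matrix (Fin m) (Fin m) (LaurentSeries K)).map (lD (D i)) = 0 := by
          ext a b : 2
          rw [Matrix.map_apply, Matrix.zero_apply]
          by_cases hab : a = b
          · subst hab
            rw [Matrix.one_apply_eq, (hD' i).one]
          · rw [Matrix.one_apply_ne hab, map_zero]
        rw [h0, add_zero]
      have s1 := ih a (by omega) A1 f1 i p hp 1 P hP (by rw [hone, e1])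
      have s2 := ih b (by omega) A2 f2 i p hp 1 S hS (by rw [hone, e2])
      have hne : (c0 P).charpoly * (c0 S).charpoly ≠ 0 :=
        mul_ne_zero (Matrix.charpoly_monic _).ne_zero (Matrix.charpoly_monic _).ne_zero
      rw [hchi]
      refine specSum_exact (specSum_mul hne s1 s2) (exact_congr hex fun i j l => ?_)
      rw [hcs0]

end Pool.Agent.M7
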