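import Pool.Agent.Lib.MP_7baa7a_ag.Spec

/-!
# Splitting in one direction
-/

set_option autoImplicit false

noncomputable section

namespace Pool.Agent.M7

open Matrix

namespace GOneAux

variable {K m n l : Type} [Field K]

theorem coeff_sum {ι : Type} (s : Finset ι) (f : ι → LaurentSeries K) (j : ℤ) :
    (∑ i ∈ s, f i).coeff j = ∑ i ∈ s, (f i).coeff j := by
  classical
  induction s using Finset.induction_on with
  | empty => simp
  | insert a s ha ih => rw [Finset.sum_insert ha, Finset.sum_insert ha, HahnSeries.coeff_add, ih]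

theorem np_add {M N : Matrix m n (LaurentSeries K)} (hM : NP M) (hN : NP N) : NP (M + N) :=
  fun a b => noPole_add (hM a b) (hN a b)

theorem np_sub {M N : Matrix m n (LaurentSeries K)} (hM : NP M) (hN : NP N) : NP (M - N) :=
  fun a b => noPole_sub (hM a b) (hN a b)

theorem np_mul [Fintype n] {M : Matrix m n (LaurentSeries K)} {N : Matrix n l (LaurentSeries K)}
    (hM : NP M) (hN : NP N) : NP (M * N) := by
  intro a b
  rw [Matrix.mul_apply]
  exact noPole_sum _ fun i _ => noPole_mul (hM a i) (hN i b)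

theorem c0_add (M N : Matrix m n (LaurentSeries K)) : c0 (M + N) = c0 M + c0 N := by
  ext a b
  simp only [c0, Matrix.map_apply, Matrix.add_apply, HahnSeries.coeff_add]

theorem c0_sub (M N : Matrix m n (LaurentSeries K)) : c0 (M - N) = c0 M - c0 N := by
  ext a b
  simp only [c0, Matrix.map_apply, Matrix.sub_apply, HahnSeries.coeff_sub]

theorem c0_mul [Fintype n] {M : Matrix m n (LaurentSeries K)} {N : Matrix n l (LaurentSeries K)}
    (hM : NP M) (hN : NP N) : c0 (M * N) = c0 M * c0 N := by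
  ext a b
  simp only [c0, Matrix.map_apply, Matrix.mul_apply, coeff_sum]
  exact Finset.sum_congr rfl fun i _ => coeff_zero_mul (hM a i) (hN i b)

theorem np_C (M : Matrix m n K) : NP (M.map (HahnSeries.C : K →+* LaurentSeries K)) :=
  fun _ _ => noPole_single le_rfl _

theorem c0_C (M : Matrix m n K) : c0 (M.map (HahnSeries.C : K →+* LaurentSeries K)) = M := by
  ext a b
  simp only [c0, Matrix.map_apply, HahnSeries.C_apply, HahnSeries.coeff_single_same]

theorem np_lD (D : K →+ K) {M : Matrix m n (LaurentSeries K)} (hM : NP M) : NP (M.map (lD D)) :=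
  fun a b => noPole_lD D (hM a b)

theorem np_X {k : ℕ} {M : Matrix m n (LaurentSeries K)} (hM : NP M) : NP (sX K k • M) := by
  intro a b
  rw [Matrix.smul_apply, smul_eq_mul]
  exact noPole_mul (noPole_single (by omega) _) (hM a b)

theorem c0_X {k : ℕ} (hk : 0 < k) {M : Matrix m n (LaurentSeries K)} (hM : NP M) :
    c0 (sX K k • M) = 0 := by
  ext a b
  simp only [c0, Matrix.map_apply, Matrix.smul_apply, smul_eq_mul, sX, single_mul_coeff,
    Matrix.zero_apply]
  exact hM a b _ (by omega)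

theorem X_mul (k : ℕ) : sX K (-k) * sX K k = 1 := by
  rw [sX, sX, single_mul_single, neg_add_cancel]
  rfl

/-- constants -/
def gC [Fintype n] [DecidableEq n] (g : GL n K) : GL n (LaurentSeries K) :=
  Units.map (RingHom.mapMatrix (HahnSeries.C : K →+* LaurentSeries K) :
    Matrix n n K →+* Matrix n n (LaurentSeries K)).toMonoidHom g

theorem gC_val [Fintype n] [DecidableEq n] (g : GL n K) :
    (gC g : Matrix n n (LaurentSeries K)) = (g : Matrix n n K).map (HahnSeries.C : K →+* LaurentSeries K) :=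
  rfl

theorem gC_inv [Fintype n] [DecidableEq n] (g : GL n K) :
    (↑(gC g)⁻¹ : Matrix n n (LaurentSeries K)) =
      (↑g⁻¹ : Matrix n n K).map (HahnSeries.C : K →+* LaurentSeries K) :=
  rfl

/-- the unipotent matrix -/
def gY {p q F : Type} [CommRing F] [Fintype p] [Fintype q] [DecidableEq p] [DecidableEq q]
    (Y : Matrix q p F) : GL (p ⊕ q) F where
  val := fromBlocks 1 0 Y 1
  inv := fromBlocks 1 0 (-Y) 1
  val_inv := by
    rw [fromBlocks_multiply]
    simp
  inv_val := by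
    rw [fromBlocks_multiply]
    simp

/-- reindexing -/
def gR {n o F : Type} [CommRing F] [Fintype n] [Fintype o] [DecidableEq n] [DecidableEq o] (ε : n ≃ o)
    (G : GL o F) : GL n F where
  val := (G : Matrix o o F).submatrix ε ε
  inv := (↑G⁻¹ : Matrix o o F).submatrix ε ε
  val_inv := by
    rw [submatrix_mul_equiv, Units.mul_inv, submatrix_one_equiv]
  inv_val := by
    rw [submatrix_mul_equiv, Units.inv_mul, submatrix_one_equiv]

theorem gau_gR {n o F : Type} [CommRing F] [Fintype n] [Fintype o] [DecidableEq n] [DecidableEq o]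
    (D : F → F) (ε : n ≃ o) (G : GL o F) (A : Matrix n n F) :
    (gau1 D (gR ε G) A).submatrix ε.symm ε.symm = gau1 D G (A.submatrix ε.symm ε.symm) := by
  have h1 : ∀ M : Matrix o o F, (M.submatrix ε ε).submatrix ε.symm ε.symm = M := by
    intro M
    rw [submatrix_submatrix, Equiv.self_comp_symm, submatrix_id_id]
  have e1 : ((gR ε G : GL n F) : Matrix n n F) = (G : Matrix o o F).submatrix ε ε := rfl
  have e2 : (↑(gR ε G)⁻¹ : Matrix n n F) = (↑G⁻¹ : Matrix o o F).submatrix ε ε := rfl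
  rw [gau1, gau1, e1, e2, submatrix_add, Pi.add_apply, Pi.add_apply,
    ← submatrix_mul_equiv _ _ ε.symm ε.symm ε.symm,
    ← submatrix_mul_equiv _ _ ε.symm ε.symm ε.symm, ← submatrix_mul_equiv _ _ ε.symm ε.symm ε.symm,
    h1, h1]
  congr 2
  rw [← submatrix_map, h1]

/-- the upper block triangular form -/
theorem gau_gY {p q : Type} [Fintype p] [Fintype q] [DecidableEq p] [DecidableEq q]
    {D : K →+ K} (hD : IsDer D) (k : ℕ) (P : Matrix p p (LaurentSeries K))
    (Q : Matrix p q (LaurentSeries K)) (R : Matrix q p (LaurentSeries K))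
    (S : Matrix q q (LaurentSeries K)) (Y : Matrix q p (LaurentSeries K))
    (hY : R + S * Y + sX K k • Y.map (lD D) = Y * P + Y * Q * Y) :
    gau1 (lD D) (gY Y) (sX K (-k) • fromBlocks P Q R S) =
      sX K (-k) • fromBlocks (P + Q * Y) Q 0 (S - Y * Q) := by
  have hl1 : lD D (1 : LaurentSeries K) = 0 := (lD_isDer hD).one
  have e1 : ((gY Y : GL (p ⊕ q) (LaurentSeries K)) : Matrix (p ⊕ q) (p ⊕ q) (LaurentSeries K)) =
    fromBlocks 1 0 Y 1 := rfl
  have e2 : (↑(gY Y)⁻¹ : Matrix (p ⊕ q) (p ⊕ q) (LaurentSeries K)) = fromBlocks 1 0 (-Y) 1 := rfl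
  have m1 : ∀ {r : Type} [DecidableEq r], ((1 : Matrix r r (LaurentSeries K)).map (lD D)) = 0 := by
    intro r _
    ext1 a b
    rw [Matrix.map_apply, Matrix.one_apply, Matrix.zero_apply]
    split_ifs
    · exact hl1
    · exact map_zero _
  have m0 : ((0 : Matrix p q (LaurentSeries K)).map (lD D)) = 0 := by
    ext1 a b
    rw [Matrix.map_apply, Matrix.zero_apply, map_zero]
  have e3 : (fromBlocks 1 0 Y 1 : Matrix (p ⊕ q) (p ⊕ q) (LaurentSeries K)).map (lD D) =
      fromBlocks 0 0 (Y.map (lD D)) 0 := by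
    rw [fromBlocks_map, m1, m1, m0]
  have hX : fromBlocks 0 0 (Y.map (lD D)) (0 : Matrix q q (LaurentSeries K)) =
      sX K (-k) • (sX K k • fromBlocks (0 : Matrix p p (LaurentSeries K)) 0 (Y.map (lD D)) 0) := by
    rw [smul_smul, X_mul, one_smul]
  rw [gau1, e1, e2, e3]
  have e4 : (fromBlocks 1 0 (-Y) 1 : Matrix (p ⊕ q) (p ⊕ q) (LaurentSeries K)) *
      fromBlocks 0 0 (Y.map (lD D)) 0 = fromBlocks 0 0 (Y.map (lD D)) 0 := by
    rw [fromBlocks_multiply]
    simp
  rw [e4, hX, Matrix.mul_smul, Matrix.smul_mul, ← smul_add]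
  congr 1
  rw [fromBlocks_multiply, fromBlocks_multiply, fromBlocks_smul, fromBlocks_add]
  have hz : -Y * P + R + (-Y * Q + S) * Y + sX K k • Y.map (lD D) = 0 := by
    have h1 : R + S * Y + sX K k • Y.map (lD D) - (Y * P + Y * Q * Y) = 0 := sub_eq_zero.2 hY
    rw [← h1, Matrix.add_mul, Matrix.neg_mul, Matrix.neg_mul, Matrix.neg_mul]
    abel
  simp only [Matrix.one_mul, Matrix.mul_one, Matrix.mul_zero, Matrix.zero_mul, add_zero, zero_add,
    smul_zero]
  rw [hz]
  congr 1
  rw [Matrix.neg_mul]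
  abel

end GOneAux

open GOneAux in
theorem tOne (hFit : S_Fit) (hRic : S_Ric) (hGMul : S_GMul) : S_One := by
  intro K n _ _ _ _ _ D hD m C hm hC htr hnil
  obtain ⟨a, b, ε, g0, P0, S0, ha, hb, hsep, hg0⟩ := hFit K n (c0 C) htr hnil
  set C1 : Matrix n n (LaurentSeries K) := (↑(gC g0)⁻¹ : Matrix n n (LaurentSeries K)) * C *
      (gC g0 : Matrix n n (LaurentSeries K)) + sX K m • ((↑(gC g0)⁻¹ : Matrix n n (LaurentSeries K)) *
        (gC g0 : Matrix n n (LaurentSeries K)).map (lD D)) with hC1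
  have hgv : NP (gC g0 : Matrix n n (LaurentSeries K)) := np_C _
  have hgi : NP (↑(gC g0)⁻¹ : Matrix n n (LaurentSeries K)) := np_C _
  have hC1np : NP C1 := np_add (np_mul (np_mul hgi hC) hgv) (np_X (np_mul hgi (np_lD D hgv)))
  have hC1c : c0 C1 = (↑g0⁻¹ : Matrix n n K) * c0 C * (g0 : Matrix n n K) := by
    rw [hC1, c0_add, c0_X hm (np_mul hgi (np_lD D hgv)), add_zero, c0_mul (np_mul hgi hC) hgv,
      c0_mul hgi hC, gC_val, gC_inv, c0_C, c0_C]
  have hgau0 : gau1 (lD D) (gC g0) (sX K (-m) • C) = sX K (-m) • C1 := by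
    rw [gau1, hC1, smul_add, smul_smul, X_mul, one_smul, Matrix.mul_smul, Matrix.smul_mul]
  set C2 : Matrix (Fin a ⊕ Fin b) (Fin a ⊕ Fin b) (LaurentSeries K) :=
    C1.submatrix ε.symm ε.symm with hC2
  have hC2c : c0 C2 = fromBlocks P0 0 0 S0 := by
    rw [← hg0, ← hC1c]
    rfl
  have hb2 : C2 = fromBlocks C2.toBlocks₁₁ C2.toBlocks₁₂ C2.toBlocks₂₁ C2.toBlocks₂₂ :=
    (fromBlocks_toBlocks C2).symm
  set P := C2.toBlocks₁₁ with hPd
  set Q := C2.toBlocks₁₂ with hQd
  set R := C2.toBlocks₂₁ with hRd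
  set S := C2.toBlocks₂₂ with hSd
  have hP : NP P := fun i j => hC1np _ _
  have hQ : NP Q := fun i j => hC1np _ _
  have hR : NP R := fun i j => hC1np _ _
  have hS : NP S := fun i j => hC1np _ _
  have cP : c0 P = P0 := by
    have : c0 P = (c0 C2).toBlocks₁₁ := rfl
    rw [this, hC2c, toBlocks_fromBlocks₁₁]
  have cQ : c0 Q = 0 := by
    have : c0 Q = (c0 C2).toBlocks₁₂ := rfl
    rw [this, hC2c, toBlocks_fromBlocks₁₂]
  have cR : c0 R = 0 := by
    have : c0 R = (c0 C2).toBlocks₂₁ := rfl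
    rw [this, hC2c, toBlocks_fromBlocks₂₁]
  have cS : c0 S = S0 := by
    have : c0 S = (c0 C2).toBlocks₂₂ := rfl
    rw [this, hC2c, toBlocks_fromBlocks₂₂]
  have hsep' : Sep (c0 P) (c0 S) := by
    rw [cP, cS]
    exact hsep
  obtain ⟨Y, hY, hY0, hEq⟩ := hRic K (Fin a) (Fin b) D m P Q R S hm hP hQ hR hS cQ cR hsep'
  have cP' : c0 (P + Q * Y) = P0 := by
    rw [c0_add, c0_mul hQ hY, cQ, cP, Matrix.zero_mul, add_zero]
  have cS' : c0 (S - Y * Q) = S0 := by
    rw [c0_sub, c0_mul hY hQ, cQ, cS, Matrix.mul_zero, sub_zero]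
  refine ⟨a, b, ε, gC g0 * gR ε (gY Y), P + Q * Y, Q, S - Y * Q, ha, hb,
    np_add hP (np_mul hQ hY), hQ, np_sub hS (np_mul hY hQ), ?_, ?_, ?_⟩
  · rw [cP', cS']
    exact hsep
  · rw [cP', cS', ← charpoly_fromBlocks_zero₁₂ P0 0 S0, ← hg0, ← reindex_apply, charpoly_reindex,
      coe_units_inv, charpoly_units_conj']
  · rw [hGMul (LaurentSeries K) n (lD D) (lD_isDer hD), hgau0, gau_gR]
    have e1 : (sX K (-m) • C1).submatrix ε.symm ε.symm = sX K (-m) • C2 := rfl
    rw [e1, hb2]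
    exact gau_gY hD m P Q R S Y hEq

end Pool.Agent.M7
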