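import Pool.Agent.Lib.MP_7baa7a_ag.Spec

/-!
# The other directions
-/

set_option autoImplicit false

open Matrix

namespace Pool.Agent.M7

namespace GOthAux

theorem sep_inj {K p q : Type} [Field K] [Fintype p] [Fintype q] [DecidableEq p] [DecidableEq q] {P : Matrix p p K}
    {S : Matrix q q K} (h : Sep P S) {y : Matrix q p K} (hy : S * y = y * P) : y = 0 := by
  obtain ⟨z, ⟨N, hN⟩, hS⟩ := h
  have h1 : (S - Matrix.scalar q z) * y = y * (P - Matrix.scalar p z) := by
    rw [Matrix.sub_mul, Matrix.mul_sub, hy]
    congr 1
    ext a b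
    simp [Matrix.scalar_apply, Matrix.diagonal_mul, Matrix.mul_diagonal, mul_comm]
  have h2 : ∀ m : ℕ, (S - Matrix.scalar q z) ^ m * y = y * (P - Matrix.scalar p z) ^ m := by
    intro m
    induction m with
    | zero => simp
    | succ m ih => rw [pow_succ, Matrix.mul_assoc, h1, ← Matrix.mul_assoc, ih, Matrix.mul_assoc, ← pow_succ]
  have h3 := h2 N
  rw [hN, Matrix.mul_zero] at h3
  have h4 : IsUnit ((S - Matrix.scalar q z) ^ N) := hS.pow N
  obtain ⟨u, hu⟩ := h4
  rw [← hu] at h3
  have h5 : (↑u⁻¹ : Matrix q q K) * ((u : Matrix q q K) * y) = 0 := by rw [h3, Matrix.mul_zero]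
  rwa [← Matrix.mul_assoc, ← Units.val_mul, inv_mul_cancel, Units.val_one, Matrix.one_mul] at h5

end GOthAux

open GOthAux

theorem tOth : S_Oth := by
  intro K ι p q _ _ _ _ _ D A hA i m P Q S hm hP hQ hS hsep hAi j
  set b := (A j).toBlocks₂₁ with hb
  -- the lower left block of the flatness equation
  have key : b.map (lD (D i)) + (sX K (-m) • (S * b) - b * (sX K (-m) • P)) = 0 := by
    have h := hA i j
    simp only at h
    rw [hAi] at h
    have h1 := congrArg toBlocks₂₁ h
    refine Matrix.ext fun a c => ?_
    have h2 := congrFun (congrFun h1 a) c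
    simp only [toBlocks₂₁, Matrix.of_apply, Matrix.add_apply, Matrix.sub_apply, Matrix.map_apply, Matrix.mul_apply,
      Fintype.sum_sum_type, Matrix.smul_apply, fromBlocks_apply₂₁, fromBlocks_apply₂₂, fromBlocks_apply₁₁,
      Matrix.zero_apply, smul_zero, map_zero, zero_mul, mul_zero, Finset.sum_const_zero, sub_zero, zero_add, add_zero,
      smul_eq_mul] at h2
    simp only [hb, toBlocks₂₁, Matrix.of_apply, Matrix.add_apply, Matrix.sub_apply, Matrix.map_apply, Matrix.mul_apply,
      Matrix.smul_apply, Matrix.zero_apply, smul_eq_mul, Finset.mul_sum, mul_assoc] at h2 ⊢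
    exact h2
  have key2 : sX K m • b.map (lD (D i)) + (S * b - b * P) = 0 := by
    have h1 : sX K m * sX K (-m) = 1 := by
      unfold sX
      rw [single_mul_single, add_neg_cancel]
      rfl
    have h2 := congrArg (fun M => sX K m • M) key
    simp only [smul_add, smul_sub, smul_zero, Matrix.mul_smul, smul_smul, h1, one_smul] at h2
    exact h2
  have hall : ∀ t : ℤ, ∀ a c, (b a c).coeff t = 0 := by
    -- a lower bound
    obtain ⟨c0', hc0⟩ := exists_noPole_fin (K := K) (fun x : q × p => b x.1 x.2)
    have hlow : ∀ t : ℤ, t < -(c0' : ℤ) → ∀ a c, (b a c).coeff t = 0 := by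
      intro t ht a c
      have h := hc0 c0' le_rfl (a, c) (t + c0') (by omega)
      rw [single_mul_coeff] at h
      rwa [add_sub_cancel_right] at h
    have hstep : ∀ t : ℤ, (∀ t' < t, ∀ a c, (b a c).coeff t' = 0) → ∀ a c, (b a c).coeff t = 0 := by
      intro t ht
      have hy : c0 S * (b.map fun f => f.coeff t) = (b.map fun f => f.coeff t) * c0 P := by
        ext a c
        have h := congrFun (congrFun key2 a) c
        have h1 := congrArg (fun f : LaurentSeries K => f.coeff t) h
        simp only [Matrix.add_apply, Matrix.sub_apply, Matrix.smul_apply, smul_eq_mul, Matrix.map_apply,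
          HahnSeries.coeff_add, HahnSeries.coeff_sub, Matrix.zero_apply, HahnSeries.coeff_zero] at h1
        have h2 : (sX K m * lD (D i) (b a c)).coeff t = 0 := by
          unfold sX
          rw [single_mul_coeff, lD_coeff, ht _ (by omega), map_zero]
        have h3 : ((S * b) a c).coeff t = (c0 S * (b.map fun f => f.coeff t)) a c := by
          rw [Matrix.mul_apply, Matrix.mul_apply, HahnSeries.coeff_sum]
          refine Finset.sum_congr rfl fun x _ => ?_
          have h := coeff_mul_low (a := 0) (b := t) (hS a x) (fun j hj => ht j hj x c)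
          rw [zero_add] at h
          exact h
        have h4 : ((b * P) a c).coeff t = ((b.map fun f => f.coeff t) * c0 P) a c := by
          rw [Matrix.mul_apply, Matrix.mul_apply, HahnSeries.coeff_sum]
          refine Finset.sum_congr rfl fun x _ => ?_
          have h := coeff_mul_low (a := t) (b := 0) (fun j hj => ht j hj a x) (hP x c)
          rw [add_zero] at h
          exact h
        rw [h2, zero_add, h3, h4] at h1
        exact sub_eq_zero.1 h1
      have h0 := sep_inj hsep hy
      intro a c
      exact congrFun (congrFun h0 a) c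
    have hind : ∀ N : ℕ, ∀ t : ℤ, t < -(c0' : ℤ) + N → ∀ a c, (b a c).coeff t = 0 := by
      intro N
      induction N with
      | zero =>
        intro t ht
        exact hlow t (by simpa using ht)
      | succ N ih =>
        intro t ht
        by_cases h : t < -(c0' : ℤ) + N
        · exact ih t h
        · exact hstep t fun t' ht' => ih t' (by push_cast at ht; omega)
    intro t
    exact hind (t + c0' + 1).toNat t (by omega)
  ext a c t
  rw [hall t a c]
  rfl

end Pool.Agent.M7
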