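import Pool.Agent.Lib.MP_7baa7a_ag.Spec

set_option autoImplicit false

noncomputable section

namespace Pool.Agent.M7

open Matrix

namespace GPolAux

variable {K : Type} [Field K]

lemma sX_mul (a b : ℤ) : sX K a * sX K b = sX K (a + b) := single_mul_single a b

lemma sX_zero : sX K 0 = 1 := rfl

lemma lD_sX {D : K →+ K} (h : IsDer D) (a : ℤ) : lD D (sX K a) = 0 := lD_single h a

lemma sX_mul_coeff (a : ℤ) (f : LaurentSeries K) (m : ℤ) : (sX K a * f).coeff m = f.coeff (m - a) :=
  single_mul_coeff a f m

/-- the diagonal gauge transformation -/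
def dg (N p : ℕ) : GL (Fin N) (LaurentSeries K) where
  val := diagonal fun j : Fin N => sX K ((p * j.val : ℕ) : ℤ)
  inv := diagonal fun j : Fin N => sX K (-((p * j.val : ℕ) : ℤ))
  val_inv := by
    rw [diagonal_mul_diagonal, ← diagonal_one]
    congr 1
    funext j
    rw [sX_mul, add_neg_cancel, sX_zero]
  inv_val := by
    rw [diagonal_mul_diagonal, ← diagonal_one]
    congr 1
    funext j
    rw [sX_mul, neg_add_cancel, sX_zero]

lemma gau1_dg {D : K →+ K} (hD : IsDer D) (N p : ℕ) (M : Matrix (Fin N) (Fin N) (LaurentSeries K))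
    (a b : Fin N) : gau1 (lD D) (dg N p) M a b =
      sX K (((p * b.val : ℕ) : ℤ) - ((p * a.val : ℕ) : ℤ)) * M a b := by
  have h1 : ((dg N p : GL (Fin N) (LaurentSeries K)) : Matrix (Fin N) (Fin N) (LaurentSeries K))
      = diagonal fun j : Fin N => sX K ((p * j.val : ℕ) : ℤ) := rfl
  have h2 : Units.val ((dg N p : GL (Fin N) (LaurentSeries K))⁻¹)
      = diagonal fun j : Fin N => sX K (-((p * j.val : ℕ) : ℤ)) := rfl
  have h3 : (diagonal fun j : Fin N => sX K ((p * j.val : ℕ) : ℤ)).map (lD D) = 0 := by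
    ext i j
    rw [map_apply, Matrix.zero_apply]
    by_cases hij : i = j
    · subst hij
      rw [diagonal_apply_eq, lD_sX hD]
    · rw [diagonal_apply_ne _ hij, map_zero]
  unfold gau1
  rw [h1, h2, h3, Matrix.mul_zero, add_zero, mul_diagonal, diagonal_mul, mul_comm (sX K _) (M a b),
    mul_assoc, sX_mul, mul_comm]
  congr 2
  ring

lemma gau1_ram {D : K →+ K} {e : ℕ} (he : 0 < e) {N : ℕ} (g : GL (Fin N) (LaurentSeries K))
    (A : Matrix (Fin N) (Fin N) (LaurentSeries K)) :
    gau1 (lD D) (GeneralLinearGroup.map (ram e he) g) (A.map (ram e he))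
      = (gau1 (lD D) g A).map (ram e he) := by
  have h1 : ((GeneralLinearGroup.map (ram e he) g : GL (Fin N) (LaurentSeries K)) :
      Matrix (Fin N) (Fin N) (LaurentSeries K)) = (g : Matrix (Fin N) (Fin N) (LaurentSeries K)).map
        (ram e he) := rfl
  have h2 : Units.val ((GeneralLinearGroup.map (ram e he) g)⁻¹) =
      (↑g⁻¹ : Matrix (Fin N) (Fin N) (LaurentSeries K)).map (ram e he) := by
    rw [← GeneralLinearGroup.map_inv]
    rfl
  unfold gau1
  rw [h1, h2]
  rw [Matrix.map_add _ (map_add (ram e he)), Matrix.map_mul, Matrix.map_mul, Matrix.map_mul]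
  congr 2
  ext i j
  simp only [map_apply]
  rw [ram_lD]

/-- a companion matrix which is not `X ^ N` is not nilpotent -/
lemma not_nilp {N : ℕ} (M0 : Matrix (Fin N) (Fin N) K)
    (h : ∀ b : Fin N, b.val + 1 < N → ∀ a : Fin N, M0 a b = if a.val = b.val + 1 then 1 else 0)
    (l : Fin N) (hl : l.val + 1 = N) (j : Fin N) (hj : M0 j l ≠ 0) : ¬ IsNilpotent M0 := by
  intro hnil
  have h1 := isNilpotent_charpoly_sub_pow_of_isNilpotent hnil
  have h2 : M0.charpoly = Polynomial.X ^ N := by
    have := h1.eq_zero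
    rw [sub_eq_zero] at this
    rw [this, Fintype.card_fin]
  have h3 := aeval_self_charpoly M0
  rw [h2, map_pow, Polynomial.aeval_X] at h3
  have hN : 0 < N := by omega
  have hcyc : ∀ k : ℕ, ∀ hk : k < N,
      (M0 ^ k) *ᵥ (Pi.single (⟨0, hN⟩ : Fin N) (1 : K)) = Pi.single (⟨k, hk⟩ : Fin N) 1 := by
    intro k
    induction k with
    | zero => intro hk; rw [pow_zero, one_mulVec]
    | succ k ih =>
      intro hk
      rw [pow_succ', ← mulVec_mulVec, ih (by omega), mulVec_single_one]
      ext a
      rw [col_apply, h ⟨k, by omega⟩ (by simpa using hk) a, Pi.single_apply]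
      simp only [Fin.ext_iff]
  have h4 : (M0 ^ N) *ᵥ (Pi.single (⟨0, hN⟩ : Fin N) (1 : K)) = M0.col l := by
    have e1 : ∀ m : ℕ, m = l.val + 1 → M0 ^ m = M0 * M0 ^ l.val := by
      rintro _ rfl
      rw [pow_succ']
    have e2 := e1 N hl.symm
    rw [e2, ← mulVec_mulVec, hcyc l.val l.isLt, mulVec_single_one]
  rw [h3, zero_mulVec] at h4
  apply hj
  have := congrFun h4 j
  rw [col_apply] at this
  exact this.symm

end GPolAux

open GPolAux

theorem tPol (hCyc : S_Cyc) (hTrc : S_Trc) (hGMul : S_GMul) : S_Pol := by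
  intro K _ _ D hD hx N A hA hno
  classical
  have : CharZero (LaurentSeries K) :=
    charZero_of_injective_ringHom (f := (HahnSeries.C : K →+* LaurentSeries K))
      HahnSeries.C_injective
  have hDF : IsDer (lD D) := lD_isDer hD
  have hxF : ∃ x, lD D x = 1 := by
    obtain ⟨x, hx⟩ := hx
    refine ⟨HahnSeries.C x, ?_⟩
    ext m
    rw [lD_coeff]
    by_cases hm : m = 0
    · subst hm
      rw [HahnSeries.C_apply, HahnSeries.coeff_single_same, hx, HahnSeries.coeff_one, if_pos rfl]
    · rw [HahnSeries.C_apply, HahnSeries.coeff_single_of_ne hm, map_zero, HahnSeries.coeff_one,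
        if_neg hm]
  obtain ⟨g, hg⟩ := hCyc (LaurentSeries K) (lD D) hDF hxF N A
  set E := gau1 (lD D) g A with hE
  have hN : 0 < N := by
    rcases Nat.eq_zero_or_pos N with h | h
    · exfalso
      subst h
      exact hno ⟨1, fun a => a.elim0⟩
    · exact h
  set l : Fin N := ⟨N - 1, by omega⟩ with hl
  have hl1 : l.val + 1 = N := by rw [hl]; simp only; omega
  have hlast : ∀ b : Fin N, ¬ b.val + 1 < N → b = l := by
    intro b hb
    apply Fin.ext
    have := b.isLt
    omega
  -- some entry of the last column has a pole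
  have hpole : ∃ j, ¬ NoPole (E j l) := by
    by_contra hcon
    push Not at hcon
    apply hno
    refine ⟨g, ?_⟩
    intro a b
    by_cases hb : b.val + 1 < N
    · rw [← hE, hg b hb a]
      split_ifs
      · exact noPole_one
      · exact noPole_zero
    · rw [hlast b hb]
      exact hcon a
  obtain ⟨j0, hj0⟩ := hpole
  set e := N.factorial with he'
  have he : 0 < e := Nat.factorial_pos N
  obtain ⟨f, hf⟩ : ∃ f : Fin N → LaurentSeries K, ∀ j, f j = ram e he (E j l) := ⟨_, fun _ => rfl⟩
  -- the slope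
  have hex : ∃ p : ℕ, ∀ j : Fin N, NoPole (sX K ((p * (N - j.val) : ℕ) : ℤ) * f j) := by
    obtain ⟨c, hc⟩ := exists_noPole_fin f
    refine ⟨c, fun j => hc (c * (N - j.val)) ?_ j⟩
    have := j.isLt
    calc c = c * 1 := (mul_one c).symm
      _ ≤ c * (N - j.val) := Nat.mul_le_mul_left c (by omega)
  set p := Nat.find hex with hp
  have hpspec := Nat.find_spec hex
  rw [← hp] at hpspec
  have hdiv : ∀ (j : Fin N) (m : ℤ), (f j).coeff m ≠ 0 → ∃ t : ℤ, m = t * ((N - j.val : ℕ) : ℤ) := by
    intro j m hm
    have h1 : (e : ℤ) ∣ m := by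
      by_contra h
      apply hm
      rw [hf, ram_coeff_not he h]
    have h2 : ((N - j.val : ℕ) : ℤ) ∣ (e : ℤ) := by
      have := j.isLt
      exact_mod_cast Nat.dvd_factorial (by omega) (by omega)
    obtain ⟨t, ht⟩ := h2.trans h1
    exact ⟨t, by rw [ht, mul_comm]⟩
  have hp0 : 0 < p := by
    rcases Nat.eq_zero_or_pos p with h | h
    · exfalso
      apply hj0
      intro m hm
      have h1 := hpspec j0
      rw [h, zero_mul] at h1
      have h2 : (f j0).coeff (e * m) = 0 := by
        have h3 := h1 (e * m) (by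
          have : (0 : ℤ) < e := by exact_mod_cast he
          exact mul_neg_of_pos_of_neg this hm)
        rw [sX_mul_coeff] at h3
        simpa using h3
      rw [hf, ram_coeff] at h2
      exact h2
    · exact h
  have hγ : ∃ j : Fin N, (sX K ((p * (N - j.val) : ℕ) : ℤ) * f j).coeff 0 ≠ 0 := by
    have h1 := Nat.find_min hex (m := p - 1) (by omega)
    push Not at h1
    obtain ⟨j, hj⟩ := h1
    unfold NoPole at hj
    push Not at hj
    obtain ⟨m, hm, hm'⟩ := hj
    refine ⟨j, ?_⟩
    rw [sX_mul_coeff] at hm'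
    obtain ⟨t, ht⟩ := hdiv j _ hm'
    have hjl : 0 < N - j.val := by have := j.isLt; omega
    -- `m = (p - 1 + t) (N - j) < 0` and `(p + t) (N - j) ≥ 0`
    have h2 : m = (((p - 1 : ℕ) : ℤ) + t) * ((N - j.val : ℕ) : ℤ) := by
      have : m = t * ((N - j.val : ℕ) : ℤ) + (((p - 1) * (N - j.val) : ℕ) : ℤ) := by linarith
      rw [this]
      push_cast
      ring
    have h3 : ((p - 1 : ℕ) : ℤ) + t < 0 := by
      by_contra h
      push Not at h
      have : 0 ≤ m := by
        rw [h2]
        exact mul_nonneg h (by positivity)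
      omega
    have h4 : ¬ ((p : ℤ) + t < 0) := by
      intro h
      apply hm'
      have h5 := hpspec j (m + ((N - j.val : ℕ) : ℤ)) (by
        have h6 : m + ((N - j.val : ℕ) : ℤ) = ((p : ℤ) + t) * ((N - j.val : ℕ) : ℤ) := by
          rw [h2]
          have : ((p - 1 : ℕ) : ℤ) = (p : ℤ) - 1 := by omega
          rw [this]
          ring
        rw [h6]
        apply mul_neg_of_neg_of_pos h
        exact_mod_cast hjl)
      rw [sX_mul_coeff] at h5
      have h6 : m + ((N - j.val : ℕ) : ℤ) - ((p * (N - j.val) : ℕ) : ℤ)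
          = m - (((p - 1) * (N - j.val) : ℕ) : ℤ) := by
        have : p = (p - 1) + 1 := by omega
        conv_lhs => rw [this]
        push_cast
        ring
      rwa [h6] at h5
    have h5 : t = -(p : ℤ) := by omega
    rw [sX_mul_coeff]
    have h6 : (0 : ℤ) - ((p * (N - j.val) : ℕ) : ℤ) = m - (((p - 1) * (N - j.val) : ℕ) : ℤ) := by
      rw [ht, h5]
      push_cast
      ring
    rw [h6]
    exact hm'
  obtain ⟨j1, hj1⟩ := hγ
  -- the matrix C
  obtain ⟨C, hC⟩ : ∃ C : Matrix (Fin N) (Fin N) (LaurentSeries K), ∀ a b, C a b =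
      if b.val + 1 < N then (if a.val = b.val + 1 then 1 else 0)
      else sX K ((p * (N - a.val) : ℕ) : ℤ) * f a := ⟨fun a b => _, fun a b => rfl⟩
  have hNPC : NP C := by
    intro a b
    rw [hC]
    split_ifs
    · exact noPole_one
    · exact noPole_zero
    · exact hpspec a
  have hgau : gau1 (lD D) (GeneralLinearGroup.map (ram e he) g * dg N p) (A.map (ram e he))
      = sX K (-p) • C := by
    rw [hGMul _ _ (lD D) hDF, gau1_ram he g A]
    ext a b : 2
    rw [gau1_dg hD, map_apply, Matrix.smul_apply, hC, smul_eq_mul, ← hE]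
    by_cases hb : b.val + 1 < N
    · rw [if_pos hb, hg b hb a]
      by_cases hab : a.val = b.val + 1
      · rw [if_pos hab, map_one, mul_one, mul_one]
        congr 1
        rw [hab]
        push_cast
        ring_nf
      · rw [if_neg hab, map_zero, mul_zero, mul_zero]
    · rw [if_neg hb, hlast b hb, ← hf, ← mul_assoc, sX_mul]
      congr 2
      have h1 : (l.val : ℤ) = (N : ℤ) - 1 := by omega
      have h2 : ((N - a.val : ℕ) : ℤ) = (N : ℤ) - a.val := by
        have := a.isLt
        omega
      push_cast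
      rw [h1, h2]
      ring_nf
  have htr : (c0 C).trace = C.trace.coeff 0 := by
    unfold c0 trace
    simp only [diag_apply, map_apply]
    rw [HahnSeries.coeff_sum]
  refine ⟨e, he, p, GeneralLinearGroup.map (ram e he) g * dg N p, C, hp0, hNPC, hgau, ?_, ?_⟩
  · -- the trace
    rw [htr]
    have h1 := hTrc K (Fin N) D hD (GeneralLinearGroup.map (ram e he) g * dg N p)
    set G : GL (Fin N) (LaurentSeries K) := GeneralLinearGroup.map (ram e he) g * dg N p with hG
    have h2 : (gau1 (lD D) G (A.map (ram e he))).trace = (A.map (ram e he)).trace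
        + ((↑G⁻¹ : Matrix (Fin N) (Fin N) (LaurentSeries K))
          * (G : Matrix (Fin N) (Fin N) (LaurentSeries K)).map (lD D)).trace := by
      unfold gau1
      rw [trace_add]
      congr 1
      rw [trace_mul_comm, ← Matrix.mul_assoc]
      have : (G : Matrix (Fin N) (Fin N) (LaurentSeries K)) *
          (↑G⁻¹ : Matrix (Fin N) (Fin N) (LaurentSeries K)) = 1 := by
        rw [← Units.val_mul, mul_inv_cancel, Units.val_one]
      rw [this, Matrix.one_mul]
    have h3 : (A.map (ram e he)).trace = ram e he A.trace := by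
      unfold trace
      simp only [diag_apply, map_apply]
      rw [map_sum]
    rw [hgau, trace_smul, smul_eq_mul, h3] at h2
    have h4 : NoPole (sX K (-p) * C.trace) := by
      rw [h2]
      exact noPole_add (ram_noPole he hA) h1
    have h5 := h4 (-p) (by omega)
    rw [sX_mul_coeff] at h5
    simpa using h5
  · apply not_nilp (c0 C) _ l hl1 j1
    · show (C j1 l).coeff 0 ≠ 0
      rw [hC, if_neg (by omega)]
      exact hj1
    · intro b hb a
      show (C a b).coeff 0 = _
      rw [hC, if_pos hb]
      split_ifs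
      · rw [HahnSeries.coeff_one, if_pos rfl]
      · rfl

end Pool.Agent.M7
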