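import Pool.Agent.Lib.MP_7baa7a_ag.Spec

/-!
# Riccati equation with power series
-/

set_option autoImplicit false

noncomputable section

namespace Pool.Agent.M7

open Matrix

namespace GRicAux

/-! ## A fixed point lemma -/

/-- strong recursion -/
def fix {W : Type} (Φ : (ℕ → W) → ℕ → W) (w0 : W) : ℕ → W
  | m => Φ (fun j => if _h : j < m then fix Φ w0 j else w0) m
  termination_by m => m

theorem exists_fix {W : Type} (Φ : (ℕ → W) → ℕ → W) (w0 : W)
    (h : ∀ (y y' : ℕ → W) (m : ℕ), (∀ j < m, y j = y' j) → Φ y m = Φ y' m) :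
    ∃ y : ℕ → W, ∀ m, y m = Φ y m := by
  refine ⟨fix Φ w0, fun m => ?_⟩
  rw [fix]
  apply h
  intro j hj
  rw [dif_pos hj]

/-! ## Coefficients of matrices -/

variable {K m n l : Type} [Field K]

/-- the coefficients of `s ^ t` -/
def cf (t : ℤ) (M : Matrix m n (LaurentSeries K)) : Matrix m n K := M.map fun f => f.coeff t

/-- all coefficients of index less than `k` vanish -/
def Van (k : ℤ) (M : Matrix m n (LaurentSeries K)) : Prop := ∀ a b, ∀ j < k, (M a b).coeff j = 0

theorem van_add {k : ℤ} {M N : Matrix m n (LaurentSeries K)} (hM : Van k M) (hN : Van k N) :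
    Van k (M + N) := by
  intro a b j hj
  rw [Matrix.add_apply, HahnSeries.coeff_add, hM a b j hj, hN a b j hj, add_zero]

theorem van_sub {k : ℤ} {M N : Matrix m n (LaurentSeries K)} (hM : Van k M) (hN : Van k N) :
    Van k (M - N) := by
  intro a b j hj
  rw [Matrix.sub_apply, HahnSeries.coeff_sub, hM a b j hj, hN a b j hj, sub_zero]

theorem van_mono {k k' : ℤ} {M : Matrix m n (LaurentSeries K)} (h : k' ≤ k) (hM : Van k M) : Van k' M :=
  fun a b j hj => hM a b j (lt_of_lt_of_le hj h)

theorem coeff_sum {ι : Type} (s : Finset ι) (f : ι → LaurentSeries K) (j : ℤ) :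
    (∑ i ∈ s, f i).coeff j = ∑ i ∈ s, (f i).coeff j := by
  classical
  induction s using Finset.induction_on with
  | empty => simp
  | insert a s ha ih => rw [Finset.sum_insert ha, Finset.sum_insert ha, HahnSeries.coeff_add, ih]

theorem van_mul [Fintype n] {k k' : ℤ} {M : Matrix m n (LaurentSeries K)}
    {N : Matrix n l (LaurentSeries K)} (hM : Van k M) (hN : Van k' N) : Van (k + k') (M * N) := by
  intro a b j hj
  rw [Matrix.mul_apply, coeff_sum]
  apply Finset.sum_eq_zero
  intro i _
  exact coeff_mul_lt (hM a i) (hN i b) hj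

theorem van_of_np {M : Matrix m n (LaurentSeries K)} (h : NP M) : Van 0 M := fun a b j hj => h a b j hj

theorem van_one {M : Matrix m n (LaurentSeries K)} (h : NP M) (h0 : c0 M = 0) : Van 1 M := by
  intro a b j hj
  rcases lt_or_eq_of_le (show j ≤ 0 by omega) with h1 | h1
  · exact h a b j h1
  · rw [h1]
    exact congrFun (congrFun h0 a) b

theorem van_X {k m0 : ℤ} {M : Matrix m n (LaurentSeries K)} (hM : Van k M) :
    Van (m0 + k) (sX K m0 • M) := by
  intro a b j hj
  rw [Matrix.smul_apply, smul_eq_mul, sX, single_mul_coeff]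
  exact hM a b _ (by omega)

theorem van_lD {k : ℤ} (D : K →+ K) {M : Matrix m n (LaurentSeries K)} (hM : Van k M) :
    Van k (M.map (lD D)) := by
  intro a b j hj
  rw [Matrix.map_apply, lD_coeff, hM a b j hj, map_zero]

/-- constant matrices -/
def cM (M : Matrix m n K) : Matrix m n (LaurentSeries K) := M.map fun x => HahnSeries.C x

theorem cf_mul_left [Fintype n] (M : Matrix m n K) (N : Matrix n l (LaurentSeries K)) (t : ℤ) :
    cf t (cM M * N) = M * cf t N := by
  ext a b
  simp only [cf, cM, Matrix.map_apply, Matrix.mul_apply, coeff_sum]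
  refine Finset.sum_congr rfl fun i _ => ?_
  rw [HahnSeries.C_mul_eq_smul, HahnSeries.coeff_smul, smul_eq_mul]

theorem cf_mul_right [Fintype n] (M : Matrix n l K) (N : Matrix m n (LaurentSeries K)) (t : ℤ) :
    cf t (N * cM M) = cf t N * M := by
  ext a b
  simp only [cf, cM, Matrix.map_apply, Matrix.mul_apply, coeff_sum]
  refine Finset.sum_congr rfl fun i _ => ?_
  rw [mul_comm, HahnSeries.C_mul_eq_smul, HahnSeries.coeff_smul, smul_eq_mul, mul_comm]

theorem cf_sub (M N : Matrix m n (LaurentSeries K)) (t : ℤ) : cf t (M - N) = cf t M - cf t N := by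
  ext a b
  simp only [cf, Matrix.map_apply, Matrix.sub_apply, HahnSeries.coeff_sub]

theorem cf_ext {M N : Matrix m n (LaurentSeries K)} (h : ∀ t, cf t M = cf t N) : M = N := by
  ext a b t
  exact congrFun (congrFun (h t) a) b

theorem cf_of_van {k t : ℤ} {M : Matrix m n (LaurentSeries K)} (h : Van k M) (ht : t < k) :
    cf t M = 0 := by
  ext a b
  exact h a b t ht

theorem van_one_sub {M : Matrix m n (LaurentSeries K)} (h : NP M) : Van 1 (M - cM (c0 M)) := by
  intro a b j hj
  rw [Matrix.sub_apply, HahnSeries.coeff_sub]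
  simp only [cM, c0, Matrix.map_apply]
  rcases lt_or_eq_of_le (show j ≤ 0 by omega) with h1 | h1
  · rw [h a b j h1, HahnSeries.C_apply, HahnSeries.coeff_single_of_ne (by omega), sub_zero]
  · rw [h1, HahnSeries.C_apply, HahnSeries.coeff_single_same, sub_self]

/-- the matrix of power series with given coefficients -/
def ys (y : ℕ → Matrix m n K) : Matrix m n (LaurentSeries K) :=
  Matrix.of fun a b => HahnSeries.ofPowerSeries ℤ K (PowerSeries.mk fun j => y j a b)

theorem cf_ys (y : ℕ → Matrix m n K) (j : ℕ) : cf (j : ℤ) (ys y) = y j := by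
  ext a b
  simp only [cf, ys, Matrix.map_apply, Matrix.of_apply, LaurentSeries.coeff_coe_powerSeries, PowerSeries.coeff_mk]

theorem van_ys (y : ℕ → Matrix m n K) : Van 0 (ys y) := by
  intro a b j hj
  simp only [ys, Matrix.of_apply]
  rw [PowerSeries.coeff_coe, if_pos hj]

theorem van_ys_sub {y y' : ℕ → Matrix m n K} {k : ℕ} (h : ∀ j < k, y j = y' j) :
    Van (k : ℤ) (ys y - ys y') := by
  intro a b j hj
  rcases lt_or_ge j 0 with h1 | h1
  · exact van_sub (van_ys y) (van_ys y') a b j h1
  · obtain ⟨i, rfl⟩ := Int.eq_ofNat_of_zero_le h1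
    have hi : i < k := by exact_mod_cast hj
    have e1 := congrFun (congrFun (cf_ys y i) a) b
    have e2 := congrFun (congrFun (cf_ys y' i) a) b
    simp only [cf, Matrix.map_apply] at e1 e2
    rw [Matrix.sub_apply, HahnSeries.coeff_sub, e1, e2, h i hi, sub_self]

/-! ## The linear map -/

theorem inj {K p q : Type} [Field K] [Fintype p] [Fintype q] [DecidableEq p] [DecidableEq q]
    {P : Matrix p p K} {S : Matrix q q K} (h : Sep P S) {y : Matrix q p K} (hy : S * y = y * P) :
    y = 0 := by
  obtain ⟨z, ⟨N, hN⟩, hu⟩ := h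
  have h1 : (S - scalar q z) * y = y * (P - scalar p z) := by
    rw [Matrix.sub_mul, Matrix.mul_sub, hy]
    congr 1
    ext a b
    simp [scalar_apply, mul_comm]
  have h2 : ∀ k : ℕ, (S - scalar q z) ^ k * y = y * (P - scalar p z) ^ k := by
    intro k
    induction k with
    | zero => simp
    | succ k ih =>
      rw [pow_succ, Matrix.mul_assoc, h1, ← Matrix.mul_assoc, ih, Matrix.mul_assoc, ← pow_succ]
  have h3 := h2 N
  rw [hN, Matrix.mul_zero] at h3
  obtain ⟨u, hu⟩ := hu.pow N
  rw [← hu] at h3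
  have h4 : (↑u⁻¹ : Matrix q q K) * ((u : Matrix q q K) * y) = 0 := by rw [h3, Matrix.mul_zero]
  rwa [← Matrix.mul_assoc, Units.inv_mul, Matrix.one_mul] at h4

/-- `y ↦ S y - y P` -/
def T {K p q : Type} [Field K] [Fintype p] [Fintype q] (P : Matrix p p K) (S : Matrix q q K) :
    Matrix q p K →ₗ[K] Matrix q p K where
  toFun y := S * y - y * P
  map_add' x y := by rw [Matrix.mul_add, Matrix.add_mul]; abel
  map_smul' c x := by simp [smul_sub]

theorem surj {K p q : Type} [Field K] [Fintype p] [Fintype q] [DecidableEq p] [DecidableEq q]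
    {P : Matrix p p K} {S : Matrix q q K} (h : Sep P S) (w : Matrix q p K) :
    ∃ y : Matrix q p K, S * y - y * P = w := by
  have hi : Function.Injective (T P S) := by
    rw [← LinearMap.ker_eq_bot, LinearMap.ker_eq_bot']
    intro y hy
    exact inj h (sub_eq_zero.1 hy)
  exact (LinearMap.injective_iff_surjective.1 hi) w

end GRicAux

open GRicAux in
theorem tRic : S_Ric := by
  intro K p q _ _ _ _ _ D m0 P Q R S hm0 hP hQ hR hS hQ0 hR0 hsep
  choose Ti hTi using surj hsep
  set E : Matrix q p (LaurentSeries K) → Matrix q p (LaurentSeries K) := fun Y =>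
    -R - (S - cM (c0 S)) * Y - sX K m0 • Y.map (lD D) + Y * (P - cM (c0 P)) + Y * Q * Y with hE
  have hVQ : Van 1 Q := van_one hQ hQ0
  have hVR : Van 1 R := van_one hR hR0
  have hVS : Van 1 (S - cM (c0 S)) := van_one_sub hS
  have hVP : Van 1 (P - cM (c0 P)) := van_one_sub hP
  have hm0' : (1 : ℤ) ≤ m0 := by exact_mod_cast hm0
  have hEd : ∀ (k : ℤ) (Y Y' : Matrix q p (LaurentSeries K)), Van 0 Y → Van 0 Y' → Van k (Y - Y') →
      Van (k + 1) (E Y - E Y') := by
    intro k Y Y' hY hY' hd
    have e : E Y - E Y' = (Y - Y') * (P - cM (c0 P)) - (S - cM (c0 S)) * (Y - Y') -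
        sX K m0 • (Y - Y').map (lD D) + ((Y - Y') * (Q * Y) + Y' * Q * (Y - Y')) := by
      have e1 : (Y - Y').map (lD D) = Y.map (lD D) - Y'.map (lD D) := by
        ext1 a b
        simp only [Matrix.map_apply, Matrix.sub_apply, map_sub]
      rw [hE, e1, smul_sub]
      simp only [Matrix.sub_mul, Matrix.mul_sub, Matrix.mul_assoc]
      abel
    rw [e]
    have h1 : Van (k + 1) ((Y - Y') * (P - cM (c0 P))) := van_mul hd hVP
    have h2 : Van (k + 1) ((S - cM (c0 S)) * (Y - Y')) := by
      rw [add_comm]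
      exact van_mul hVS hd
    have h3 : Van (k + 1) (sX K m0 • (Y - Y').map (lD D)) :=
      van_mono (by omega) (van_X (van_lD D hd))
    have h4 : Van (k + 1) ((Y - Y') * (Q * Y)) := by
      have := van_mul hd (van_mul hVQ hY)
      simpa using this
    have h5 : Van (k + 1) (Y' * Q * (Y - Y')) := by
      have := van_mul (van_mul hY' hVQ) hd
      rwa [zero_add, add_comm] at this
    exact van_add (van_sub (van_sub h1 h2) h3) (van_add h4 h5)
  have hE0 : ∀ Y : Matrix q p (LaurentSeries K), Van 0 Y → Van 1 (E Y) := by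
    intro Y hY
    have hz : Van 0 (0 : Matrix q p (LaurentSeries K)) := fun a b j _ => by simp
    have h1 := hEd 0 Y 0 hY hz (by rw [sub_zero]; exact hY)
    have h2 : E 0 = -R := by
      have e1 : (0 : Matrix q p (LaurentSeries K)).map (lD D) = 0 := by
        ext1 a b
        simp only [Matrix.map_apply, Matrix.zero_apply, map_zero]
      simp only [hE, e1, Matrix.mul_zero, Matrix.zero_mul, smul_zero, sub_zero, add_zero]
    have h3 : Van 1 (-R) := by
      have := van_sub (fun a b j _ => by simp : Van 1 (0 : Matrix q p (LaurentSeries K))) hVR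
      rwa [zero_sub] at this
    have h4 := van_add (van_mono (by norm_num) h1) h3
    rwa [h2, sub_add_cancel] at h4
  obtain ⟨y, hy⟩ := exists_fix (fun y (m : ℕ) => Ti (cf (m : ℤ) (E (ys y)))) 0 (by
    intro y y' m h
    have h1 := hEd m (ys y) (ys y') (van_ys y) (van_ys y') (van_ys_sub h)
    have h2 := cf_of_van h1 (show (m : ℤ) < m + 1 by omega)
    rw [cf_sub, sub_eq_zero] at h2
    show Ti (cf (m : ℤ) (E (ys y))) = Ti (cf (m : ℤ) (E (ys y')))
    rw [h2])
  have hcoef : ∀ m : ℕ, c0 S * y m - y m * c0 P = cf (m : ℤ) (E (ys y)) := by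
    intro m
    rw [hy m]
    exact hTi _
  have hy0 : y 0 = 0 := by
    have h1 := hcoef 0
    have h2 : cf ((0 : ℕ) : ℤ) (E (ys y)) = 0 := cf_of_van (hE0 _ (van_ys y)) (by norm_num)
    rw [h2, sub_eq_zero] at h1
    exact inj hsep h1
  have hmain : cM (c0 S) * ys y - ys y * cM (c0 P) = E (ys y) := by
    apply cf_ext
    intro t
    rw [cf_sub, cf_mul_left, cf_mul_right]
    rcases lt_or_ge t 0 with h1 | h1
    · rw [cf_of_van (van_ys y) h1, Matrix.mul_zero, Matrix.zero_mul, sub_zero,
        cf_of_van (hE0 _ (van_ys y)) (by omega)]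
    · obtain ⟨i, rfl⟩ := Int.eq_ofNat_of_zero_le h1
      rw [cf_ys]
      exact hcoef i
  refine ⟨ys y, fun a b j hj => van_ys y a b j hj, ?_, ?_⟩
  · have h1 := cf_ys y 0
    rw [hy0] at h1
    exact h1
  · rw [hE] at hmain
    simp only [Matrix.sub_mul, Matrix.mul_sub] at hmain
    have h2 : R + S * ys y + sX K m0 • (ys y).map (lD D) - (ys y * P + ys y * Q * ys y) = 0 := by
      have h3 := sub_eq_zero.2 hmain
      rw [← h3]
      abel
    exact sub_eq_zero.1 h2

end Pool.Agent.M7
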