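import Pool.Agent.Lib.MP_7baa7a_ag.Gau

/-!
# The trace of `g⁻¹ D g` is integral
-/

set_option autoImplicit false

open Matrix

namespace Pool.Agent.M7

namespace GTrcAux

open GGauAux

theorem noPole_logder {K : Type} [Field K] (D : K →+ K) (f : LaurentSeries K) : NoPole (lD D f / f) := by
  by_cases hf : f = 0
  · rw [hf, div_zero]
    exact noPole_zero
  · intro m hm
    rw [div_eq_mul_inv]
    have hf' : f⁻¹ ≠ 0 := inv_ne_zero hf
    have ho : f.order + (f⁻¹).order = 0 := by
      rw [← HahnSeries.order_mul hf hf', mul_inv_cancel₀ hf, HahnSeries.order_one]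
    refine coeff_mul_lt (a := f.order) (b := (f⁻¹).order) (fun j hj => ?_) (fun j hj => ?_) (by omega)
    · rw [lD_coeff, HahnSeries.coeff_eq_zero_of_lt_order hj, map_zero]
    · exact HahnSeries.coeff_eq_zero_of_lt_order hj

end GTrcAux

open GGauAux GTrcAux

theorem tTrc : S_Trc := by
  intro K n _ _ _ D hD0 g
  have hD := lD_isDer hD0
  have main : ∀ M : Matrix n n (LaurentSeries K), M.det ≠ 0 → ∀ g : GL n (LaurentSeries K),
      (g : Matrix n n (LaurentSeries K)) = M →
      NoPole ((↑g⁻¹ : Matrix n n (LaurentSeries K)) * (g : Matrix n n (LaurentSeries K)).map (lD D)).trace := by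
    intro M hM
    refine Matrix.diagonal_transvection_induction_of_det_ne_zero (fun M => ∀ g : GL n (LaurentSeries K),
      (g : Matrix n n (LaurentSeries K)) = M →
      NoPole ((↑g⁻¹ : Matrix n n (LaurentSeries K)) * (g : Matrix n n (LaurentSeries K)).map (lD D)).trace) M hM ?_ ?_ ?_
    · intro v hv g hg
      have hv0 : ∀ a, v a ≠ 0 := by
        intro a ha
        apply hv
        rw [Matrix.det_diagonal]
        exact Finset.prod_eq_zero (Finset.mem_univ a) ha
      have hB : (g : Matrix n n (LaurentSeries K)).map (lD D) =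
          (g : Matrix n n (LaurentSeries K)) * Matrix.diagonal fun a => lD D (v a) / v a := by
        rw [hg, Matrix.diagonal_mul_diagonal]
        refine Matrix.ext fun a b => ?_
        rw [Matrix.map_apply]
        by_cases hab : a = b
        · subst hab
          rw [Matrix.diagonal_apply_eq, Matrix.diagonal_apply_eq, mul_div_cancel₀ _ (hv0 a)]
        · rw [Matrix.diagonal_apply_ne _ hab, Matrix.diagonal_apply_ne _ hab, map_zero]
      rw [hB, ← Matrix.mul_assoc, inv_g, Matrix.one_mul, Matrix.trace_diagonal]
      exact noPole_sum _ fun a _ => noPole_logder D (v a)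
    · intro t g hg
      have hB : (g : Matrix n n (LaurentSeries K)).map (lD D) =
          (g : Matrix n n (LaurentSeries K)) * Matrix.single t.i t.j (lD D t.c) := by
        rw [hg, Matrix.TransvectionStruct.toMatrix, Matrix.transvection, map_add', map_one' hD, zero_add,
          Matrix.add_mul, Matrix.one_mul, Matrix.single_mul_single_of_ne _ _ _ _ t.hij.symm, add_zero]
        refine Matrix.ext fun a b => ?_
        rw [Matrix.map_apply, Matrix.single_apply, Matrix.single_apply]
        split_ifs
        · rfl
        · rw [map_zero]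
      rw [hB, ← Matrix.mul_assoc, inv_g, Matrix.one_mul, Matrix.trace_single_eq_of_ne _ _ _ t.hij]
      exact noPole_zero
    · intro M N hM hN ihM ihN g hg
      set gM := Matrix.GeneralLinearGroup.mkOfDetNeZero M hM with hgM
      set gN := Matrix.GeneralLinearGroup.mkOfDetNeZero N hN with hgN
      have e : g = gM * gN := by
        apply Units.ext
        rw [hg, Units.val_mul]
        rfl
      have h1 := ihM gM rfl
      have h2 := ihN gN rfl
      have e2 : ((↑g⁻¹ : Matrix n n (LaurentSeries K)) * (g : Matrix n n (LaurentSeries K)).map (lD D)).trace =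
          ((↑gM⁻¹ : Matrix n n (LaurentSeries K)) * (gM : Matrix n n (LaurentSeries K)).map (lD D)).trace +
          ((↑gN⁻¹ : Matrix n n (LaurentSeries K)) * (gN : Matrix n n (LaurentSeries K)).map (lD D)).trace := by
        rw [e, _root_.mul_inv_rev, Units.val_mul, Units.val_mul, map_mul' hD, Matrix.mul_add, Matrix.trace_add]
        congr 1
        · rw [← Matrix.mul_assoc, Matrix.trace_mul_comm, Matrix.mul_assoc,
            ← Matrix.mul_assoc (gN : Matrix n n (LaurentSeries K)), g_inv, Matrix.one_mul]
        · rw [Matrix.mul_assoc, ← Matrix.mul_assoc (↑gM⁻¹ : Matrix n n (LaurentSeries K)), inv_g, Matrix.one_mul]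
      rw [e2]
      exact noPole_add h1 h2
  exact main g (Matrix.GeneralLinearGroup.det g).ne_zero g rfl

end Pool.Agent.M7
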