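import Pool.Agent.Lib.MP_7baa7a_ag.Spec2
import Pool.Agent.Lib.MP_7baa7a_ag.Fam
import Pool.Agent.Lib.MP_7baa7a_ag.Mult
import Pool.Agent.Lib.MP_7baa7a_ag.GMul
import Pool.Agent.Lib.MP_7baa7a_ag.Trc
import Pool.Agent.Lib.MP_7baa7a_ag.Cyc
import Pool.Agent.Lib.MP_7baa7a_ag.Pol
import Pool.Agent.Lib.MP_7baa7a_ag.Fit
import Pool.Agent.Lib.MP_7baa7a_ag.Ric
import Pool.Agent.Lib.MP_7baa7a_ag.One
import Pool.Agent.Lib.MP_7baa7a_ag.Oth
import Pool.Agent.Lib.MP_7baa7a_ag.Lat

/-!
# Families of flat connections over an affine curve: the two theorems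
-/

set_option autoImplicit false

open Matrix TensorProduct

namespace Pool.Agent.M7

open Coef Mult Fam

theorem lmap_lD {K L : Type} [Field K] [Field L] [Algebra K L] {D : K →+ K} {E : L →+ L}
    (h : ∀ a, E (algebraMap K L a) = algebraMap K L (D a)) (f : LaurentSeries K) :
    lmap K L (lD D f) = lD E (lmap K L f) := by
  ext m
  rw [lmap_coeff, lD_coeff, lD_coeff, lmap_coeff, h]

theorem exact_map {K L ι : Type} [Field K] [Field L] [Algebra K L] {D : ι → K →+ K} {E : ι → L →+ L}
    (h : ∀ i a, E i (algebraMap K L a) = algebraMap K L (D i a)) {w : ι → ι → ι → K} (hw : Exact (fun i => D i) w) :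
    Exact (fun i => E i) fun i j l => algebraMap K L (w i j l) := by
  obtain ⟨η, a, b⟩ := hw
  refine ⟨fun i j => algebraMap K L (η i j), fun i j => ?_, fun i j l => ?_⟩
  · show algebraMap K L (η i j) = -algebraMap K L (η j i)
    rw [a i j, map_neg]
  · simp only
    rw [b i j l, map_add, map_add, h, h, h]

section

variable {k K R L : Type} [Field k] [Field K] [CharZero K] [CommRing R] [Field L] [Algebra k K] [Algebra k R]
  [Algebra K L] {d n : ℕ} {D : Fin d → Derivation k K K} {E : Fin d → L →+ L}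

omit [CharZero K] in
theorem isDer_der (d : Derivation k K K) : IsDer ((d : K →ₗ[k] K).toAddMonoidHom) := by
  intro a b
  show d (a * b) = d a * b + a * d b
  rw [d.leibniz, smul_eq_mul, smul_eq_mul]
  ring

omit [CharZero K] in
/-- the expansion at infinity over `L` is flat -/
theorem flat_L (hED : ∀ i a, E i (algebraMap K L a) = algebraMap K L (D i a))
    (e : R →+* LaurentSeries k) (he : ∀ c, e (algebraMap k R c) = HahnSeries.C c)
    {A : Fin d → Matrix (Fin n) (Fin n) (K ⊗[k] R)}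
    (hA : Flat (fun i => ⇑(LinearMap.rTensor R ((D i : K →ₗ[k] K)))) A) :
    Flat (fun i => lD (E i)) fun i => ((A i).map (exT e he)).map (lmap K L) :=
  flat_map (D' := fun i => lD (E i)) (lmap K L) (fun i a => lmap_lD (D := (D i : K →ₗ[k] K).toAddMonoidHom) (hED i) a)
    (fam_flat e he D hA)

omit [CharZero K] in
/-- the class of the member at `t₀` is the constant coefficient of the class of the expansion at infinity over `L` -/
theorem class_L (hED : ∀ i a, E i (algebraMap K L a) = algebraMap K L (D i a)) (δ : Derivation k R R)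
    (hδ : ∀ r, δ r = 0 → ∃ c, algebraMap k R c = r) (t₀ : R →ₐ[k] k) (e : R →+* LaurentSeries k)
    (he : ∀ c, e (algebraMap k R c) = HahnSeries.C c) {A : Fin d → Matrix (Fin n) (Fin n) (K ⊗[k] R)}
    (hA : Flat (fun i => ⇑(LinearMap.rTensor R ((D i : K →ₗ[k] K)))) A) :
    Exact (fun i => E i) fun i j l => algebraMap K L (CS (fun i => (A i).map (evT t₀)) i j l) -
      (CS (fun i => ((A i).map (exT e he)).map (lmap K L)) i j l).coeff 0 := by
  have h := fam_class D δ hδ t₀ e he hA
  have h' := exact_map (D := fun i => ((D i : K →ₗ[k] K).toAddMonoidHom)) hED h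
  refine exact_congr h' fun i j l => ?_
  rw [map_sub, CS_map (lmap K L), lmap_coeff]

/-- **Splitting of unbounded families.** -/
theorem topA (hDsc : S_Dsc) (hECo : S_ECo) [IsAlgClosure K L] (hD : Com fun i => ⇑(D i)) (hx : ∀ i, ∃ x, D i x = 1)
    (hE : ∀ i, IsDer (E i)) (hED : ∀ i a, E i (algebraMap K L a) = algebraMap K L (D i a)) (δ : Derivation k R R)
    (hδ : ∀ r, δ r = 0 → ∃ c, algebraMap k R c = r) (t₀ : R →ₐ[k] k) (e : R →+* LaurentSeries k)
    (he : ∀ c, e (algebraMap k R c) = HahnSeries.C c) {A : Fin d → Matrix (Fin n) (Fin n) (K ⊗[k] R)}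
    (hA : Flat (fun i => ⇑(LinearMap.rTensor R ((D i : K →ₗ[k] K)))) A) (htr : ∀ i, (A i).trace = 0)
    (hub : ¬ Bdd (fun i => (D i : K →ₗ[k] K).toAddMonoidHom) fun i => (A i).map (exT e he)) :
    ∃ (n₁ n₂ : ℕ) (B₁ : Fin d → Matrix (Fin n₁) (Fin n₁) L) (B₂ : Fin d → Matrix (Fin n₂) (Fin n₂) L),
      0 < n₁ ∧ 0 < n₂ ∧ n₁ + n₂ = n ∧ Flat (fun i => E i) B₁ ∧ Flat (fun i => E i) B₂ ∧
      Exact (fun i => E i) fun i j l =>
        algebraMap K L (CS (fun i => (A i).map (evT t₀)) i j l) - (CS B₁ i j l + CS B₂ i j l) := by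
  have : IsAlgClosed L := IsAlgClosure.isAlgClosed K
  have : Algebra.IsAlgebraic K L := IsAlgClosure.isAlgebraic
  have : CharZero L := charZero_of_injective_algebraMap (algebraMap K L).injective
  have hx' : ∀ i, ∃ x, E i x = 1 := by
    intro i
    obtain ⟨x, h⟩ := hx i
    exact ⟨algebraMap K L x, by rw [hED, h, map_one]⟩
  have hC : Com fun i => E i := hECo K L (Fin d) (fun i => (D i : K →ₗ[k] K).toAddMonoidHom) E
    (fun i => isDer_der (D i)) hE hED hD
  have hub' : ¬ Bdd E fun i => ((A i).map (exT e he)).map (lmap K L) := fun hb =>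
    hub (hDsc K L (Fin n) d (fun i => (D i : K →ₗ[k] K).toAddMonoidHom) E (fun i => isDer_der (D i)) hE hED _ hb)
  have htr' : ∀ i, (((A i).map (exT e he)).map (lmap K L)).trace = 0 := by
    intro i
    have h1 : (((A i).map (exT e he)).map (lmap K L)).trace = lmap K L (exT e he (A i).trace) := by
      simp only [Matrix.trace, Matrix.diag_apply, Matrix.map_apply, map_sum]
    rw [h1, htr i, map_zero, map_zero]
  obtain ⟨n₁, n₂, B₁, B₂, h1, h2, h3, f1, f2, hex⟩ :=
    limit2 tGMul (tGau tGMul) (tPol tCyc tTrc tGMul) (tOne tFit tRic tGMul) tOth tTri tLat hE hC hx'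
      (flat_L hED e he hA) htr' hub'
  refine ⟨n₁, n₂, B₁, B₂, h1, h2, h3, f1, f2, ?_⟩
  refine exact_congr (exact_add (class_L hED δ hδ t₀ e he hA) hex) fun i j l => ?_
  ring

/-- **Sum over the eigenvalues.** -/
theorem topB (hTrD : S_TrD) (hECo : S_ECo) [IsAlgClosure K L] (hD : Com fun i => ⇑(D i)) (hx : ∀ i, ∃ x, D i x = 1)
    (hE : ∀ i, IsDer (E i)) (hED : ∀ i a, E i (algebraMap K L a) = algebraMap K L (D i a)) (δ : Derivation k R R)
    (hδ : ∀ r, δ r = 0 → ∃ c, algebraMap k R c = r) (t₀ : R →ₐ[k] k) (e : R →+* LaurentSeries k)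
    (he : ∀ c, e (algebraMap k R c) = HahnSeries.C c) {A : Fin d → Matrix (Fin n) (Fin n) (K ⊗[k] R)}
    (hA : Flat (fun i => ⇑(LinearMap.rTensor R ((D i : K →ₗ[k] K)))) A) (r : ℕ) (hr : 0 < r)
    (g : GL (Fin n) (LaurentSeries L)) (i : Fin d) (q : ℕ) (hq : 0 < q) (Θ : Matrix (Fin n) (Fin n) L)
    (hlow : ∀ a b, ∀ m : ℤ, m < -q → (gau (fun i => lD (E i)) g
      (fun i => (((A i).map (exT e he)).map (lmap K L)).map (ram r hr)) i a b).coeff m = 0)
    (hΘ : ∀ a b, (gau (fun i => lD (E i)) g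
      (fun i => (((A i).map (exT e he)).map (lmap K L)).map (ram r hr)) i a b).coeff (-q) = Θ a b)
    (s : Finset L) (hs : ∀ z, z ∈ s ↔ Θ.charpoly.IsRoot z) :
    (∃ B : (z : L) → Fin d → Matrix (Fin (Θ.charpoly.rootMultiplicity z)) (Fin (Θ.charpoly.rootMultiplicity z)) L,
      (∀ z, Flat (fun i => E i) (B z)) ∧ Exact (fun i => E i) fun i j l =>
        algebraMap K L (CS (fun i => (A i).map (evT t₀)) i j l) - ∑ z ∈ s, CS (B z) i j l) ∧
    (Θ.charpoly.Separable → Exact (fun i => ⇑(D i)) (CS fun i => (A i).map (evT t₀))) := by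
  have : IsAlgClosed L := IsAlgClosure.isAlgClosed K
  have : Algebra.IsAlgebraic K L := IsAlgClosure.isAlgebraic
  have : CharZero L := charZero_of_injective_algebraMap (algebraMap K L).injective
  have hx' : ∀ i, ∃ x, E i x = 1 := by
    intro i
    obtain ⟨x, h⟩ := hx i
    exact ⟨algebraMap K L x, by rw [hED, h, map_one]⟩
  have hC : Com fun i => E i := hECo K L (Fin d) (fun i => (D i : K →ₗ[k] K).toAddMonoidHom) E
    (fun i => isDer_der (D i)) hE hED hD
  set A' : Fin d → Matrix (Fin n) (Fin n) (LaurentSeries L) :=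
    fun i => (((A i).map (exT e he)).map (lmap K L)).map (ram r hr) with hA'
  have hfl : Flat (fun i => lD (E i)) A' :=
    flat_map (D' := fun i => lD (E i)) (ram r hr) (fun i a => ram_lD hr (E i) a) (flat_L hED e he hA)
  set G : Matrix (Fin n) (Fin n) (LaurentSeries L) := gau (fun i => lD (E i)) g A' i with hG
  set C : Matrix (Fin n) (Fin n) (LaurentSeries L) := sX L q • G with hCdef
  have hcoef : ∀ a b (m : ℤ), (C a b).coeff m = (G a b).coeff (m - q) := by
    intro a b m
    rw [hCdef, Matrix.smul_apply, smul_eq_mul, sX, single_mul_coeff]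
  have hNC : NP C := by
    intro a b m hm
    rw [hcoef]
    exact hlow a b _ (by omega)
  have hpp : sX L (-q) * sX L q = 1 := by
    refine (single_mul_single _ _).trans ?_
    rw [neg_add_cancel]
    rfl
  have hg : gau1 (lD (E i)) g (A' i) = sX L (-q) • C := by
    rw [hCdef, smul_smul, hpp, one_smul]
    rfl
  have hc0 : c0 C = Θ := by
    ext a b
    show (C a b).coeff 0 = Θ a b
    rw [hcoef, zero_sub, hΘ]
  obtain ⟨w, hw, hex⟩ := spectral tGMul (tGau tGMul) tTrc (tPol tCyc tTrc tGMul) (tOne tFit tRic tGMul) tOth tTri tLat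
    hE hC hx' n A' hfl i q hq g C hNC hg
  rw [hc0] at hw hex
  have hex2 : ∀ s : Finset L, (∀ z, Θ.charpoly.IsRoot z → z ∈ s) → Exact (fun i => E i) fun i j l =>
      algebraMap K L (CS (fun i => (A i).map (evT t₀)) i j l) - ∑ z ∈ s, w z i j l := by
    intro s hs
    refine exact_congr (exact_add (class_L hED δ hδ t₀ e he hA) (hex s hs)) fun i j l => ?_
    have h2 : (CS A' i j l).coeff 0 = (CS (fun i => ((A i).map (exT e he)).map (lmap K L)) i j l).coeff 0 := by
      rw [hA', CS_map (ram r hr), ram_coeff_zero]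
    simp only [h2]
    ring
  constructor
  · choose B hB1 hB2 using hw
    refine ⟨B, hB1, exact_congr (hex2 s fun z hz => (hs z).2 hz) fun i j l => ?_⟩
    congr 1
    exact Finset.sum_congr rfl fun z _ => (hB2 z i j l).symm
  · intro hsep
    have h0 : ∀ z i j l, w z i j l = 0 := fun z => isC_of_le (Polynomial.rootMultiplicity_le_one_of_separable hsep z) (hw z)
    have h1 := hex2 s fun z hz => (hs z).2 hz
    refine hTrD K L d (fun i => (D i : K →ₗ[k] K).toAddMonoidHom) E (fun i => isDer_der (D i)) hE hED _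
      (exact_congr h1 fun i j l => ?_)
    rw [Finset.sum_eq_zero fun z _ => h0 z i j l, sub_zero]

end

end Pool.Agent.M7
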