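import Pool.Agent.Lib.MP_7baa7a_ag.Defs3
import Pool.Agent.Lib.MP_7baa7a_ag.Top

/-!
# Reduction to rigid connections
-/

set_option autoImplicit false

open Matrix TensorProduct

namespace Pool.Agent.M7

open Coef Mult Fam

section

variable {k K L : Type} [Field k] [Field K] [CharZero K] [Field L] [Algebra k K] [Algebra K L]
  {d n : ℕ} {D : Fin d → Derivation k K K} {E : Fin d → L →+ L}

/-- the class of a connection which is not rigid is the sum of the classes of two flat connections of smaller ranks -/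
theorem not_rigid (hDsc : S_Dsc) (hECo : S_ECo) [IsAlgClosure K L] (hD : Com fun i => ⇑(D i)) (hx : ∀ i, ∃ x, D i x = 1)
    (hE : ∀ i, IsDer (E i)) (hED : ∀ i a, E i (algebraMap K L a) = algebraMap K L (D i a))
    {A : Fin d → Matrix (Fin n) (Fin n) K} (hA : Flat (fun i => ⇑(D i)) A) (hnr : ¬ Rigid D A) :
    ∃ (n₁ n₂ : ℕ) (B₁ : Fin d → Matrix (Fin n₁) (Fin n₁) L) (B₂ : Fin d → Matrix (Fin n₂) (Fin n₂) L),
      0 < n₁ ∧ 0 < n₂ ∧ n₁ + n₂ = n ∧ Flat (fun i => E i) B₁ ∧ Flat (fun i => E i) B₂ ∧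
      Exact (fun i => E i) fun i j l => algebraMap K L (CS A i j l) - (CS B₁ i j l + CS B₂ i j l) := by
  unfold Rigid at hnr
  push Not at hnr
  obtain ⟨R, i1, i2, δ, t₀, e, he, F, hδ, hF, htr, ⟨g, t, hg⟩, hub⟩ := hnr
  obtain ⟨n₁, n₂, B₁, B₂, h1, h2, h3, f1, f2, hex⟩ := topA hDsc hECo hD hx hE hED δ hδ t₀ e he hF htr hub
  refine ⟨n₁, n₂, B₁, B₂, h1, h2, h3, f1, f2, ?_⟩
  have h4 := tGau tGMul K (Fin d) (Fin n) (fun i => (D i : K →ₗ[k] K).toAddMonoidHom) (fun i => isDer_der (D i)) hD A g hA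
  have h5 : ∀ i j l, CS (fun i => (F i).map (evT t₀)) i j l = CS (gau (fun i => ⇑(D i)) g A) i j l := by
    intro i j l
    have h6 : (fun i => (F i).map (evT t₀)) = fun i => gau (fun i => ⇑(D i)) g A i - Matrix.scalar (Fin n) (t i) := by
      funext i
      rw [hg i, add_sub_cancel_right]
    rw [h6, CS_scalar]
  have h7 := exact_map (D := fun i => (D i : K →ₗ[k] K).toAddMonoidHom) hED (exact_neg h4.2)
  refine exact_congr (exact_add h7 hex) fun i j l => ?_
  rw [h5]
  simp only [map_neg, map_sub]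
  have h8 : CS (gau (fun i => ⇑((D i : K →ₗ[k] K).toAddMonoidHom)) g A) i j l = CS (gau (fun i => ⇑(D i)) g A) i j l := rfl
  rw [h8]
  ring

end

section

variable {k L : Type} [Field k] [Field L] [CharZero L] [Algebra k L] [IsAlgClosed L] {d : ℕ}
  {E : Fin d → Derivation k L L}

theorem rigid_sum (hDsc : S_Dsc) (hECo : S_ECo) (hE : Com fun i => ⇑(E i)) (hx : ∀ i, ∃ x, E i x = 1) : ∀ (n : ℕ)
    (A : Fin d → Matrix (Fin n) (Fin n) L), Flat (fun i => ⇑(E i)) A →
    ∃ l : List (Σ m : ℕ, Fin d → Matrix (Fin m) (Fin m) L),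
      (∀ B ∈ l, 0 < B.1 ∧ Flat (fun i => ⇑(E i)) B.2 ∧ Irr (fun i => ⇑(E i)) B.2 ∧ Rigid E B.2) ∧
      (l.map Sigma.fst).sum = n ∧
      Exact (fun i => ⇑(E i)) fun i j m => CS A i j m - (l.map fun B => CS B.2 i j m).sum := by
  have hac : IsAlgClosure L L := ⟨inferInstance, inferInstance⟩
  intro n
  induction n using Nat.strong_induction_on with
  | _ n ih =>
    intro A hA
    have hz : Exact (fun i => ⇑(E i)) fun _ _ _ => 0 := exact_zero fun i => (E i : L →ₗ[k] L).toAddMonoidHom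
    rcases Nat.eq_zero_or_pos n with hn | hn
    · subst hn
      refine ⟨[], fun B hB => absurd hB (by simp), rfl, ?_⟩
      refine exact_congr (D := fun i => (E i : L →ₗ[k] L).toAddMonoidHom) hz fun i j m => ?_
      rw [CS_sub_zero]
      simp
    have step : (∃ (n₁ n₂ : ℕ) (B₁ : Fin d → Matrix (Fin n₁) (Fin n₁) L) (B₂ : Fin d → Matrix (Fin n₂) (Fin n₂) L),
        0 < n₁ ∧ 0 < n₂ ∧ n₁ + n₂ = n ∧ Flat (fun i => ⇑(E i)) B₁ ∧ Flat (fun i => ⇑(E i)) B₂ ∧
        Exact (fun i => ⇑(E i)) fun i j l => CS A i j l - (CS B₁ i j l + CS B₂ i j l)) →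
        ∃ l : List (Σ m : ℕ, Fin d → Matrix (Fin m) (Fin m) L),
          (∀ B ∈ l, 0 < B.1 ∧ Flat (fun i => ⇑(E i)) B.2 ∧ Irr (fun i => ⇑(E i)) B.2 ∧ Rigid E B.2) ∧
          (l.map Sigma.fst).sum = n ∧
          Exact (fun i => ⇑(E i)) fun i j m => CS A i j m - (l.map fun B => CS B.2 i j m).sum := by
      rintro ⟨n₁, n₂, B₁, B₂, h1, h2, h3, f1, f2, hex⟩
      obtain ⟨l1, a1, b1, c1⟩ := ih n₁ (by omega) B₁ f1
      obtain ⟨l2, a2, b2, c2⟩ := ih n₂ (by omega) B₂ f2
      refine ⟨l1 ++ l2, fun B hB => ?_, ?_, ?_⟩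
      · rcases List.mem_append.1 hB with h | h
        · exact a1 B h
        · exact a2 B h
      · rw [List.map_append, List.sum_append, b1, b2, h3]
      · refine exact_congr (D := fun i => (E i : L →ₗ[k] L).toAddMonoidHom)
          (exact_add (D := fun i => (E i : L →ₗ[k] L).toAddMonoidHom) hex
            (exact_add (D := fun i => (E i : L →ₗ[k] L).toAddMonoidHom) c1 c2)) fun i j m => ?_
        rw [List.map_append, List.sum_append]
        ring
    by_cases hi : Irr (fun i => ⇑(E i)) A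
    swap
    · unfold Irr at hi
      push Not at hi
      obtain ⟨a, b, ε, g, ha, hb, h0⟩ := hi
      have h1 := tGau tGMul L (Fin d) (Fin n) (fun i => (E i : L →ₗ[k] L).toAddMonoidHom) (fun i => isDer_der (E i)) hE A g hA
      set B : Fin d → Matrix (Fin a ⊕ Fin b) (Fin a ⊕ Fin b) L := fun i =>
        (gau (fun i => ⇑(E i)) g A i).submatrix ε.symm ε.symm with hB
      have hBfl : Flat (fun i => ⇑(E i)) B := flat_submatrix ε.symm h1.1
      obtain ⟨f1, f2, hcs⟩ := tTri L (Fin d) (Fin a) (Fin b) (fun i => (E i : L →ₗ[k] L).toAddMonoidHom) B h0 hBfl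
      refine step ⟨a, b, _, _, ha, hb, ?_, f1, f2, ?_⟩
      · have h := Fintype.card_congr ε
        rw [Fintype.card_fin, Fintype.card_sum, Fintype.card_fin, Fintype.card_fin] at h
        exact h.symm
      · refine exact_congr (D := fun i => (E i : L →ₗ[k] L).toAddMonoidHom) (exact_neg h1.2) fun i j l => ?_
        rw [← hcs i j l, hB, CS_submatrix]
        have h8 : CS (gau (fun i => ⇑((E i : L →ₗ[k] L).toAddMonoidHom)) g A) i j l =
          CS (gau (fun i => ⇑(E i)) g A) i j l := rfl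
        rw [h8]
        ring
    by_cases hr : Rigid E A
    · refine ⟨[⟨n, A⟩], fun B hB => ?_, by simp, ?_⟩
      · rw [List.mem_singleton] at hB
        subst hB
        exact ⟨hn, hA, hi, hr⟩
      · refine exact_congr (D := fun i => (E i : L →ₗ[k] L).toAddMonoidHom) hz fun i j m => ?_
        simp
    · obtain ⟨n₁, n₂, B₁, B₂, h1, h2, h3, f1, f2, hex⟩ :=
        not_rigid (E := fun i => (E i : L →ₗ[k] L).toAddMonoidHom) hDsc hECo hE hx (fun i => isDer_der (E i))
          (fun i a => rfl) hA hr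
      exact step ⟨n₁, n₂, B₁, B₂, h1, h2, h3, f1, f2, hex⟩

end

/-- **Reduction to rigid connections.** -/
theorem topR (hDsc : S_Dsc) (hECo : S_ECo) {k K L : Type} [Field k] [Field K] [CharZero K] [Field L] [Algebra k K]
    [Algebra K L] [Algebra k L] [IsScalarTower k K L] [IsAlgClosure K L] {d n : ℕ} {D : Fin d → Derivation k K K}
    (hD : Com fun i => ⇑(D i)) (hx : ∀ i, ∃ x, D i x = 1)
    {E : Fin d → Derivation k L L} (hED : ∀ i a, E i (algebraMap K L a) = algebraMap K L (D i a))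
    {A : Fin d → Matrix (Fin n) (Fin n) K} (hA : Flat (fun i => ⇑(D i)) A) :
    ∃ l : List (Σ m : ℕ, Fin d → Matrix (Fin m) (Fin m) L),
      (∀ B ∈ l, 0 < B.1 ∧ Flat (fun i => ⇑(E i)) B.2 ∧ Irr (fun i => ⇑(E i)) B.2 ∧ Rigid E B.2) ∧
      (l.map Sigma.fst).sum = n ∧
      (¬ Rigid D A → 2 ≤ l.length) ∧
      Exact (fun i => ⇑(E i)) fun i j m => algebraMap K L (CS A i j m) - (l.map fun B => CS B.2 i j m).sum := by
  have : IsAlgClosed L := IsAlgClosure.isAlgClosed K
  have : Algebra.IsAlgebraic K L := IsAlgClosure.isAlgebraic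
  have : CharZero L := charZero_of_injective_algebraMap (algebraMap K L).injective
  have hx' : ∀ i, ∃ x, E i x = 1 := by
    intro i
    obtain ⟨x, h⟩ := hx i
    exact ⟨algebraMap K L x, by rw [hED, h, map_one]⟩
  have hC : Com fun i => ⇑(E i) := hECo K L (Fin d) (fun i => (D i : K →ₗ[k] K).toAddMonoidHom)
    (fun i => (E i : L →ₗ[k] L).toAddMonoidHom) (fun i => isDer_der (D i)) (fun i => isDer_der (E i)) hED hD
  have hAL : Flat (fun i => ⇑(E i)) fun i => (A i).map (algebraMap K L) :=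
    flat_map (D' := fun i => ⇑(E i)) (algebraMap K L) (fun i a => (hED i a).symm) hA
  by_cases hr : Rigid D A
  · obtain ⟨l, a, b, c⟩ := rigid_sum hDsc hECo hC hx' n _ hAL
    refine ⟨l, a, b, fun h => absurd hr h, ?_⟩
    refine exact_congr (D := fun i => (E i : L →ₗ[k] L).toAddMonoidHom) c fun i j m => ?_
    rw [CS_map]
  · obtain ⟨n₁, n₂, B₁, B₂, h1, h2, h3, f1, f2, hex⟩ :=
      not_rigid (E := fun i => (E i : L →ₗ[k] L).toAddMonoidHom) hDsc hECo hD hx (fun i => isDer_der (E i)) hED hA hr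
    obtain ⟨l1, a1, b1, c1⟩ := rigid_sum hDsc hECo hC hx' n₁ B₁ f1
    obtain ⟨l2, a2, b2, c2⟩ := rigid_sum hDsc hECo hC hx' n₂ B₂ f2
    refine ⟨l1 ++ l2, fun B hB => ?_, ?_, fun _ => ?_, ?_⟩
    · rcases List.mem_append.1 hB with h | h
      · exact a1 B h
      · exact a2 B h
    · rw [List.map_append, List.sum_append, b1, b2, h3]
    · have e1 : l1 ≠ [] := by
        rintro rfl
        simp at b1
        omega
      have e2 : l2 ≠ [] := by
        rintro rfl
        simp at b2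
        omega
      have := List.length_pos_iff.2 e1
      have := List.length_pos_iff.2 e2
      rw [List.length_append]
      omega
    · refine exact_congr (D := fun i => (E i : L →ₗ[k] L).toAddMonoidHom)
        (exact_add (D := fun i => (E i : L →ₗ[k] L).toAddMonoidHom) hex
          (exact_add (D := fun i => (E i : L →ₗ[k] L).toAddMonoidHom) c1 c2)) fun i j m => ?_
      rw [List.map_append, List.sum_append]
      ring

end Pool.Agent.M7
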