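import Pool.Agent.Lib.MP_7baa7a_ag.MultW
import Pool.Agent.Lib.MP_7baa7a_ag.Top
import Pool.Agent.Lib.MP_7baa7a_ag.Rig

/-!
# Families of flat connections over an affine curve, reduction to rigid connections: the forms `Tr A^m`, all odd `m ≥ 3`
-/

set_option autoImplicit false

noncomputable section

open Matrix TensorProduct

namespace Pool.Agent.M7

namespace TopW

open OmB GauW PropW Coef SplitW Mult Fam FamW MultW

section

variable {k K R L : Type} [Field k] [Field K] [CharZero K] [CommRing R] [Field L] [Algebra k K] [Algebra k R]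
  [Algebra K L] {d n : ℕ} {D : Fin d → Derivation k K K} {E : Fin d → L →+ L}

/-- the class of the member at `t₀` is the constant coefficient of the class of the expansion at infinity over `L` -/
theorem class_L (hED : ∀ i a, E i (algebraMap K L a) = algebraMap K L (D i a)) (δ : Derivation k R R)
    (hδ : ∀ r, δ r = 0 → ∃ c, algebraMap k R c = r) (t₀ : R →ₐ[k] k) (e : R →+* LaurentSeries k)
    (he : ∀ c, e (algebraMap k R c) = HahnSeries.C c) {A : Fin d → Matrix (Fin n) (Fin n) (K ⊗[k] R)}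
    (hA : Flat (fun i => ⇑(LinearMap.rTensor R ((D i : K →ₗ[k] K)))) A) (m : ℕ) :
    ExO E (omA d ((algebraMap K L : K →+* L) : K →+ L) (TrP (2 * m + 3) fun i => (A i).map (evT t₀)) -
      cl0 m fun i => ((A i).map (exT e he)).map (lmap K L)) := by
  have h := fam_classW D δ hδ t₀ e he hA m
  have h' := h.map (D' := E) ((algebraMap K L : K →+* L) : K →+ L) fun i a => (hED i a).symm
  refine h'.congr ?_
  rw [map_sub, cl0, TrP_map (2 * m + 3) (lmap K L)]
  congr 1
  rw [omA_comp]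
  exact omA_comp (lmap K L : LaurentSeries K →+ LaurentSeries L) (co0 L) _

/-- an unbounded traceless formal family has a decomposable flat limit -/
theorem limit2 {K : Type} [Field K] [IsAlgClosed K] [CharZero K] {d : ℕ} {D : Fin d → K →+ K}
    (hD : ∀ i, IsDer (D i)) (hC : Com fun i => D i) (hx : ∀ i, ∃ x, D i x = 1) {N : ℕ}
    {A : Fin d → Matrix (Fin N) (Fin N) (LaurentSeries K)} (hA : Flat (fun i => lD (D i)) A)
    (htr : ∀ i, (A i).trace = 0) (hunb : ¬ Bdd D A) :
    ∃ (a b : ℕ) (B1 : Fin d → Matrix (Fin a) (Fin a) K) (B2 : Fin d → Matrix (Fin b) (Fin b) K),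
      0 < a ∧ 0 < b ∧ a + b = N ∧ Flat (fun i => D i) B1 ∧ Flat (fun i => D i) B2 ∧
      ∀ m, ExO D (cl0 m A - (TrP (2 * m + 3) B1 + TrP (2 * m + 3) B2)) := by
  obtain ⟨a, b, A1, A2, ha, hb, hab, f1, f2, hex⟩ := SplitW.split1 hD hC hx hA htr hunb
  obtain ⟨B1, g1, e1⟩ := SplitW.limit hD hC hx a A1 f1
  obtain ⟨B2, g2, e2⟩ := SplitW.limit hD hC hx b A2 f2
  refine ⟨a, b, B1, B2, ha, hb, hab, g1, g2, fun m => ((hex m).add ((e1 m).add (e2 m))).congr ?_⟩
  abel

/-- **Splitting of unbounded families.** -/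
theorem topA (hDsc : S_Dsc) (hECo : S_ECo) [IsAlgClosure K L] (hD : Com fun i => ⇑(D i)) (hx : ∀ i, ∃ x, D i x = 1)
    (hE : ∀ i, IsDer (E i)) (hED : ∀ i a, E i (algebraMap K L a) = algebraMap K L (D i a)) (δ : Derivation k R R)
    (hδ : ∀ r, δ r = 0 → ∃ c, algebraMap k R c = r) (t₀ : R →ₐ[k] k) (e : R →+* LaurentSeries k)
    (he : ∀ c, e (algebraMap k R c) = HahnSeries.C c) {A : Fin d → Matrix (Fin n) (Fin n) (K ⊗[k] R)}
    (hA : Flat (fun i => ⇑(LinearMap.rTensor R ((D i : K →ₗ[k] K)))) A) (htr : ∀ i, (A i).trace = 0)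
    (hub : ¬ Bdd (fun i => (D i : K →ₗ[k] K).toAddMonoidHom) fun i => (A i).map (exT e he)) :
    ∃ (n₁ n₂ : ℕ) (B₁ : Fin d → Matrix (Fin n₁) (Fin n₁) L) (B₂ : Fin d → Matrix (Fin n₂) (Fin n₂) L),
      0 < n₁ ∧ 0 < n₂ ∧ n₁ + n₂ = n ∧ Flat (fun i => E i) B₁ ∧ Flat (fun i => E i) B₂ ∧
      ∀ m, ExO E (omA d ((algebraMap K L : K →+* L) : K →+ L) (TrP (2 * m + 3) fun i => (A i).map (evT t₀)) -
        (TrP (2 * m + 3) B₁ + TrP (2 * m + 3) B₂)) := by
  have : IsAlgClosed L := IsAlgClosure.isAlgClosed K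
  have : Algebra.IsAlgebraic K L := IsAlgClosure.isAlgebraic
  have : CharZero L := charZero_of_injective_algebraMap (algebraMap K L).injective
  have hx' : ∀ i, ∃ x, E i x = 1 := by
    intro i
    obtain ⟨x, h⟩ := hx i
    exact ⟨algebraMap K L x, by rw [hED, h, map_one]⟩
  have hC : Com fun i => E i := hECo K L (Fin d) (fun i => (D i : K →ₗ[k] K).toAddMonoidHom) E
    (fun i => isDer_der (D i)) hE hED hD
  have hub' : ¬ Bdd E fun i => ((A i).map (exT e he)).map (lmap K L) := fun hb =>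
    hub (hDsc K L (Fin n) d (fun i => (D i : K →ₗ[k] K).toAddMonoidHom) E (fun i => isDer_der (D i)) hE hED _ hb)
  have htr' : ∀ i, (((A i).map (exT e he)).map (lmap K L)).trace = 0 := by
    intro i
    have h1 : (((A i).map (exT e he)).map (lmap K L)).trace = lmap K L (exT e he (A i).trace) := by
      simp only [Matrix.trace, Matrix.diag_apply, Matrix.map_apply, map_sum]
    rw [h1, htr i, map_zero, map_zero]
  obtain ⟨n₁, n₂, B₁, B₂, h1, h2, h3, f1, f2, hex⟩ :=
    TopW.limit2 hE hC hx' (flat_L hED e he hA) htr' hub'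
  refine ⟨n₁, n₂, B₁, B₂, h1, h2, h3, f1, f2, fun m => ?_⟩
  refine ((class_L hED δ hδ t₀ e he hA m).add (hex m)).congr ?_
  abel

/-- **Sum over the eigenvalues.** -/
theorem topB (hECo : S_ECo) [IsAlgClosure K L] (hD : Com fun i => ⇑(D i)) (hx : ∀ i, ∃ x, D i x = 1)
    (hE : ∀ i, IsDer (E i)) (hED : ∀ i a, E i (algebraMap K L a) = algebraMap K L (D i a)) (δ : Derivation k R R)
    (hδ : ∀ r, δ r = 0 → ∃ c, algebraMap k R c = r) (t₀ : R →ₐ[k] k) (e : R →+* LaurentSeries k)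
    (he : ∀ c, e (algebraMap k R c) = HahnSeries.C c) {A : Fin d → Matrix (Fin n) (Fin n) (K ⊗[k] R)}
    (hA : Flat (fun i => ⇑(LinearMap.rTensor R ((D i : K →ₗ[k] K)))) A) (r : ℕ) (hr : 0 < r)
    (g : GL (Fin n) (LaurentSeries L)) (i : Fin d) (q : ℕ) (hq : 0 < q) (Θ : Matrix (Fin n) (Fin n) L)
    (hlow : ∀ a b, ∀ m : ℤ, m < -q → (gau (fun i => lD (E i)) g
      (fun i => (((A i).map (exT e he)).map (lmap K L)).map (ram r hr)) i a b).coeff m = 0)
    (hΘ : ∀ a b, (gau (fun i => lD (E i)) g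
      (fun i => (((A i).map (exT e he)).map (lmap K L)).map (ram r hr)) i a b).coeff (-q) = Θ a b)
    (s : Finset L) (hs : ∀ z, z ∈ s ↔ Θ.charpoly.IsRoot z) :
    (∃ B : (z : L) → Fin d → Matrix (Fin (Θ.charpoly.rootMultiplicity z)) (Fin (Θ.charpoly.rootMultiplicity z)) L,
      (∀ z, Flat (fun i => E i) (B z)) ∧ ∀ m, ExO E
        (omA d ((algebraMap K L : K →+* L) : K →+ L) (TrP (2 * m + 3) fun i => (A i).map (evT t₀)) -
          ∑ z ∈ s, TrP (2 * m + 3) (B z))) ∧
    (Θ.charpoly.Separable →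
      ∀ m, ExO (fun i => ((D i : K →ₗ[k] K).toAddMonoidHom)) (TrP (2 * m + 3) fun i => (A i).map (evT t₀))) := by
  have : IsAlgClosed L := IsAlgClosure.isAlgClosed K
  have : Algebra.IsAlgebraic K L := IsAlgClosure.isAlgebraic
  have : CharZero L := charZero_of_injective_algebraMap (algebraMap K L).injective
  have hx' : ∀ i, ∃ x, E i x = 1 := by
    intro i
    obtain ⟨x, h⟩ := hx i
    exact ⟨algebraMap K L x, by rw [hED, h, map_one]⟩
  have hC : Com fun i => E i := hECo K L (Fin d) (fun i => (D i : K →ₗ[k] K).toAddMonoidHom) E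
    (fun i => isDer_der (D i)) hE hED hD
  set A' : Fin d → Matrix (Fin n) (Fin n) (LaurentSeries L) :=
    fun i => (((A i).map (exT e he)).map (lmap K L)).map (ram r hr) with hA'
  have hfl : Flat (fun i => lD (E i)) A' :=
    flat_map (D' := fun i => lD (E i)) (ram r hr) (fun i a => ram_lD hr (E i) a) (flat_L hED e he hA)
  set G : Matrix (Fin n) (Fin n) (LaurentSeries L) := gau (fun i => lD (E i)) g A' i with hG
  set C : Matrix (Fin n) (Fin n) (LaurentSeries L) := sX L q • G with hCdef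
  have hcoef : ∀ a b (m : ℤ), (C a b).coeff m = (G a b).coeff (m - q) := by
    intro a b m
    rw [hCdef, Matrix.smul_apply, smul_eq_mul, sX, single_mul_coeff]
  have hNC : NP C := by
    intro a b m hm
    rw [hcoef]
    exact hlow a b _ (by omega)
  have hpp : sX L (-q) * sX L q = 1 := by
    refine (single_mul_single _ _).trans ?_
    rw [neg_add_cancel]
    rfl
  have hg : gau1 (lD (E i)) g (A' i) = sX L (-q) • C := by
    rw [hCdef, smul_smul, hpp, one_smul]
    rfl
  have hc0 : c0 C = Θ := by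
    ext a b
    show (C a b).coeff 0 = Θ a b
    rw [hcoef, zero_sub, hΘ]
  obtain ⟨w, hw, hex⟩ := MultW.spectral hE hC hx' n A' hfl i q hq g C hNC hg
  rw [hc0] at hw hex
  have hex2 : ∀ s : Finset L, (∀ z, Θ.charpoly.IsRoot z → z ∈ s) → ∀ m, ExO E
      (omA d ((algebraMap K L : K →+* L) : K →+ L) (TrP (2 * m + 3) fun i => (A i).map (evT t₀)) - ∑ z ∈ s, w z m) := by
    intro s hs m
    refine ((class_L hED δ hδ t₀ e he hA m).add (hex s hs m)).congr ?_
    have h2 : cl0 m A' = cl0 m (fun i => ((A i).map (exT e he)).map (lmap K L)) := cl0_ram r hr _ m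
    simp only [h2]
    abel
  constructor
  · choose B hB1 hB2 using hw
    refine ⟨B, hB1, fun m => (hex2 s (fun z hz => (hs z).2 hz) m).congr ?_⟩
    congr 1
    exact Finset.sum_congr rfl fun z _ => (hB2 z m).symm
  · intro hsep m
    have h0 : ∀ z m, w z m = 0 := fun z => isW_of_le (Polynomial.rootMultiplicity_le_one_of_separable hsep z) (hw z)
    have h1 := hex2 s (fun z hz => (hs z).2 hz) m
    rw [Finset.sum_eq_zero fun z _ => h0 z m, sub_zero] at h1
    exact TrDW.exO_descent (D := fun i => ((D i : K →ₗ[k] K).toAddMonoidHom)) (fun i => isDer_der (D i)) hE hED h1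

end

section

variable {k K L : Type} [Field k] [Field K] [CharZero K] [Field L] [Algebra k K] [Algebra K L]
  {d n : ℕ} {D : Fin d → Derivation k K K} {E : Fin d → L →+ L}

/-- the class of a connection which is not rigid is the sum of the classes of two flat connections of smaller ranks -/
theorem not_rigid (hDsc : S_Dsc) (hECo : S_ECo) [IsAlgClosure K L] (hD : Com fun i => ⇑(D i)) (hx : ∀ i, ∃ x, D i x = 1)
    (hE : ∀ i, IsDer (E i)) (hED : ∀ i a, E i (algebraMap K L a) = algebraMap K L (D i a))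
    {A : Fin d → Matrix (Fin n) (Fin n) K} (hA : Flat (fun i => ⇑(D i)) A) (hnr : ¬ Rigid D A) :
    ∃ (n₁ n₂ : ℕ) (B₁ : Fin d → Matrix (Fin n₁) (Fin n₁) L) (B₂ : Fin d → Matrix (Fin n₂) (Fin n₂) L),
      0 < n₁ ∧ 0 < n₂ ∧ n₁ + n₂ = n ∧ Flat (fun i => E i) B₁ ∧ Flat (fun i => E i) B₂ ∧
      ∀ m, ExO E (omA d ((algebraMap K L : K →+* L) : K →+ L) (TrP (2 * m + 3) A) -
        (TrP (2 * m + 3) B₁ + TrP (2 * m + 3) B₂)) := by
  unfold Rigid at hnr
  push Not at hnr
  obtain ⟨R, i1, i2, δ, t₀, e, he, F, hδ, hF, htr, ⟨g, t, hg⟩, hub⟩ := hnr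
  obtain ⟨n₁, n₂, B₁, B₂, h1, h2, h3, f1, f2, hex⟩ := TopW.topA hDsc hECo hD hx hE hED δ hδ t₀ e he hF htr hub
  refine ⟨n₁, n₂, B₁, B₂, h1, h2, h3, f1, f2, fun m => ?_⟩
  obtain ⟨η, h4⟩ := inv_all (D := fun i => (D i : K →ₗ[k] K).toAddMonoidHom) (fun i => isDer_der (D i)) hD g A hA m
  have h4' : ExO (fun i => (D i : K →ₗ[k] K).toAddMonoidHom)
      (TrP (2 * m + 3) (gau (fun i => ⇑((D i : K →ₗ[k] K).toAddMonoidHom)) g A) - TrP (2 * m + 3) A) := ⟨η, h4⟩
  have h5 : TrP (2 * m + 3) (fun i => (F i).map (evT t₀)) =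
      TrP (2 * m + 3) (gau (fun i => ⇑((D i : K →ₗ[k] K).toAddMonoidHom)) g A) := by
    have h6 : (fun i => (F i).map (evT t₀)) = fun i => gau (fun i => ⇑(D i)) g A i - Matrix.scalar (Fin n) (t i) := by
      funext i
      rw [hg i, add_sub_cancel_right]
    rw [h6]
    exact TrP_scalar (D := fun i => (D i : K →ₗ[k] K).toAddMonoidHom) (fun i => isDer_der (D i)) (two_unit K) m _ t
  have h7 := (h4'.neg).map (D' := E) ((algebraMap K L : K →+* L) : K →+ L) fun i a => (hED i a).symm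
  refine (h7.add (hex m)).congr ?_
  rw [h5, map_neg, map_sub]
  abel

end

section

variable {k L : Type} [Field k] [Field L] [CharZero L] [Algebra k L] [IsAlgClosed L] {d : ℕ}
  {E : Fin d → Derivation k L L}

theorem rigid_sum (hDsc : S_Dsc) (hECo : S_ECo) (hE : Com fun i => ⇑(E i)) (hx : ∀ i, ∃ x, E i x = 1) : ∀ (n : ℕ)
    (A : Fin d → Matrix (Fin n) (Fin n) L), Flat (fun i => ⇑(E i)) A →
    ∃ l : List (Σ m : ℕ, Fin d → Matrix (Fin m) (Fin m) L),
      (∀ B ∈ l, 0 < B.1 ∧ Flat (fun i => ⇑(E i)) B.2 ∧ Irr (fun i => ⇑(E i)) B.2 ∧ Rigid E B.2) ∧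
      (l.map Sigma.fst).sum = n ∧
      ∀ m, ExO (fun i => (E i : L →ₗ[k] L).toAddMonoidHom)
        (TrP (2 * m + 3) A - (l.map fun B => TrP (2 * m + 3) B.2).sum) := by
  have hac : IsAlgClosure L L := ⟨inferInstance, inferInstance⟩
  intro n
  induction n using Nat.strong_induction_on with
  | _ n ih =>
    intro A hA
    rcases Nat.eq_zero_or_pos n with hn | hn
    · subst hn
      refine ⟨[], fun B hB => absurd hB (by simp), rfl, fun m => ExO.zero.congr ?_⟩
      rw [TrP_sub_zero (two_unit L), List.map_nil, List.sum_nil, sub_zero]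
    have step : (∃ (n₁ n₂ : ℕ) (B₁ : Fin d → Matrix (Fin n₁) (Fin n₁) L) (B₂ : Fin d → Matrix (Fin n₂) (Fin n₂) L),
        0 < n₁ ∧ 0 < n₂ ∧ n₁ + n₂ = n ∧ Flat (fun i => ⇑(E i)) B₁ ∧ Flat (fun i => ⇑(E i)) B₂ ∧
        ∀ m, ExO (fun i => (E i : L →ₗ[k] L).toAddMonoidHom)
          (TrP (2 * m + 3) A - (TrP (2 * m + 3) B₁ + TrP (2 * m + 3) B₂))) →
        ∃ l : List (Σ m : ℕ, Fin d → Matrix (Fin m) (Fin m) L),
          (∀ B ∈ l, 0 < B.1 ∧ Flat (fun i => ⇑(E i)) B.2 ∧ Irr (fun i => ⇑(E i)) B.2 ∧ Rigid E B.2) ∧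
          (l.map Sigma.fst).sum = n ∧
          ∀ m, ExO (fun i => (E i : L →ₗ[k] L).toAddMonoidHom)
            (TrP (2 * m + 3) A - (l.map fun B => TrP (2 * m + 3) B.2).sum) := by
      rintro ⟨n₁, n₂, B₁, B₂, h1, h2, h3, f1, f2, hex⟩
      obtain ⟨l1, a1, b1, c1⟩ := ih n₁ (by omega) B₁ f1
      obtain ⟨l2, a2, b2, c2⟩ := ih n₂ (by omega) B₂ f2
      refine ⟨l1 ++ l2, fun B hB => ?_, ?_, fun m => ?_⟩
      · rcases List.mem_append.1 hB with h | h
        · exact a1 B h
        · exact a2 B h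
      · rw [List.map_append, List.sum_append, b1, b2, h3]
      · refine ((hex m).add ((c1 m).add (c2 m))).congr ?_
        rw [List.map_append, List.sum_append]
        abel
    by_cases hi : Irr (fun i => ⇑(E i)) A
    swap
    · unfold Irr at hi
      push Not at hi
      obtain ⟨a, b, ε, g, ha, hb, h0⟩ := hi
      have h1 := GGauAux.flat_gau (D := fun i => (E i : L →ₗ[k] L).toAddMonoidHom) (fun i => isDer_der (E i)) hE g A hA
      set B : Fin d → Matrix (Fin a ⊕ Fin b) (Fin a ⊕ Fin b) L := fun i =>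
        (gau (fun i => ⇑(E i)) g A i).submatrix ε.symm ε.symm with hB
      have hBfl : Flat (fun i => ⇑(E i)) B := flat_submatrix ε.symm h1
      obtain ⟨f1, f2, -⟩ := tTri L (Fin d) (Fin a) (Fin b) (fun i => (E i : L →ₗ[k] L).toAddMonoidHom) B h0 hBfl
      refine step ⟨a, b, _, _, ha, hb, ?_, f1, f2, fun m => ?_⟩
      · have h := Fintype.card_congr ε
        rw [Fintype.card_fin, Fintype.card_sum, Fintype.card_fin, Fintype.card_fin] at h
        exact h.symm
      · obtain ⟨η, h4⟩ := inv_all (D := fun i => (E i : L →ₗ[k] L).toAddMonoidHom) (fun i => isDer_der (E i)) hE g A hA m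
        have h4' : ExO (fun i => (E i : L →ₗ[k] L).toAddMonoidHom)
          (TrP (2 * m + 3) (gau (fun i => ⇑((E i : L →ₗ[k] L).toAddMonoidHom)) g A) - TrP (2 * m + 3) A) := ⟨η, h4⟩
        refine (h4'.neg).congr ?_
        rw [← TrP_tri _ B h0, hB, TrP_submatrix, neg_sub]
        rfl
    by_cases hr : Rigid E A
    · refine ⟨[⟨n, A⟩], fun B hB => ?_, by simp, fun m => ExO.zero.congr ?_⟩
      · rw [List.mem_singleton] at hB
        subst hB
        exact ⟨hn, hA, hi, hr⟩
      · rw [List.map_singleton, List.sum_singleton, sub_self]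
    · obtain ⟨n₁, n₂, B₁, B₂, h1, h2, h3, f1, f2, hex⟩ :=
        TopW.not_rigid (E := fun i => (E i : L →ₗ[k] L).toAddMonoidHom) hDsc hECo hE hx (fun i => isDer_der (E i))
          (fun i a => rfl) hA hr
      refine step ⟨n₁, n₂, B₁, B₂, h1, h2, h3, f1, f2, fun m => (hex m).congr ?_⟩
      congr 1
      generalize TrP (2 * m + 3) A = x
      induction x using TensorProduct.induction_on with
      | zero => simp
      | add x y hx hy => rw [map_add, ← hx, ← hy]
      | tmul f y => rfl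

end

/-- **Reduction to rigid connections.** -/
theorem topR (hDsc : S_Dsc) (hECo : S_ECo) {k K L : Type} [Field k] [Field K] [CharZero K] [Field L] [Algebra k K]
    [Algebra K L] [Algebra k L] [IsScalarTower k K L] [IsAlgClosure K L] {d n : ℕ} {D : Fin d → Derivation k K K}
    (hD : Com fun i => ⇑(D i)) (hx : ∀ i, ∃ x, D i x = 1)
    {E : Fin d → Derivation k L L} (hED : ∀ i a, E i (algebraMap K L a) = algebraMap K L (D i a))
    {A : Fin d → Matrix (Fin n) (Fin n) K} (hA : Flat (fun i => ⇑(D i)) A) :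
    ∃ l : List (Σ m : ℕ, Fin d → Matrix (Fin m) (Fin m) L),
      (∀ B ∈ l, 0 < B.1 ∧ Flat (fun i => ⇑(E i)) B.2 ∧ Irr (fun i => ⇑(E i)) B.2 ∧ Rigid E B.2) ∧
      (l.map Sigma.fst).sum = n ∧
      (¬ Rigid D A → 2 ≤ l.length) ∧
      ∀ m, ExO (fun i => (E i : L →ₗ[k] L).toAddMonoidHom)
        (omA d ((algebraMap K L : K →+* L) : K →+ L) (TrP (2 * m + 3) A) - (l.map fun B => TrP (2 * m + 3) B.2).sum) := by
  have : IsAlgClosed L := IsAlgClosure.isAlgClosed K
  have : Algebra.IsAlgebraic K L := IsAlgClosure.isAlgebraic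
  have : CharZero L := charZero_of_injective_algebraMap (algebraMap K L).injective
  have hx' : ∀ i, ∃ x, E i x = 1 := by
    intro i
    obtain ⟨x, h⟩ := hx i
    exact ⟨algebraMap K L x, by rw [hED, h, map_one]⟩
  have hC : Com fun i => ⇑(E i) := hECo K L (Fin d) (fun i => (D i : K →ₗ[k] K).toAddMonoidHom)
    (fun i => (E i : L →ₗ[k] L).toAddMonoidHom) (fun i => isDer_der (D i)) (fun i => isDer_der (E i)) hED hD
  have hAL : Flat (fun i => ⇑(E i)) fun i => (A i).map (algebraMap K L) :=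
    flat_map (D' := fun i => ⇑(E i)) (algebraMap K L) (fun i a => (hED i a).symm) hA
  by_cases hr : Rigid D A
  · obtain ⟨l, a, b, c⟩ := TopW.rigid_sum hDsc hECo hC hx' n _ hAL
    refine ⟨l, a, b, fun h => absurd hr h, fun m => (c m).congr ?_⟩
    rw [TrP_map]
    rfl
  · obtain ⟨n₁, n₂, B₁, B₂, h1, h2, h3, f1, f2, hex⟩ :=
      TopW.not_rigid (E := fun i => (E i : L →ₗ[k] L).toAddMonoidHom) hDsc hECo hD hx (fun i => isDer_der (E i)) hED hA hr
    obtain ⟨l1, a1, b1, c1⟩ := TopW.rigid_sum hDsc hECo hC hx' n₁ B₁ f1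
    obtain ⟨l2, a2, b2, c2⟩ := TopW.rigid_sum hDsc hECo hC hx' n₂ B₂ f2
    refine ⟨l1 ++ l2, fun B hB => ?_, ?_, fun _ => ?_, fun m => ?_⟩
    · rcases List.mem_append.1 hB with h | h
      · exact a1 B h
      · exact a2 B h
    · rw [List.map_append, List.sum_append, b1, b2, h3]
    · have e1 : l1 ≠ [] := by
        rintro rfl
        simp at b1
        omega
      have e2 : l2 ≠ [] := by
        rintro rfl
        simp at b2
        omega
      have := List.length_pos_iff.2 e1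
      have := List.length_pos_iff.2 e2
      rw [List.length_append]
      omega
    · refine ((hex m).add ((c1 m).add (c2 m))).congr ?_
      rw [List.map_append, List.sum_append]
      abel

end TopW

end Pool.Agent.M7
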