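import Pool.Agent.Lib.MP_7baa7a_ag.Comp
import Pool.Agent.Lib.MP_7baa7a_ag.TopW
import Pool.Agent.Lib.MP_7baa7a_ag.Dsc
import Pool.Agent.Lib.MP_7baa7a_ag.ECo

/-!
# The two theorems in components
-/

set_option autoImplicit false

noncomputable section

namespace Pool.Agent.M7

open Matrix TensorProduct Cmp Coef

theorem mainR {k K L : Type} [Field k] [Field K] [CharZero K] [Field L] [Algebra k K]
    [Algebra K L] [Algebra k L] [IsScalarTower k K L] [IsAlgClosure K L] {d n : ℕ} {D : Fin d → Derivation k K K}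
    (hD : Com fun i => ⇑(D i)) (hx : ∀ i, ∃ x, D i x = 1)
    {E : Fin d → Derivation k L L} (hED : ∀ i a, E i (algebraMap K L a) = algebraMap K L (D i a))
    {A : Fin d → Matrix (Fin n) (Fin n) K} (hA : Flat (fun i => ⇑(D i)) A) :
    ∃ l : List (Σ m : ℕ, Fin d → Matrix (Fin m) (Fin m) L),
      (∀ B ∈ l, 0 < B.1 ∧ Flat (fun i => ⇑(E i)) B.2 ∧ Irr (fun i => ⇑(E i)) B.2 ∧ Rigid E B.2) ∧
      (l.map Sigma.fst).sum = n ∧
      (¬ Rigid D A → 2 ≤ l.length) ∧
      ∀ m, ExactM (fun i => ⇑(E i)) fun I : Fin (2 * m + 3) → Fin d =>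
        algebraMap K L (TrM A I) - (l.map fun B => TrM B.2 I).sum := by
  obtain ⟨l, a, b, c, h⟩ := TopW.topR tDsc tECo hD hx hED hA
  refine ⟨l, a, b, c, fun m => ?_⟩
  have h1 := exactM_sub (h m)
  have h2 : ∀ I : Fin (2 * m + 3) → Fin d, co I (l.map fun B => TrP (2 * m + 3) B.2).sum = (l.map fun B => TrM B.2 I).sum := by
    intro I
    rw [map_list_sum, List.map_map]
    congr 1
    refine List.map_congr_left fun B _ => ?_
    exact co_TrP B.2 I
  simp only [← h2]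
  exact h1

theorem mainB {k K R L : Type} [Field k] [Field K] [CharZero K] [CommRing R] [Field L] [Algebra k K] [Algebra k R]
    [Algebra K L] {d n : ℕ} {D : Fin d → Derivation k K K} {E : Fin d → L →+ L} [IsAlgClosure K L]
    (hD : Com fun i => ⇑(D i)) (hx : ∀ i, ∃ x, D i x = 1)
    (hE : ∀ i, IsDer (E i)) (hED : ∀ i a, E i (algebraMap K L a) = algebraMap K L (D i a)) (δ : Derivation k R R)
    (hδ : ∀ r, δ r = 0 → ∃ c, algebraMap k R c = r) (t₀ : R →ₐ[k] k) (e : R →+* LaurentSeries k)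
    (he : ∀ c, e (algebraMap k R c) = HahnSeries.C c) {A : Fin d → Matrix (Fin n) (Fin n) (K ⊗[k] R)}
    (hA : Flat (fun i => ⇑(LinearMap.rTensor R ((D i : K →ₗ[k] K)))) A) (r : ℕ) (hr : 0 < r)
    (g : GL (Fin n) (LaurentSeries L)) (i : Fin d) (q : ℕ) (hq : 0 < q) (Θ : Matrix (Fin n) (Fin n) L)
    (hlow : ∀ a b, ∀ m : ℤ, m < -q → (gau (fun i => lD (E i)) g
      (fun i => (((A i).map (exT e he)).map (lmap K L)).map (ram r hr)) i a b).coeff m = 0)
    (hΘ : ∀ a b, (gau (fun i => lD (E i)) g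
      (fun i => (((A i).map (exT e he)).map (lmap K L)).map (ram r hr)) i a b).coeff (-q) = Θ a b)
    (s : Finset L) (hs : ∀ z, z ∈ s ↔ Θ.charpoly.IsRoot z) :
    (∃ B : (z : L) → Fin d → Matrix (Fin (Θ.charpoly.rootMultiplicity z)) (Fin (Θ.charpoly.rootMultiplicity z)) L,
      (∀ z, Flat (fun i => ⇑(E i)) (B z)) ∧ ∀ m, ExactM (fun i => ⇑(E i)) fun I : Fin (2 * m + 3) → Fin d =>
        algebraMap K L (TrM (fun i => (A i).map (evT t₀)) I) - ∑ z ∈ s, TrM (B z) I) ∧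
    (Θ.charpoly.Separable →
      ∀ m, ExactM (fun i => ⇑(D i)) fun I : Fin (2 * m + 3) → Fin d => TrM (fun i => (A i).map (evT t₀)) I) := by
  obtain ⟨⟨B, h1, h2⟩, h3⟩ := TopW.topB tECo hD hx hE hED δ hδ t₀ e he hA r hr g i q hq Θ hlow hΘ s hs
  refine ⟨⟨B, h1, fun m => ?_⟩, fun h m => ?_⟩
  · have h4 := exactM_sub (h2 m)
    have h5 : ∀ I : Fin (2 * m + 3) → Fin d, co I (∑ z ∈ s, TrP (2 * m + 3) (B z)) = ∑ z ∈ s, TrM (B z) I := by
      intro I
      rw [map_sum]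
      exact Finset.sum_congr rfl fun z _ => co_TrP (B z) I
    simp only [← h5]
    exact h4
  · have h4 := exactM (m := 2 * m + 2) (h3 h m)
    obtain ⟨η, a, b⟩ := h4
    exact ⟨η, a, fun I => (co_TrP _ I).symm.trans (b I)⟩

end Pool.Agent.M7
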