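import Pool.Agent.Lib.MP_7baa7a_ag.Defs

/-!
# The forms `Tr (A ^ m)` and exactness in components
-/

set_option autoImplicit false

noncomputable section

namespace Pool.Agent.M7

open Matrix

/-- the component at `dx_(I 0) ∧ ... ∧ dx_(I (m - 1))` of the form `Tr (A ^ m)`, where `A = ∑ A i dx_i` -/
def TrM {F ι n : Type} [CommRing F] [Fintype n] [DecidableEq n] {m : ℕ} (A : ι → Matrix n n F) (I : Fin m → ι) : F :=
  ∑ σ : Equiv.Perm (Fin m), (Equiv.Perm.sign σ : ℤ) • ((List.ofFn fun j => A (I (σ j))).prod).trace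

/-- the form of degree `m + 1` with the components `w` is the exterior derivative of a form of degree `m` -/
def ExactM {F ι : Type} [CommRing F] (D : ι → F → F) {m : ℕ} (w : (Fin (m + 1) → ι) → F) : Prop :=
  ∃ η : (Fin m → ι) → F, (∀ (σ : Equiv.Perm (Fin m)) (I : Fin m → ι), η (I ∘ σ) = (Equiv.Perm.sign σ : ℤ) • η I) ∧
    ∀ I, w I = ∑ j : Fin (m + 1), (-1 : ℤ) ^ (j : ℕ) • D (I j) (η (I ∘ j.succAbove))

end Pool.Agent.M7
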