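import Pool.Agent.Lib.MP_7baa7a_ag.PropW
import Pool.Agent.Lib.MP_7baa7a_ag.DefsM

/-!
# Components of differential forms
-/

set_option autoImplicit false

noncomputable section

open Matrix TensorProduct

namespace Pool.Agent.M7

namespace Cmp

open OmB PropW

variable {F F' : Type} [CommRing F] [CommRing F'] {d : ℕ}

theorem upd {m : ℕ} (I : Fin m → Fin d) (v : Fin m → Fin d → ℤ) (i : Fin m) (x : Fin d → ℤ) :
    (Matrix.of fun a b => Function.update v i x a (I b)) =
      (Matrix.of fun a b => v a (I b)).updateRow i (fun b => x (I b)) := by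
  ext a b
  by_cases h : a = i
  · subst h
    rw [Matrix.updateRow_self, Matrix.of_apply, Function.update_self]
  · rw [Matrix.updateRow_ne h, Matrix.of_apply, Matrix.of_apply, Function.update_of_ne h]

/-- the determinant of the components at `I` -/
def detF {m : ℕ} (I : Fin m → Fin d) : (Fin d → ℤ) [⋀^Fin m]→ₗ[ℤ] ℤ where
  toFun v := (Matrix.of fun a b => v a (I b)).det
  map_update_add' := by
    intro inst v i x y
    have h := Subsingleton.elim inst (instDecidableEqFin m)
    subst h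
    rw [upd, upd, upd]
    exact Matrix.det_updateRow_add _ _ _ _
  map_update_smul' := by
    intro inst v i c x
    have h := Subsingleton.elim inst (instDecidableEqFin m)
    subst h
    rw [upd, upd]
    exact Matrix.det_updateRow_smul _ _ _ _
  map_eq_zero_of_eq' v i j h hij := by
    refine Matrix.det_zero_of_row_eq hij ?_
    funext b
    show v i (I b) = v j (I b)
    rw [h]

/-- the coefficient at `dx_(I 0) ∧ ...` -/
def cI {m : ℕ} (I : Fin m → Fin d) : ExteriorAlgebra ℤ (Fin d → ℤ) →ₗ[ℤ] ℤ :=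
  ExteriorAlgebra.liftAlternating (Pi.single m (detF I))

theorem cI_multi {m : ℕ} (I : Fin m → Fin d) (v : Fin m → Fin d → ℤ) :
    cI I (ExteriorAlgebra.ιMulti ℤ m v) = (Matrix.of fun a b => v a (I b)).det := by
  rw [cI, ExteriorAlgebra.liftAlternating_apply_ιMulti, Pi.single_eq_same]
  rfl

theorem cI_multi_ne {m k : ℕ} (h : k ≠ m) (I : Fin m → Fin d) (v : Fin k → Fin d → ℤ) :
    cI I (ExteriorAlgebra.ιMulti ℤ k v) = 0 := by
  rw [cI, ExteriorAlgebra.liftAlternating_apply_ιMulti, Pi.single_eq_of_ne h]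
  rfl

theorem cI_ex {m : ℕ} (I : Fin (m + 1) → Fin d) (i : Fin d) (y : ExteriorAlgebra ℤ (Fin d → ℤ)) :
    cI I (ex i * y) = ∑ j : Fin (m + 1), (-1) ^ (j : ℕ) * (Pi.single i (1 : ℤ) : Fin d → ℤ) (I j) * cI (I ∘ j.succAbove) y := by
  set g : ExteriorAlgebra ℤ (Fin d → ℤ) →ₗ[ℤ] ℤ :=
    ∑ j : Fin (m + 1), ((-1) ^ (j : ℕ) * (Pi.single i (1 : ℤ) : Fin d → ℤ) (I j)) • cI (I ∘ j.succAbove) with hg
  have h1 : (cI I) ∘ₗ (LinearMap.mulLeft ℤ (ex i)) = g := by
    apply ExteriorAlgebra.lhom_ext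
    intro k
    ext v
    show cI I (ex i * ExteriorAlgebra.ιMulti ℤ k v) = g (ExteriorAlgebra.ιMulti ℤ k v)
    have h2 : ex i * ExteriorAlgebra.ιMulti ℤ k v =
        ExteriorAlgebra.ιMulti ℤ (k + 1) (Matrix.vecCons (Pi.single i (1 : ℤ) : Fin d → ℤ) v) := by
      rw [ExteriorAlgebra.ιMulti_succ_apply, Matrix.tail_cons, Matrix.cons_val_zero]
      rfl
    rw [h2, hg, LinearMap.sum_apply]
    by_cases hk : k = m
    · subst hk
      rw [cI_multi, Matrix.det_succ_row_zero]
      refine Finset.sum_congr rfl fun j _ => ?_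
      rw [LinearMap.smul_apply, cI_multi, smul_eq_mul]
      rfl
    · rw [cI_multi_ne (by omega)]
      refine (Finset.sum_eq_zero fun j _ => ?_).symm
      rw [LinearMap.smul_apply, cI_multi_ne hk, smul_zero]
  have h3 := LinearMap.congr_fun h1 y
  rw [hg, LinearMap.sum_apply] at h3
  exact h3

theorem cI_perm {m : ℕ} (I : Fin m → Fin d) (σ : Equiv.Perm (Fin m)) :
    cI (I ∘ σ) = (Equiv.Perm.sign σ : ℤ) • cI I := by
  apply ExteriorAlgebra.lhom_ext
  intro k
  ext v
  show cI (I ∘ σ) (ExteriorAlgebra.ιMulti ℤ k v) = (Equiv.Perm.sign σ : ℤ) • cI I (ExteriorAlgebra.ιMulti ℤ k v)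
  by_cases hk : k = m
  · subst hk
    rw [cI_multi, cI_multi]
    exact Matrix.det_permute' σ (Matrix.of fun a b => v a (I b))
  · rw [cI_multi_ne hk, cI_multi_ne hk, smul_zero]

/-- the component of a form at `dx_(I 0) ∧ ...` -/
def co {m : ℕ} (I : Fin m → Fin d) : Om F d →+ F :=
  ((TensorProduct.rid ℤ F).toLinearMap ∘ₗ (LinearMap.lTensor F (cI I))).toAddMonoidHom

theorem co_tmul {m : ℕ} (I : Fin m → Fin d) (f : F) (y : ExteriorAlgebra ℤ (Fin d → ℤ)) :
    co (F := F) I (f ⊗ₜ[ℤ] y) = cI I y • f := by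
  show TensorProduct.rid ℤ F (LinearMap.lTensor F (cI I) (f ⊗ₜ[ℤ] y)) = _
  rw [LinearMap.lTensor_tmul, TensorProduct.rid_tmul]

theorem co_omA {m : ℕ} (I : Fin m → Fin d) (φ : F →+ F') (x : Om F d) : co I (omA d φ x) = φ (co I x) := by
  induction x using TensorProduct.induction_on with
  | zero => simp
  | add x y hx hy => rw [map_add, map_add, hx, hy, map_add, map_add]
  | tmul f y => rw [omA_tmul, co_tmul, co_tmul, map_zsmul]

theorem co_ex {m : ℕ} (I : Fin (m + 1) → Fin d) (i : Fin d) (x : Om F d) :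
    co I (((1 : F) ⊗ₜ[ℤ] ex i) * x) =
      ∑ j : Fin (m + 1), ((-1) ^ (j : ℕ) * (Pi.single i (1 : ℤ) : Fin d → ℤ) (I j)) • co (I ∘ j.succAbove) x := by
  induction x using TensorProduct.induction_on with
  | zero => simp
  | add x y hx hy =>
    rw [mul_add, map_add, hx, hy, ← Finset.sum_add_distrib]
    refine Finset.sum_congr rfl fun j _ => ?_
    rw [map_add, smul_add]
  | tmul f y =>
    rw [Algebra.TensorProduct.tmul_mul_tmul, one_mul, co_tmul, cI_ex, Finset.sum_smul]
    refine Finset.sum_congr rfl fun j _ => ?_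
    rw [co_tmul, smul_smul]

theorem co_dO {m : ℕ} (D : Fin d → F →+ F) (I : Fin (m + 1) → Fin d) (x : Om F d) :
    co I (dO D x) = ∑ j : Fin (m + 1), (-1 : ℤ) ^ (j : ℕ) • D (I j) (co (I ∘ j.succAbove) x) := by
  rw [dO_apply, map_sum]
  simp only [co_ex, co_omA]
  rw [Finset.sum_comm]
  refine Finset.sum_congr rfl fun j _ => ?_
  rw [Finset.sum_eq_single (I j)]
  · rw [Pi.single_eq_same, mul_one]
  · intro i _ hi
    rw [Pi.single_eq_of_ne (Ne.symm hi), mul_zero, zero_smul]
  · intro h
    exact absurd (Finset.mem_univ _) h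

theorem co_perm {m : ℕ} (I : Fin m → Fin d) (σ : Equiv.Perm (Fin m)) (x : Om F d) :
    co (I ∘ σ) x = (Equiv.Perm.sign σ : ℤ) • co I x := by
  induction x using TensorProduct.induction_on with
  | zero => simp
  | add x y hx hy => rw [map_add, hx, hy, map_add, smul_add]
  | tmul f y =>
    rw [co_tmul, co_tmul, cI_perm, LinearMap.smul_apply, smul_smul, smul_eq_mul]

theorem exactM {D : Fin d → F →+ F} {w : Om F d} (h : ExO D w) {m : ℕ} :
    ExactM (fun i => D i) fun I : Fin (m + 1) → Fin d => co I w := by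
  obtain ⟨η, rfl⟩ := h
  exact ⟨fun I => co I η, fun σ I => co_perm I σ η, fun I => co_dO D I η⟩

theorem frm_pow {n : Type} [Fintype n] [DecidableEq n] (A : Fin d → Matrix n n F) (m : ℕ) (a b : n) :
    ((frm A) ^ m) a b = ∑ J : Fin m → Fin d, ((List.ofFn fun j => A (J j)).prod a b) ⊗ₜ[ℤ]
      (List.ofFn fun j => ex (J j)).prod := by
  induction m generalizing a b with
  | zero =>
    rw [pow_zero, Finset.univ_unique, Finset.sum_singleton, List.ofFn_zero, List.ofFn_zero, List.prod_nil, List.prod_nil]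
    by_cases h : a = b
    · subst h
      rw [Matrix.one_apply_eq, Matrix.one_apply_eq]
      rfl
    · rw [Matrix.one_apply_ne h, Matrix.one_apply_ne h, TensorProduct.zero_tmul]
  | succ m ih =>
    rw [pow_succ', Matrix.mul_apply]
    have h1 : ∀ c, frm A a c * ((frm A) ^ m) c b = ∑ i, ∑ J : Fin m → Fin d,
        (A i a c * (List.ofFn fun j => A (J j)).prod c b) ⊗ₜ[ℤ] (ex i * (List.ofFn fun j => ex (J j)).prod) := by
      intro c
      rw [ih, frm_apply, o1, Finset.sum_mul]
      refine Finset.sum_congr rfl fun i _ => ?_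
      rw [Finset.mul_sum]
      refine Finset.sum_congr rfl fun J _ => ?_
      rw [Algebra.TensorProduct.tmul_mul_tmul]
    rw [Finset.sum_congr rfl fun c _ => h1 c, Finset.sum_comm]
    rw [← (Fin.consEquiv fun _ => Fin d).sum_comp, Fintype.sum_prod_type]
    refine Finset.sum_congr rfl fun i _ => ?_
    rw [Finset.sum_comm]
    refine Finset.sum_congr rfl fun J _ => ?_
    rw [← TensorProduct.sum_tmul]
    have h2 : (Fin.consEquiv fun _ => Fin d) (i, J) = Fin.cons i J := rfl
    rw [h2, List.ofFn_succ, List.ofFn_succ, List.prod_cons, List.prod_cons, Matrix.mul_apply]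
    simp only [Fin.cons_zero, Fin.cons_succ]

theorem co_TrP {n : Type} [Fintype n] [DecidableEq n] (A : Fin d → Matrix n n F) {m : ℕ} (I : Fin m → Fin d) :
    co I (TrP m A) = TrM A I := by
  have h1 : TrP m A = ∑ J : Fin m → Fin d, ((List.ofFn fun j => A (J j)).prod.trace) ⊗ₜ[ℤ]
      (List.ofFn fun j => ex (J j)).prod := by
    rw [TrP, Matrix.trace]
    simp only [Matrix.diag_apply, frm_pow]
    rw [Finset.sum_comm]
    refine Finset.sum_congr rfl fun J _ => ?_
    rw [← TensorProduct.sum_tmul]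
    rfl
  rw [h1, map_sum, TrM]
  have h2 : ∀ J : Fin m → Fin d, cI I (List.ofFn fun j => ex (J j)).prod =
      ∑ σ : Equiv.Perm (Fin m), if J = I ∘ σ then (Equiv.Perm.sign σ : ℤ) else 0 := by
    intro J
    have h3 : (List.ofFn fun j => ex (J j)).prod =
        ExteriorAlgebra.ιMulti ℤ m (fun a => (Pi.single (J a) (1 : ℤ) : Fin d → ℤ)) := rfl
    rw [h3, cI_multi, Matrix.det_apply']
    refine Fintype.sum_equiv (Equiv.inv (Equiv.Perm (Fin m))) _ _ fun σ => ?_
    have h4 : (Equiv.inv (Equiv.Perm (Fin m))) σ = σ⁻¹ := rfl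
    rw [h4, Equiv.Perm.sign_inv]
    by_cases h : J = I ∘ (σ⁻¹ : Equiv.Perm (Fin m))
    · rw [if_pos h]
      have h5 : ∀ i, J (σ i) = I i := by
        intro i
        rw [h]
        exact congrArg I (Equiv.symm_apply_apply σ i)
      have h6 : ∏ i, (Matrix.of fun a b => (Pi.single (J a) (1 : ℤ) : Fin d → ℤ) (I b)) (σ i) i = 1 :=
        Finset.prod_eq_one fun i _ => by rw [Matrix.of_apply, h5, Pi.single_eq_same]
      rw [h6, mul_one]
      exact Int.cast_id
    · rw [if_neg h]
      have h5 : ∃ i, J (σ i) ≠ I i := by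
        by_contra h6
        push Not at h6
        refine h (funext fun a => ?_)
        rw [Function.comp_apply, ← h6]
        exact congrArg J (Equiv.apply_symm_apply σ a).symm
      obtain ⟨i, hi⟩ := h5
      rw [Finset.prod_eq_zero (Finset.mem_univ i), mul_zero]
      rw [Matrix.of_apply, Pi.single_eq_of_ne (Ne.symm hi)]
  simp only [co_tmul, h2, Finset.sum_smul, ite_smul, zero_smul]
  rw [Finset.sum_comm]
  refine Finset.sum_congr rfl fun σ _ => ?_
  rw [Finset.sum_ite_eq' Finset.univ (I ∘ σ), if_pos (Finset.mem_univ _)]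
  rfl

/-- exactness in components of the differences which occur in the two theorems -/
theorem exactM_sub {K L n : Type} [Field K] [Field L] [Algebra K L] [Fintype n] [DecidableEq n] {E : Fin d → L →+ L}
    {A : Fin d → Matrix n n K} {m : ℕ} {w : Om L d}
    (h : ExO E (omA d ((algebraMap K L : K →+* L) : K →+ L) (TrP (m + 1) A) - w)) :
    ExactM (fun i => E i) fun I : Fin (m + 1) → Fin d => algebraMap K L (TrM A I) - co I w := by
  have h1 := exactM (m := m) h
  obtain ⟨η, a, b⟩ := h1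
  refine ⟨η, a, fun I => ?_⟩
  have h2 : algebraMap K L (TrM A I) - co I w =
      co I (omA d ((algebraMap K L : K →+* L) : K →+ L) (TrP (m + 1) A) - w) := by
    rw [map_sub, co_omA, co_TrP]
    rfl
  exact h2.trans (b I)

end Cmp

end Pool.Agent.M7
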