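import Mathlib

/-!
# Flat connections over a partial differential field, in coordinates

`F` is a commutative ring with maps `D i : F → F` (in the applications commuting derivations); a matrix of one-forms
`A = ∑ A i dx_i` is given by its components.
-/

set_option autoImplicit false

noncomputable section

namespace Pool.Agent.M7

open Matrix

/-- `d A + A ∧ A = 0` in components -/
def Flat {F ι n : Type} [CommRing F] [Fintype n] (D : ι → F → F) (A : ι → Matrix n n F) : Prop :=
  ∀ i j, (A j).map (D i) - (A i).map (D j) + (A i * A j - A j * A i) = 0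

/-- the components of the three-form `Tr (A ∧ A ∧ A) / 3` -/
def CS {F ι n : Type} [CommRing F] [Fintype n] (A : ι → Matrix n n F) (i j l : ι) : F :=
  (A i * (A j * A l - A l * A j)).trace

/-- the three-form with the components `w i j l` is exact -/
def Exact {F ι : Type} [CommRing F] (D : ι → F → F) (w : ι → ι → ι → F) : Prop :=
  ∃ η : ι → ι → F, (∀ i j, η i j = -η j i) ∧
    ∀ i j l, w i j l = D i (η j l) + D j (η l i) + D l (η i j)

/-- gauge transformation `g⁻¹ A g + g⁻¹ dg` -/
def gau {F ι n : Type} [CommRing F] [Fintype n] [DecidableEq n] (D : ι → F → F) (g : GL n F)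
    (A : ι → Matrix n n F) : ι → Matrix n n F :=
  fun i => (↑g⁻¹ : Matrix n n F) * A i * (g : Matrix n n F) +
    (↑g⁻¹ : Matrix n n F) * (g : Matrix n n F).map (D i)

/-- the maps `D i` commute -/
def Com {F ι : Type} (D : ι → F → F) : Prop := ∀ i j a, D i (D j a) = D j (D i a)

/-- the additive map `D` is a derivation -/
def IsDer {F : Type} [CommRing F] (D : F →+ F) : Prop := ∀ a b, D (a * b) = D a * b + a * D b

section Laurent

variable {K : Type} [Field K]

/-- the coefficientwise action of an additive map on Laurent series -/
def lD (D : K →+ K) : LaurentSeries K →+ LaurentSeries K where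
  toFun f := HahnSeries.map f D
  map_zero' := by ext m; simp
  map_add' f g := by ext m; simp

theorem lD_coeff (D : K →+ K) (f : LaurentSeries K) (m : ℤ) : (lD D f).coeff m = D (f.coeff m) := rfl

/-- the Laurent series `f` has no pole -/
def NoPole (f : LaurentSeries K) : Prop := ∀ m : ℤ, m < 0 → f.coeff m = 0

/-- there is a gauge in which all components of `A` have no pole -/
def Bdd {ι n : Type} [Fintype n] [DecidableEq n] (D : ι → K →+ K)
    (A : ι → Matrix n n (LaurentSeries K)) : Prop :=
  ∃ g : GL n (LaurentSeries K), ∀ i a b, NoPole (gau (fun i => lD (D i)) g A i a b)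

/-- the substitution `s = u ^ e` in Laurent series -/
def ram (e : ℕ) (he : 0 < e) : LaurentSeries K →+* LaurentSeries K :=
  HahnSeries.embDomainRingHom (AddMonoidHom.mulLeft (e : ℤ))
    (fun a b h => by
      have he' : (e : ℤ) ≠ 0 := by exact_mod_cast he.ne'
      exact mul_left_cancel₀ he' h)
    (fun a b => by
      have he' : (0 : ℤ) < e := by exact_mod_cast he
      exact mul_le_mul_iff_right₀ he')

end Laurent

end Pool.Agent.M7
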