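import Pool.Agent.Lib.MP_7baa7a_ag.Defs

/-!
# Families of flat connections over an affine curve: members, expansion at infinity, base change
-/

set_option autoImplicit false

noncomputable section

namespace Pool.Agent.M7

open Matrix TensorProduct

/-- base change of Laurent series (the coefficients are mapped by `algebraMap K L`) -/
def lmap (K L : Type) [Field K] [Field L] [Algebra K L] : LaurentSeries K →+* LaurentSeries L where
  toFun f := HahnSeries.map f (algebraMap K L)
  map_zero' := by ext m; simp
  map_one' := HahnSeries.map_one (algebraMap K L).toMonoidWithZeroHom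
  map_add' f g := by ext m; simp
  map_mul' f g := HahnSeries.map_mul (algebraMap K L : K →ₙ+* L) (x := f) (y := g)

theorem lmap_coeff {K L : Type} [Field K] [Field L] [Algebra K L] (f : LaurentSeries K) (m : ℤ) :
    (lmap K L f).coeff m = algebraMap K L (f.coeff m) := rfl

/-- the value at the point `t₀` of `T` of a function on the generic point of `X` times `T`: `a ⊗ r` goes to `r(t₀) a` -/
def evT {k K R : Type} [Field k] [Field K] [CommRing R] [Algebra k K] [Algebra k R] (t₀ : R →ₐ[k] k) : K ⊗[k] R →+* K :=
  (Algebra.TensorProduct.lift (AlgHom.id k K) ((Algebra.ofId k K).comp t₀) fun _ _ => Commute.all _ _ :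
    K ⊗[k] R →ₐ[k] K).toRingHom

/-- the expansion at a point at infinity of `T` of a function on the generic point of `X` times `T`: `a ⊗ r` goes to
`a` times the Laurent series `e r` of `r` -/
def exT {k K R : Type} [Field k] [Field K] [CommRing R] [Algebra k K] [Algebra k R] (e : R →+* LaurentSeries k)
    (he : ∀ c, e (algebraMap k R c) = HahnSeries.C c) : K ⊗[k] R →+* LaurentSeries K :=
  letI : Algebra k (LaurentSeries K) := HahnSeries.instAlgebra
  (Algebra.TensorProduct.lift
    ({ (HahnSeries.C : K →+* LaurentSeries K) with commutes' := fun _ => rfl } : K →ₐ[k] LaurentSeries K)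
    ({ (lmap k K).comp e with
        commutes' := fun c => by
          show lmap k K (e (algebraMap k R c)) = HahnSeries.C (algebraMap k K c)
          rw [he]
          exact HahnSeries.map_C c (algebraMap k K) } : R →ₐ[k] LaurentSeries K)
    fun _ _ => Commute.all _ _ : K ⊗[k] R →ₐ[k] LaurentSeries K).toRingHom

theorem evT_tmul {k K R : Type} [Field k] [Field K] [CommRing R] [Algebra k K] [Algebra k R] (t₀ : R →ₐ[k] k) (a : K) (r : R) :
    evT t₀ (a ⊗ₜ[k] r) = a * algebraMap k K (t₀ r) := by
  show (Algebra.TensorProduct.lift _ _ _) (a ⊗ₜ[k] r) = _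
  rw [Algebra.TensorProduct.lift_tmul]
  rfl

theorem exT_tmul {k K R : Type} [Field k] [Field K] [CommRing R] [Algebra k K] [Algebra k R] (e : R →+* LaurentSeries k)
    (he : ∀ c, e (algebraMap k R c) = HahnSeries.C c) (a : K) (r : R) :
    exT e he (a ⊗ₜ[k] r) = HahnSeries.C a * lmap k K (e r) := by
  rfl

end Pool.Agent.M7
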