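import Pool.Agent.Lib.MP_7baa7a_ag.Defs2

/-!
# Rigid flat connections
-/

set_option autoImplicit false

noncomputable section

namespace Pool.Agent.M7

open Matrix TensorProduct

/-- The flat connection `B` over `K` is rigid: let `R` be (the coordinate ring of an affine curve) a `k`-algebra with a `k`-derivation `δ` whose
kernel is `k`, with a point `t₀`, and let `A` be a traceless family of flat connections over `K ⊗ R` whose member at `t₀` is gauge equivalent
to `B` up to a twist by a connection of rank one; then `A` is bounded at every point at infinity `e : R → k((s))`. -/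
def Rigid {k K : Type} [Field k] [Field K] [Algebra k K] {d n : ℕ} (D : Fin d → Derivation k K K)
    (B : Fin d → Matrix (Fin n) (Fin n) K) : Prop :=
  ∀ (R : Type) (_ : CommRing R) (_ : Algebra k R) (δ : Derivation k R R) (t₀ : R →ₐ[k] k) (e : R →+* LaurentSeries k)
    (he : ∀ c, e (algebraMap k R c) = HahnSeries.C c) (A : Fin d → Matrix (Fin n) (Fin n) (K ⊗[k] R)),
    (∀ r, δ r = 0 → ∃ c, algebraMap k R c = r) → Flat (fun i => ⇑(LinearMap.rTensor R ((D i : K →ₗ[k] K)))) A →
    (∀ i, (A i).trace = 0) →
    (∃ (g : GL (Fin n) K) (t : Fin d → K), ∀ i,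
      gau (fun i => ⇑(D i)) g B i = (A i).map (evT t₀) + Matrix.scalar (Fin n) (t i)) →
    Bdd (fun i => (D i : K →ₗ[k] K).toAddMonoidHom) fun i => (A i).map (exT e he)

/-- The flat connection `B` over `K` is irreducible: no gauge transformation brings it to a block triangular form, i.e. the differential
module has no submodules except `0` and itself. -/
def Irr {K : Type} [Field K] {d n : ℕ} (D : Fin d → K → K) (B : Fin d → Matrix (Fin n) (Fin n) K) : Prop :=
  ∀ (a b : ℕ) (ε : Fin n ≃ Fin a ⊕ Fin b) (g : GL (Fin n) K), 0 < a → 0 < b →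
    ∃ i, ((gau D g B i).submatrix ε.symm ε.symm).toBlocks₂₁ ≠ 0

end Pool.Agent.M7
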