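import Pool.Agent.Lib.MP_7baa7a_ag.Defs

/-!
# Existence of the extension of a derivation to an algebraic extension
-/

set_option autoImplicit false

open TensorProduct

namespace Pool.Agent.M7

/-- every derivation of a field of characteristic `0` extends to an algebraic extension (the extension is unique) -/
theorem exists_ext {K L : Type} [Field K] [CharZero K] [Field L] [Algebra K L] [Algebra.IsAlgebraic K L] (D : K →+ K)
    (hD : IsDer D) : ∃ E : L →+ L, IsDer E ∧ ∀ a, E (algebraMap K L a) = algebraMap K L (D a) := by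
  have : Algebra.FormallyEtale K L := Algebra.FormallyEtale.of_isSeparable K L
  let D' : Derivation ℤ K K := Derivation.mk' D.toIntLinearMap fun a b => by
    show D (a * b) = a • D b + b • D a
    rw [hD, smul_eq_mul, smul_eq_mul]
    ring
  let φ : L ⊗[K] Ω[K⁄ℤ] →ₗ[L] L := LinearMap.liftBaseChange L
    ((Algebra.linearMap K L).comp D'.liftKaehlerDifferential)
  let F : Ω[L⁄ℤ] →ₗ[L] L :=
    φ.comp (KaehlerDifferential.tensorKaehlerEquivOfFormallyEtale ℤ K L).symm.toLinearMap
  let E : Derivation ℤ L L := F.compDer (KaehlerDifferential.D ℤ L)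
  refine ⟨(E : L →ₗ[ℤ] L).toAddMonoidHom, fun a b => ?_, fun a => ?_⟩
  · show E (a * b) = E a * b + a * E b
    rw [E.leibniz, smul_eq_mul, smul_eq_mul]
    ring
  · show φ ((KaehlerDifferential.tensorKaehlerEquivOfFormallyEtale ℤ K L).symm (KaehlerDifferential.D ℤ L (algebraMap K L a))) = _
    rw [KaehlerDifferential.tensorKaehlerEquivOfFormallyEtale_symm_D_algebraMap, LinearMap.liftBaseChange_tmul, one_smul]
    show algebraMap K L (D'.liftKaehlerDifferential (KaehlerDifferential.D ℤ K a)) = _
    rw [Derivation.liftKaehlerDifferential_comp_D]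
    rfl

end Pool.Agent.M7
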