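import Pool.Agent.Lib.MP_7baa7a_ag.Coef

/-!
# Splitting of unbounded families and limits
-/

set_option autoImplicit false

open Matrix

namespace Pool.Agent.M7

open Coef

/-- splitting of a formal family with a pole (in a given frame) which is not a scalar plus nilpotent -/
theorem split0 (hGMul : S_GMul) (hGau : S_Gau) (hOne : S_One) (hOth : S_Oth) (hTri : S_Tri)
    {K : Type} [Field K] [IsAlgClosed K] [CharZero K] {ι : Type} {D : ι → K →+ K} (hD : ∀ i, IsDer (D i))
    (hC : Com fun i => D i) {N : ℕ} {A : ι → Matrix (Fin N) (Fin N) (LaurentSeries K)}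
    (hA : Flat (fun i => lD (D i)) A) {i : ι} {p : ℕ} (hp : 0 < p) {g : GL (Fin N) (LaurentSeries K)}
    {C : Matrix (Fin N) (Fin N) (LaurentSeries K)} (hNC : NP C) (hg : gau1 (lD (D i)) g (A i) = sX K (-p) • C)
    (htr : (c0 C).trace = 0) (hnil : ¬ IsNilpotent (c0 C)) :
    ∃ (a b : ℕ) (A1 : ι → Matrix (Fin a) (Fin a) (LaurentSeries K)) (A2 : ι → Matrix (Fin b) (Fin b) (LaurentSeries K))
      (P : Matrix (Fin a) (Fin a) (LaurentSeries K)) (S : Matrix (Fin b) (Fin b) (LaurentSeries K)),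
      0 < a ∧ 0 < b ∧ a + b = N ∧ Flat (fun i => lD (D i)) A1 ∧ Flat (fun i => lD (D i)) A2 ∧
      (Exact (fun i => D i) fun i j l => (CS A i j l).coeff 0 - ((CS A1 i j l).coeff 0 + (CS A2 i j l).coeff 0)) ∧
      NP P ∧ NP S ∧ A1 i = sX K (-p) • P ∧ A2 i = sX K (-p) • S ∧
      (c0 C).charpoly = (c0 P).charpoly * (c0 S).charpoly := by
  have hD' : ∀ i, IsDer (lD (D i)) := fun i => lD_isDer (hD i)
  have hC' : Com fun i => lD (D i) := lD_com hC
  obtain ⟨a, b, ε, g2, P, Q, S, ha, hb, hP, hQ, hS, hsep, hchar, hE⟩ := hOne K (Fin N) (D i) (hD i) p C hp hNC htr hnil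
  set G := g * g2 with hG
  have h1 := hGau (LaurentSeries K) ι (Fin N) (fun i => lD (D i)) hD' hC' A G hA
  set A' := gau (fun i => lD (D i)) G A with hA'
  obtain ⟨hfl, hex⟩ := h1
  set B : ι → Matrix (Fin a ⊕ Fin b) (Fin a ⊕ Fin b) (LaurentSeries K) := fun j => (A' j).submatrix ε.symm ε.symm with hB
  have hBfl : Flat (fun i => lD (D i)) B := flat_submatrix ε.symm hfl
  have hBi : B i = sX K (-p) • fromBlocks P Q 0 S := by
    rw [← hE, ← hg]
    show (gau1 (lD (D i)) G (A i)).submatrix ε.symm ε.symm = _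
    rw [hG, hGMul (LaurentSeries K) (Fin N) (lD (D i)) (hD' i)]
  have h0 := hOth K ι (Fin a) (Fin b) D B hBfl i p P Q S hp hP hQ hS hsep hBi
  obtain ⟨f1, f2, hcs⟩ := hTri (LaurentSeries K) ι (Fin a) (Fin b) (fun i => lD (D i)) B h0 hBfl
  refine ⟨a, b, fun i => (B i).toBlocks₁₁, fun i => (B i).toBlocks₂₂, P, S, ha, hb, ?_, f1, f2, ?_, hP, hS, ?_, ?_,
    hchar⟩
  · have h := Fintype.card_congr ε
    rw [Fintype.card_fin, Fintype.card_sum, Fintype.card_fin, Fintype.card_fin] at h
    exact h.symm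
  · have h2 := exact_neg (exact_coeff hex)
    refine exact_congr h2 fun i j l => ?_
    have h3 := hcs i j l
    rw [CS_submatrix] at h3
    rw [HahnSeries.coeff_sub, ← HahnSeries.coeff_add, ← h3]
    ring
  · show (B i).toBlocks₁₁ = _
    rw [hBi, fromBlocks_smul, toBlocks_fromBlocks₁₁]
  · show (B i).toBlocks₂₂ = _
    rw [hBi, fromBlocks_smul, toBlocks_fromBlocks₂₂]

/-- an unbounded traceless formal family splits -/
theorem split1 (hGMul : S_GMul) (hGau : S_Gau) (hPol : S_Pol) (hOne : S_One) (hOth : S_Oth) (hTri : S_Tri)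
    (hLat : S_Lat) {K : Type} [Field K] [IsAlgClosed K] [CharZero K] {d : ℕ} {D : Fin d → K →+ K}
    (hD : ∀ i, IsDer (D i)) (hC : Com fun i => D i) (hx : ∀ i, ∃ x, D i x = 1) {N : ℕ}
    {A : Fin d → Matrix (Fin N) (Fin N) (LaurentSeries K)} (hA : Flat (fun i => lD (D i)) A)
    (htr : ∀ i, (A i).trace = 0) (hunb : ¬ Bdd D A) :
    ∃ (a b : ℕ) (A1 : Fin d → Matrix (Fin a) (Fin a) (LaurentSeries K))
      (A2 : Fin d → Matrix (Fin b) (Fin b) (LaurentSeries K)),
      0 < a ∧ 0 < b ∧ a + b = N ∧ Flat (fun i => lD (D i)) A1 ∧ Flat (fun i => lD (D i)) A2 ∧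
      (Exact (fun i => D i) fun i j l => (CS A i j l).coeff 0 - ((CS A1 i j l).coeff 0 + (CS A2 i j l).coeff 0)) := by
  have h1 : ∃ i, ¬ ∃ g : GL (Fin N) (LaurentSeries K), NP (gau1 (lD (D i)) g (A i)) := by
    by_contra h
    push Not at h
    exact hunb (hLat K (Fin N) d D hD hC A hA h)
  obtain ⟨i, hi⟩ := h1
  obtain ⟨e, he, p, g, C, hp, hNC, hg, htrC, hnil⟩ := hPol K (D i) (hD i) (hx i) N (A i)
    (by rw [htr i]; exact noPole_zero) hi
  have hfl : Flat (fun i => lD (D i)) fun i => (A i).map (ram e he) :=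
    flat_map (D' := fun i => lD (D i)) (ram e he) (fun i a => ram_lD he (D i) a) hA
  obtain ⟨a, b, A1, A2, P, S, ha, hb, hab, f1, f2, hex, -, -, -, -, -⟩ :=
    split0 hGMul hGau hOne hOth hTri hD hC hfl hp hNC hg htrC hnil
  refine ⟨a, b, A1, A2, ha, hb, hab, f1, f2, exact_congr hex fun i j l => ?_⟩
  rw [CS_map, ram_coeff_zero]

theorem der_natCast {F : Type} [Field F] {D : F →+ F} (hD : IsDer D) (N : ℕ) : D (N : F) = 0 := by
  rw [show (N : F) = N • (1 : F) by simp, map_nsmul, hD.one, smul_zero]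

theorem der_natInv {F : Type} [Field F] {D : F →+ F} (hD : IsDer D) (N : ℕ) : D ((N : F)⁻¹) = 0 := by
  by_cases h : (N : F) = 0
  · rw [h, _root_.inv_zero, map_zero]
  · have h1 := hD (N : F) (N : F)⁻¹
    rw [mul_inv_cancel₀ h, hD.one, der_natCast hD, zero_mul, zero_add] at h1
    exact (mul_eq_zero.1 h1.symm).resolve_left h

/-- every formal family of flat connections has a flat limit with the same class -/
theorem limit (hGMul : S_GMul) (hGau : S_Gau) (hPol : S_Pol) (hOne : S_One) (hOth : S_Oth) (hTri : S_Tri)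
    (hLat : S_Lat) {K : Type} [Field K] [IsAlgClosed K] [CharZero K] {d : ℕ} {D : Fin d → K →+ K}
    (hD : ∀ i, IsDer (D i)) (hC : Com fun i => D i) (hx : ∀ i, ∃ x, D i x = 1) : ∀ (N : ℕ)
    (A : Fin d → Matrix (Fin N) (Fin N) (LaurentSeries K)), Flat (fun i => lD (D i)) A →
    ∃ B : Fin d → Matrix (Fin N) (Fin N) K, Flat (fun i => D i) B ∧
      Exact (fun i => D i) fun i j l => (CS A i j l).coeff 0 - CS B i j l := by
  intro N
  induction N using Nat.strong_induction_on with
  | _ N ih =>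
    intro A hA
    have hD' : ∀ i, IsDer (lD (D i)) := fun i => lD_isDer (hD i)
    have hC' : Com fun i => lD (D i) := lD_com hC
    have hN0 : N = 0 ∨ (N : LaurentSeries K) ≠ 0 := by
      rcases Nat.eq_zero_or_pos N with h | h
      · exact Or.inl h
      · right
        have : CharZero (LaurentSeries K) :=
          charZero_of_injective_ringHom (HahnSeries.C_injective (Γ := ℤ) (R := K))
        exact Nat.cast_ne_zero.2 h.ne'
    set t : Fin d → LaurentSeries K := fun i => (A i).trace * (N : LaurentSeries K)⁻¹ with ht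
    have htc : ∀ i j, lD (D i) (t j) = lD (D j) (t i) := by
      intro i j
      rw [ht]
      simp only
      rw [hD' i, hD' j, der_natInv (hD' i), der_natInv (hD' j), mul_zero, mul_zero, add_zero, add_zero,
        trace_closed (D := fun i => lD (D i)) hA i j]
    set A0 : Fin d → Matrix (Fin N) (Fin N) (LaurentSeries K) := fun i => A i - Matrix.scalar (Fin N) (t i) with hA0
    have hfl0 : Flat (fun i => lD (D i)) A0 := flat_scalar (D := fun i => lD (D i)) hA htc
    have hcs0 : ∀ i j l, CS A0 i j l = CS A i j l := fun i j l => CS_scalar A t i j l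
    have htr0 : ∀ i, (A0 i).trace = 0 := by
      intro i
      rw [hA0]
      simp only [Matrix.trace_sub]
      rcases hN0 with h | h
      · subst h
        simp [Matrix.trace]
      · have h2 : (Matrix.scalar (Fin N) (t i)).trace = N * t i := by
          rw [Matrix.scalar_apply, Matrix.trace_diagonal, Finset.sum_const, Finset.card_univ, Fintype.card_fin,
            nsmul_eq_mul]
        rw [h2, ht]
        simp only
        rw [mul_comm (A i).trace, mul_inv_cancel_left₀ h, sub_self]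
    by_cases hb : Bdd D A0
    · obtain ⟨g, hg⟩ := hb
      have h1 := hGau (LaurentSeries K) (Fin d) (Fin N) (fun i => lD (D i)) hD' hC' A0 g hfl0
      obtain ⟨hfl, hex⟩ := h1
      refine ⟨fun i => c0 (gau (fun i => lD (D i)) g A0 i), flat_c0 hg hfl, ?_⟩
      refine exact_congr (exact_neg (exact_coeff hex)) fun i j l => ?_
      rw [CS_c0 hg, HahnSeries.coeff_sub, hcs0]
      ring
    · obtain ⟨a, b, A1, A2, ha, hb', hab, f1, f2, hex⟩ :=
        split1 hGMul hGau hPol hOne hOth hTri hLat hD hC hx hfl0 htr0 hb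
      obtain ⟨B1, g1, e1⟩ := ih a (by omega) A1 f1
      obtain ⟨B2, g2, e2⟩ := ih b (by omega) A2 f2
      set ε : Fin N ≃ Fin a ⊕ Fin b := (finCongr hab.symm).trans finSumFinEquiv.symm with hε
      refine ⟨fun i => (fromBlocks (B1 i) 0 0 (B2 i)).submatrix ε ε, flat_submatrix ε (flat_block g1 g2), ?_⟩
      refine exact_congr (exact_add hex (exact_add e1 e2)) fun i j l => ?_
      rw [CS_submatrix, CS_block, hcs0]
      ring

/-- an unbounded traceless formal family has a decomposable flat limit -/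
theorem limit2 (hGMul : S_GMul) (hGau : S_Gau) (hPol : S_Pol) (hOne : S_One) (hOth : S_Oth) (hTri : S_Tri)
    (hLat : S_Lat) {K : Type} [Field K] [IsAlgClosed K] [CharZero K] {d : ℕ} {D : Fin d → K →+ K}
    (hD : ∀ i, IsDer (D i)) (hC : Com fun i => D i) (hx : ∀ i, ∃ x, D i x = 1) {N : ℕ}
    {A : Fin d → Matrix (Fin N) (Fin N) (LaurentSeries K)} (hA : Flat (fun i => lD (D i)) A)
    (htr : ∀ i, (A i).trace = 0) (hunb : ¬ Bdd D A) :
    ∃ (a b : ℕ) (B1 : Fin d → Matrix (Fin a) (Fin a) K) (B2 : Fin d → Matrix (Fin b) (Fin b) K),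
      0 < a ∧ 0 < b ∧ a + b = N ∧ Flat (fun i => D i) B1 ∧ Flat (fun i => D i) B2 ∧
      Exact (fun i => D i) fun i j l => (CS A i j l).coeff 0 - (CS B1 i j l + CS B2 i j l) := by
  obtain ⟨a, b, A1, A2, ha, hb, hab, f1, f2, hex⟩ :=
    split1 hGMul hGau hPol hOne hOth hTri hLat hD hC hx hA htr hunb
  obtain ⟨B1, g1, e1⟩ := limit hGMul hGau hPol hOne hOth hTri hLat hD hC hx a A1 f1
  obtain ⟨B2, g2, e2⟩ := limit hGMul hGau hPol hOne hOth hTri hLat hD hC hx b A2 f2
  refine ⟨a, b, B1, B2, ha, hb, hab, g1, g2, exact_congr (exact_add hex (exact_add e1 e2)) fun i j l => ?_⟩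
  ring

end Pool.Agent.M7
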