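import Pool.Agent.Lib.MP_7baa7a_ag.Spec2

/-!
# Module TrD: descent of exactness by the trace (author helper62)
-/

set_option autoImplicit false

noncomputable section

open Matrix

namespace Pool.Agent.M7

namespace GTrDAux

open Polynomial

/-- The derivative of the trace. -/
theorem trc {K N : Type} [Field K] [Field N] [Algebra K N] [FiniteDimensional K N] (D : K →+ K) (E : N →+ N)
    (hE : IsDer E) (h : ∀ a, E (algebraMap K N a) = algebraMap K N (D a)) (a : N) :
    Algebra.trace K N (E a) = D (Algebra.trace K N a) := by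
  classical
  set b := Module.finBasis K N with hb
  have htr : ∀ x : N, Algebra.trace K N x = ∑ j, b.repr (x * b j) j := by
    intro x
    rw [Algebra.trace_eq_matrix_trace b, Matrix.trace]
    refine Finset.sum_congr rfl fun j _ => ?_
    rw [Matrix.diag_apply, Algebra.leftMulMatrix_eq_repr_mul]
  have hsm : ∀ (c : K) (x : N), E (c • x) = D c • x + c • E x := by
    intro c x
    rw [Algebra.smul_def, hE, h, Algebra.smul_def, Algebra.smul_def]
  have hφ : ∀ (x : N) (j), D (b.repr x j) = b.repr (E x) j - ∑ k, b.repr x k * b.repr (E (b k)) j := by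
    intro x j
    have e1 : E x = ∑ k, (D (b.repr x k) • b k + b.repr x k • E (b k)) := by
      conv_lhs => rw [← b.sum_repr x]
      rw [map_sum]
      exact Finset.sum_congr rfl fun k _ => hsm _ _
    have e2 : b.repr (E x) j = ∑ k, (D (b.repr x k) * (b.repr (b k)) j + b.repr x k * b.repr (E (b k)) j) := by
      rw [e1, map_sum, Finsupp.finsetSum_apply]
      refine Finset.sum_congr rfl fun k _ => ?_
      rw [map_add, map_smul, map_smul, Finsupp.add_apply, Finsupp.smul_apply, Finsupp.smul_apply, smul_eq_mul,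
        smul_eq_mul]
    rw [e2, Finset.sum_add_distrib, add_sub_cancel_right, Finset.sum_eq_single j]
    · rw [Module.Basis.repr_self, Finsupp.single_eq_same, mul_one]
    · intro k _ hk
      rw [Module.Basis.repr_self, Finsupp.single_eq_of_ne (Ne.symm hk), mul_zero]
    · intro hj
      exact absurd (Finset.mem_univ j) hj
  have e3 : ∀ j, b.repr (a * E (b j)) j = ∑ k, b.repr (E (b j)) k * b.repr (a * b k) j := by
    intro j
    have e4 : a * E (b j) = ∑ k, b.repr (E (b j)) k • (a * b k) := by
      conv_lhs => rw [← b.sum_repr (E (b j))]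
      rw [Finset.mul_sum]
      exact Finset.sum_congr rfl fun k _ => by rw [mul_smul_comm]
    rw [e4, map_sum, Finsupp.finsetSum_apply]
    refine Finset.sum_congr rfl fun k _ => ?_
    rw [map_smul, Finsupp.smul_apply, smul_eq_mul]
  rw [htr, htr, map_sum]
  have e5 : ∀ j, D (b.repr (a * b j) j) = b.repr (E a * b j) j +
      (∑ k, b.repr (E (b j)) k * b.repr (a * b k) j - ∑ k, b.repr (a * b j) k * b.repr (E (b k)) j) := by
    intro j
    rw [hφ, hE, map_add, Finsupp.add_apply, e3]
    ring
  rw [Finset.sum_congr rfl fun j _ => e5 j, Finset.sum_add_distrib, Finset.sum_sub_distrib]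
  have e6 : ∑ j, ∑ k, b.repr (E (b j)) k * b.repr (a * b k) j =
      ∑ j, ∑ k, b.repr (a * b j) k * b.repr (E (b k)) j := by
    rw [Finset.sum_comm]
    exact Finset.sum_congr rfl fun j _ => Finset.sum_congr rfl fun k _ => mul_comm _ _
  rw [e6, sub_self, add_zero]

/-- `E (Q(x)) = R(x) + Q'(x) E x`. -/
theorem der_pol {K L : Type} [Field K] [Field L] [Algebra K L] (D : K →+ K) (E : L →+ L)
    (hE : IsDer E) (h : ∀ a, E (algebraMap K L a) = algebraMap K L (D a)) (Q : K[X]) :
    ∃ R : K[X], ∀ x : L, E (aeval x Q) = aeval x R + aeval x (derivative Q) * E x := by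
  induction Q using Polynomial.induction_on with
  | C a =>
    refine ⟨C (D a), fun x => ?_⟩
    rw [aeval_C, h, aeval_C, derivative_C, map_zero, zero_mul, add_zero]
  | add p q hp hq =>
    obtain ⟨R, hR⟩ := hp
    obtain ⟨S, hS⟩ := hq
    refine ⟨R + S, fun x => ?_⟩
    rw [map_add, map_add, hR, hS, map_add, map_add, map_add]
    ring
  | monomial n a hn =>
    obtain ⟨R, hR⟩ := hn
    refine ⟨R * X, fun x => ?_⟩
    have e : (C a * X ^ (n + 1) : K[X]) = (C a * X ^ n) * X := by rw [pow_succ, mul_assoc]
    rw [e]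
    generalize (C a * X ^ n : K[X]) = Q at hR ⊢
    rw [map_mul, hE, hR, derivative_mul, derivative_X, mul_one, map_add, map_mul, map_mul, aeval_X]
    ring

/-- `E a` is in every field which contains `a`. -/
theorem mem {K L : Type} [Field K] [CharZero K] [Field L] [Algebra K L] [Algebra.IsAlgebraic K L] (D : K →+ K)
    (E : L →+ L) (hE : IsDer E) (h : ∀ a, E (algebraMap K L a) = algebraMap K L (D a)) (N : IntermediateField K L)
    {a : L} (ha : a ∈ N) : E a ∈ N := by
  obtain ⟨R, hR⟩ := der_pol D E hE h (minpoly K a)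
  have h1 := hR a
  rw [minpoly.aeval, map_zero] at h1
  have hint : IsIntegral K a := Algebra.IsIntegral.isIntegral a
  have hsep : (minpoly K a).Separable := (minpoly.irreducible hint).separable
  have hne : aeval a (derivative (minpoly K a)) ≠ 0 := hsep.aeval_derivative_ne_zero (minpoly.aeval K a)
  have h2 : E a = -(aeval a R) / aeval a (derivative (minpoly K a)) := by
    rw [eq_div_iff hne]
    linear_combination -h1
  have hm : ∀ P : K[X], aeval a P ∈ N := by
    intro P
    have h3 : Algebra.adjoin K {a} ≤ N.toSubalgebra := Algebra.adjoin_le (Set.singleton_subset_iff.2 ha)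
    exact h3 (Polynomial.aeval_mem_adjoin_singleton K a)
  rw [h2]
  exact N.div_mem (N.neg_mem (hm R)) (hm _)

end GTrDAux

open GTrDAux

theorem tTrD : S_TrD := by
  intro K L d _ _ _ _ _ D E hD hE h w hw
  obtain ⟨η, hη1, hη2⟩ := hw
  set S : Set L := Set.range (fun p : Fin d × Fin d => η p.1 p.2) with hS
  set N := IntermediateField.adjoin K S with hN
  have hfin : FiniteDimensional K N :=
    IntermediateField.finiteDimensional_adjoin fun x _ => Algebra.IsIntegral.isIntegral x
  have hmem : ∀ i j, η i j ∈ N := fun i j => IntermediateField.subset_adjoin K S ⟨(i, j), rfl⟩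
  -- the restricted derivations
  let EN : Fin d → N →+ N := fun i =>
    { toFun := fun x => ⟨E i x, mem (D i) (E i) (hE i) (h i) N x.2⟩
      map_zero' := Subtype.ext (map_zero (E i))
      map_add' := fun x y => Subtype.ext (map_add (E i) (x : L) (y : L)) }
  have hEN : ∀ i, IsDer (EN i) := fun i x y => Subtype.ext (hE i (x : L) (y : L))
  have hEh : ∀ i a, EN i (algebraMap K N a) = algebraMap K N (D i a) := fun i a => Subtype.ext (h i a)
  set n : K := (Module.finrank K N : K) with hn
  have hn0 : n ≠ 0 := by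
    rw [hn]
    exact_mod_cast (Module.finrank_pos (R := K) (M := N)).ne'
  have hDn : ∀ i (y : K), D i (n⁻¹ * y) = n⁻¹ * D i y := by
    intro i y
    have h1 : D i (Module.finrank K N • (n⁻¹ * y)) = Module.finrank K N • D i (n⁻¹ * y) := map_nsmul _ _ _
    rw [nsmul_eq_mul, nsmul_eq_mul, ← hn, mul_inv_cancel_left₀ hn0] at h1
    rw [h1, inv_mul_cancel_left₀ hn0]
  set t : Fin d → Fin d → K := fun i j => Algebra.trace K N ⟨η i j, hmem i j⟩ with ht
  refine ⟨fun i j => n⁻¹ * t i j, fun i j => ?_, fun i j l => ?_⟩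
  · have e1 : (⟨η i j, hmem i j⟩ : N) = -⟨η j i, hmem j i⟩ := Subtype.ext (hη1 i j)
    have e2 : t i j = -t j i := by
      rw [ht]
      change Algebra.trace K N ⟨η i j, hmem i j⟩ = -Algebra.trace K N ⟨η j i, hmem j i⟩
      rw [e1, map_neg]
    change n⁻¹ * t i j = -(n⁻¹ * t j i)
    rw [e2, mul_neg]
  · have e1 : algebraMap K N (w i j l) = EN i ⟨η j l, hmem j l⟩ + EN j ⟨η l i, hmem l i⟩ +
        EN l ⟨η i j, hmem i j⟩ := Subtype.ext (hη2 i j l)
    have e2 := congrArg (Algebra.trace K N) e1
    rw [Algebra.trace_algebraMap, map_add, map_add, trc (D i) (EN i) (hEN i) (hEh i),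
      trc (D j) (EN j) (hEN j) (hEh j), trc (D l) (EN l) (hEN l) (hEh l), nsmul_eq_mul, ← hn] at e2
    change w i j l = D i (n⁻¹ * t j l) + D j (n⁻¹ * t l i) + D l (n⁻¹ * t i j)
    rw [hDn, hDn, hDn, ← mul_add, ← mul_add]
    change n * w i j l = D i (t j l) + D j (t l i) + D l (t i j) at e2
    rw [← e2, inv_mul_cancel_left₀ hn0]

end Pool.Agent.M7
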