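import Pool.Agent.Lib.MP_7baa7a_ag.PropW
import Pool.Agent.Lib.MP_7baa7a_ag.Fam
import Pool.Agent.Lib.MP_7baa7a_ag.TrD
import Pool.Agent.Lib.MP_7baa7a_ag.Split

/-!
# Families of flat connections: the forms `Tr A^m`, and descent of exactness
-/

set_option autoImplicit false

noncomputable section

open Matrix TensorProduct

namespace Pool.Agent.M7

namespace FamW

open OmB GauW PropW Fam

variable {k K R n : Type} [Field k] [Field K] [CharZero K] [CommRing R] [Algebra k K] [Algebra k R] [Fintype n]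
  [DecidableEq n] {d : ℕ}

omit [CharZero K] in
theorem omA_comp {F F' F'' : Type} [CommRing F] [CommRing F'] [CommRing F''] (φ : F →+ F') (ψ : F' →+ F'') (x : Om F d) :
    omA d ψ (omA d φ x) = omA d (ψ.comp φ) x := by
  induction x using TensorProduct.induction_on with
  | zero => simp
  | add x y hx hy => rw [map_add, map_add, hx, hy, map_add]
  | tmul f y => rfl

theorem omA_sub {F F' : Type} [CommRing F] [CommRing F'] (φ ψ : F →+ F') (x : Om F d) :
    omA d (φ - ψ) x = omA d φ x - omA d ψ x := by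
  induction x using TensorProduct.induction_on with
  | zero => simp
  | add x y hx hy =>
    rw [map_add, map_add, map_add, hx, hy]
    abel
  | tmul f y =>
    rw [omA_tmul, omA_tmul, omA_tmul, AddMonoidHom.sub_apply, TensorProduct.sub_tmul]

theorem omA_om1 {F F' : Type} [CommRing F] [CommRing F'] (φ : F →+ F') {x : Om F d} (hx : x ∈ om1 F d) :
    omA d φ x ∈ om1 F' d := by
  induction hx using AddSubgroup.closure_induction with
  | mem b hb =>
    obtain ⟨⟨f, i⟩, rfl⟩ := hb
    rw [omA_tmul]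
    exact AddSubgroup.subset_closure ⟨(φ f, i), rfl⟩
  | zero => rw [map_zero]; exact AddSubgroup.zero_mem _
  | add a b _ _ ha hb => rw [map_add]; exact AddSubgroup.add_mem _ ha hb
  | neg a _ ha => rw [map_neg]; exact AddSubgroup.neg_mem _ ha

/-- constancy of the class, general form -/
theorem class_gen {T K : Type} [CommRing T] [Field K] (h2 : IsUnit (2 : T)) {DT : Fin d → T →+ T} (hDT : ∀ i, IsDer (DT i))
    {δT : T →+ T} (hδT : IsDer δT) (hcom : ∀ i a, δT (DT i a) = DT i (δT a)) {D : Fin d → K →+ K} (Φ : T →+ K)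
    (hΦ : ∀ i a, Φ (DT i a) = D i (Φ a)) (ev : T →+* K) (xp : T →+* LaurentSeries K)
    (hΦδ : ∀ y, Φ (δT y) = ev y - (xp y).coeff 0) {A : Fin d → Matrix n n T} (hA : Flat (fun i => DT i) A) (m : ℕ) :
    ExO D (TrP (2 * m + 3) (fun i => (A i).map ev) - omA d (co0 K) (TrP (2 * m + 3) fun i => (A i).map xp)) := by
  have hvar := Sup.tr_var (omS DT hDT h2) (A := frm A) (fun a b => frm_mem A a b) (frm_flat h2 hA) (omA d δT)
    (fun x y => omA_der hδT x y) (fun x => omA_dO δT hcom x) (fun x hx => omA_om1 δT hx) m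
  set η : Om T d := -((2 * m + 3) • ((frm A).map (omA d δT) * (frm A) ^ (2 * m + 1)).trace) with hη
  have hvar' : omA d δT (TrP (2 * m + 3) A) = dO DT η := hvar
  have hΦδ' : Φ.comp δT = (ev : T →+ K) - (co0 K).comp (xp : T →+ LaurentSeries K) := by
    ext y
    exact hΦδ y
  refine ⟨omA d Φ η, ?_⟩
  rw [← omA_dO Φ hΦ, ← hvar', omA_comp, hΦδ', omA_sub, ← omA_comp, TrP_map, TrP_map]
  rfl

/-- the class of the member at `t₀` is the constant coefficient of the class of the expansion at infinity -/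
theorem fam_classW (D : Fin d → Derivation k K K) (δ : Derivation k R R)
    (hδ : ∀ r, δ r = 0 → ∃ c, algebraMap k R c = r) (t₀ : R →ₐ[k] k) (e : R →+* LaurentSeries k)
    (he : ∀ c, e (algebraMap k R c) = HahnSeries.C c) {A : Fin d → Matrix n n (K ⊗[k] R)}
    (hA : Flat (fun i => ⇑(LinearMap.rTensor R ((D i : K →ₗ[k] K)))) A) (m : ℕ) :
    ExO (fun i => ((D i : K →ₗ[k] K).toAddMonoidHom))
      (TrP (2 * m + 3) (fun i => (A i).map (evT t₀)) - omA d (co0 K) (TrP (2 * m + 3) fun i => (A i).map (exT e he))) := by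
  set ψ : R →ₗ[k] k := psi t₀ e he with hψ
  have hψ0 : ∀ r, δ r = 0 → ψ r = 0 := by
    intro r hr
    obtain ⟨c, rfl⟩ := hδ r hr
    show t₀ (algebraMap k R c) - (e (algebraMap k R c)).coeff 0 = 0
    rw [AlgHom.commutes, he, HahnSeries.C_apply, HahnSeries.coeff_single_same]
    exact sub_self c
  obtain ⟨φ, hφ⟩ := GDfmAux.factor (δ : R →ₗ[k] R) ψ hψ0
  have h2K : IsUnit (2 : K) := two_unit K
  have h2 : IsUnit (2 : K ⊗[k] R) := by
    have h3 := h2K.map (Algebra.TensorProduct.includeLeft : K →ₐ[k] K ⊗[k] R)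
    rwa [map_ofNat] at h3
  refine class_gen h2 (DT := fun i => (LinearMap.rTensor R ((D i : K →ₗ[k] K))).toAddMonoidHom)
    (fun i a b => GDfmAux.leib_r (D i) a b) (δT := (LinearMap.lTensor K (δ : R →ₗ[k] R)).toAddMonoidHom)
    (fun a b => GDfmAux.leib_l δ a b) (fun i a => (GDfmAux.comm_lr (D i : K →ₗ[k] K) (δ : R →ₗ[k] R) a).symm)
    (D := fun i => (D i : K →ₗ[k] K).toAddMonoidHom) ((TensorProduct.rid k K).toLinearMap.comp (LinearMap.lTensor K φ)).toAddMonoidHom
    (fun i a => GDfmAux.comm_rid (D i : K →ₗ[k] K) φ a) (evT t₀) (exT e he) (fun y => ?_) hA m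
  show TensorProduct.rid k K (LinearMap.lTensor K φ (LinearMap.lTensor K (δ : R →ₗ[k] R) y)) =
    evT t₀ y - (exT e he y).coeff 0
  rw [← rid_psi, ← hψ, hφ, LinearMap.lTensor_comp, LinearMap.comp_apply]

end FamW

namespace TrDW

open OmB GauW PropW

variable {K L : Type} [Field K] [CharZero K] [Field L] [Algebra K L] [Algebra.IsAlgebraic K L]

/-- the normalised trace commutes with derivations -/
theorem ntr_D {D : K →+ K} {E : L →+ L} (hE : IsDer E) (h : ∀ a, E (algebraMap K L a) = algebraMap K L (D a))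
    (hD : IsDer D) (a : L) : Algebra.normalizedTrace K L (E a) = D (Algebra.normalizedTrace K L a) := by
  set N := IntermediateField.adjoin K ({a} : Set L) with hN
  have hfin : FiniteDimensional K N :=
    IntermediateField.finiteDimensional_adjoin fun x _ => Algebra.IsIntegral.isIntegral x
  have ha : a ∈ N := IntermediateField.subset_adjoin K _ rfl
  have hEa : E a ∈ N := GTrDAux.mem D E hE h N ha
  let EN : N →+ N :=
    { toFun := fun x => ⟨E x, GTrDAux.mem D E hE h N x.2⟩
      map_zero' := Subtype.ext (map_zero E)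
      map_add' := fun x y => Subtype.ext (map_add E (x : L) (y : L)) }
  have hEN : IsDer EN := fun x y => Subtype.ext (hE (x : L) (y : L))
  have hEh : ∀ a, EN (algebraMap K N a) = algebraMap K N (D a) := fun a => Subtype.ext (h a)
  have h1 : Algebra.normalizedTrace K L (E a) = Algebra.normalizedTrace K N ⟨E a, hEa⟩ :=
    Algebra.normalizedTrace_intermediateField K L (⟨E a, hEa⟩ : N)
  have h2 : Algebra.normalizedTrace K L a = Algebra.normalizedTrace K N ⟨a, ha⟩ :=
    Algebra.normalizedTrace_intermediateField K L (⟨a, ha⟩ : N)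
  have h3 := GTrDAux.trc D EN hEN hEh ⟨a, ha⟩
  have hDn : ∀ y : K, D ((Module.finrank K N : K)⁻¹ * y) = (Module.finrank K N : K)⁻¹ * D y := by
    intro y
    rw [hD, der_natInv hD, zero_mul, zero_add]
  rw [h1, h2, Algebra.normalizedTrace_eq_of_finiteDimensional_apply, Algebra.normalizedTrace_eq_of_finiteDimensional_apply,
    smul_eq_mul, smul_eq_mul, hDn, ← h3]
  rfl

/-- descent of exactness -/
theorem exO_descent {d : ℕ} {D : Fin d → K →+ K} {E : Fin d → L →+ L} (hD : ∀ i, IsDer (D i)) (hE : ∀ i, IsDer (E i))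
    (h : ∀ i a, E i (algebraMap K L a) = algebraMap K L (D i a)) {w : Om K d} (hw : ExO E (omR (algebraMap K L) w)) :
    ExO D w := by
  have h1 := hw.map (D' := D) ((Algebra.normalizedTrace K L).toAddMonoidHom) fun i a => ntr_D (hE i) (h i) (hD i) a
  refine h1.congr ?_
  have h2 : ∀ w : Om K d, w = omA d ((Algebra.normalizedTrace K L).toAddMonoidHom) (omR (algebraMap K L) w) := by
    intro w
    induction w using TensorProduct.induction_on with
    | zero => simp
    | add x y hx hy => rw [map_add, map_add, ← hx, ← hy]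
    | tmul f y =>
      show f ⊗ₜ[ℤ] y = (Algebra.normalizedTrace K L (algebraMap K L f)) ⊗ₜ[ℤ] y
      rw [Algebra.normalizedTrace_algebraMap_apply_eq_self]
  exact h2 w

end TrDW

end Pool.Agent.M7
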