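import Pool.Agent.Lib.MP_7baa7a_ag.Spec

/-!
# Gauge invariance of `Tr A^3`
-/

set_option autoImplicit false

open Matrix

namespace Pool.Agent.M7

namespace GGauAux

variable {F ι n : Type}

theorem map_mul' [CommRing F] [Fintype n] {D : F →+ F} (h : IsDer D) (M N : Matrix n n F) :
    (M * N).map D = M.map D * N + M * N.map D := by
  ext a b
  rw [Matrix.map_apply, Matrix.mul_apply, map_sum, Matrix.add_apply, Matrix.mul_apply, Matrix.mul_apply,
    ← Finset.sum_add_distrib]
  refine Finset.sum_congr rfl fun c _ => ?_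
  rw [h, Matrix.map_apply, Matrix.map_apply]

theorem map_add' [CommRing F] (D : F →+ F) (M N : Matrix n n F) : (M + N).map D = M.map D + N.map D := by
  ext a b
  simp

theorem map_one' [CommRing F] [DecidableEq n] {D : F →+ F} (h : IsDer D) : (1 : Matrix n n F).map D = 0 := by
  ext a b
  rw [Matrix.map_apply, Matrix.zero_apply, Matrix.one_apply]
  split_ifs
  · exact h.one
  · exact map_zero D

theorem trace_map' [CommRing F] [Fintype n] (D : F →+ F) (M : Matrix n n F) : (M.map D).trace = D M.trace := by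
  simp [Matrix.trace, map_sum]

/-- `B = (D g) g⁻¹` -/
noncomputable def BB [CommRing F] [Fintype n] [DecidableEq n] (D : ι → F →+ F) (g : GL n F) (i : ι) : Matrix n n F :=
  (g : Matrix n n F).map (D i) * (↑g⁻¹ : Matrix n n F)

theorem g_inv [CommRing F] [Fintype n] [DecidableEq n] (g : GL n F) :
    (g : Matrix n n F) * (↑g⁻¹ : Matrix n n F) = 1 := by
  rw [← Units.val_mul, mul_inv_cancel, Units.val_one]

theorem inv_g [CommRing F] [Fintype n] [DecidableEq n] (g : GL n F) :
    (↑g⁻¹ : Matrix n n F) * (g : Matrix n n F) = 1 := by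
  rw [← Units.val_mul, inv_mul_cancel, Units.val_one]

theorem BB_eq [CommRing F] [Fintype n] [DecidableEq n] (D : ι → F →+ F) (g : GL n F) (i : ι) {X : Matrix n n F}
    (h : X * (g : Matrix n n F) = (g : Matrix n n F).map (D i)) : BB D g i = X := by
  unfold BB
  rw [← h, Matrix.mul_assoc, g_inv, Matrix.mul_one]

theorem gau_eq [CommRing F] [Fintype n] [DecidableEq n] (D : ι → F →+ F) (g : GL n F) (A : ι → Matrix n n F) (i : ι) :
    gau (fun i => D i) g A i = (↑g⁻¹ : Matrix n n F) * (A i + BB D g i) * (g : Matrix n n F) := by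
  unfold gau BB
  rw [Matrix.mul_add, Matrix.add_mul]
  congr 1
  rw [Matrix.mul_assoc, Matrix.mul_assoc, inv_g, Matrix.mul_one]

theorem D_inv [CommRing F] [Fintype n] [DecidableEq n] {D : F →+ F} (hD : IsDer D) (g : GL n F) :
    (↑g⁻¹ : Matrix n n F).map D = -((↑g⁻¹ : Matrix n n F) * (g : Matrix n n F).map D * (↑g⁻¹ : Matrix n n F)) := by
  have h := map_mul' hD (g : Matrix n n F) (↑g⁻¹ : Matrix n n F)
  rw [g_inv, map_one' hD] at h
  have h1 := congrArg (fun X => (↑g⁻¹ : Matrix n n F) * X) h
  simp only [Matrix.mul_zero, Matrix.mul_add, ← Matrix.mul_assoc, inv_g, Matrix.one_mul] at h1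
  exact (neg_eq_of_add_eq_zero_right h1.symm).symm

theorem BB_curv [CommRing F] [Fintype n] [DecidableEq n] {D : ι → F →+ F} (hD : ∀ i, IsDer (D i))
    (hC : Com fun i => D i) (g : GL n F) (i j : ι) :
    (BB D g j).map (D i) - (BB D g i).map (D j) = BB D g i * BB D g j - BB D g j * BB D g i := by
  unfold BB
  rw [map_mul' (hD i), map_mul' (hD j), D_inv (hD i), D_inv (hD j)]
  have h : ((g : Matrix n n F).map (D j)).map (D i) = ((g : Matrix n n F).map (D i)).map (D j) := by
    ext a b
    exact hC i j _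
  rw [h]
  simp only [Matrix.mul_neg, ← Matrix.mul_assoc]
  abel

theorem conj_mul [CommRing F] [Fintype n] [DecidableEq n] (g : GL n F) (X Y : Matrix n n F) :
    ((↑g⁻¹ : Matrix n n F) * X * (g : Matrix n n F)) * ((↑g⁻¹ : Matrix n n F) * Y * (g : Matrix n n F)) =
      (↑g⁻¹ : Matrix n n F) * (X * Y) * (g : Matrix n n F) := by
  have h : ((↑g⁻¹ : Matrix n n F) * X * (g : Matrix n n F)) * ((↑g⁻¹ : Matrix n n F) * Y * (g : Matrix n n F)) =
      (↑g⁻¹ : Matrix n n F) * X * ((g : Matrix n n F) * (↑g⁻¹ : Matrix n n F)) * Y * (g : Matrix n n F) := by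
    simp only [Matrix.mul_assoc]
  rw [h, g_inv, Matrix.mul_one]
  simp only [Matrix.mul_assoc]

theorem conj_trace [CommRing F] [Fintype n] [DecidableEq n] (g : GL n F) (X : Matrix n n F) :
    ((↑g⁻¹ : Matrix n n F) * X * (g : Matrix n n F)).trace = X.trace := by
  rw [Matrix.trace_mul_comm, ← Matrix.mul_assoc, g_inv, Matrix.one_mul]

theorem CS_gau [CommRing F] [Fintype n] [DecidableEq n] (D : ι → F →+ F) (g : GL n F) (A : ι → Matrix n n F)
    (i j l : ι) : CS (gau (fun i => D i) g A) i j l = CS (fun i => A i + BB D g i) i j l := by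
  unfold CS
  rw [gau_eq, gau_eq, gau_eq, conj_mul, conj_mul, ← Matrix.sub_mul, ← Matrix.mul_sub, conj_mul, conj_trace]

theorem flat_gau [CommRing F] [Fintype n] [DecidableEq n] {D : ι → F →+ F} (hD : ∀ i, IsDer (D i))
    (hC : Com fun i => D i) (g : GL n F) (A : ι → Matrix n n F) (hA : Flat (fun i => D i) A) :
    Flat (fun i => D i) (gau (fun i => D i) g A) := by
  intro i j
  have hA' := hA i j
  have hB := BB_curv hD hC g i j
  simp only at hA' ⊢
  set B := BB D g with hBdef
  have e : ∀ i, (g : Matrix n n F).map (D i) = B i * (g : Matrix n n F) := by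
    intro i
    rw [hBdef]
    unfold BB
    rw [Matrix.mul_assoc, inv_g, Matrix.mul_one]
  have key : ∀ i j, (gau (fun i => D i) g A j).map (D i) = (↑g⁻¹ : Matrix n n F) *
      ((A j).map (D i) + (B j).map (D i) + (A j + B j) * B i - B i * (A j + B j)) * (g : Matrix n n F) := by
    intro i j
    rw [gau_eq, ← hBdef, map_mul' (hD i), map_mul' (hD i), D_inv (hD i), e, map_add']
    simp only [Matrix.mul_add, Matrix.add_mul, Matrix.mul_sub, Matrix.sub_mul, Matrix.neg_mul, ← Matrix.mul_assoc]
    have h1 : (↑g⁻¹ : Matrix n n F) * B i * (g : Matrix n n F) * (↑g⁻¹ : Matrix n n F) = (↑g⁻¹ : Matrix n n F) * B i := by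
      rw [Matrix.mul_assoc _ (g : Matrix n n F), g_inv, Matrix.mul_one]
    rw [h1]
    abel
  rw [key, key, gau_eq, gau_eq, ← hBdef, conj_mul, conj_mul, ← Matrix.sub_mul, ← Matrix.sub_mul, ← Matrix.add_mul,
    ← Matrix.mul_sub, ← Matrix.mul_sub, ← Matrix.mul_add]
  have h2 : (A j).map (D i) + (B j).map (D i) + (A j + B j) * B i - B i * (A j + B j) -
      ((A i).map (D j) + (B i).map (D j) + (A i + B i) * B j - B j * (A i + B i)) +
      ((A i + B i) * (A j + B j) - (A j + B j) * (A i + B i)) = 0 := by
    have h3 : (A j).map (D i) = (A i).map (D j) - (A i * A j - A j * A i) := by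
      rw [← sub_eq_zero]
      rw [← hA']
      abel
    have h4 : (B j).map (D i) = (B i).map (D j) + (B i * B j - B j * B i) := by
      rw [← hB]
      abel
    rw [h3, h4]
    simp only [Matrix.mul_add, Matrix.add_mul]
    abel
  rw [h2, Matrix.mul_zero, Matrix.zero_mul]

theorem tr_id [CommRing F] [Fintype n] (Ai Aj Al Bi Bj Bl aij aji ajl alj ali ail bij bji bjl blj bli bil : Matrix n n F)
    (h1 : aij - aji + (Ai * Aj - Aj * Ai) = 0) (h2 : ajl - alj + (Aj * Al - Al * Aj) = 0)
    (h3 : ali - ail + (Al * Ai - Ai * Al) = 0) (h4 : bij - bji = Bi * Bj - Bj * Bi)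
    (h5 : bjl - blj = Bj * Bl - Bl * Bj) (h6 : bli - bil = Bl * Bi - Bi * Bl) :
    ((Ai + Bi) * ((Aj + Bj) * (Al + Bl) - (Al + Bl) * (Aj + Bj))).trace - (Ai * (Aj * Al - Al * Aj)).trace =
      (Bi * (Bj * Bl - Bl * Bj)).trace -
      ((aij * Bl + Aj * bil - (ail * Bj + Al * bij)).trace + (ajl * Bi + Al * bji - (aji * Bl + Ai * bjl)).trace +
        (ali * Bj + Ai * blj - (alj * Bi + Aj * bli)).trace) := by
  have e1 : aij = aji - (Ai * Aj - Aj * Ai) := by rw [← sub_eq_zero, ← h1]; abel
  have e2 : ajl = alj - (Aj * Al - Al * Aj) := by rw [← sub_eq_zero, ← h2]; abel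
  have e3 : ali = ail - (Al * Ai - Ai * Al) := by rw [← sub_eq_zero, ← h3]; abel
  have e4 : bij = bji + (Bi * Bj - Bj * Bi) := by rw [← h4]; abel
  have e5 : bjl = blj + (Bj * Bl - Bl * Bj) := by rw [← h5]; abel
  have e6 : bli = bil + (Bl * Bi - Bi * Bl) := by rw [← h6]; abel
  subst e1 e2 e3 e4 e5 e6
  have cy : ∀ X Y Z : Matrix n n F, (X * Y * Z).trace = (Z * X * Y).trace := fun X Y Z => Matrix.trace_mul_cycle X Y Z
  simp only [Matrix.mul_add, Matrix.add_mul, Matrix.mul_sub, Matrix.sub_mul, Matrix.trace_add, Matrix.trace_sub,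
    ← Matrix.mul_assoc]
  linear_combination cy Ai Bj Al - cy Ai Bl Aj - cy Aj Al Bi + cy Al Aj Bi + cy Bi Bj Al - cy Bi Bl Aj -
    cy Aj Bl Bi + cy Al Bj Bi

theorem exact_step [CommRing F] [Fintype n] [DecidableEq n] {D : ι → F →+ F} (hD : ∀ i, IsDer (D i))
    (hC : Com fun i => D i) (g : GL n F) (A : ι → Matrix n n F) (hA : Flat (fun i => D i) A)
    (h0 : ∀ i j l, CS (BB D g) i j l = 0) :
    Exact (fun i => D i) fun i j l => CS (gau (fun i => D i) g A) i j l - CS A i j l := by
  refine ⟨fun i j => -(A i * BB D g j - A j * BB D g i).trace, fun i j => ?_, fun i j l => ?_⟩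
  · beta_reduce
    rw [Matrix.trace_sub, Matrix.trace_sub]
    ring
  · have h := tr_id (A i) (A j) (A l) (BB D g i) (BB D g j) (BB D g l)
      ((A j).map (D i)) ((A i).map (D j)) ((A l).map (D j)) ((A j).map (D l)) ((A i).map (D l)) ((A l).map (D i))
      ((BB D g j).map (D i)) ((BB D g i).map (D j)) ((BB D g l).map (D j)) ((BB D g j).map (D l))
      ((BB D g i).map (D l)) ((BB D g l).map (D i)) (hA i j) (hA j l) (hA l i) (BB_curv hD hC g i j)
      (BB_curv hD hC g j l) (BB_curv hD hC g l i)
    have h1 : (BB D g i * (BB D g j * BB D g l - BB D g l * BB D g j)).trace = 0 := h0 i j l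
    have key : ∀ i j l, D i (A j * BB D g l - A l * BB D g j).trace =
        ((A j).map (D i) * BB D g l + A j * (BB D g l).map (D i) -
          ((A l).map (D i) * BB D g j + A l * (BB D g j).map (D i))).trace := by
      intro i j l
      rw [← trace_map', ← map_mul' (hD i), ← map_mul' (hD i)]
      congr 1
      ext a b
      simp
    beta_reduce
    rw [CS_gau]
    simp only [map_neg, key]
    rw [h1] at h
    unfold CS
    linear_combination h

theorem exact_zero [CommRing F] (D : ι → F →+ F) : Exact (fun i => D i) fun _ _ _ => (0 : F) :=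
  ⟨fun _ _ => 0, fun _ _ => by simp, fun _ _ _ => by simp⟩

theorem CS_comm [CommRing F] [Fintype n] {B : ι → Matrix n n F} (h : ∀ j l, B j * B l = B l * B j) (i j l : ι) :
    CS B i j l = 0 := by
  unfold CS
  rw [h j l, sub_self, Matrix.mul_zero, Matrix.trace_zero]

end GGauAux

open GGauAux

theorem tGau (hGMul : S_GMul) : S_Gau := by
  intro F ι n _ _ _ D hD hC A g hA
  refine ⟨flat_gau hD hC g A hA, ?_⟩
  have main : ∀ M : Matrix n n F, M.det ≠ 0 → ∀ g : GL n F, (g : Matrix n n F) = M → ∀ A : ι → Matrix n n F,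
      Flat (fun i => D i) A → Exact (fun i => D i) fun i j l => CS (gau (fun i => D i) g A) i j l - CS A i j l := by
    intro M hM
    refine Matrix.diagonal_transvection_induction_of_det_ne_zero (fun M => ∀ g : GL n F, (g : Matrix n n F) = M →
      ∀ A : ι → Matrix n n F, Flat (fun i => D i) A →
        Exact (fun i => D i) fun i j l => CS (gau (fun i => D i) g A) i j l - CS A i j l) M hM ?_ ?_ ?_
    · intro v hv g hg A hA
      refine exact_step hD hC g A hA (CS_comm ?_)
      have hv0 : ∀ a, v a ≠ 0 := by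
        intro a ha
        apply hv
        rw [Matrix.det_diagonal]
        exact Finset.prod_eq_zero (Finset.mem_univ a) ha
      have hB : ∀ i, BB D g i = Matrix.diagonal fun a => D i (v a) / v a := by
        intro i
        apply BB_eq
        rw [hg, Matrix.diagonal_mul_diagonal]
        ext a b
        rw [Matrix.map_apply]
        by_cases hab : a = b
        · subst hab
          rw [Matrix.diagonal_apply_eq, Matrix.diagonal_apply_eq, div_mul_cancel₀ _ (hv0 a)]
        · rw [Matrix.diagonal_apply_ne _ hab, Matrix.diagonal_apply_ne _ hab, map_zero]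
      intro j l
      rw [hB, hB, Matrix.diagonal_mul_diagonal, Matrix.diagonal_mul_diagonal]
      congr 1
      funext a
      exact mul_comm _ _
    · intro t g hg A hA
      refine exact_step hD hC g A hA (CS_comm ?_)
      have hB : ∀ i, BB D g i = Matrix.single t.i t.j (D i t.c) := by
        intro i
        apply BB_eq
        rw [hg, Matrix.TransvectionStruct.toMatrix, Matrix.transvection, map_add', map_one' (hD i), zero_add,
          Matrix.mul_add, Matrix.mul_one, Matrix.single_mul_single_of_ne _ _ _ _ t.hij.symm, add_zero]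
        ext a b
        rw [Matrix.map_apply, Matrix.single_apply, Matrix.single_apply]
        split_ifs
        · rfl
        · rw [map_zero]
      intro j l
      rw [hB, hB, Matrix.single_mul_single_of_ne _ _ _ _ t.hij.symm, Matrix.single_mul_single_of_ne _ _ _ _ t.hij.symm]
    · intro M N hM hN ihM ihN g hg A hA
      set gM := Matrix.GeneralLinearGroup.mkOfDetNeZero M hM with hgM
      set gN := Matrix.GeneralLinearGroup.mkOfDetNeZero N hN with hgN
      have e : g = gM * gN := by
        apply Units.ext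
        rw [hg, Units.val_mul]
        rfl
      have h1 := ihM gM rfl A hA
      have h2 := ihN gN rfl (gau (fun i => D i) gM A) (flat_gau hD hC gM A hA)
      have e2 : gau (fun i => D i) g A = gau (fun i => D i) gN (gau (fun i => D i) gM A) := by
        funext i
        rw [e]
        exact hGMul F n (D i) (hD i) gM gN (A i)
      obtain ⟨η1, a1, b1⟩ := h1
      obtain ⟨η2, a2, b2⟩ := h2
      refine ⟨fun i j => η1 i j + η2 i j, fun i j => ?_, fun i j l => ?_⟩
      · show η1 i j + η2 i j = -(η1 j i + η2 j i)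
        rw [a1 i j, a2 i j]
        ring
      · have c1 := b1 i j l
        have c2 := b2 i j l
        rw [e2]
        simp only [map_add]
        simp only at c1 c2
        linear_combination c1 + c2
  exact main g (by
    have h := (Matrix.GeneralLinearGroup.det g).ne_zero
    exact h) g rfl A hA

end Pool.Agent.M7
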