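import Pool.Agent.Lib.MP_7baa7a_ag.OmB
import Pool.Agent.Lib.MP_7baa7a_ag.Gau
import Pool.Agent.Lib.MP_7baa7a_ag.GMul

/-!
# Gauge invariance of `Tr A^m`, `m` odd
-/

set_option autoImplicit false

noncomputable section

open Matrix TensorProduct

namespace Pool.Agent.M7

namespace GauW

open OmB GGauAux

variable {F n : Type} {d : ℕ}

/-- `f ⊗ 1` -/
def c1 (F : Type) [CommRing F] (d : ℕ) : F →+* Om F d :=
  (Algebra.TensorProduct.includeLeft : F →ₐ[ℤ] F ⊗[ℤ] ExteriorAlgebra ℤ (Fin d → ℤ)).toRingHom

theorem c1_apply [CommRing F] (f : F) : c1 F d f = f ⊗ₜ[ℤ] 1 := rfl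

theorem c1_o1 [CommRing F] (f : F) (g : Fin d → F) : c1 F d f * o1 g = o1 fun i => f * g i := by
  rw [o1, o1, Finset.mul_sum]
  refine Finset.sum_congr rfl fun i _ => ?_
  rw [c1_apply, Algebra.TensorProduct.tmul_mul_tmul, one_mul]

theorem c1_com [CommRing F] (f : F) (x : Om F d) : c1 F d f * x = x * c1 F d f := central f x

theorem o1_sum [CommRing F] {ι : Type} (s : Finset ι) (f : ι → Fin d → F) : o1 (fun i => ∑ a ∈ s, f a i) = ∑ a ∈ s, o1 (f a) := by
  simp only [o1, TensorProduct.sum_tmul]
  rw [Finset.sum_comm]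

theorem o1_add [CommRing F] (f g : Fin d → F) : o1 (fun i => f i + g i) = o1 f + o1 g := by
  simp only [o1, TensorProduct.add_tmul, Finset.sum_add_distrib]

theorem o1_zero [CommRing F] : o1 (fun _ : Fin d => (0 : F)) = 0 := by
  simp [o1]

theorem frm_mul [CommRing F] [Fintype n] (P Q : Matrix n n F) (X : Fin d → Matrix n n F) :
    frm (fun i => P * X i * Q) = P.map (c1 F d) * frm X * Q.map (c1 F d) := by
  ext a b
  rw [frm_apply, Matrix.mul_apply]
  simp only [Matrix.mul_apply, Matrix.map_apply, frm_apply]
  rw [o1_sum]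
  refine Finset.sum_congr rfl fun c _ => ?_
  have h1 : ∀ i, (∑ x, P a x * X i x c) * Q c b = Q c b * ∑ x, P a x * X i x c := fun i => mul_comm _ _
  simp only [h1]
  rw [← c1_o1, o1_sum, c1_com]
  congr 1
  refine Finset.sum_congr rfl fun x _ => ?_
  rw [c1_o1]

theorem frm_add [CommRing F] (X Y : Fin d → Matrix n n F) : frm (fun i => X i + Y i) = frm X + frm Y := by
  ext a b
  rw [frm_apply, Matrix.add_apply, frm_apply, frm_apply, ← o1_add]
  rfl

theorem frm_single [CommRing F] [DecidableEq n] (a b : n) (f : Fin d → F) :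
    frm (fun i => Matrix.single a b (f i)) = Matrix.single a b (o1 f) := by
  ext x y
  rw [frm_apply]
  simp only [Matrix.single_apply]
  split_ifs
  · rfl
  · exact o1_zero

theorem trace_central [CommRing F] [Fintype n] (P : Matrix n n F) (Y : Matrix n n (Om F d)) :
    (P.map (c1 F d) * Y).trace = (Y * P.map (c1 F d)).trace := by
  simp only [Matrix.trace, Matrix.diag_apply, Matrix.mul_apply, Matrix.map_apply]
  rw [Finset.sum_comm]
  exact Finset.sum_congr rfl fun a _ => Finset.sum_congr rfl fun b _ => c1_com _ _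

theorem TrP_conj [CommRing F] [Fintype n] [DecidableEq n] (m : ℕ) (g : GL n F) (X : Fin d → Matrix n n F) :
    TrP m (fun i => (↑g⁻¹ : Matrix n n F) * X i * (g : Matrix n n F)) = TrP m X := by
  rw [TrP, frm_mul]
  set P := (↑g⁻¹ : Matrix n n F).map (c1 F d)
  set Q := (g : Matrix n n F).map (c1 F d)
  have hPQ : P * Q = 1 := by
    show (↑g⁻¹ : Matrix n n F).map (c1 F d) * (g : Matrix n n F).map (c1 F d) = 1
    rw [← Matrix.map_mul, inv_g, Matrix.map_one _ (map_zero _) (map_one _)]
  have hQP : Q * P = 1 := by
    show (g : Matrix n n F).map (c1 F d) * (↑g⁻¹ : Matrix n n F).map (c1 F d) = 1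
    rw [← Matrix.map_mul, g_inv, Matrix.map_one _ (map_zero _) (map_one _)]
  have hpow : ∀ j : ℕ, (P * frm X * Q) ^ j = P * (frm X) ^ j * Q := by
    intro j
    induction j with
    | zero => rw [pow_zero, pow_zero, Matrix.mul_one, hPQ]
    | succ j ih =>
      rw [pow_succ, ih, pow_succ]
      calc P * frm X ^ j * Q * (P * frm X * Q) = P * frm X ^ j * (Q * P) * frm X * Q := by
            simp only [Matrix.mul_assoc]
        _ = P * (frm X ^ j * frm X) * Q := by
            rw [hQP, Matrix.mul_one]
            simp only [Matrix.mul_assoc]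
  rw [hpow, Matrix.mul_assoc, trace_central, Matrix.mul_assoc, hQP, Matrix.mul_one]
  rfl

variable [Field F] [CharZero F] [Fintype n] [DecidableEq n]

/-- the forms do not change modulo exact forms under the gauge transformation `g` -/
def Inv (D : Fin d → F →+ F) (g : GL n F) : Prop := ∀ A : Fin d → Matrix n n F, Flat (fun i => D i) A → ∀ k : ℕ,
  ∃ η : Om F d, TrP (2 * k + 3) (gau (fun i => D i) g A) - TrP (2 * k + 3) A = dO D η

theorem two_unit (F : Type) [Field F] [CharZero F] : IsUnit (2 : F) := isUnit_iff_ne_zero.2 two_ne_zero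

theorem inv_single {D : Fin d → F →+ F} (hD : ∀ i, IsDer (D i)) (g : GL n F) (a b : n) (f : Fin d → F)
    (hB : ∀ i, BB D g i = Matrix.single a b (f i)) (hf : ∀ i j, D i (f j) = D j (f i)) : Inv D g := by
  intro A hA k
  have h1 : gau (fun i => D i) g A = fun i => (↑g⁻¹ : Matrix n n F) * (A i + Matrix.single a b (f i)) * (g : Matrix n n F) := by
    funext i
    rw [gau_eq, hB]
  rw [h1, TrP_conj]
  have h2 := Sup.tr_single (omS D hD (two_unit F)) (A := frm A) (fun a b => frm_mem A a b)
    (frm_flat (two_unit F) hA) (o1_mem f) (dO_o1_zero (two_unit F) hf) a b k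
  refine ⟨(2 * k + 3) • (o1 f * ((frm A) ^ (2 * k + 1)) b a), ?_⟩
  have h3 : frm (fun i => A i + Matrix.single a b (f i)) = frm A + Matrix.single a b (o1 f) := by
    rw [frm_add, frm_single]
  rw [TrP, h3, h2, TrP, add_sub_cancel_left]
  rfl

omit [CharZero F] in
theorem inv_mul {D : Fin d → F →+ F} (hD : ∀ i, IsDer (D i)) (hC : Com fun i => D i) {g h : GL n F} (hg : Inv D g)
    (hh : Inv D h) : Inv D (g * h) := by
  intro A hA k
  obtain ⟨η1, e1⟩ := hg A hA k
  obtain ⟨η2, e2⟩ := hh (gau (fun i => D i) g A) (flat_gau hD hC g A hA) k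
  have e3 : gau (fun i => D i) (g * h) A = gau (fun i => D i) h (gau (fun i => D i) g A) := by
    funext i
    exact tGMul F n (D i) (hD i) g h (A i)
  refine ⟨η1 + η2, ?_⟩
  rw [e3, map_add, ← e1, ← e2]
  abel

omit [CharZero F] in
theorem inv_one {D : Fin d → F →+ F} (hD : ∀ i, IsDer (D i)) : Inv D (1 : GL n F) := by
  intro A hA k
  refine ⟨0, ?_⟩
  have h1 : gau (fun i => D i) (1 : GL n F) A = A := by
    funext i
    unfold gau
    rw [_root_.inv_one, Units.val_one, Matrix.one_mul, Matrix.mul_one, Matrix.one_mul]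
    have h2 : (1 : Matrix n n F).map (D i) = 0 := map_one' (hD i)
    rw [h2, add_zero]
  rw [h1, sub_self, map_zero]

theorem inv_diag {D : Fin d → F →+ F} (hD : ∀ i, IsDer (D i)) (hC : Com fun i => D i) (v : n → F) (hv : ∀ a, v a ≠ 0)
    (s : Finset n) : ∀ g : GL n F, (g : Matrix n n F) = Matrix.diagonal (fun a => if a ∈ s then v a else 1) → Inv D g := by
  induction s using Finset.induction_on with
  | empty =>
    intro g hg
    have h1 : g = 1 := by
      apply Units.ext
      rw [hg, Units.val_one]
      simp
    rw [h1]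
    exact inv_one hD
  | insert x s hx ih =>
    intro g hg
    have hs : (Matrix.diagonal (fun a => if a ∈ s then v a else 1)).det ≠ 0 := by
      rw [Matrix.det_diagonal]
      refine Finset.prod_ne_zero_iff.2 fun a _ => ?_
      split_ifs
      · exact hv a
      · exact one_ne_zero
    have hx1 : (Matrix.diagonal (fun a => if a = x then v x else (1 : F))).det ≠ 0 := by
      rw [Matrix.det_diagonal]
      refine Finset.prod_ne_zero_iff.2 fun a _ => ?_
      split_ifs
      · exact hv x
      · exact one_ne_zero
    set g1 := Matrix.GeneralLinearGroup.mkOfDetNeZero _ hs with hg1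
    set g2 := Matrix.GeneralLinearGroup.mkOfDetNeZero _ hx1 with hg2
    have e : g = g1 * g2 := by
      apply Units.ext
      rw [hg, Units.val_mul]
      show _ = Matrix.diagonal (fun a => if a ∈ s then v a else 1) * Matrix.diagonal (fun a => if a = x then v x else (1 : F))
      rw [Matrix.diagonal_mul_diagonal]
      congr 1
      funext a
      by_cases h1 : a = x
      · subst h1
        simp [hx]
      · simp [h1]
    rw [e]
    refine inv_mul hD hC (ih g1 rfl) (inv_single hD g2 x x (fun i => D i (v x) / v x) (fun i => ?_) fun i j => ?_)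
    · apply BB_eq
      show _ * Matrix.diagonal (fun a => if a = x then v x else (1 : F)) =
        (Matrix.diagonal (fun a => if a = x then v x else (1 : F))).map (D i)
      ext a b
      rw [Matrix.mul_diagonal, Matrix.single_apply, Matrix.map_apply]
      by_cases hab : a = b
      · subst hab
        rw [Matrix.diagonal_apply_eq]
        by_cases hax : a = x
        · subst hax
          rw [if_pos ⟨rfl, rfl⟩, if_pos rfl, div_mul_cancel₀ _ (hv a)]
        · rw [if_neg (fun h => hax h.1.symm), if_neg hax, zero_mul, (hD i).one]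
      · rw [Matrix.diagonal_apply_ne _ hab, map_zero]
        have : ¬ (x = a ∧ x = b) := fun h => hab (h.1.symm.trans h.2)
        rw [if_neg this, zero_mul]
    · have key : ∀ i j, D i (D j (v x) / v x) = D i (D j (v x)) / v x - D j (v x) * D i (v x) / (v x * v x) := by
        intro i j
        have h1 := hD i (D j (v x) / v x) (v x)
        rw [div_mul_cancel₀ _ (hv x)] at h1
        have h2 := hv x
        field_simp
        rw [h1]
        field_simp
        ring
      have hc : D i (D j (v x)) = D j (D i (v x)) := hC i j (v x)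
      rw [key, key, hc, mul_comm (D j (v x))]

theorem inv_all {D : Fin d → F →+ F} (hD : ∀ i, IsDer (D i)) (hC : Com fun i => D i) (g : GL n F) : Inv D g := by
  have main : ∀ M : Matrix n n F, M.det ≠ 0 → ∀ g : GL n F, (g : Matrix n n F) = M → Inv D g := by
    intro M hM
    refine Matrix.diagonal_transvection_induction_of_det_ne_zero
      (fun M => ∀ g : GL n F, (g : Matrix n n F) = M → Inv D g) M hM ?_ ?_ ?_
    · intro v hv g hg
      have hv0 : ∀ a, v a ≠ 0 := by
        intro a ha
        apply hv
        rw [Matrix.det_diagonal]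
        exact Finset.prod_eq_zero (Finset.mem_univ a) ha
      refine inv_diag hD hC v hv0 Finset.univ g ?_
      rw [hg]
      simp
    · intro t g hg
      refine inv_single hD g t.i t.j (fun i => D i t.c) (fun i => ?_) fun i j => hC i j _
      apply BB_eq
      rw [hg, Matrix.TransvectionStruct.toMatrix, Matrix.transvection, map_add', map_one' (hD i), zero_add,
        Matrix.mul_add, Matrix.mul_one, Matrix.single_mul_single_of_ne _ _ _ _ t.hij.symm, add_zero]
      ext a b
      rw [Matrix.map_apply, Matrix.single_apply, Matrix.single_apply]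
      split_ifs
      · rfl
      · rw [map_zero]
    · intro M N hM hN ihM ihN g hg
      set gM := Matrix.GeneralLinearGroup.mkOfDetNeZero M hM with hgM
      set gN := Matrix.GeneralLinearGroup.mkOfDetNeZero N hN with hgN
      have e : g = gM * gN := by
        apply Units.ext
        rw [hg, Units.val_mul]
        rfl
      rw [e]
      exact inv_mul hD hC (ihM gM rfl) (ihN gN rfl)
  exact main g (by
    have h := (Matrix.GeneralLinearGroup.det g).ne_zero
    exact h) g rfl

end GauW

end Pool.Agent.M7
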