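import Pool.Agent.Lib.MP_7baa7a_ag.SplitW

/-!
# The forms `Tr A^m` of a family with a pole in terms of the eigenvalues of the leading coefficient
-/

set_option autoImplicit false

noncomputable section

open Matrix Polynomial TensorProduct

namespace Pool.Agent.M7

namespace MultW

open OmB GauW PropW Coef SplitW Mult

variable {K : Type} [Field K] {d : ℕ}

/-- `w` are the forms `Tr (B ^ (2 k + 3))` of a flat connection `B` of rank `m` -/
def IsW (D : Fin d → K →+ K) (m : ℕ) (w : ℕ → Om K d) : Prop :=
  ∃ B : Fin d → Matrix (Fin m) (Fin m) K, Flat (fun i => D i) B ∧ ∀ k, w k = TrP (2 * k + 3) B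

/-- `v` is modulo exact forms a sum over the roots of `χ` of classes of flat connections whose ranks are the multiplicities -/
def SpecW (D : Fin d → K →+ K) (χ : K[X]) (v : ℕ → Om K d) : Prop :=
  ∃ w : K → ℕ → Om K d, (∀ z, IsW D (χ.rootMultiplicity z) (w z)) ∧
    ∀ s : Finset K, (∀ z, χ.IsRoot z → z ∈ s) → ∀ k, ExO D (v k - ∑ z ∈ s, w z k)

theorem isW_of_le [CharZero K] {D : Fin d → K →+ K} {m : ℕ} (hm : m ≤ 1) {w : ℕ → Om K d} (h : IsW D m w) :
    ∀ k, w k = 0 := by
  obtain ⟨B, -, hB⟩ := h
  intro k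
  have : Subsingleton (Fin m) := Fin.subsingleton_iff_le_one.2 hm
  rw [hB, TrP_sub_zero (two_unit K)]

theorem isW_zero [CharZero K] (D : Fin d → K →+ K) : IsW D 0 fun _ => 0 :=
  ⟨fun _ => 0, fun i j => by ext a; exact a.elim0, fun k => (TrP_sub_zero (two_unit K) k _).symm⟩

theorem isW_add {D : Fin d → K →+ K} {m1 m2 : ℕ} {w1 w2 : ℕ → Om K d} (h1 : IsW D m1 w1)
    (h2 : IsW D m2 w2) : IsW D (m1 + m2) fun k => w1 k + w2 k := by
  obtain ⟨B1, f1, e1⟩ := h1
  obtain ⟨B2, f2, e2⟩ := h2
  refine ⟨fun i => (fromBlocks (B1 i) 0 0 (B2 i)).submatrix finSumFinEquiv.symm finSumFinEquiv.symm,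
    flat_submatrix _ (flat_block f1 f2), fun k => ?_⟩
  rw [TrP_submatrix, TrP_block, ← e1, ← e2]

theorem specW_mul {D : Fin d → K →+ K} {χ1 χ2 : K[X]} {v1 v2 : ℕ → Om K d} (h0 : χ1 * χ2 ≠ 0)
    (h1 : SpecW D χ1 v1) (h2 : SpecW D χ2 v2) : SpecW D (χ1 * χ2) fun k => v1 k + v2 k := by
  obtain ⟨w1, c1, e1⟩ := h1
  obtain ⟨w2, c2, e2⟩ := h2
  refine ⟨fun z k => w1 z k + w2 z k, fun z => ?_, fun s hs k => ?_⟩
  · rw [Polynomial.rootMultiplicity_mul h0]
    exact isW_add (c1 z) (c2 z)
  · refine ((e1 s (fun z hz => hs z ?_) k).add (e2 s (fun z hz => hs z ?_) k)).congr ?_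
    · exact Polynomial.root_mul.2 (Or.inl hz)
    · exact Polynomial.root_mul.2 (Or.inr hz)
    · show v1 k + v2 k - ∑ z ∈ s, (w1 z k + w2 z k) = _
      rw [Finset.sum_add_distrib, add_sub_add_comm]

theorem specW_exact {D : Fin d → K →+ K} {χ : K[X]} {v v' : ℕ → Om K d} (h : SpecW D χ v)
    (he : ∀ k, ExO D (v' k - v k)) : SpecW D χ v' := by
  obtain ⟨w, c, e⟩ := h
  refine ⟨w, c, fun s hs k => ((he k).add (e s hs k)).congr ?_⟩
  abel

theorem specW_pow [CharZero K] {D : Fin d → K →+ K} {N : ℕ} (hN : 0 < N) {v w : ℕ → Om K d} (hw : IsW D N w)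
    (he : ∀ k, ExO D (v k - w k)) : SpecW D (X ^ N) v := by
  classical
  refine ⟨fun z => if z = 0 then w else fun _ => 0, fun z => ?_, fun s hs k => (he k).congr ?_⟩
  · show IsW D ((X ^ N : K[X]).rootMultiplicity z) (if z = 0 then w else fun _ => 0)
    by_cases hz : z = 0
    · rw [if_pos hz, hz]
      have h1 := Polynomial.rootMultiplicity_X_sub_C_pow (0 : K) N
      rw [Polynomial.C_0, sub_zero] at h1
      rw [h1]
      exact hw
    · rw [if_neg hz]
      have h1 : (X ^ N : K[X]).rootMultiplicity z = 0 := by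
        apply Polynomial.rootMultiplicity_eq_zero
        rw [Polynomial.IsRoot.def, Polynomial.eval_pow, Polynomial.eval_X]
        exact pow_ne_zero N hz
      rw [h1]
      exact isW_zero D
  · have h0 : (0 : K) ∈ s := hs 0 (by
      rw [Polynomial.IsRoot.def, Polynomial.eval_pow, Polynomial.eval_X, zero_pow hN.ne'])
    have h1 : ∀ z ∈ s, (if z = 0 then w else fun _ => 0) k = if z = 0 then w k else 0 := by
      intro z _
      split_ifs <;> rfl
    rw [Finset.sum_congr rfl h1, Finset.sum_ite_eq' s (0 : K), if_pos h0]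

theorem specW_shift {D : Fin d → K →+ K} {χ : K[X]} (c : K) {v : ℕ → Om K d}
    (h : SpecW D (χ.comp (X + C c)) v) : SpecW D χ v := by
  obtain ⟨w, hw, e⟩ := h
  refine ⟨fun z => w (z - c), fun z => ?_, fun s hs k => ?_⟩
  · rw [rootMult_shift χ c z]
    exact hw (z - c)
  · refine (e (s.map (Equiv.subRight c).toEmbedding) (fun z hz => ?_) k).congr ?_
    · rw [Finset.mem_map]
      refine ⟨z + c, hs _ ?_, ?_⟩
      · rw [Polynomial.IsRoot.def, Polynomial.eval_comp, Polynomial.eval_add, Polynomial.eval_X, Polynomial.eval_C] at hz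
        exact hz
      · show z + c - c = z
        rw [add_sub_cancel_right]
    · rw [Finset.sum_map]
      rfl

theorem specW_one [CharZero K] {D : Fin d → K →+ K} {v : ℕ → Om K d} (hv : ∀ k, v k = 0) :
    SpecW D 1 v := by
  refine ⟨fun _ _ => 0, fun z => ?_, fun s _ k => ExO.zero.congr ?_⟩
  · rw [Polynomial.rootMultiplicity_eq_zero]
    · exact isW_zero D
    · rw [Polynomial.IsRoot.def, Polynomial.eval_one]
      exact one_ne_zero
  · rw [hv, Finset.sum_const_zero, sub_zero]

/-- **The class of a family with a pole.**  Let a component of a formal family of flat connections have a pole (in some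
gauge) with the leading coefficient `Θ`. The class of the family is the sum over the eigenvalues of `Θ` of classes of flat
connections whose ranks are the multiplicities. -/
theorem spectral [IsAlgClosed K] [CharZero K] {D : Fin d → K →+ K}
    (hD : ∀ i, IsDer (D i)) (hC : Com fun i => D i) (hx : ∀ i, ∃ x, D i x = 1) : ∀ (N : ℕ)
    (A : Fin d → Matrix (Fin N) (Fin N) (LaurentSeries K)), Flat (fun i => lD (D i)) A → ∀ (i : Fin d) (p : ℕ), 0 < p →
    ∀ (g : GL (Fin N) (LaurentSeries K)) (C : Matrix (Fin N) (Fin N) (LaurentSeries K)), NP C →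
      gau1 (lD (D i)) g (A i) = sX K (-p) • C → SpecW D (c0 C).charpoly fun k => cl0 k A := by
  intro N
  induction N using Nat.strong_induction_on with
  | _ N ih =>
    intro A hA i p hp g C hNC hg
    have := laurent_char (K := K)
    rcases Nat.eq_zero_or_pos N with hN | hN
    · subst hN
      rw [Matrix.charpoly_isEmpty]
      refine specW_one fun k => ?_
      show omA d (co0 K) (TrP (2 * k + 3) A) = 0
      rw [TrP_sub_zero (two_unit _), map_zero]
    have hD' : ∀ i, IsDer (lD (D i)) := fun i => lD_isDer (hD i)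
    have hC' : Com fun i => lD (D i) := lD_com hC
    have hN0 : (N : LaurentSeries K) ≠ 0 := Nat.cast_ne_zero.2 hN.ne'
    set t : Fin d → LaurentSeries K := fun i => (A i).trace * (N : LaurentSeries K)⁻¹ with ht
    have htc : ∀ i j, lD (D i) (t j) = lD (D j) (t i) := by
      intro i j
      rw [ht]
      simp only
      rw [hD' i, hD' j, der_natInv (hD' i), der_natInv (hD' j), mul_zero, mul_zero, add_zero, add_zero,
        trace_closed (D := fun i => lD (D i)) hA i j]
    set A0 : Fin d → Matrix (Fin N) (Fin N) (LaurentSeries K) := fun i => A i - Matrix.scalar (Fin N) (t i) with hA0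
    have hfl0 : Flat (fun i => lD (D i)) A0 := flat_scalar (D := fun i => lD (D i)) hA htc
    have hcs0 : ∀ m, cl0 m A0 = cl0 m A := fun m => cl0_scalar hD A t m
    -- the trace of the leading coefficient
    have hpp : sX K p * sX K (-p) = 1 := by
      refine (single_mul_single _ _).trans ?_
      rw [add_neg_cancel]
      rfl
    set τ : LaurentSeries K := ((↑g⁻¹ : Matrix (Fin N) (Fin N) (LaurentSeries K)) *
      (g : Matrix (Fin N) (Fin N) (LaurentSeries K)).map (lD (D i))).trace with hτ
    have hτn : NoPole τ := tTrc K (Fin N) (D i) (hD i) g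
    have htrg : sX K (-p) * C.trace = (A i).trace + τ := by
      have h1 := congrArg Matrix.trace hg
      rw [Matrix.trace_smul, smul_eq_mul] at h1
      rw [← h1, gau1, Matrix.trace_add, hτ, Matrix.mul_assoc, Matrix.trace_mul_comm, Matrix.mul_assoc]
      congr 2
      rw [← Units.val_mul, mul_inv_cancel, Units.val_one, Matrix.mul_one]
    have htrC : C.trace = sX K p * (A i).trace + sX K p * τ := by
      rw [← mul_add, ← htrg, ← mul_assoc, hpp, one_mul]
    have hnat : NoPole ((N : LaurentSeries K)⁻¹) := by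
      have h1 : (N : LaurentSeries K)⁻¹ = HahnSeries.C ((N : K)⁻¹) := by
        rw [map_inv₀, map_natCast]
      rw [h1]
      exact noPole_single le_rfl _
    have hXp : NoPole (sX K p) := noPole_single (by omega) 1
    have hst : sX K p * t i = (C.trace - sX K p * τ) * (N : LaurentSeries K)⁻¹ := by
      rw [htrC, ht]
      ring
    have htrn : NoPole C.trace := noPole_sum _ fun a _ => hNC a a
    have hsn : NoPole (sX K p * t i) := by
      rw [hst]
      exact noPole_mul (noPole_sub htrn (noPole_mul hXp hτn)) hnat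
    set C' : Matrix (Fin N) (Fin N) (LaurentSeries K) := C - Matrix.scalar (Fin N) (sX K p * t i) with hC'def
    have hNs : NP (Matrix.scalar (Fin N) (sX K p * t i)) := by
      intro a b
      rw [Matrix.scalar_apply]
      by_cases hab : a = b
      · subst hab
        rw [Matrix.diagonal_apply_eq]
        exact hsn
      · rw [Matrix.diagonal_apply_ne _ hab]
        exact noPole_zero
    have hNC' : NP C' := np_sub hNC hNs
    have hg' : gau1 (lD (D i)) g (A0 i) = sX K (-p) • C' := by
      have h1 : (↑g⁻¹ : Matrix (Fin N) (Fin N) (LaurentSeries K)) * Matrix.scalar (Fin N) (t i) *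
          (g : Matrix (Fin N) (Fin N) (LaurentSeries K)) = Matrix.scalar (Fin N) (t i) := by
        rw [Matrix.mul_assoc, (Matrix.scalar_commute (t i) (fun r => Commute.all _ r) _).eq, ← Matrix.mul_assoc,
          ← Units.val_mul, inv_mul_cancel, Units.val_one, Matrix.one_mul]
      have h2 : sX K (-p) • Matrix.scalar (Fin N) (sX K p * t i) = Matrix.scalar (Fin N) (t i) := by
        rw [Matrix.scalar_apply, Matrix.scalar_apply, ← Matrix.diagonal_smul]
        congr 1
        funext a
        rw [Pi.smul_apply, smul_eq_mul, ← mul_assoc, mul_comm (sX K (-p)), hpp, one_mul]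
      rw [hC'def, smul_sub, h2, ← hg, hA0]
      simp only [gau1, Matrix.mul_sub, Matrix.sub_mul]
      rw [h1]
      abel
    have hc0C' : c0 C' = c0 C - Matrix.scalar (Fin N) ((sX K p * t i).coeff 0) := by
      rw [hC'def, c0_sub]
      congr 1
      ext a b
      simp only [c0, Matrix.map_apply, Matrix.scalar_apply]
      by_cases hab : a = b
      · subst hab
        rw [Matrix.diagonal_apply_eq, Matrix.diagonal_apply_eq]
      · rw [Matrix.diagonal_apply_ne _ hab, Matrix.diagonal_apply_ne _ hab, HahnSeries.coeff_zero]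
    have htrC' : (c0 C').trace = 0 := by
      rw [c0_trace, hC'def, Matrix.trace_sub, Matrix.scalar_apply, Matrix.trace_diagonal, Finset.sum_const,
        Finset.card_univ, Fintype.card_fin, nsmul_eq_mul, hst, mul_comm (N : LaurentSeries K), mul_assoc,
        inv_mul_cancel₀ hN0, mul_one, sub_sub_cancel]
      rw [sX, single_mul_coeff]
      exact hτn _ (by omega)
    have hch : (c0 C').charpoly = (c0 C).charpoly.comp (X + Polynomial.C ((sX K p * t i).coeff 0)) := by
      rw [hc0C', Matrix.charpoly_sub_scalar]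
    refine specW_shift ((sX K p * t i).coeff 0) ?_
    rw [← hch]
    by_cases hnil : IsNilpotent (c0 C')
    · rw [charpoly_nil hnil]
      obtain ⟨B, hB, eB⟩ := SplitW.limit hD hC hx N A hA
      exact specW_pow hN ⟨B, hB, fun _ => rfl⟩ eB
    · obtain ⟨a, b, A1, A2, P, S, ha, hb, hab, f1, f2, hex, hP, hS, e1, e2, hchi⟩ :=
        SplitW.split0 hD hC hfl0 hp hNC' hg' htrC' hnil
      have hone : ∀ {m : ℕ} (B : Matrix (Fin m) (Fin m) (LaurentSeries K)), gau1 (lD (D i)) 1 B = B := by
        intro m B
        rw [gau1, _root_.inv_one, Units.val_one, Matrix.one_mul, Matrix.mul_one, Matrix.one_mul]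
        have h0 : (1 : Matrix (Fin m) (Fin m) (LaurentSeries K)).map (lD (D i)) = 0 := by
          ext a b : 2
          rw [Matrix.map_apply, Matrix.zero_apply]
          by_cases hab : a = b
          · subst hab
            rw [Matrix.one_apply_eq, (hD' i).one]
          · rw [Matrix.one_apply_ne hab, map_zero]
        rw [h0, add_zero]
      have s1 := ih a (by omega) A1 f1 i p hp 1 P hP (by rw [hone, e1])
      have s2 := ih b (by omega) A2 f2 i p hp 1 S hS (by rw [hone, e2])
      have hne : (c0 P).charpoly * (c0 S).charpoly ≠ 0 :=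
        mul_ne_zero (Matrix.charpoly_monic _).ne_zero (Matrix.charpoly_monic _).ne_zero
      rw [hchi]
      refine specW_exact (specW_mul hne s1 s2) fun k => (hex k).congr ?_
      rw [hcs0]

end MultW

end Pool.Agent.M7
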