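import Mathlib

/-!
# Supercommutative differential rings: traces of powers of flat matrices of one-forms
-/

set_option autoImplicit false

open Matrix

namespace Pool.Agent.M7

/-- a supercommutative differential ring with its one-forms -/
structure Sup (Ω : Type) [Ring Ω] where
  /-- the parity involution -/
  ε : Ω →+* Ω
  /-- the differential -/
  d : Ω →+ Ω
  /-- the one-forms -/
  one : AddSubgroup Ω
  leib : ∀ x y, d (x * y) = d x * y + ε x * d y
  com : ∀ b ∈ one, ∀ x, b * x = ε x * b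
  neg : ∀ b ∈ one, ε b = -b
  two : ∀ x : Ω, x + x = 0 → x = 0

namespace Sup

variable {Ω : Type} [Ring Ω] (S : Sup Ω) {n : Type} [Fintype n] [DecidableEq n]

omit [DecidableEq n] in
theorem map_d_mul (X Y : Matrix n n Ω) : (X * Y).map S.d = X.map S.d * Y + X.map S.ε * Y.map S.d := by
  ext a b
  simp only [Matrix.map_apply, Matrix.mul_apply, Matrix.add_apply, map_sum, S.leib, Finset.sum_add_distrib]

omit [DecidableEq n] in
theorem map_ε_mul (X Y : Matrix n n Ω) : (X * Y).map S.ε = X.map S.ε * Y.map S.ε := by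
  ext a b
  simp only [Matrix.map_apply, Matrix.mul_apply, map_sum, map_mul]

omit [Fintype n] in
theorem map_ε_one : (1 : Matrix n n Ω).map S.ε = 1 := by
  ext a b
  simp only [Matrix.map_apply, Matrix.one_apply]
  split_ifs <;> simp

omit [Fintype n] in
theorem map_d_one : (1 : Matrix n n Ω).map S.d = 0 := by
  have h : S.d (1 : Ω) = 0 := by
    have h1 := S.leib 1 1
    rw [mul_one, mul_one, map_one S.ε, one_mul] at h1
    simpa using h1
  ext a b
  simp only [Matrix.map_apply, Matrix.one_apply, Matrix.zero_apply]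
  split_ifs
  · exact h
  · exact map_zero _

variable {A : Matrix n n Ω} (hA : ∀ a b, A a b ∈ S.one)

include hA

omit [Fintype n] [DecidableEq n] in
theorem A_ε : A.map S.ε = -A := by
  ext a b
  rw [Matrix.map_apply, Matrix.neg_apply, S.neg _ (hA a b)]

theorem pow_ε (k : ℕ) : (A ^ k).map S.ε = (-1 : ℤ) ^ k • A ^ k := by
  induction k with
  | zero => rw [pow_zero, pow_zero, one_smul, map_ε_one]
  | succ k ih =>
    rw [pow_succ, map_ε_mul, ih, A_ε S hA, Matrix.mul_neg, pow_succ, mul_neg_one, neg_smul, Matrix.smul_mul]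

omit [DecidableEq n] in
theorem tr_comm (Z : Matrix n n Ω) : (A * Z).trace = (Z.map S.ε * A).trace := by
  simp only [Matrix.trace, Matrix.diag_apply, Matrix.mul_apply, Matrix.map_apply]
  rw [Finset.sum_comm]
  exact Finset.sum_congr rfl fun a _ => Finset.sum_congr rfl fun b _ => S.com _ (hA b a) _

theorem tr_even (k : ℕ) : (A ^ (2 * k + 2)).trace = 0 := by
  apply S.two
  have h1 : A ^ (2 * k + 2) = A * A ^ (2 * k + 1) := by
    rw [← pow_succ']
  have h2 : (A ^ (2 * k + 2)).trace = -(A ^ (2 * k + 2)).trace := by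
    conv_lhs => rw [h1, tr_comm S hA, pow_ε S hA]
    rw [pow_succ, pow_mul]
    norm_num
    rw [← pow_succ]
  exact add_eq_zero_iff_eq_neg.2 h2

theorem d_pow (hfl : A.map S.d = -(A * A)) (k : ℕ) :
    (A ^ (2 * k)).map S.d = 0 ∧ (A ^ (2 * k + 1)).map S.d = -A ^ (2 * k + 2) := by
  have step : ∀ X : Matrix n n Ω, (A * X).map S.d = -(A * A * X) - A * X.map S.d := by
    intro X
    rw [map_d_mul, hfl, A_ε S hA, Matrix.neg_mul, Matrix.neg_mul]
    abel
  induction k with
  | zero =>
    refine ⟨by rw [mul_zero, pow_zero, map_d_one], ?_⟩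
    rw [mul_zero, zero_add, pow_one, hfl, zero_add, pow_two]
  | succ k ih =>
    have h1 : (A ^ (2 * (k + 1))).map S.d = 0 := by
      rw [show 2 * (k + 1) = (2 * k + 1) + 1 by ring, pow_succ', step, ih.2]
      rw [show 2 * k + 2 = (2 * k + 1) + 1 by ring, pow_succ' A (2 * k + 1), Matrix.mul_neg, Matrix.mul_assoc]
      abel
    refine ⟨h1, ?_⟩
    rw [pow_succ', step, h1, Matrix.mul_zero, sub_zero, show 2 * (k + 1) + 2 = (2 * (k + 1) + 1) + 1 by ring,
      pow_succ' A (2 * (k + 1) + 1), pow_succ' A (2 * (k + 1)), Matrix.mul_assoc]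

/-- moving powers of `A` around a trace of odd degree -/
theorem tr_rot {B : Matrix n n Ω} (hB : ∀ a b, B a b ∈ S.one) (k j : ℕ) (hj : j ≤ 2 * k) :
    (A ^ j * B * A ^ (2 * k - j)).trace = (B * A ^ (2 * k)).trace := by
  induction j with
  | zero => rw [pow_zero, Matrix.one_mul, Nat.sub_zero]
  | succ j ih =>
    rw [← ih (by omega), pow_succ', Matrix.mul_assoc, Matrix.mul_assoc, tr_comm S hA, ← Matrix.mul_assoc, map_ε_mul,
      map_ε_mul, pow_ε S hA, pow_ε S hA, A_ε S hB, Matrix.mul_assoc]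
    have h1 : ((-1 : ℤ) ^ (2 * k - (j + 1))) • A ^ (2 * k - (j + 1)) * A = (-1 : ℤ) ^ (2 * k - (j + 1)) • A ^ (2 * k - j) := by
      rw [Matrix.smul_mul, ← pow_succ, show 2 * k - (j + 1) + 1 = 2 * k - j by omega]
    rw [h1, Matrix.mul_neg, Matrix.neg_mul, Matrix.smul_mul, Matrix.smul_mul, Matrix.mul_smul, smul_smul, ← pow_add,
      show j + (2 * k - (j + 1)) = 2 * k - 1 by omega]
    have h2 : (-1 : ℤ) ^ (2 * k - 1) = -1 := Odd.neg_one_pow ⟨k - 1, by omega⟩
    rw [h2, neg_smul, one_smul, neg_neg]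

/-- **Change by a closed one-form in one entry.** -/
theorem tr_single (hfl : A.map S.d = -(A * A)) {β : Ω} (hβ : β ∈ S.one) (hd : S.d β = 0) (a b : n) (k : ℕ) :
    ((A + Matrix.single a b β) ^ (2 * k + 3)).trace =
      (A ^ (2 * k + 3)).trace + S.d ((2 * k + 3) • (β * (A ^ (2 * k + 1)) b a)) := by
  set B : Matrix n n Ω := Matrix.single a b β with hBdef
  have hββ : β * β = 0 := by
    apply S.two
    have h := S.com β hβ β
    rw [S.neg β hβ, neg_mul] at h
    exact add_eq_zero_iff_eq_neg.2 h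
  have hBX : ∀ X : Matrix n n Ω, B * X * B = 0 := by
    intro X
    rw [hBdef, Matrix.single_mul_mul_single]
    rw [S.com β hβ (X b a), mul_assoc, hββ, mul_zero, Matrix.single_zero]
  have hexp : ∀ m : ℕ, (A + B) ^ m = A ^ m + ∑ j ∈ Finset.range m, A ^ j * B * A ^ (m - 1 - j) := by
    intro m
    induction m with
    | zero => simp
    | succ m ih =>
      rw [pow_succ, ih, Matrix.mul_add, Matrix.add_mul, Matrix.add_mul, Finset.sum_range_succ, ← pow_succ, Finset.sum_mul,
        Finset.sum_mul]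
      have h1 : ∑ j ∈ Finset.range m, A ^ j * B * A ^ (m - 1 - j) * B = 0 := by
        refine Finset.sum_eq_zero fun j _ => ?_
        rw [Matrix.mul_assoc (A ^ j), Matrix.mul_assoc (A ^ j), hBX, Matrix.mul_zero]
      have h2 : ∑ j ∈ Finset.range m, A ^ j * B * A ^ (m - 1 - j) * A =
          ∑ j ∈ Finset.range m, A ^ j * B * A ^ (m + 1 - 1 - j) := by
        refine Finset.sum_congr rfl fun j hj => ?_
        rw [Finset.mem_range] at hj
        rw [Matrix.mul_assoc _ _ A, ← pow_succ, show m - 1 - j + 1 = m + 1 - 1 - j by omega]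
      rw [h1, h2, show m + 1 - 1 - m = 0 by omega, pow_zero, Matrix.mul_one]
      abel
  have hBo : ∀ i j, B i j ∈ S.one := by
    intro i j
    rw [hBdef, Matrix.single_apply]
    split_ifs
    · exact hβ
    · exact S.one.zero_mem
  have hsum : (∑ j ∈ Finset.range (2 * k + 3), A ^ j * B * A ^ (2 * k + 3 - 1 - j)).trace =
      (2 * k + 3) • (B * A ^ (2 * k + 2)).trace := by
    rw [Matrix.trace_sum]
    have h1 : ∀ j ∈ Finset.range (2 * k + 3), (A ^ j * B * A ^ (2 * k + 3 - 1 - j)).trace =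
        (B * A ^ (2 * k + 2)).trace := by
      intro j hj
      rw [Finset.mem_range] at hj
      have h2 := tr_rot S hA hBo (k + 1) j (by omega)
      rw [show 2 * k + 3 - 1 - j = 2 * (k + 1) - j by omega, h2, show 2 * (k + 1) = 2 * k + 2 by ring]
    rw [Finset.sum_congr rfl h1, Finset.sum_const, Finset.card_range]
  rw [hexp, Matrix.trace_add, hsum, map_nsmul]
  congr 2
  have h3 : (B * A ^ (2 * k + 2)).trace = β * (A ^ (2 * k + 2)) b a := by
    rw [hBdef, Matrix.trace_single_mul, smul_eq_mul]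
  rw [h3]
  have h4 : (A ^ (2 * k + 2)) b a = -S.d ((A ^ (2 * k + 1)) b a) := by
    have h5 := congrFun (congrFun (d_pow S hA hfl k).2 b) a
    rw [Matrix.map_apply, Matrix.neg_apply] at h5
    rw [h5, neg_neg]
  rw [h4, S.leib, hd, zero_mul, zero_add, S.neg β hβ, mul_neg, neg_mul]

/-- **Twist by a scalar one-form.** -/
theorem tr_scalar {t : Ω} (ht : t ∈ S.one) (k : ℕ) :
    ((A - Matrix.diagonal fun _ => t) ^ (2 * k + 3)).trace = (A ^ (2 * k + 3)).trace := by
  set T : Matrix n n Ω := Matrix.diagonal fun _ => t with hT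
  have htt : t * t = 0 := by
    apply S.two
    have h := S.com t ht t
    rw [S.neg t ht, neg_mul] at h
    exact add_eq_zero_iff_eq_neg.2 h
  have hTT : T * T = 0 := by
    rw [hT, Matrix.diagonal_mul_diagonal]
    simp only [htt, Matrix.diagonal_zero]
  have hAT : A * T + T * A = 0 := by
    ext a b
    rw [Matrix.add_apply, hT, Matrix.mul_diagonal, Matrix.diagonal_mul, S.com t ht, S.neg _ (hA a b), neg_mul,
      add_neg_cancel, Matrix.zero_apply]
  have hsq : (A - T) * (A - T) = A * A := by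
    rw [Matrix.mul_sub, Matrix.sub_mul, Matrix.sub_mul, hTT]
    have h : T * A = -(A * T) := by
      rw [eq_neg_iff_add_eq_zero, add_comm]
      exact hAT
    rw [h]
    abel
  have hpow : ∀ j : ℕ, (A - T) ^ (2 * j) = A ^ (2 * j) := by
    intro j
    rw [pow_mul, pow_mul, pow_two, pow_two, hsq]
  rw [show 2 * k + 3 = 2 * (k + 1) + 1 by ring, pow_succ, hpow, Matrix.mul_sub, Matrix.trace_sub, ← pow_succ]
  have h0 : (A ^ (2 * (k + 1)) * T).trace = 0 := by
    have h1 : (A ^ (2 * (k + 1)) * T).trace = (A ^ (2 * (k + 1))).trace * t := by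
      rw [hT]
      simp only [Matrix.trace, Matrix.diag_apply, Matrix.mul_diagonal]
      rw [Finset.sum_mul]
    rw [h1, show 2 * (k + 1) = 2 * k + 2 by ring, tr_even S hA, zero_mul]
  rw [h0, sub_zero]

/-- **Variation formula.** -/
theorem tr_var (hfl : A.map S.d = -(A * A)) (δ : Ω →+ Ω) (hδ : ∀ x y, δ (x * y) = δ x * y + x * δ y)
    (hδd : ∀ x, δ (S.d x) = S.d (δ x)) (hδ1 : ∀ x ∈ S.one, δ x ∈ S.one) (k : ℕ) :
    δ (A ^ (2 * k + 3)).trace = S.d (-((2 * k + 3) • (A.map δ * A ^ (2 * k + 1)).trace)) := by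
  set B : Matrix n n Ω := A.map δ with hBdef
  have hBo : ∀ a b, B a b ∈ S.one := fun a b => hδ1 _ (hA a b)
  have hmul : ∀ X Y : Matrix n n Ω, (X * Y).map δ = X.map δ * Y + X * Y.map δ := by
    intro X Y
    ext a b
    simp only [Matrix.map_apply, Matrix.mul_apply, Matrix.add_apply, map_sum, hδ, Finset.sum_add_distrib]
  have hone : (1 : Matrix n n Ω).map δ = 0 := by
    have h : δ (1 : Ω) = 0 := by
      have h1 := hδ 1 1
      rw [mul_one, mul_one, one_mul] at h1
      simpa using h1
    ext a b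
    simp only [Matrix.map_apply, Matrix.one_apply, Matrix.zero_apply]
    split_ifs
    · exact h
    · exact map_zero _
  have hexp : ∀ m : ℕ, (A ^ m).map δ = ∑ j ∈ Finset.range m, A ^ j * B * A ^ (m - 1 - j) := by
    intro m
    induction m with
    | zero => rw [pow_zero, hone, Finset.range_zero, Finset.sum_empty]
    | succ m ih =>
      rw [pow_succ, hmul, ih, Finset.sum_range_succ, Finset.sum_mul]
      have h2 : ∑ j ∈ Finset.range m, A ^ j * B * A ^ (m - 1 - j) * A =
          ∑ j ∈ Finset.range m, A ^ j * B * A ^ (m + 1 - 1 - j) := by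
        refine Finset.sum_congr rfl fun j hj => ?_
        rw [Finset.mem_range] at hj
        rw [Matrix.mul_assoc _ _ A, ← pow_succ, show m - 1 - j + 1 = m + 1 - 1 - j by omega]
      rw [h2, show m + 1 - 1 - m = 0 by omega, pow_zero, Matrix.mul_one]
  have hsum : δ (A ^ (2 * k + 3)).trace = (2 * k + 3) • (B * A ^ (2 * k + 2)).trace := by
    have h0 : δ (A ^ (2 * k + 3)).trace = ((A ^ (2 * k + 3)).map δ).trace := by
      simp only [Matrix.trace, Matrix.diag_apply, Matrix.map_apply, map_sum]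
    rw [h0, hexp, Matrix.trace_sum]
    have h1 : ∀ j ∈ Finset.range (2 * k + 3), (A ^ j * B * A ^ (2 * k + 3 - 1 - j)).trace =
        (B * A ^ (2 * k + 2)).trace := by
      intro j hj
      rw [Finset.mem_range] at hj
      have h2 := tr_rot S hA hBo (k + 1) j (by omega)
      rw [show 2 * k + 3 - 1 - j = 2 * (k + 1) - j by omega, h2, show 2 * (k + 1) = 2 * k + 2 by ring]
    rw [Finset.sum_congr rfl h1, Finset.sum_const, Finset.card_range]
  have hdB : B.map S.d = -(B * A + A * B) := by
    have h1 : B.map S.d = (A.map S.d).map δ := by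
      ext a b
      exact (hδd _).symm
    rw [h1, hfl]
    have h2 : (-(A * A)).map δ = -((A * A).map δ) := by
      ext a b
      simp only [Matrix.map_apply, Matrix.neg_apply, map_neg]
    rw [h2, hmul]
  have hdtr : S.d (B * A ^ (2 * k + 1)).trace = -(B * A ^ (2 * k + 2)).trace := by
    have h0 : S.d (B * A ^ (2 * k + 1)).trace = ((B * A ^ (2 * k + 1)).map S.d).trace := by
      simp only [Matrix.trace, Matrix.diag_apply, Matrix.map_apply, map_sum]
    rw [h0, map_d_mul, hdB, (d_pow S hA hfl k).2, A_ε S hBo, Matrix.neg_mul, Matrix.neg_mul, Matrix.mul_neg, neg_neg,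
      Matrix.add_mul, Matrix.mul_assoc B A, ← pow_succ', show 2 * k + 1 + 1 = 2 * k + 2 by ring, Matrix.trace_add,
      Matrix.trace_neg, Matrix.trace_add]
    have h3 : (A * B * A ^ (2 * k + 1)).trace = (B * A ^ (2 * k + 2)).trace := by
      have h4 := tr_rot S hA hBo (k + 1) 1 (by omega)
      rw [pow_one, show 2 * (k + 1) - 1 = 2 * k + 1 by omega, show 2 * (k + 1) = 2 * k + 2 by ring] at h4
      exact h4
    rw [h3]
    abel
  rw [hsum, map_neg, map_nsmul, hdtr, smul_neg, neg_neg]

end Sup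

end Pool.Agent.M7
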