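import Pool.Agent.Lib.MP_7baa7a_ag.OmD
import Pool.Agent.Lib.MP_7baa7a_ag.Base
import Pool.Agent.Lib.MP_7baa7a_ag.Sup

/-!
# Differential forms: basic properties
-/

set_option autoImplicit false

noncomputable section

open Matrix TensorProduct

namespace Pool.Agent.M7

namespace OmB

variable {F F' : Type} [CommRing F] [CommRing F'] {d : ℕ}

theorem omA_tmul (φ : F →+ F') (f : F) (y : ExteriorAlgebra ℤ (Fin d → ℤ)) :
    omA d φ (f ⊗ₜ[ℤ] y) = φ f ⊗ₜ[ℤ] y := rfl

theorem dO_apply (D : Fin d → F →+ F) (x : Om F d) : dO D x = ∑ i, ((1 : F) ⊗ₜ[ℤ] ex i) * omA d (D i) x := by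
  rw [dO, AddMonoidHom.finsetSum_apply]
  rfl

theorem omA_left (φ : F →+ F') (i : Fin d) (x : Om F d) :
    omA d φ (((1 : F) ⊗ₜ[ℤ] ex i) * x) = ((1 : F') ⊗ₜ[ℤ] ex i) * omA d φ x := by
  induction x using TensorProduct.induction_on with
  | zero => simp
  | add x y hx hy => rw [mul_add, map_add, hx, hy, map_add, mul_add]
  | tmul f y =>
    rw [Algebra.TensorProduct.tmul_mul_tmul, omA_tmul, omA_tmul, Algebra.TensorProduct.tmul_mul_tmul, one_mul, one_mul]

theorem omA_dO {D : Fin d → F →+ F} {D' : Fin d → F' →+ F'} (φ : F →+ F') (h : ∀ i a, φ (D i a) = D' i (φ a)) (x : Om F d) :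
    omA d φ (dO D x) = dO D' (omA d φ x) := by
  rw [dO_apply, dO_apply, map_sum]
  refine Finset.sum_congr rfl fun i _ => ?_
  rw [omA_left]
  congr 1
  induction x using TensorProduct.induction_on with
  | zero => simp
  | add x y hx hy => rw [map_add, map_add, map_add, map_add, hx, hy]
  | tmul f y => rw [omA_tmul, omA_tmul, omA_tmul, omA_tmul, h]

theorem omA_ring_mul (φ : F →+* F') (x y : Om F d) :
    omA d (φ : F →+ F') (x * y) = omA d (φ : F →+ F') x * omA d (φ : F →+ F') y := by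
  induction x using TensorProduct.induction_on with
  | zero => simp
  | add x x' hx hx' => rw [add_mul, map_add, hx, hx', map_add, add_mul]
  | tmul f a =>
    induction y using TensorProduct.induction_on with
    | zero => simp
    | add y y' hy hy' => rw [mul_add, map_add, hy, hy', map_add, mul_add]
    | tmul g b =>
      rw [Algebra.TensorProduct.tmul_mul_tmul, omA_tmul, omA_tmul, omA_tmul, Algebra.TensorProduct.tmul_mul_tmul]
      congr 1
      exact map_mul φ f g

/-- a ring homomorphism applied to the coefficients of forms -/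
def omR (φ : F →+* F') : Om F d →+* Om F' d where
  toFun := omA d (φ : F →+ F')
  map_one' := by
    show omA d (φ : F →+ F') ((1 : F) ⊗ₜ[ℤ] 1) = (1 : F') ⊗ₜ[ℤ] 1
    rw [omA_tmul]
    congr 1
    exact map_one φ
  map_mul' := omA_ring_mul φ
  map_zero' := map_zero _
  map_add' := map_add _

theorem omA_der {D : F →+ F} (hD : IsDer D) (x y : Om F d) : omA d D (x * y) = omA d D x * y + x * omA d D y := by
  induction x using TensorProduct.induction_on with
  | zero => simp
  | add x x' hx hx' =>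
    rw [add_mul, map_add, hx, hx', map_add, add_mul, add_mul]
    abel
  | tmul f a =>
    induction y using TensorProduct.induction_on with
    | zero => simp
    | add y y' hy hy' =>
      rw [mul_add, map_add, hy, hy', map_add, mul_add, mul_add]
      abel
    | tmul g b =>
      rw [Algebra.TensorProduct.tmul_mul_tmul, omA_tmul, omA_tmul, omA_tmul, Algebra.TensorProduct.tmul_mul_tmul,
        Algebra.TensorProduct.tmul_mul_tmul, hD, TensorProduct.add_tmul]

/-- the parity involution -/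
def omE (F : Type) [CommRing F] (d : ℕ) : Om F d →+* Om F d :=
  (Algebra.TensorProduct.map (AlgHom.id ℤ F) (CliffordAlgebra.involute (Q := (0 : QuadraticForm ℤ (Fin d → ℤ)))) :
    Om F d →ₐ[ℤ] Om F d).toRingHom

theorem omE_tmul (f : F) (y : ExteriorAlgebra ℤ (Fin d → ℤ)) :
    omE F d (f ⊗ₜ[ℤ] y) = f ⊗ₜ[ℤ] CliffordAlgebra.involute y := rfl

theorem inv_ex (i : Fin d) : CliffordAlgebra.involute (ex i) = -ex i := CliffordAlgebra.involute_ι _

theorem ex_mul (i : Fin d) (y : ExteriorAlgebra ℤ (Fin d → ℤ)) : ex i * y = CliffordAlgebra.involute y * ex i := by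
  induction y using ExteriorAlgebra.induction with
  | algebraMap r =>
    rw [AlgHom.commutes]
    exact (Algebra.commutes r (ex i)).symm
  | ι x =>
    have h1 : CliffordAlgebra.involute (ExteriorAlgebra.ι ℤ x) = -ExteriorAlgebra.ι ℤ x := CliffordAlgebra.involute_ι _
    rw [h1, neg_mul]
    exact eq_neg_of_add_eq_zero_left (ExteriorAlgebra.ι_add_mul_swap _ _)
  | mul a b ha hb => rw [← mul_assoc, ha, mul_assoc, hb, map_mul, mul_assoc]
  | add a b ha hb => rw [mul_add, ha, hb, map_add, add_mul]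

/-- the one-forms -/
def om1 (F : Type) [CommRing F] (d : ℕ) : AddSubgroup (Om F d) :=
  AddSubgroup.closure (Set.range fun p : F × Fin d => p.1 ⊗ₜ[ℤ] ex p.2)

theorem om1_com {b : Om F d} (hb : b ∈ om1 F d) (x : Om F d) : b * x = omE F d x * b := by
  induction hb using AddSubgroup.closure_induction with
  | mem b hb =>
    obtain ⟨⟨f, i⟩, rfl⟩ := hb
    induction x using TensorProduct.induction_on with
    | zero => simp
    | add x y hx hy => rw [mul_add, hx, hy, map_add, add_mul]
    | tmul g y =>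
      rw [omE_tmul, Algebra.TensorProduct.tmul_mul_tmul, Algebra.TensorProduct.tmul_mul_tmul, ex_mul, mul_comm]
  | zero => simp
  | add a b _ _ ha hb => rw [add_mul, ha, hb, mul_add]
  | neg a _ ha => exact (neg_mul a x).trans ((congrArg Neg.neg ha).trans (mul_neg _ a).symm)

theorem om1_neg {b : Om F d} (hb : b ∈ om1 F d) : omE F d b = -b := by
  induction hb using AddSubgroup.closure_induction with
  | mem b hb =>
    obtain ⟨⟨f, i⟩, rfl⟩ := hb
    rw [omE_tmul, inv_ex, TensorProduct.tmul_neg]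
  | zero => simp
  | add a b _ _ ha hb => rw [map_add, ha, hb, neg_add]
  | neg a _ ha => rw [map_neg, ha]

theorem om_two (h2 : IsUnit (2 : F)) (x : Om F d) (hx : x + x = 0) : x = 0 := by
  obtain ⟨u, hu⟩ := h2
  have h1 : (((u⁻¹ : Fˣ) : F) ⊗ₜ[ℤ] (1 : ExteriorAlgebra ℤ (Fin d → ℤ))) * ((2 : F) ⊗ₜ[ℤ] 1) = 1 := by
    rw [Algebra.TensorProduct.tmul_mul_tmul, ← hu, Units.inv_mul, mul_one]
    rfl
  have h3 : ((2 : F) ⊗ₜ[ℤ] (1 : ExteriorAlgebra ℤ (Fin d → ℤ))) * x = x + x := by
    have h4 : ((2 : F) ⊗ₜ[ℤ] (1 : ExteriorAlgebra ℤ (Fin d → ℤ))) = 1 + 1 := by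
      rw [show (2 : F) = 1 + 1 by norm_num, TensorProduct.add_tmul]
      rfl
    rw [h4, add_mul, one_mul]
  calc x = 1 * x := (one_mul x).symm
    _ = 0 := by rw [← h1, mul_assoc, h3, hx, mul_zero]

/-- the supercommutative differential ring of differential forms -/
def omS (D : Fin d → F →+ F) (hD : ∀ i, IsDer (D i)) (h2 : IsUnit (2 : F)) : Sup (Om F d) where
  ε := omE F d
  d := dO D
  one := om1 F d
  leib x y := by
    rw [dO_apply, dO_apply, dO_apply, Finset.sum_mul, Finset.mul_sum, ← Finset.sum_add_distrib]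
    refine Finset.sum_congr rfl fun i _ => ?_
    have h1 : ((1 : F) ⊗ₜ[ℤ] ex i) ∈ om1 F d := AddSubgroup.subset_closure ⟨(1, i), rfl⟩
    rw [omA_der (hD i), mul_add, ← mul_assoc, ← mul_assoc, om1_com h1 x, mul_assoc (omE F d x)]
  com _ hb x := om1_com hb x
  neg _ hb := om1_neg hb
  two := om_two h2

/-- the one-form with the components `f` -/
def o1 (f : Fin d → F) : Om F d := ∑ i, f i ⊗ₜ[ℤ] ex i

theorem o1_mem (f : Fin d → F) : o1 f ∈ om1 F d :=
  AddSubgroup.sum_mem _ fun i _ => AddSubgroup.subset_closure ⟨(f i, i), rfl⟩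

theorem omA_o1 (φ : F →+ F') (f : Fin d → F) : omA d φ (o1 f) = o1 fun i => φ (f i) := by
  rw [o1, map_sum]
  rfl

theorem frm_apply {n : Type} (A : Fin d → Matrix n n F) (a b : n) : frm A a b = o1 fun i => A i a b := rfl

theorem frm_mem {n : Type} (A : Fin d → Matrix n n F) (a b : n) : frm A a b ∈ om1 F d := o1_mem _

theorem dO_o1 (D : Fin d → F →+ F) (f : Fin d → F) :
    dO D (o1 f) = ∑ j, ∑ i, D j (f i) ⊗ₜ[ℤ] (ex j * ex i) := by
  rw [dO_apply]
  refine Finset.sum_congr rfl fun j _ => ?_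
  rw [omA_o1, o1, Finset.mul_sum]
  refine Finset.sum_congr rfl fun i _ => ?_
  rw [Algebra.TensorProduct.tmul_mul_tmul, one_mul]

theorem o1_mul (f g : Fin d → F) : o1 f * o1 g = ∑ j, ∑ i, (f j * g i) ⊗ₜ[ℤ] (ex j * ex i) := by
  rw [o1, o1, Finset.sum_mul]
  refine Finset.sum_congr rfl fun j _ => ?_
  rw [Finset.mul_sum]
  refine Finset.sum_congr rfl fun i _ => ?_
  rw [Algebra.TensorProduct.tmul_mul_tmul]

/-- a sum with symmetric coefficients is zero -/
theorem sum_sym (h2 : IsUnit (2 : F)) (X : Fin d → Fin d → F) (hX : ∀ i j, X i j = X j i) :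
    ∑ j, ∑ i, X j i ⊗ₜ[ℤ] (ex j * ex i) = 0 := by
  apply om_two h2
  have h1 : ∑ j, ∑ i, X j i ⊗ₜ[ℤ] (ex j * ex i) = -∑ j, ∑ i, X j i ⊗ₜ[ℤ] (ex j * ex i) := by
    conv_lhs => rw [Finset.sum_comm]
    rw [← Finset.sum_neg_distrib]
    refine Finset.sum_congr rfl fun i _ => ?_
    rw [← Finset.sum_neg_distrib]
    refine Finset.sum_congr rfl fun j _ => ?_
    rw [hX j i, ← TensorProduct.tmul_neg]
    congr 1
    rw [ex_mul, inv_ex, neg_mul]
  exact add_eq_zero_iff_eq_neg.2 h1

theorem dO_o1_zero {D : Fin d → F →+ F} (h2 : IsUnit (2 : F)) {f : Fin d → F} (hf : ∀ i j, D i (f j) = D j (f i)) :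
    dO D (o1 f) = 0 := by
  rw [dO_o1]
  exact sum_sym h2 (fun j i => D j (f i)) fun i j => hf i j

/-- flatness in terms of forms -/
theorem frm_flat {n : Type} [Fintype n] {D : Fin d → F →+ F} (h2 : IsUnit (2 : F)) {A : Fin d → Matrix n n F}
    (hA : Flat (fun i => D i) A) : (frm A).map (dO D) = -(frm A * frm A) := by
  rw [eq_neg_iff_add_eq_zero]
  ext a b
  rw [Matrix.add_apply, Matrix.map_apply, Matrix.mul_apply, frm_apply, dO_o1, Matrix.zero_apply]
  have h3 : ∑ c, frm A a c * frm A c b = ∑ j, ∑ i, (∑ c, A j a c * A i c b) ⊗ₜ[ℤ] (ex j * ex i) := by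
    simp only [frm_apply, o1_mul, TensorProduct.sum_tmul]
    rw [Finset.sum_comm]
    refine Finset.sum_congr rfl fun j _ => ?_
    rw [Finset.sum_comm]
  rw [h3, ← Finset.sum_add_distrib]
  have h1 := sum_sym h2 (fun j i => D j (A i a b) + ∑ c, A j a c * A i c b) fun i j => by
    have h := congrFun (congrFun (hA i j) a) b
    simp only [Matrix.add_apply, Matrix.sub_apply, Matrix.map_apply, Matrix.mul_apply, Matrix.zero_apply] at h
    linear_combination h
  rw [← h1]
  refine Finset.sum_congr rfl fun j _ => ?_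
  rw [← Finset.sum_add_distrib]
  refine Finset.sum_congr rfl fun i _ => ?_
  rw [TensorProduct.add_tmul]

theorem central (f : F) (x : Om F d) : (f ⊗ₜ[ℤ] (1 : ExteriorAlgebra ℤ (Fin d → ℤ))) * x = x * (f ⊗ₜ[ℤ] 1) := by
  induction x using TensorProduct.induction_on with
  | zero => simp
  | add x y hx hy => rw [mul_add, hx, hy, add_mul]
  | tmul g y => rw [Algebra.TensorProduct.tmul_mul_tmul, Algebra.TensorProduct.tmul_mul_tmul, one_mul, mul_one, mul_comm]

end OmB

end Pool.Agent.M7
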