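import Pool.Agent.Lib.MP_7baa7a_ag.Defs

/-!
# Differential forms with coefficients in a partial differential ring
-/

set_option autoImplicit false

noncomputable section

namespace Pool.Agent.M7

open Matrix TensorProduct

/-- the algebra of differential forms in `dx_i`, `i ∈ Fin d`, with coefficients in `F` -/
abbrev Om (F : Type) [CommRing F] (d : ℕ) : Type := F ⊗[ℤ] ExteriorAlgebra ℤ (Fin d → ℤ)

/-- the form `dx_i` as an element of the exterior algebra of `ℤ ^ d` -/
def ex {d : ℕ} (i : Fin d) : ExteriorAlgebra ℤ (Fin d → ℤ) := ExteriorAlgebra.ι ℤ (Pi.single i 1)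

/-- an additive map applied to the coefficients of forms -/
def omA {F F' : Type} [CommRing F] [CommRing F'] (d : ℕ) (φ : F →+ F') : Om F d →+ Om F' d :=
  (LinearMap.rTensor (ExteriorAlgebra ℤ (Fin d → ℤ)) φ.toIntLinearMap).toAddMonoidHom

/-- the exterior derivative `∑ dx_i ∧ D i` -/
def dO {F : Type} [CommRing F] {d : ℕ} (D : Fin d → F →+ F) : Om F d →+ Om F d :=
  ∑ i, (AddMonoidHom.mulLeft ((1 : F) ⊗ₜ[ℤ] ex i)).comp (omA d (D i))

/-- the matrix of one-forms `∑ A i dx_i` -/
def frm {F n : Type} [CommRing F] {d : ℕ} (A : Fin d → Matrix n n F) : Matrix n n (Om F d) :=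
  Matrix.of fun a b => ∑ i, A i a b ⊗ₜ[ℤ] ex i

/-- the form `Tr (A ^ m)` of degree `m` -/
def TrP {F n : Type} [CommRing F] [Fintype n] [DecidableEq n] {d : ℕ} (m : ℕ) (A : Fin d → Matrix n n F) : Om F d :=
  ((frm A) ^ m).trace

/-- the form `w` is exact -/
def ExO {F : Type} [CommRing F] {d : ℕ} (D : Fin d → F →+ F) (w : Om F d) : Prop := ∃ η, w = dO D η

end Pool.Agent.M7
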