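import Pool.Agent.Lib.MP_7baa7a_ag.GauW
import Pool.Agent.Lib.MP_7baa7a_ag.Coef
import Pool.Agent.Lib.MP_7baa7a_ag.Lat

/-!
# Properties of the forms `Tr A^m`
-/

set_option autoImplicit false

noncomputable section

open Matrix TensorProduct

namespace Pool.Agent.M7

namespace PropW

open OmB GauW

section Ring

variable {F F' m n : Type} {d : ℕ} [CommRing F] [CommRing F'] [Fintype m] [DecidableEq m] [Fintype n] [DecidableEq n]

theorem TrP_submatrix (k : ℕ) (e : m ≃ n) (A : Fin d → Matrix n n F) :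
    TrP k (fun i => (A i).submatrix e e) = TrP k A := by
  have h1 : frm (fun i => (A i).submatrix e e) = (frm A).submatrix e e := rfl
  have h2 : ∀ k : ℕ, ((frm A).submatrix e e) ^ k = ((frm A) ^ k).submatrix e e := by
    intro k
    induction k with
    | zero => rw [pow_zero, pow_zero, Matrix.submatrix_one_equiv]
    | succ k ih => rw [pow_succ, ih, Matrix.submatrix_mul_equiv, pow_succ]
  rw [TrP, h1, h2]
  exact Equiv.sum_comp e fun a => ((frm A) ^ k) a a

theorem TrP_map (k : ℕ) (φ : F →+* F') (A : Fin d → Matrix n n F) :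
    TrP k (fun i => (A i).map φ) = omR φ (TrP k A) := by
  have h1 : frm (fun i => (A i).map φ) = (frm A).map (omR φ) := by
    ext a b
    exact (omA_o1 (φ : F →+ F') fun i => A i a b).symm
  have h2 : ((frm A).map (omR φ)) ^ k = ((frm A) ^ k).map (omR φ) := by
    induction k with
    | zero => rw [pow_zero, pow_zero, Matrix.map_one _ (map_zero _) (map_one _)]
    | succ k ih => rw [pow_succ, ih, pow_succ, Matrix.map_mul]
  rw [TrP, h1, h2, TrP]
  simp only [Matrix.trace, Matrix.diag_apply, Matrix.map_apply, map_sum]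

omit [DecidableEq m] [DecidableEq n] in
theorem tr_blocks (X : Matrix m m (Om F d)) (Y : Matrix m n (Om F d)) (Z : Matrix n m (Om F d)) (W : Matrix n n (Om F d)) :
    (fromBlocks X Y Z W).trace = X.trace + W.trace := by
  simp only [Matrix.trace, Matrix.diag_apply, Fintype.sum_sum_type, Matrix.fromBlocks_apply₁₁, Matrix.fromBlocks_apply₂₂]

theorem TrP_block (k : ℕ) (B : Fin d → Matrix m m F) (C : Fin d → Matrix n n F) :
    TrP k (fun i => fromBlocks (B i) 0 0 (C i)) = TrP k B + TrP k C := by
  have h1 : frm (fun i => fromBlocks (B i) 0 0 (C i)) = fromBlocks (frm B) 0 0 (frm C) := by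
    ext a b
    rcases a with a | a <;> rcases b with b | b
    · rfl
    · exact o1_zero
    · exact o1_zero
    · rfl
  have h2 : (fromBlocks (frm B) 0 0 (frm C)) ^ k = fromBlocks ((frm B) ^ k) 0 0 ((frm C) ^ k) := by
    induction k with
    | zero => rw [pow_zero, pow_zero, pow_zero, Matrix.fromBlocks_one]
    | succ k ih =>
      rw [pow_succ, ih, Matrix.fromBlocks_multiply]
      simp only [Matrix.zero_mul, Matrix.mul_zero, add_zero, zero_add, ← pow_succ]
  rw [TrP, h1, h2, tr_blocks]
  rfl

theorem TrP_tri (k : ℕ) (A : Fin d → Matrix (m ⊕ n) (m ⊕ n) F) (hA : ∀ i, (A i).toBlocks₂₁ = 0) :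
    TrP k A = TrP k (fun i => (A i).toBlocks₁₁) + TrP k fun i => (A i).toBlocks₂₂ := by
  set P := frm fun i => (A i).toBlocks₁₁
  set Q := frm fun i => (A i).toBlocks₂₂
  have h1 : frm A = fromBlocks P (frm A).toBlocks₁₂ 0 Q := by
    ext a b
    rcases a with a | a <;> rcases b with b | b
    · rfl
    · rfl
    · have h : ∀ i, A i (Sum.inr a) (Sum.inl b) = 0 := fun i => congrFun (congrFun (hA i) a) b
      rw [frm_apply]
      simp only [h]
      exact o1_zero
    · rfl
  have h2 : ∀ k : ℕ, ∃ R, (frm A) ^ k = fromBlocks (P ^ k) R 0 (Q ^ k) := by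
    intro k
    induction k with
    | zero => exact ⟨0, by rw [pow_zero, pow_zero, pow_zero, Matrix.fromBlocks_one]⟩
    | succ k ih =>
      obtain ⟨R, hR⟩ := ih
      refine ⟨P ^ k * (frm A).toBlocks₁₂ + R * Q, ?_⟩
      rw [pow_succ, hR]
      conv_lhs => rw [h1]
      rw [Matrix.fromBlocks_multiply]
      simp only [Matrix.zero_mul, Matrix.mul_zero, add_zero, zero_add, ← pow_succ]
  obtain ⟨R, hR⟩ := h2 k
  rw [TrP, hR, tr_blocks]
  rfl

theorem TrP_scalar {D : Fin d → F →+ F} (hD : ∀ i, IsDer (D i)) (h2 : IsUnit (2 : F)) (k : ℕ) (A : Fin d → Matrix n n F)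
    (t : Fin d → F) : TrP (2 * k + 3) (fun i => A i - Matrix.scalar n (t i)) = TrP (2 * k + 3) A := by
  have h1 : frm (fun i => A i - Matrix.scalar n (t i)) = frm A - Matrix.diagonal fun _ => o1 t := by
    ext a b
    rw [frm_apply, Matrix.sub_apply, frm_apply, Matrix.diagonal_apply]
    simp only [Matrix.sub_apply, Matrix.scalar_apply, Matrix.diagonal_apply]
    split_ifs
    · simp only [o1, TensorProduct.sub_tmul, Finset.sum_sub_distrib]
    · simp only [sub_zero]
  rw [TrP, h1]
  exact Sup.tr_scalar (omS D hD h2) (fun a b => frm_mem A a b) (o1_mem t) k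

theorem TrP_sub_zero [Subsingleton n] (h2 : IsUnit (2 : F)) (k : ℕ)
    (A : Fin d → Matrix n n F) : TrP (2 * k + 3) A = 0 := by
  have h1 : frm A * frm A = 0 := by
    ext a b
    rw [Matrix.mul_apply, Matrix.zero_apply]
    refine Finset.sum_eq_zero fun c _ => ?_
    rw [Subsingleton.elim a c, Subsingleton.elim b c, frm_apply, o1_mul]
    exact sum_sym h2 (fun j i => A j c c * A i c c) fun i j => mul_comm _ _
  rw [TrP, show 2 * k + 3 = (2 * k + 1) + 1 + 1 by ring, pow_succ, pow_succ, Matrix.mul_assoc, h1, Matrix.mul_zero,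
    Matrix.trace_zero]

end Ring

end PropW

open OmB

section Ex

variable {F : Type} [CommRing F] {d : ℕ} {D : Fin d → F →+ F}

theorem ExO.add {v w : Om F d} (hv : ExO D v) (hw : ExO D w) : ExO D (v + w) := by
  obtain ⟨η, rfl⟩ := hv
  obtain ⟨θ, rfl⟩ := hw
  exact ⟨η + θ, (map_add _ _ _).symm⟩

theorem ExO.neg {v : Om F d} (hv : ExO D v) : ExO D (-v) := by
  obtain ⟨η, rfl⟩ := hv
  exact ⟨-η, (map_neg _ _).symm⟩

theorem ExO.zero : ExO D (0 : Om F d) := ⟨0, (map_zero _).symm⟩

theorem ExO.congr {v w : Om F d} (hv : ExO D v) (h : w = v) : ExO D w := h ▸ hv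

theorem ExO.map {F' : Type} [CommRing F'] {D' : Fin d → F' →+ F'} (φ : F →+ F') (h : ∀ i a, φ (D i a) = D' i (φ a))
    {w : Om F d} (hw : ExO D w) : ExO D' (omA d φ w) := by
  obtain ⟨η, rfl⟩ := hw
  exact ⟨omA d φ η, omA_dO φ h η⟩

end Ex

namespace PropW

open OmB GauW

section Laurent

variable {K n : Type} [Field K] {d : ℕ} [Fintype n] [DecidableEq n]

/-- the constant coefficient of a Laurent series, as an additive map -/
def co0 (K : Type) [Field K] : LaurentSeries K →+ K where
  toFun f := f.coeff 0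
  map_zero' := HahnSeries.coeff_zero
  map_add' _ _ := HahnSeries.coeff_add

theorem co0_D (D : K →+ K) (f : LaurentSeries K) : co0 K (lD D f) = D (co0 K f) := lD_coeff D f 0

theorem co0_alg (f : PowerSeries K) : co0 K (algebraMap (PowerSeries K) (LaurentSeries K) f) = PowerSeries.constantCoeff f := by
  show ((algebraMap (PowerSeries K) (LaurentSeries K) f) : LaurentSeries K).coeff 0 = _
  have h := LaurentSeries.coeff_coe_powerSeries f 0
  rw [Nat.cast_zero] at h
  rw [← PowerSeries.coeff_zero_eq_constantCoeff_apply, ← h]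
  rfl

theorem TrP_c0 (k : ℕ) {A : Fin d → Matrix n n (LaurentSeries K)} (hA : ∀ i, NP (A i)) :
    TrP k (fun i => c0 (A i)) = omA d (co0 K) (TrP k A) := by
  have h1 : ∀ i a b, ∃ f : PowerSeries K, algebraMap (PowerSeries K) (LaurentSeries K) f = A i a b := by
    intro i a b
    obtain ⟨f, hf⟩ := GLatAux.exists_alg (hA i a b)
    exact ⟨f, hf⟩
  choose f hf using h1
  set B : Fin d → Matrix n n (PowerSeries K) := fun i => Matrix.of (f i) with hB
  have h2 : A = fun i => (B i).map (algebraMap (PowerSeries K) (LaurentSeries K)) := by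
    funext i
    exact Matrix.ext fun a b => (hf i a b).symm
  have h3 : (fun i => c0 (A i)) = fun i => (B i).map (PowerSeries.constantCoeff (R := K)) := by
    funext i
    ext a b
    show co0 K (A i a b) = PowerSeries.constantCoeff (f i a b)
    rw [← hf, co0_alg]
  rw [h3, TrP_map, h2, TrP_map]
  generalize TrP k B = x
  induction x using TensorProduct.induction_on with
  | zero => simp
  | add x y hx hy => rw [map_add, hx, hy, map_add, map_add]
  | tmul g y =>
    show (PowerSeries.constantCoeff g) ⊗ₜ[ℤ] y = (co0 K (algebraMap (PowerSeries K) (LaurentSeries K) g)) ⊗ₜ[ℤ] y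
    rw [co0_alg]

end Laurent

end PropW

end Pool.Agent.M7
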