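import Pool.Agent.Lib.MP_7baa7a_ag.Base

/-!
# Families of flat connections: statements

Every `S_X : Prop` is to be proved as `theorem tX : S_X` (the listed hypotheses may be used as hypotheses of `tX`). Complete proofs are in the
docstrings. `lD`, `NoPole`, `ram` and their lemmas: `Defs.lean`, `Base.lean`. Notation in the docstrings: `F = K((s))`, `D` acts on the
coefficients, `f` is integral if `NoPole f`, `M(0)` is the matrix of the coefficients of `s^0`, `X^m = HahnSeries.single m 1`.
-/

set_option autoImplicit false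

noncomputable section

namespace Pool.Agent.M7

open Matrix

/-- gauge transformation in one direction; `gau D g A i = gau1 (D i) g (A i)` by `rfl` -/
def gau1 {F n : Type} [CommRing F] [Fintype n] [DecidableEq n] (D : F → F) (g : GL n F) (A : Matrix n n F) :
    Matrix n n F := (↑g⁻¹ : Matrix n n F) * A * (g : Matrix n n F) + (↑g⁻¹ : Matrix n n F) * (g : Matrix n n F).map D

/-- all entries are integral -/
def NP {K m n : Type} [Field K] (M : Matrix m n (LaurentSeries K)) : Prop := ∀ a b, NoPole (M a b)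

/-- the matrix of the coefficients of `s^0` -/
def c0 {K m n : Type} [Field K] (M : Matrix m n (LaurentSeries K)) : Matrix m n K := M.map fun f => f.coeff 0

/-- the element `s^m` -/
def sX (K : Type) [Field K] (m : ℤ) : LaurentSeries K := HahnSeries.single m 1

/-- `P` has the only eigenvalue `z` and `z` is not an eigenvalue of `S` -/
def Sep {K p q : Type} [Field K] [Fintype p] [Fintype q] [DecidableEq p] [DecidableEq q] (P : Matrix p p K)
    (S : Matrix q q K) : Prop := ∃ z : K, IsNilpotent (P - Matrix.scalar p z) ∧ IsUnit (S - Matrix.scalar q z)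

/-- **Composition of gauge transformations.**  `((g h)⁻¹ = h⁻¹ g⁻¹`, `D (g h) = (D g) h + g (D h)` for the entrywise derivation (sum over the
middle index, `IsDer`). -/
def S_GMul : Prop := ∀ (F n : Type) [CommRing F] [Fintype n] [DecidableEq n] (D : F →+ F), IsDer D →
  ∀ (g h : GL n F) (A : Matrix n n F), gau1 D (g * h) A = gau1 D h (gau1 D g A)

/-- **Gauge invariance.**  (1) `Flat`: with `B i = (D i g) g⁻¹`: `D i (g⁻¹) = -g⁻¹ (D i g) g⁻¹`, `gau A i = g⁻¹ (A i + B i) g` and
`D i (B j) - D j (B i) = B i B j - B j B i` (`Com`), so the left side of `Flat` for `gau` is `g⁻¹ (left side for A) g`. (2) Let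
`η i j = Tr (A i B j - A j B i)`. Expanding (and `Flat` for `A`, cyclicity of the trace)
`CS (gau A) i j l = CS (A + B) i j l = CS A i j l + CS B i j l - (D i (η j l) + D j (η l i) + D l (η i j))`. (Here
`D i (η j l) + ... = ∑_cyc Tr ((D i A j - D j A i) B l) - ∑_cyc Tr (A i (D j B l - D l B j))`, `D i A j - D j A i = -[A i, A j]`,
`D j B l - D l B j = [B j, B l]`; and `CS (A + B) - CS A - CS B = ∑_cyc Tr (B l [A i, A j]) + ∑_cyc Tr (A i [B j, B l])`.) (3) `CS B = 0` if `g` is
diagonal (all `B i` are diagonal, so they commute) or a transvection `1 + c E_ab`, `a ≠ b` (`B i = (D i c) E_ab`). (4) Every element of `GL n F`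
is a product of transvections and an invertible diagonal matrix (`Matrix.Pivot.exists_list_transvec_mul_diagonal_mul_list_transvec`, or
`Matrix.diagonal_transvection_induction_of_det_ne_zero`); by `S_GMul` the statement (for all `A`) for `g` and `h` implies the one for `g h`
(`Exact` is additive).
Hypotheses you may use: `S_GMul`. -/
def S_Gau : Prop := ∀ (F ι n : Type) [Field F] [Fintype n] [DecidableEq n] (D : ι → F →+ F), (∀ i, IsDer (D i)) →
  Com (fun i => D i) → ∀ (A : ι → Matrix n n F) (g : GL n F), Flat (fun i => D i) A →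
    Flat (fun i => D i) (gau (fun i => D i) g A) ∧
    Exact (fun i => D i) fun i j l => CS (gau (fun i => D i) g A) i j l - CS A i j l

/-- **The trace of `g⁻¹ D g` is integral.**  For a diagonal matrix: `∑ D(d_a) / d_a`; `D(f)/f` is integral for `f ≠ 0`: if `f.coeff j = 0` for `j < m` then the same holds
for `D f` (`m` the order of `f`; `coeff_mul_lt`, `f⁻¹` has order `-m`). For a transvection: `Tr ((D c) E_ab) = 0`. Products: `Tr ((g h)⁻¹ D (g h)) = Tr (g⁻¹ D g) + Tr (h⁻¹ D h)`
(cyclicity). Decomposition as in `S_Gau`. -/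
def S_Trc : Prop := ∀ (K n : Type) [Field K] [Fintype n] [DecidableEq n] (D : K →+ K), IsDer D →
  ∀ g : GL n (LaurentSeries K), NoPole ((↑g⁻¹ : Matrix n n (LaurentSeries K)) * (g : Matrix n n (LaurentSeries K)).map (lD D)).trace

/-- **Cyclic vector** (Katz). Let `∇ v = D v + A v` on `V = Fin N → F` (entrywise `D`), `e_j` the standard basis,
`w j = ∑_{k ≤ j} (-1)^k (j choose k) ∇^k (e_{j-k})` for `j < N`, and for `y ∈ F` with `D y = 1`: `v_y = ∑_{j < N} (y^j / j!) w j`. Let `u_j`, `j ∈ ℕ`, be a sequence in `V`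
with `u_j = 0` for large `j`, and `u(y) = ∑_j (y^j / j!) u_j`; then `∇ u(y) = ∑_j (y^j / j!) (u_{j+1} + ∇ u_j)`. So `∇^i v_y = ∑_j (y^j/j!) u^(i)_j` with
`u^(i)_j ∈ V` independent of `y` and `u^(i)_0 = ∑_m (i choose m) ∇^{i-m} w_m = e_i` for `i < N` (`∑_k (-1)^k (i-l choose k) = 0` for `l < i`). The determinant of the matrix with the
columns `∇^i v_y`, `i < N`, is therefore `P(y)` for a polynomial `P ∈ F[Y]` which does not depend on `y` and has `P(0) = det (e_i) = 1`. Take `y = x - c`, `c ∈ ℕ`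
(`D c = 0`) with `P(x - c) ≠ 0` (`P` has finitely many roots, `CharZero`). Let `g` have the columns `∇^j v_y`; `∇ g_j = g_{j+1}` means that the column `j` of
`g⁻¹ A g + g⁻¹ D g` is `e_{j+1}`. -/
def S_Cyc : Prop := ∀ (F : Type) [Field F] [CharZero F] (D : F →+ F), IsDer D → (∃ x, D x = 1) →
  ∀ (N : ℕ) (A : Matrix (Fin N) (Fin N) F), ∃ g : GL (Fin N) F, ∀ j : Fin N, j.val + 1 < N → ∀ a : Fin N,
    gau1 D g A a j = if a.val = j.val + 1 then 1 else 0

/-- **Newton polygon.**  By `S_Cyc` (for `lD D`, `x` a constant series) there is `g` such that `E = gau1 (lD D) g A` has the columns `e_{j+1}`, `j + 1 < N`, and a last column `(a_0, ..., a_{N-1})`. If all `a_j` are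
integral then `E` is integral, against the hypothesis. So the set of the `j` for which `a_j` has a pole is not empty (`N ≥ 1`). Let `e = N !` and
`p = max_j (-ord(a_j) * (e / (N - j)))` over the `j` with `a_j ≠ 0`; `p > 0`. Put `f_j = ram (a_j)`: `ord f_j = e ord a_j ≥ -p (N - j)` with equality for some `j`. Gauge transformation of `E.map ram`
by `h = diag (s^(p j))` (`lD D h = 0`): the entry `(a, b)` is multiplied by `s^(p (b - a))`: `s^(-p)` at `(j+1, j)`, `f_j s^(p (N-1-j)) = s^(-p) c_j` in the last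
column, `c_j = f_j s^(p (N-j))` integral and `c_j(0) ≠ 0` for some `j`. So the result is `s^(-p) C` with `C` integral, `C(0)` the companion matrix with the last column
`c_j(0)`; `C(0)^N e_0 = C(0) e_{N-1} = ∑ c_j(0) e_j ≠ 0` (`C(0)^j e_0 = e_j`), so `C(0)` is not nilpotent (a nilpotent `N × N` matrix has `M^N = 0`). TRACE: by cyclicity
`Tr (gau1 D g M) = Tr M + Tr (g⁻¹ D g)`, so by `S_Trc` `s^(-p) Tr C` is integral (the trace of `A.map ram` is integral), hence `Tr C(0) = 0` (`p > 0`). Use `S_GMul` and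
`gau1 (lD D) (g.map ram) (A.map ram) = (gau1 (lD D) g A).map ram` (`ram_lD`).
Hypotheses you may use: `S_Cyc`, `S_Trc`, `S_GMul`. -/
def S_Pol : Prop := ∀ (K : Type) [Field K] [CharZero K] (D : K →+ K), IsDer D → (∃ x, D x = 1) →
  ∀ (N : ℕ) (A : Matrix (Fin N) (Fin N) (LaurentSeries K)), NoPole A.trace →
    (¬ ∃ g : GL (Fin N) (LaurentSeries K), NP (gau1 (lD D) g A)) →
    ∃ (e : ℕ) (he : 0 < e) (p : ℕ) (g : GL (Fin N) (LaurentSeries K)) (C : Matrix (Fin N) (Fin N) (LaurentSeries K)),
      0 < p ∧ NP C ∧ gau1 (lD D) g (A.map (ram e he)) = sX K (-p) • C ∧ (c0 C).trace = 0 ∧ ¬ IsNilpotent (c0 C)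

/-- **Linear algebra.**  There is an eigenvalue `z` of `M` for which `M - z` is not nilpotent: `M` has an eigenvalue `z` (`n` is not empty because `M` is not nilpotent); if
`M - z` is nilpotent then its trace is `0`, so `card n * z = Tr M = 0`, `z = 0` and `M` is nilpotent. Fitting's lemma (`LinearMap.eventually_isCompl_ker_pow_range_pow` or `Module.End`...) for `f = M - z`, `N = card n`:
`V = ker f^N ⊕ range f^N`, both `f`-stable, `f` is nilpotent on the first and bijective on the second, both are not `0`. Choose bases of both; `g` has these as columns. -/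
def S_Fit : Prop := ∀ (K n : Type) [Field K] [IsAlgClosed K] [CharZero K] [Fintype n] [DecidableEq n] (M : Matrix n n K),
  M.trace = 0 → ¬ IsNilpotent M → ∃ (a b : ℕ) (ε : n ≃ Fin a ⊕ Fin b) (g : GL n K) (P : Matrix (Fin a) (Fin a) K)
    (S : Matrix (Fin b) (Fin b) K), 0 < a ∧ 0 < b ∧ Sep P S ∧
      ((↑g⁻¹ : Matrix n n K) * M * (g : Matrix n n K)).submatrix ε.symm ε.symm = fromBlocks P 0 0 S

/-- **Riccati equation.**  `P0 = c0 P`, `S0 = c0 S`. The linear map `T : y ↦ S0 y - y P0` of `Matrix q p K` is injective: `(S0 - z) y = y (P0 - z)`, so `(S0 - z)^N y = y (P0 - z)^N = 0`; hence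
bijective. Write `Y = ∑_{m ≥ 1} Y_m s^m`. The coefficient of `s^m` of the equation is `T Y_m = G_m` where `G_m` depends only on `Y_1, ..., Y_{m-1}`: it is the coefficient of `s^m` of
`-R - (S - S0) Y - s^m0 D(Y) + Y (P - P0) + Y Q Y` (`S - S0`, `P - P0`, `Q` have no constant term, `m0 > 0`, `Y` has no constant term). Fixed point lemma: if `Φ : (ℕ → W) → (ℕ → W)` and `Φ y m` depends only on
the `y j`, `j < m`, then there is `y` with `Φ y = y` (`y m := Φ (fun j => if j < m then y j else 0) m` by strong recursion); `W = Matrix q p K`; the entries of `Y` are the Laurent series of the power series with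
the coefficients `y m a b`. (`coeff_mul` for power series: sums over the antidiagonal.) -/
def S_Ric : Prop := ∀ (K p q : Type) [Field K] [Fintype p] [Fintype q] [DecidableEq p] [DecidableEq q] (D : K →+ K) (m0 : ℕ)
  (P : Matrix p p (LaurentSeries K)) (Q : Matrix p q (LaurentSeries K)) (R : Matrix q p (LaurentSeries K))
  (S : Matrix q q (LaurentSeries K)), 0 < m0 → NP P → NP Q → NP R → NP S → c0 Q = 0 → c0 R = 0 → Sep (c0 P) (c0 S) →
    ∃ Y : Matrix q p (LaurentSeries K), NP Y ∧ c0 Y = 0 ∧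
      R + S * Y + sX K m0 • Y.map (lD D) = Y * P + Y * Q * Y

/-- **Splitting in one direction.**  By `S_Fit` for `M = c0 C` a constant `g0 ∈ GL n K` (entries as constant series, `lD D g0` need not be `0`: it is a matrix of constants, so
`gau1 (lD D) g0 (s^(-m) C) = s^(-m) (g0⁻¹ C g0 + s^m g0⁻¹ D g0) = s^(-m) C1`, `C1` integral, `c0 C1 = g0⁻¹ M g0`) brings `c0 C` to block form; write the reindexed `C1` in blocks `P, Q, R, S` and take `Y` from
`S_Ric`. `G = fromBlocks 1 0 Y 1`, `G⁻¹ = fromBlocks 1 0 (-Y) 1`: `s^m gau1 G (s^(-m) C1) = fromBlocks (P + Q Y) Q 0 (S - Y Q)`; values at `0`: `c0 P`, `c0 S`. (Transport `G` to `GL n` with `ε`.) The characteristic polynomial of `c0 C` is that of the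
similar matrix `fromBlocks (c0 P) 0 0 (c0 S)` (`Matrix.charpoly_fromBlocks_zero₁₂`, `Matrix.charpoly_reindex`).
Hypotheses you may use: `S_Fit`, `S_Ric`, `S_GMul`. -/
def S_One : Prop := ∀ (K n : Type) [Field K] [IsAlgClosed K] [CharZero K] [Fintype n] [DecidableEq n] (D : K →+ K), IsDer D →
  ∀ (m : ℕ) (C : Matrix n n (LaurentSeries K)), 0 < m → NP C → (c0 C).trace = 0 → ¬ IsNilpotent (c0 C) →
    ∃ (a b : ℕ) (ε : n ≃ Fin a ⊕ Fin b) (g : GL n (LaurentSeries K)) (P : Matrix (Fin a) (Fin a) (LaurentSeries K))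
      (Q : Matrix (Fin a) (Fin b) (LaurentSeries K)) (S : Matrix (Fin b) (Fin b) (LaurentSeries K)),
      0 < a ∧ 0 < b ∧ NP P ∧ NP Q ∧ NP S ∧ Sep (c0 P) (c0 S) ∧ (c0 C).charpoly = (c0 P).charpoly * (c0 S).charpoly ∧
      (gau1 (lD D) g (sX K (-m) • C)).submatrix ε.symm ε.symm = sX K (-m) • fromBlocks P Q 0 S

/-- **The other directions.**  Let `b = (A j).toBlocks₂₁`. The lower left block of `Flat` for `(i, j)`, multiplied by `s^m`, is
`s^m D i (b) + S b - b P = 0`. Claim: all coefficients of `b` are `0`. There is `N` with `b.coeff t = 0` for `t < N`; if `b.coeff t' = 0` for all `t' < t` then the coefficient of `s^t` of the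
equation is `S0 b_t - b_t P0 = 0` (`coeff_mul_low`, `m > 0`), so `b_t = 0` (`Sep`, as in `S_Ric`). Induction. -/
def S_Oth : Prop := ∀ (K ι p q : Type) [Field K] [Fintype p] [Fintype q] [DecidableEq p] [DecidableEq q] (D : ι → K →+ K),
  ∀ (A : ι → Matrix (p ⊕ q) (p ⊕ q) (LaurentSeries K)), Flat (fun i => lD (D i)) A →
  ∀ (i : ι) (m : ℕ) (P : Matrix p p (LaurentSeries K)) (Q : Matrix p q (LaurentSeries K)) (S : Matrix q q (LaurentSeries K)),
    0 < m → NP P → NP Q → NP S → Sep (c0 P) (c0 S) → A i = sX K (-m) • fromBlocks P Q 0 S →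
      ∀ j, (A j).toBlocks₂₁ = 0

/-- **Block triangular connections.**  `A i = fromBlocks (A11 i) (A12 i) 0 (A22 i)`; multiply out (`Matrix.fromBlocks_multiply`, `Matrix.trace_fromBlocks`). -/
def S_Tri : Prop := ∀ (F ι p q : Type) [CommRing F] [Fintype p] [Fintype q] [DecidableEq p] [DecidableEq q] (D : ι → F →+ F)
  (A : ι → Matrix (p ⊕ q) (p ⊕ q) F), (∀ j, (A j).toBlocks₂₁ = 0) → Flat (fun i => D i) A →
    Flat (fun i => D i) (fun i => (A i).toBlocks₁₁) ∧ Flat (fun i => D i) (fun i => (A i).toBlocks₂₂) ∧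
    ∀ i j l, CS A i j l = CS (fun i => (A i).toBlocks₁₁) i j l + CS (fun i => (A i).toBlocks₂₂) i j l

/-- **A common lattice.**  `O = PowerSeries K`, `V = n → LaurentSeries K` (an `O`-module), `∇ i v = D i v + A i v` (entrywise); `∇ i (f v) = D i (f) v + f ∇ i v`, and
`∇ i ∇ j = ∇ j ∇ i` (`Flat`, `Com`). `M0(c)`: the `v` with `s^c v` integral, an `O`-submodule, `c ∈ ℕ`. (1) For every `i` there is `c_i` such that `∇ i^m M0(c) ⊆ M0(c + c_i)` for all `m`, `c`: `M_i = g_i M0(0)` is `∇ i`-stable, `M0(0) ⊆ s^(-b) M_i`,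
`M_i ⊆ M0(a)`, `∇ i` commutes with `s`. (2) For every finite set `T` of indices there is an `O`-submodule `M` with `M0(0) ≤ M ≤ M0(c)` for some `c` which is `∇ i`-stable for `i ∈ T`: induction; `T ∪ {j}`: the `O`-span of all `∇ j^m v`,
`v ∈ M`, `m ∈ ℕ`. (3) Take `T = univ`. `s^c M` corresponds to a submodule of `n → O`, so it has a basis over the principal ideal domain `O` (`Submodule.nonempty_basis_of_pid`, `PowerSeries K` is a PID); the vectors are linearly independent over
`LaurentSeries K` (`LinearIndependent.iff_fractionRing`) and span (`M0(0) ≤ M`), so there are `card n` of them; let `g` have them as columns: `∇ i g_l ∈ M`, so `g⁻¹ A i g + g⁻¹ D i g` is integral for all `i`. -/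
def S_Lat : Prop := ∀ (K n : Type) (d : ℕ) [Field K] [Fintype n] [DecidableEq n] (D : Fin d → K →+ K), (∀ i, IsDer (D i)) →
  Com (fun i => D i) → ∀ A : Fin d → Matrix n n (LaurentSeries K), Flat (fun i => lD (D i)) A →
    (∀ i, ∃ g : GL n (LaurentSeries K), NP (gau1 (lD (D i)) g (A i))) → Bdd D A

/-- **Constancy of the class in families.**  `D i ⊗ 1` and `1 ⊗ δ` are commuting derivations of `K ⊗ R` (`dR`, `δR`). Put `A' i = (A i).map δR`, `ξ i j = Tr (A i A' j - A j A' i)`. Then
`δR (CS A i j l) = D i (ξ j l) + D j (ξ l i) + D l (ξ i j)` with `D i = dR (D i)`: `δR (CS A i j l) = ∑_cyc Tr (A' i [A j, A l])` and, as `D i A j - D j A i = -[A i, A j]` and `D i A' j - D j A' i = -δR [A i, A j]`, the right side is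
`∑_cyc Tr ((D i A j - D j A i) A' l) - ∑_cyc Tr (A i (D j A' l - D l A' j)) = -∑_cyc Tr ([A i, A j] A' l) + ∑_cyc Tr (A i δR [A j, A l]) = (-1 + 2) ∑_cyc Tr (A' i [A j, A l])`.
The linear map `ψ` vanishes on `ker δ = k`; so there is a linear `φ : R → k` with `ψ = φ ∘ δ` (extend from the image of `δ`: `LinearMap.exists_extend`, `LinearMap.ker_le_ker...`). Apply `id ⊗ φ : K ⊗ R → K` (it commutes with the `D i`) to the
identity: `(id ⊗ ψ)(CS A i j l) = (id ⊗ φ)(δR (CS A i j l)) = D i (η j l) + ...`, `η = (id ⊗ φ) ξ`. Here `id ⊗ φ` is `(TensorProduct.rid k K) ∘ (LinearMap.lTensor K φ)`. -/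
def S_Dfm : Prop := ∀ (k K R ι n : Type) [Field k] [Field K] [CommRing R] [Algebra k K] [Algebra k R] [Fintype n] [DecidableEq n]
  (D : ι → Derivation k K K) (δ : Derivation k R R) (A : ι → Matrix n n (TensorProduct k K R)) (ψ : R →ₗ[k] k),
  (∀ r, δ r = 0 → ψ r = 0) →
  Flat (fun i => ⇑(LinearMap.rTensor R ((D i : K →ₗ[k] K)))) A →
    Exact (fun i => ⇑(D i)) fun i j l => TensorProduct.rid k K (LinearMap.lTensor K ψ (CS A i j l))

end Pool.Agent.M7
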