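import Pool.Agent.Lib.MP_7baa7a_ag.Defs2
import Pool.Agent.Lib.MP_7baa7a_ag.Spec
import Pool.Agent.Lib.MP_7baa7a_ag.Lat

/-!
# Families of flat connections: base change from `K` to an algebraic closure, statements
-/

set_option autoImplicit false

noncomputable section

namespace Pool.Agent.M7

open Matrix

/-- **Descent of boundedness.**  (`GLatAux` in `Lat.lean` has all tools: `nab`, `M0`, `M0_nab`, `nab_gau`, `M0_mulVec`, `lattice`.) Let `h ∈ GL n (L((s)))` make all `gau` integral. Let `b` be such that `s^b h⁻¹`, `a` such that `s^a h` is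
integral. Put `M = {v ∈ K((s))^n | s^b (h⁻¹ (lmap v)) integral}`, a `PowerSeries K`-submodule. `M0 K n 0 ≤ M ≤ M0 K n (a + b)` (`NoPole (lmap f)` if and only if `NoPole f`). `M` is stable under
`nab (D i) (A i)`: `lmap (nab D A v) = nab E (A.map lmap) (lmap v)`, `h⁻¹ (nab E A' u) = nab E (gau1 E h A') (h⁻¹ u)` (`nab_gau`), `M0_nab`. The last part of the proof of `tLat` (from the submodule `M` to the matrix `g`) then gives
`Bdd D A` (copy it). -/
def S_Dsc : Prop := ∀ (K L n : Type) (d : ℕ) [Field K] [Field L] [Algebra K L] [Fintype n] [DecidableEq n] (D : Fin d → K →+ K)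
  (E : Fin d → L →+ L), (∀ i, IsDer (D i)) → (∀ i, IsDer (E i)) → (∀ i a, E i (algebraMap K L a) = algebraMap K L (D i a)) →
  ∀ A : Fin d → Matrix n n (LaurentSeries K), Bdd E (fun i => (A i).map (lmap K L)) → Bdd D A

/-- **Descent of exactness.**  Let `η` be as in `Exact` over `L`, `N = K(η i j)` (`IntermediateField.adjoin K` of the finite set of the values, finite dimensional over `K`). `E i` maps `N` to `N`: for `a ∈ N` with the minimal polynomial `P` over `K`
`0 = E (P(a)) = P^D(a) + P'(a) E(a)` and `P'(a) ≠ 0` (`Derivation.mapCoeff`, file `Mathlib/RingTheory/Derivation/MapCoeffs.lean`, or write `P^D(a) = ∑ D(c_j) a^j` and use `IsDer` directly). For a finite extension `N / K` with a derivation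
`E` which extends `D`: `Tr (E a) = D (Tr a)` (`Algebra.trace K N`): for a basis `b`, `a b_j = ∑ M_ij b_i`, `E b_j = ∑ C_ij b_i`, apply `E`: `M(E a) + M C = D(M) + C M`, take traces. Apply `1/[N:K] Tr` to the identity
(`Tr (algebraMap a) = [N:K] a`, `D (1/[N:K]) = 0`). -/
def S_TrD : Prop := ∀ (K L : Type) (d : ℕ) [Field K] [CharZero K] [Field L] [Algebra K L] [Algebra.IsAlgebraic K L] (D : Fin d → K →+ K)
  (E : Fin d → L →+ L), (∀ i, IsDer (D i)) → (∀ i, IsDer (E i)) → (∀ i a, E i (algebraMap K L a) = algebraMap K L (D i a)) →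
  ∀ w : Fin d → Fin d → Fin d → K, Exact (fun i => E i) (fun i j l => algebraMap K L (w i j l)) → Exact (fun i => D i) w

/-- **The extended derivations commute.**  `G = E i ∘ E j - E j ∘ E i` is a derivation of `L` which is `0` on `K`, so it is `K`-linear, and `0 = G (P(a)) = P'(a) G(a)` for the minimal polynomial `P` of `a`
(`Derivation.map_aeval` for the `Derivation K L L` given by `G`), `P'(a) ≠ 0` (characteristic `0`). -/
def S_ECo : Prop := ∀ (K L ι : Type) [Field K] [CharZero K] [Field L] [Algebra K L] [Algebra.IsAlgebraic K L] (D : ι → K →+ K)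
  (E : ι → L →+ L), (∀ i, IsDer (D i)) → (∀ i, IsDer (E i)) → (∀ i a, E i (algebraMap K L a) = algebraMap K L (D i a)) →
  Com (fun i => D i) → Com (fun i => E i)

end Pool.Agent.M7
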