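import Pool.Agent.Lib.MP_7baa7a_ag.FamW
import Pool.Agent.Lib.MP_7baa7a_ag.Mult
import Pool.Agent.Lib.MP_7baa7a_ag.GMul
import Pool.Agent.Lib.MP_7baa7a_ag.Trc
import Pool.Agent.Lib.MP_7baa7a_ag.Cyc
import Pool.Agent.Lib.MP_7baa7a_ag.Pol
import Pool.Agent.Lib.MP_7baa7a_ag.Fit
import Pool.Agent.Lib.MP_7baa7a_ag.Ric
import Pool.Agent.Lib.MP_7baa7a_ag.One
import Pool.Agent.Lib.MP_7baa7a_ag.Oth
import Pool.Agent.Lib.MP_7baa7a_ag.Lat

/-!
# Splitting of unbounded families and limits: the forms `Tr A^m`, all odd `m`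
-/

set_option autoImplicit false

noncomputable section

open Matrix TensorProduct Polynomial

namespace Pool.Agent.M7

namespace SplitW

open OmB GauW PropW Coef

variable {K : Type} [Field K] {d : ℕ}

/-- the constant coefficient of `Tr A^(2m+3)` -/
def cl0 {n : Type} [Fintype n] [DecidableEq n] (m : ℕ) (A : Fin d → Matrix n n (LaurentSeries K)) : Om K d :=
  omA d (co0 K) (TrP (2 * m + 3) A)

section

variable [CharZero K] {D : Fin d → K →+ K}

theorem laurent_char : CharZero (LaurentSeries K) :=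
  charZero_of_injective_ringHom (HahnSeries.C_injective (Γ := ℤ) (R := K))

/-- `cl0` under gauge transformations -/
theorem cl0_gau {n : Type} [Fintype n] [DecidableEq n] (hD : ∀ i, IsDer (D i)) (hC : Com fun i => D i)
    {A : Fin d → Matrix n n (LaurentSeries K)} (hA : Flat (fun i => lD (D i)) A) (g : GL n (LaurentSeries K)) (m : ℕ) :
    ExO D (cl0 m (gau (fun i => lD (D i)) g A) - cl0 m A) := by
  have := laurent_char (K := K)
  obtain ⟨η, h⟩ := inv_all (D := fun i => lD (D i)) (fun i => lD_isDer (hD i)) (lD_com hC) g A hA m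
  have h1 : ExO (fun i => lD (D i)) (TrP (2 * m + 3) (gau (fun i => lD (D i)) g A) - TrP (2 * m + 3) A) := ⟨η, h⟩
  have h2 := h1.map (D' := D) (co0 K) fun i a => co0_D (D i) a
  refine h2.congr ?_
  rw [map_sub]
  rfl

theorem cl0_scalar {n : Type} [Fintype n] [DecidableEq n] (hD : ∀ i, IsDer (D i))
    (A : Fin d → Matrix n n (LaurentSeries K)) (t : Fin d → LaurentSeries K) (m : ℕ) :
    cl0 m (fun i => A i - Matrix.scalar n (t i)) = cl0 m A := by
  have := laurent_char (K := K)
  rw [cl0, TrP_scalar (D := fun i => lD (D i)) (fun i => lD_isDer (hD i)) (two_unit _)]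
  rfl

theorem cl0_submatrix {n n' : Type} [Fintype n] [DecidableEq n] [Fintype n'] [DecidableEq n'] (e : n' ≃ n)
    (A : Fin d → Matrix n n (LaurentSeries K)) (m : ℕ) : cl0 m (fun i => (A i).submatrix e e) = cl0 m A := by
  rw [cl0, TrP_submatrix]
  rfl

theorem cl0_ram {n : Type} [Fintype n] [DecidableEq n] (r : ℕ) (hr : 0 < r)
    (A : Fin d → Matrix n n (LaurentSeries K)) (m : ℕ) : cl0 m (fun i => (A i).map (ram r hr)) = cl0 m A := by
  rw [cl0, TrP_map, cl0]
  generalize TrP (2 * m + 3) A = x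
  induction x using TensorProduct.induction_on with
  | zero => simp
  | add x y hx hy => rw [map_add, map_add, hx, hy, map_add]
  | tmul f y =>
    show ((ram r hr f).coeff 0) ⊗ₜ[ℤ] y = (f.coeff 0) ⊗ₜ[ℤ] y
    rw [ram_coeff_zero]

end

/-- splitting of a formal family with a pole (in a given frame) which is not a scalar plus nilpotent -/
theorem split0 [IsAlgClosed K] [CharZero K] {D : Fin d → K →+ K} (hD : ∀ i, IsDer (D i))
    (hC : Com fun i => D i) {N : ℕ} {A : Fin d → Matrix (Fin N) (Fin N) (LaurentSeries K)}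
    (hA : Flat (fun i => lD (D i)) A) {i : Fin d} {p : ℕ} (hp : 0 < p) {g : GL (Fin N) (LaurentSeries K)}
    {C : Matrix (Fin N) (Fin N) (LaurentSeries K)} (hNC : NP C) (hg : gau1 (lD (D i)) g (A i) = sX K (-p) • C)
    (htr : (c0 C).trace = 0) (hnil : ¬ IsNilpotent (c0 C)) :
    ∃ (a b : ℕ) (A1 : Fin d → Matrix (Fin a) (Fin a) (LaurentSeries K)) (A2 : Fin d → Matrix (Fin b) (Fin b) (LaurentSeries K))
      (P : Matrix (Fin a) (Fin a) (LaurentSeries K)) (S : Matrix (Fin b) (Fin b) (LaurentSeries K)),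
      0 < a ∧ 0 < b ∧ a + b = N ∧ Flat (fun i => lD (D i)) A1 ∧ Flat (fun i => lD (D i)) A2 ∧
      (∀ m, ExO D (cl0 m A - (cl0 m A1 + cl0 m A2))) ∧
      NP P ∧ NP S ∧ A1 i = sX K (-p) • P ∧ A2 i = sX K (-p) • S ∧
      (c0 C).charpoly = (c0 P).charpoly * (c0 S).charpoly := by
  have hD' : ∀ i, IsDer (lD (D i)) := fun i => lD_isDer (hD i)
  have hC' : Com fun i => lD (D i) := lD_com hC
  obtain ⟨a, b, ε, g2, P, Q, S, ha, hb, hP, hQ, hS, hsep, hchar, hE⟩ :=
    tOne tFit tRic tGMul K (Fin N) (D i) (hD i) p C hp hNC htr hnil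
  set G := g * g2 with hG
  have hfl : Flat (fun i => lD (D i)) (gau (fun i => lD (D i)) G A) := GGauAux.flat_gau hD' hC' G A hA
  have hex := fun m => cl0_gau hD hC hA G m
  set A' := gau (fun i => lD (D i)) G A with hA'
  set B : Fin d → Matrix (Fin a ⊕ Fin b) (Fin a ⊕ Fin b) (LaurentSeries K) := fun j => (A' j).submatrix ε.symm ε.symm with hB
  have hBfl : Flat (fun i => lD (D i)) B := flat_submatrix ε.symm hfl
  have hBi : B i = sX K (-p) • fromBlocks P Q 0 S := by
    rw [← hE, ← hg]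
    show (gau1 (lD (D i)) G (A i)).submatrix ε.symm ε.symm = _
    rw [hG, tGMul (LaurentSeries K) (Fin N) (lD (D i)) (hD' i)]
  have h0 := tOth K (Fin d) (Fin a) (Fin b) D B hBfl i p P Q S hp hP hQ hS hsep hBi
  obtain ⟨f1, f2, -⟩ := tTri (LaurentSeries K) (Fin d) (Fin a) (Fin b) (fun i => lD (D i)) B h0 hBfl
  refine ⟨a, b, fun i => (B i).toBlocks₁₁, fun i => (B i).toBlocks₂₂, P, S, ha, hb, ?_, f1, f2, ?_, hP, hS, ?_, ?_,
    hchar⟩
  · have h := Fintype.card_congr ε
    rw [Fintype.card_fin, Fintype.card_sum, Fintype.card_fin, Fintype.card_fin] at h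
    exact h.symm
  · intro m
    refine (hex m).neg.congr ?_
    have h3 : cl0 m A' = cl0 m (fun i => (B i).toBlocks₁₁) + cl0 m fun i => (B i).toBlocks₂₂ := by
      rw [← cl0_submatrix ε.symm A' m, ← hB, cl0, TrP_tri _ B h0, map_add]
      rfl
    rw [← h3]
    abel
  · show (B i).toBlocks₁₁ = _
    rw [hBi, fromBlocks_smul, toBlocks_fromBlocks₁₁]
  · show (B i).toBlocks₂₂ = _
    rw [hBi, fromBlocks_smul, toBlocks_fromBlocks₂₂]

/-- an unbounded traceless formal family splits -/
theorem split1 [IsAlgClosed K] [CharZero K] {D : Fin d → K →+ K}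
    (hD : ∀ i, IsDer (D i)) (hC : Com fun i => D i) (hx : ∀ i, ∃ x, D i x = 1) {N : ℕ}
    {A : Fin d → Matrix (Fin N) (Fin N) (LaurentSeries K)} (hA : Flat (fun i => lD (D i)) A)
    (htr : ∀ i, (A i).trace = 0) (hunb : ¬ Bdd D A) :
    ∃ (a b : ℕ) (A1 : Fin d → Matrix (Fin a) (Fin a) (LaurentSeries K))
      (A2 : Fin d → Matrix (Fin b) (Fin b) (LaurentSeries K)),
      0 < a ∧ 0 < b ∧ a + b = N ∧ Flat (fun i => lD (D i)) A1 ∧ Flat (fun i => lD (D i)) A2 ∧
      (∀ m, ExO D (cl0 m A - (cl0 m A1 + cl0 m A2))) := by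
  have h1 : ∃ i, ¬ ∃ g : GL (Fin N) (LaurentSeries K), NP (gau1 (lD (D i)) g (A i)) := by
    by_contra h
    push Not at h
    exact hunb (tLat K (Fin N) d D hD hC A hA h)
  obtain ⟨i, hi⟩ := h1
  obtain ⟨e, he, p, g, C, hp, hNC, hg, htrC, hnil⟩ := tPol tCyc tTrc tGMul K (D i) (hD i) (hx i) N (A i)
    (by rw [htr i]; exact noPole_zero) hi
  have hfl : Flat (fun i => lD (D i)) fun i => (A i).map (ram e he) :=
    flat_map (D' := fun i => lD (D i)) (ram e he) (fun i a => ram_lD he (D i) a) hA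
  obtain ⟨a, b, A1, A2, P, S, ha, hb, hab, f1, f2, hex, -, -, -, -, -⟩ :=
    split0 hD hC hfl hp hNC hg htrC hnil
  refine ⟨a, b, A1, A2, ha, hb, hab, f1, f2, fun m => (hex m).congr ?_⟩
  rw [cl0_ram]

/-- every formal family of flat connections has a flat limit with the same class -/
theorem limit [IsAlgClosed K] [CharZero K] {D : Fin d → K →+ K}
    (hD : ∀ i, IsDer (D i)) (hC : Com fun i => D i) (hx : ∀ i, ∃ x, D i x = 1) : ∀ (N : ℕ)
    (A : Fin d → Matrix (Fin N) (Fin N) (LaurentSeries K)), Flat (fun i => lD (D i)) A →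
    ∃ B : Fin d → Matrix (Fin N) (Fin N) K, Flat (fun i => D i) B ∧ ∀ m, ExO D (cl0 m A - TrP (2 * m + 3) B) := by
  intro N
  induction N using Nat.strong_induction_on with
  | _ N ih =>
    intro A hA
    have hD' : ∀ i, IsDer (lD (D i)) := fun i => lD_isDer (hD i)
    have hC' : Com fun i => lD (D i) := lD_com hC
    have := laurent_char (K := K)
    have hN0 : N = 0 ∨ (N : LaurentSeries K) ≠ 0 := by
      rcases Nat.eq_zero_or_pos N with h | h
      · exact Or.inl h
      · exact Or.inr (Nat.cast_ne_zero.2 h.ne')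
    set t : Fin d → LaurentSeries K := fun i => (A i).trace * (N : LaurentSeries K)⁻¹ with ht
    have htc : ∀ i j, lD (D i) (t j) = lD (D j) (t i) := by
      intro i j
      rw [ht]
      simp only
      rw [hD' i, hD' j, der_natInv (hD' i), der_natInv (hD' j), mul_zero, mul_zero, add_zero, add_zero,
        trace_closed (D := fun i => lD (D i)) hA i j]
    set A0 : Fin d → Matrix (Fin N) (Fin N) (LaurentSeries K) := fun i => A i - Matrix.scalar (Fin N) (t i) with hA0
    have hfl0 : Flat (fun i => lD (D i)) A0 := flat_scalar (D := fun i => lD (D i)) hA htc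
    have hcs0 : ∀ m, cl0 m A0 = cl0 m A := fun m => cl0_scalar hD A t m
    have htr0 : ∀ i, (A0 i).trace = 0 := by
      intro i
      rw [hA0]
      simp only [Matrix.trace_sub]
      rcases hN0 with h | h
      · subst h
        simp [Matrix.trace]
      · have h2 : (Matrix.scalar (Fin N) (t i)).trace = N * t i := by
          rw [Matrix.scalar_apply, Matrix.trace_diagonal, Finset.sum_const, Finset.card_univ, Fintype.card_fin,
            nsmul_eq_mul]
        rw [h2, ht]
        simp only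
        rw [mul_comm (A i).trace, mul_inv_cancel_left₀ h, sub_self]
    by_cases hb : Bdd D A0
    · obtain ⟨g, hg⟩ := hb
      have hfl : Flat (fun i => lD (D i)) (gau (fun i => lD (D i)) g A0) := GGauAux.flat_gau hD' hC' g A0 hfl0
      refine ⟨fun i => c0 (gau (fun i => lD (D i)) g A0 i), flat_c0 hg hfl, fun m => ?_⟩
      refine (cl0_gau hD hC hfl0 g m).neg.congr ?_
      rw [TrP_c0 _ hg, ← hcs0]
      show _ = -(omA d (co0 K) (TrP (2 * m + 3) (gau (fun i => lD (D i)) g A0)) - cl0 m A0)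
      abel
    · obtain ⟨a, b, A1, A2, ha, hb', hab, f1, f2, hex⟩ := split1 hD hC hx hfl0 htr0 hb
      obtain ⟨B1, g1, e1⟩ := ih a (by omega) A1 f1
      obtain ⟨B2, g2, e2⟩ := ih b (by omega) A2 f2
      set ε : Fin N ≃ Fin a ⊕ Fin b := (finCongr hab.symm).trans finSumFinEquiv.symm with hε
      refine ⟨fun i => (fromBlocks (B1 i) 0 0 (B2 i)).submatrix ε ε, flat_submatrix ε (flat_block g1 g2), fun m => ?_⟩
      refine ((hex m).add ((e1 m).add (e2 m))).congr ?_
      rw [TrP_submatrix, TrP_block, hcs0]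
      abel

end SplitW

end Pool.Agent.M7
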